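import Pool.Agent.Lib.H21Steiner.BT

/-!
# Basic facts on drawn binary trees
-/

namespace Pool.Agent.Lib.H21Steiner

namespace BT

variable {α β E : Type*}

theorem exists_mem_leaves : ∀ t : BT α, ∃ a, a ∈ t.leaves
  | leaf a => ⟨a, by simp [leaves]⟩
  | node l _ => by
      obtain ⟨a, ha⟩ := exists_mem_leaves l
      exact ⟨a, by simp [leaves, ha]⟩

/-- Relabelling. -/
def map (f : α → β) : BT α → BT β
  | leaf a => leaf (f a)
  | node l r => node (l.map f) (r.map f)

theorem leaves_map (f : α → β) : ∀ t : BT α, (t.map f).leaves = t.leaves.map f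
  | leaf a => by simp [map, leaves]
  | node l r => by simp [map, leaves, leaves_map f l, leaves_map f r]

/-- The leaf `x` lies in the smallest subtree that contains both leaves `c` and `c'`. -/
def Sep (c c' x : α) : BT α → Prop
  | leaf _ => False
  | node l r => Sep c c' x l ∨ Sep c c' x r ∨
      (((c ∈ l.leaves ∧ c' ∈ r.leaves) ∨ (c' ∈ l.leaves ∧ c ∈ r.leaves)) ∧
        (x ∈ l.leaves ∨ x ∈ r.leaves))

theorem Sep.mem {c c' x : α} : ∀ {t : BT α}, Sep c c' x t →
    c ∈ t.leaves ∧ c' ∈ t.leaves ∧ x ∈ t.leaves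
  | leaf _, h => h.elim
  | node l r, h => by
      simp only [leaves, List.mem_append]
      rcases h with h | h | ⟨h, h'⟩
      · obtain ⟨h1, h2, h3⟩ := h.mem
        exact ⟨Or.inl h1, Or.inl h2, Or.inl h3⟩
      · obtain ⟨h1, h2, h3⟩ := h.mem
        exact ⟨Or.inr h1, Or.inr h2, Or.inr h3⟩
      · rcases h with ⟨h1, h2⟩ | ⟨h1, h2⟩
        · exact ⟨Or.inl h1, Or.inr h2, h'⟩
        · exact ⟨Or.inr h2, Or.inl h1, h'⟩

theorem Sep.map (f : α → β) {c c' x : α} : ∀ {t : BT α}, Sep c c' x t →
    Sep (f c) (f c') (f x) (t.map f)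
  | leaf _, h => h.elim
  | node l r, h => by
      have hm : ∀ {s : BT α} {b : α}, b ∈ s.leaves → f b ∈ (s.map f).leaves := by
        intro s b hb
        rw [leaves_map]
        exact List.mem_map_of_mem hb
      rcases h with h | h | ⟨h, h'⟩
      · exact Or.inl (Sep.map f h)
      · exact Or.inr (Or.inl (Sep.map f h))
      · refine Or.inr (Or.inr ⟨?_, ?_⟩)
        · rcases h with ⟨h1, h2⟩ | ⟨h1, h2⟩
          · exact Or.inl ⟨hm h1, hm h2⟩
          · exact Or.inr ⟨hm h1, hm h2⟩
        · rcases h' with h1 | h1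
          · exact Or.inl (hm h1)
          · exact Or.inr (hm h1)

section Metric

variable [PseudoMetricSpace E] {y y' : α → E}

theorem R.mono : ∀ {t : BT α} {p : E} {l l' : ℝ}, R y t p l → l ≤ l' → R y t p l'
  | leaf _, _, _, _, h, hl => le_trans h hl
  | node _ _, _, _, _, ⟨q, l1, l2, h1, h2, h3⟩, hl => ⟨q, l1, l2, h1, h2, h3.trans hl⟩

theorem R.move : ∀ {t : BT α} {p : E} (p' : E) {l : ℝ}, R y t p l → R y t p' (l + dist p' p)
  | leaf a, p, p', l, h => by
      have h1 : dist p (y a) ≤ l := h
      have h2 := dist_triangle p' p (y a)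
      change dist p' (y a) ≤ l + dist p' p
      linarith
  | node _ _, p, p', l, ⟨q, l1, l2, h1, h2, h3⟩ => by
      refine ⟨q, l1, l2, h1, h2, ?_⟩
      have h4 := dist_triangle p' p q
      linarith

theorem R.dist_le : ∀ {t : BT α} {p : E} {l : ℝ}, R y t p l → 0 ≤ l ∧
    ∀ a ∈ t.leaves, dist p (y a) ≤ l
  | leaf a, p, l, h => by
      have h1 : dist p (y a) ≤ l := h
      refine ⟨dist_nonneg.trans h1, ?_⟩
      intro b hb
      simp only [leaves, List.mem_singleton] at hb
      rw [hb]
      exact h1
  | node _ _, p, l, ⟨q, l1, l2, h1, h2, h3⟩ => by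
      obtain ⟨h4, h5⟩ := h1.dist_le
      obtain ⟨h6, h7⟩ := h2.dist_le
      have h8 : 0 ≤ dist p q := dist_nonneg
      refine ⟨by linarith, ?_⟩
      intro b hb
      simp only [leaves, List.mem_append] at hb
      have h9 := dist_triangle p q (y b)
      rcases hb with hb | hb
      · have := h5 b hb
        linarith
      · have := h7 b hb
        linarith

theorem R.lip {η : α → ℝ} : ∀ {t : BT α} {p : E} {l : ℝ},
    (∀ a ∈ t.leaves, dist (y a) (y' a) ≤ η a) → R y t p l →
      R y' t p (l + (t.leaves.map η).sum)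
  | leaf a, p, l, hη, h => by
      have h1 : dist p (y a) ≤ l := h
      have h2 := dist_triangle p (y a) (y' a)
      have h3 := hη a (by simp [leaves])
      change dist p (y' a) ≤ _
      simp only [leaves, List.map_cons, List.map_nil, List.sum_cons, List.sum_nil]
      linarith
  | node l r, p, L, hη, ⟨q, l1, l2, h1, h2, h3⟩ => by
      refine ⟨q, _, _, R.lip (fun a ha => hη a (by simp [leaves, ha])) h1,
        R.lip (fun a ha => hη a (by simp [leaves, ha])) h2, ?_⟩
      simp only [leaves, List.map_append, List.sum_append]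
      linarith

theorem R.congr {t : BT α} {p : E} {l : ℝ} (hy : ∀ a ∈ t.leaves, y a = y' a) (h : R y t p l) :
    R y' t p l := by
  have h1 := R.lip (y' := y') (η := fun _ => 0) (fun a ha => by rw [hy a ha, dist_self]) h
  simpa using h1

theorem R_map (f : α → β) {z : β → E} : ∀ {t : BT α} {p : E} {l : ℝ},
    R z (t.map f) p l ↔ R (fun a => z (f a)) t p l
  | leaf a, p, l => Iff.rfl
  | node l r, p, L => by
      constructor
      · rintro ⟨q, l1, l2, h1, h2, h3⟩
        exact ⟨q, l1, l2, (R_map f).1 h1, (R_map f).1 h2, h3⟩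
      · rintro ⟨q, l1, l2, h1, h2, h3⟩
        exact ⟨q, l1, l2, (R_map f).2 h1, (R_map f).2 h2, h3⟩

/-- The tree can be drawn with its first node at `q` (no root edge), with total length at most
`l`. -/
def R0 (y : α → E) : BT α → E → ℝ → Prop
  | leaf a, q, l => q = y a ∧ 0 ≤ l
  | node s t, q, l => ∃ l₁ l₂, R y s q l₁ ∧ R y t q l₂ ∧ l₁ + l₂ ≤ l

theorem R.exists_R0 : ∀ {t : BT α} {p : E} {l : ℝ}, R y t p l →
    ∃ q m, R0 y t q m ∧ dist p q + m ≤ l
  | leaf a, p, l, h => ⟨y a, 0, ⟨rfl, le_rfl⟩, by
      have h1 : dist p (y a) ≤ l := h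
      linarith⟩
  | node _ _, p, l, ⟨q, l1, l2, h1, h2, h3⟩ =>
      ⟨q, l1 + l2, ⟨l1, l2, h1, h2, le_rfl⟩, by linarith⟩

end Metric

/-- Removal of leaves. -/
theorem prune (E : Type*) [PseudoMetricSpace E] (P : α → Prop) : ∀ t : BT α, (∀ a ∈ t.leaves, ¬ P a) ∨
    ∃ t' : BT α, t'.leaves.Sublist t.leaves ∧ (∀ a, a ∈ t'.leaves ↔ a ∈ t.leaves ∧ P a) ∧
      (∀ c c' x, P c → P c' → P x → Sep c c' x t → Sep c c' x t') ∧
      (∀ (y : α → E) (p : E) (l : ℝ), R y t p l → R y t' p l)
  | leaf a => by
      by_cases ha : P a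
      · refine Or.inr ⟨leaf a, List.Sublist.refl _, ?_, fun _ _ _ _ _ _ h => h,
          fun _ _ _ h => h⟩
        intro b
        simp only [leaves, List.mem_singleton]
        constructor
        · rintro rfl
          exact ⟨rfl, ha⟩
        · exact fun h => h.1
      · left
        intro b hb
        simp only [leaves, List.mem_singleton] at hb
        rw [hb]
        exact ha
  | node s t => by
      rcases prune E P s with hs | ⟨s', hs1, hs2, hs3, hs4⟩ <;>
        rcases prune E P t with ht | ⟨t', ht1, ht2, ht3, ht4⟩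
      · left
        intro a ha
        simp only [leaves, List.mem_append] at ha
        rcases ha with ha | ha
        · exact hs a ha
        · exact ht a ha
      · refine Or.inr ⟨t', ht1.trans (List.sublist_append_right _ _), ?_, ?_, ?_⟩
        · intro a
          simp only [leaves, List.mem_append]
          rw [ht2]
          constructor
          · exact fun h => ⟨Or.inr h.1, h.2⟩
          · rintro ⟨h | h, h'⟩
            · exact absurd h' (hs a h)
            · exact ⟨h, h'⟩
        · intro c c' x hc hc' hx h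
          rcases h with h | h | ⟨h, -⟩
          · exact absurd hc (hs c h.mem.1)
          · exact ht3 c c' x hc hc' hx h
          · rcases h with ⟨h1, -⟩ | ⟨h1, -⟩
            · exact absurd hc (hs c h1)
            · exact absurd hc' (hs c' h1)
        · intro y p l h
          obtain ⟨q, l1, l2, h1, h2, h3⟩ := h
          refine ((ht4 y q l2 h2).move p).mono ?_
          have := h1.dist_le.1
          linarith
      · refine Or.inr ⟨s', hs1.trans (List.sublist_append_left _ _), ?_, ?_, ?_⟩
        · intro a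
          simp only [leaves, List.mem_append]
          rw [hs2]
          constructor
          · exact fun h => ⟨Or.inl h.1, h.2⟩
          · rintro ⟨h | h, h'⟩
            · exact ⟨h, h'⟩
            · exact absurd h' (ht a h)
        · intro c c' x hc hc' hx h
          rcases h with h | h | ⟨h, -⟩
          · exact hs3 c c' x hc hc' hx h
          · exact absurd hc (ht c h.mem.1)
          · rcases h with ⟨-, h1⟩ | ⟨-, h1⟩
            · exact absurd hc' (ht c' h1)
            · exact absurd hc (ht c h1)
        · intro y p l h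
          obtain ⟨q, l1, l2, h1, h2, h3⟩ := h
          refine ((hs4 y q l1 h1).move p).mono ?_
          have := h2.dist_le.1
          linarith
      · refine Or.inr ⟨node s' t', hs1.append ht1, ?_, ?_, ?_⟩
        · intro a
          simp only [leaves, List.mem_append]
          rw [hs2, ht2]
          constructor
          · rintro (h | h)
            · exact ⟨Or.inl h.1, h.2⟩
            · exact ⟨Or.inr h.1, h.2⟩
          · rintro ⟨h | h, h'⟩
            · exact Or.inl ⟨h, h'⟩
            · exact Or.inr ⟨h, h'⟩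
        · intro c c' x hc hc' hx h
          rcases h with h | h | ⟨h, h'⟩
          · exact Or.inl (hs3 c c' x hc hc' hx h)
          · exact Or.inr (Or.inl (ht3 c c' x hc hc' hx h))
          · refine Or.inr (Or.inr ⟨?_, ?_⟩)
            · rw [hs2, hs2, ht2, ht2]
              rcases h with ⟨h1, h2⟩ | ⟨h1, h2⟩
              · exact Or.inl ⟨⟨h1, hc⟩, ⟨h2, hc'⟩⟩
              · exact Or.inr ⟨⟨h1, hc'⟩, ⟨h2, hc⟩⟩
            · rw [hs2, ht2]
              rcases h' with h1 | h1
              · exact Or.inl ⟨h1, hx⟩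
              · exact Or.inr ⟨h1, hx⟩
        · intro y p l h
          obtain ⟨q, l1, l2, h1, h2, h3⟩ := h
          exact ⟨q, l1, l2, hs4 y q l1 h1, ht4 y q l2 h2, h3⟩

end BT

end Pool.Agent.Lib.H21Steiner
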