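import Pool.Agent.Lib.H21Steiner.BT

/-!
# Continua of finite length contain almost as short trees

If `K` is a compact connected set containing a point `p` and finitely many points `y a`, `a ∈ A`,
then there is a binary tree with leaves `y a`, `a ∈ A`, rooted at `p`, of total length at most
`μH[1] K + ε`.
-/

namespace Pool.Agent.Lib.H21Steiner

open MeasureTheory Metric Set
open scoped ENNReal NNReal

variable {α E : Type*}

theorem BT.R_mono [PseudoMetricSpace E] {y : α → E} {t : BT α} {p : E} {ℓ ℓ' : ℝ}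
    (h : BT.R y t p ℓ) (hl : ℓ ≤ ℓ') : BT.R y t p ℓ' := by
  cases t with
  | leaf a => exact le_trans h hl
  | node l r =>
    obtain ⟨q, ℓ₁, ℓ₂, h1, h2, h3⟩ := h
    exact ⟨q, ℓ₁, ℓ₂, h1, h2, h3.trans hl⟩

theorem BT.R_move [PseudoMetricSpace E] {y : α → E} {t : BT α} {p : E} {ℓ : ℝ}
    (h : BT.R y t p ℓ) (p' : E) : BT.R y t p' (ℓ + dist p' p) := by
  cases t with
  | leaf a =>
    have h1 : dist p (y a) ≤ ℓ := h
    have h2 := dist_triangle p' p (y a)
    change dist p' (y a) ≤ _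
    linarith
  | node l r =>
    obtain ⟨q, ℓ₁, ℓ₂, h1, h2, h3⟩ := h
    refine ⟨q, ℓ₁, ℓ₂, h1, h2, ?_⟩
    have h2 := dist_triangle p' p q
    linarith

/-- Join finitely many trees with roots near `z`. -/
theorem combine [PseudoMetricSpace E] (y : α → E) (z : E) {D : ℝ} :
    ∀ Q : List (BT α × E × ℝ), Q ≠ [] →
      (∀ c ∈ Q, BT.R y c.1 c.2.1 c.2.2 ∧ dist z c.2.1 ≤ D) →
      ∃ t : BT α, t.leaves.Perm (Q.flatMap fun c => c.1.leaves) ∧
        BT.R y t z ((Q.map fun c => c.2.2).sum + Q.length * D) := by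
  intro Q
  induction Q with
  | nil => intro h; exact absurd rfl h
  | cons c Q ih =>
    intro _ hQ
    obtain ⟨hc1, hc2⟩ := hQ c (by simp)
    by_cases hne : Q = []
    · subst hne
      refine ⟨c.1, by simp, ?_⟩
      refine BT.R_mono (BT.R_move hc1 z) ?_
      simp only [List.map_cons, List.map_nil, List.sum_cons, List.sum_nil, List.length_cons,
        List.length_nil]
      push_cast
      linarith
    · obtain ⟨t, ht1, ht2⟩ := ih hne (fun c' hc' => hQ c' (by simp [hc']))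
      refine ⟨BT.node c.1 t, ?_, ?_⟩
      · simp only [BT.leaves, List.flatMap_cons]
        exact List.Perm.append_left _ ht1
      · refine ⟨z, _, _, BT.R_move hc1 z, ht2, ?_⟩
        simp only [dist_self, List.map_cons, List.sum_cons, List.length_cons]
        push_cast
        linarith

/-- A list of sets, each of which meets a later one, the last one containing `p`. -/
inductive Chain (p : E) : List (Set E) → Prop
  | base {U : Set E} (h : p ∈ U) : Chain p [U]
  | step {U : Set E} {Us : List (Set E)} (h : Chain p Us) (h' : ∃ V ∈ Us, (U ∩ V).Nonempty) :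
      Chain p (U :: Us)

/-- Join trees whose roots lie in the sets of a chain. -/
theorem glue [PseudoMetricSpace E] (y : α → E) {p : E} {δ : ℝ} {Us : List (Set E)}
    (h : Chain p Us) :
    (∀ U ∈ Us, Bornology.IsBounded U ∧ diam U ≤ δ) →
    ∀ Q : List (BT α × E × ℝ), Q ≠ [] →
      (∀ c ∈ Q, BT.R y c.1 c.2.1 c.2.2 ∧ ∃ U ∈ Us, c.2.1 ∈ U) →
      ∃ t : BT α, t.leaves.Perm (Q.flatMap fun c => c.1.leaves) ∧
        BT.R y t p ((Q.map fun c => c.2.2).sum + (Us.map diam).sum + (Q.length - 1) * δ) := by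
  classical
  induction h with
  | @base U hp =>
    intro hd Q hne hQ
    obtain ⟨hb, hdU⟩ := hd U (by simp)
    obtain ⟨t, ht1, ht2⟩ := combine y p (D := diam U) Q hne (by
      intro c hc
      obtain ⟨h1, V, hV, h2⟩ := hQ c hc
      rw [List.mem_singleton] at hV
      subst hV
      exact ⟨h1, dist_le_diam_of_mem hb hp h2⟩)
    refine ⟨t, ht1, BT.R_mono ht2 ?_⟩
    have hlen : 1 ≤ (Q.length : ℝ) := by
      exact_mod_cast List.length_pos_of_ne_nil hne
    simp only [List.map_cons, List.map_nil, List.sum_cons, List.sum_nil]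
    nlinarith
  | @step U Us hUs hmeet ih =>
    intro hd Q hne hQ
    obtain ⟨hb, hdU⟩ := hd U (by simp)
    have hd' : ∀ V ∈ Us, Bornology.IsBounded V ∧ diam V ≤ δ := fun V hV => hd V (by simp [hV])
    set Q1 := Q.filter (fun c => decide (c.2.1 ∈ U)) with hQ1
    set Q2 := Q.filter (fun c => !decide (c.2.1 ∈ U)) with hQ2
    have hperm : (Q1 ++ Q2).Perm Q := List.filter_append_perm _ _
    have hQ2mem : ∀ c ∈ Q2, BT.R y c.1 c.2.1 c.2.2 ∧ ∃ V ∈ Us, c.2.1 ∈ V := by
      intro c hc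
      rw [hQ2, List.mem_filter] at hc
      obtain ⟨h1, V, hV, h2⟩ := hQ c hc.1
      refine ⟨h1, ?_⟩
      rcases List.mem_cons.1 hV with h3 | h3
      · exfalso
        subst h3
        simp [h2] at hc
      · exact ⟨V, h3, h2⟩
    by_cases hQ1e : Q1 = []
    · rw [hQ1e, List.nil_append] at hperm
      have hQ2ne : Q2 ≠ [] := by
        intro h0
        rw [h0] at hperm
        exact hne hperm.symm.eq_nil
      obtain ⟨t, ht1, ht2⟩ := ih hd' Q2 hQ2ne hQ2mem
      refine ⟨t, ht1.trans (hperm.flatMap_right _), BT.R_mono ht2 ?_⟩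
      rw [(hperm.map fun c => c.2.2).sum_eq, hperm.length_eq]
      simp only [List.map_cons, List.sum_cons]
      have := diam_nonneg (s := U)
      linarith
    · obtain ⟨V, hV, z, hzU, hzV⟩ := hmeet
      obtain ⟨t, ht1, ht2⟩ := combine y z (D := diam U) Q1 hQ1e (by
        intro c hc
        rw [hQ1, List.mem_filter] at hc
        obtain ⟨h1, -⟩ := hQ c hc.1
        exact ⟨h1, dist_le_diam_of_mem hb hzU (by simpa using hc.2)⟩)
      obtain ⟨t', ht1', ht2'⟩ := ih hd' ((t, z, _) :: Q2) (by simp) (by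
        intro c hc
        rcases List.mem_cons.1 hc with rfl | hc
        · exact ⟨ht2, V, hV, hzV⟩
        · exact hQ2mem c hc)
      refine ⟨t', ?_, BT.R_mono ht2' ?_⟩
      · refine ht1'.trans ?_
        simp only [List.flatMap_cons]
        refine (List.Perm.append_right _ ht1).trans ?_
        rw [← List.flatMap_append]
        exact hperm.flatMap_right _
      · have h1 := (hperm.map fun c => c.2.2).sum_eq
        have h2 := hperm.length_eq
        rw [List.map_append, List.sum_append] at h1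
        rw [List.length_append] at h2
        rw [← h1, ← h2]
        have hlen : 1 ≤ (Q1.length : ℝ) := by
          exact_mod_cast List.length_pos_of_ne_nil hQ1e
        simp only [List.map_cons, List.sum_cons, List.length_cons]
        push_cast
        nlinarith

/-- An efficient finite open cover by small sets. -/
theorem exists_cover [MetricSpace E] [MeasurableSpace E] [BorelSpace E] {K : Set E}
    (hK : IsCompact K) (hf : μH[1] K < ⊤) {δ η : ℝ} (hδ : 0 < δ) (hη : 0 < η) :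
    ∃ (I : Finset ℕ) (U : ℕ → Set E), (∀ i, IsOpen (U i)) ∧ (∀ i, Bornology.IsBounded (U i)) ∧
      (∀ i, diam (U i) ≤ δ) ∧ K ⊆ ⋃ i ∈ I, U i ∧
      ∑ i ∈ I, diam (U i) ≤ (μH[1] K).toReal + η := by
  have hlt : μH[1] K < μH[1] K + ENNReal.ofReal (η / 2) := by
    refine ENNReal.lt_add_right hf.ne ?_
    rw [Ne, ENNReal.ofReal_eq_zero]
    linarith
  have hle : (⨅ (t : ℕ → Set E) (_ : K ⊆ ⋃ n, t n) (_ : ∀ n, ediam (t n) ≤ ENNReal.ofReal (δ / 2)),
      ∑' n, ⨆ _ : (t n).Nonempty, ediam (t n) ^ (1 : ℝ)) ≤ μH[1] K := by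
    rw [Measure.hausdorffMeasure_apply]
    exact le_iSup₂_of_le (ENNReal.ofReal (δ / 2)) (by rw [ENNReal.ofReal_pos]; linarith) le_rfl
  have h1 := hle.trans_lt hlt
  simp only [iInf_lt_iff] at h1
  obtain ⟨t, hcov, hdt, hsum⟩ := h1
  have hterm : ∀ n, ediam (t n) ≤ ⨆ _ : (t n).Nonempty, ediam (t n) ^ (1 : ℝ) := by
    intro n
    by_cases hn : (t n).Nonempty
    · rw [ENNReal.rpow_one]
      exact le_iSup (fun _ : (t n).Nonempty => ediam (t n)) hn
    · rw [Set.not_nonempty_iff_eq_empty] at hn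
      rw [hn]
      simp
  have hsum' : ∑' n, ediam (t n) < μH[1] K + ENNReal.ofReal (η / 2) :=
    (ENNReal.tsum_le_tsum hterm).trans_lt hsum
  obtain ⟨ε', hε'pos, hε'sum⟩ := ENNReal.exists_pos_sum_of_countable
    (ε := ENNReal.ofReal (η / 4)) (by rw [Ne, ENNReal.ofReal_eq_zero]; linarith) ℕ
  set ρ : ℕ → ℝ≥0 := fun n => min (ε' n) (Real.toNNReal (δ / 4)) with hρ
  have hρpos : ∀ n, 0 < ρ n := fun n => lt_min (hε'pos n) (Real.toNNReal_pos.2 (by linarith))
  set U : ℕ → Set E := fun n => thickening (ρ n) (t n) with hU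
  have hUd : ∀ n, ediam (U n) ≤ ediam (t n) + 2 * (ρ n : ℝ≥0∞) := fun n =>
    ediam_thickening_le _
  have hUd' : ∀ n, ediam (U n) ≤ ENNReal.ofReal δ := by
    intro n
    refine (hUd n).trans ?_
    have h2 : (2 : ℝ≥0∞) * (ρ n : ℝ≥0∞) ≤ ENNReal.ofReal (δ / 2) := by
      have h3 : (ρ n : ℝ≥0∞) ≤ ENNReal.ofReal (δ / 4) := by
        rw [ENNReal.ofReal]
        exact_mod_cast min_le_right _ _
      calc (2 : ℝ≥0∞) * (ρ n : ℝ≥0∞) ≤ 2 * ENNReal.ofReal (δ / 4) := by gcongr
        _ = ENNReal.ofReal (δ / 2) := by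
          rw [← ENNReal.ofReal_ofNat 2, ← ENNReal.ofReal_mul (by norm_num)]
          congr 1
          ring
    calc ediam (t n) + 2 * (ρ n : ℝ≥0∞) ≤ ENNReal.ofReal (δ / 2) + ENNReal.ofReal (δ / 2) :=
          add_le_add (hdt n) h2
      _ = ENNReal.ofReal δ := by
        rw [← ENNReal.ofReal_add (by linarith) (by linarith)]
        congr 1
        ring
  have hne : ∀ n, ediam (U n) ≠ ⊤ := fun n => ((hUd' n).trans_lt ENNReal.ofReal_lt_top).ne
  have hopen : ∀ n, IsOpen (U n) := fun n => isOpen_thickening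
  have hsub : ∀ n, t n ⊆ U n := fun n => self_subset_thickening (by exact_mod_cast hρpos n) _
  obtain ⟨I, hI⟩ := hK.elim_finite_subcover U hopen
    (hcov.trans (Set.iUnion_mono hsub))
  refine ⟨I, U, hopen, fun n => Metric.isBounded_iff_ediam_ne_top.2 (hne n), fun n => ?_, hI, ?_⟩
  · rw [diam]
    exact ENNReal.toReal_le_of_le_ofReal hδ.le (hUd' n)
  · have h2 : ∑ i ∈ I, ediam (U i) ≤ μH[1] K + ENNReal.ofReal η := by
      calc ∑ i ∈ I, ediam (U i) ≤ ∑' i, ediam (U i) := ENNReal.sum_le_tsum I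
        _ ≤ ∑' i, (ediam (t i) + 2 * (ε' i : ℝ≥0∞)) := by
          refine ENNReal.tsum_le_tsum (fun i => (hUd i).trans ?_)
          have : (ρ i : ℝ≥0∞) ≤ (ε' i : ℝ≥0∞) := by exact_mod_cast min_le_left _ _
          gcongr
        _ = ∑' i, ediam (t i) + 2 * ∑' i, (ε' i : ℝ≥0∞) := by
          rw [ENNReal.tsum_add, ENNReal.tsum_mul_left]
        _ ≤ (μH[1] K + ENNReal.ofReal (η / 2)) + 2 * ENNReal.ofReal (η / 4) := by
          gcongr
        _ = μH[1] K + ENNReal.ofReal η := by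
          rw [← ENNReal.ofReal_ofNat 2, ← ENNReal.ofReal_mul (by norm_num), add_assoc,
            ← ENNReal.ofReal_add (by linarith) (by linarith)]
          congr 2
          ring
    have h3 : ∑ i ∈ I, diam (U i) = (∑ i ∈ I, ediam (U i)).toReal := by
      rw [ENNReal.toReal_sum (fun i _ => hne i)]
      rfl
    rw [h3]
    refine (ENNReal.toReal_mono (by simp [hf.ne]) h2).trans ?_
    rw [ENNReal.toReal_add hf.ne ENNReal.ofReal_ne_top, ENNReal.toReal_ofReal hη.le]

/-- Order the sets of a finite open cover of a connected set into a chain. -/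
theorem exists_chain [TopologicalSpace E] {K : Set E} (hc : IsPreconnected K) {I : Finset ℕ}
    {U : ℕ → Set E} (hU : ∀ i, IsOpen (U i)) (hcov : K ⊆ ⋃ i ∈ I, U i)
    (hmeet : ∀ i ∈ I, (K ∩ U i).Nonempty) {i₀ : ℕ} (hi₀ : i₀ ∈ I) {p : E} (hp : p ∈ U i₀) :
    ∃ L : List ℕ, L.Nodup ∧ (∀ i, i ∈ L ↔ i ∈ I) ∧ Chain p (L.map U) := by
  classical
  have key : ∀ k, 1 ≤ k → k ≤ I.card → ∃ L : List ℕ, L.Nodup ∧ (∀ i ∈ L, i ∈ I) ∧
      L.length = k ∧ Chain p (L.map U) := by
    intro k hk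
    induction k, hk using Nat.le_induction with
    | base =>
      intro _
      exact ⟨[i₀], by simp, by simpa using hi₀, by simp, by simpa using Chain.base hp⟩
    | succ k hk ih =>
      intro hkI
      obtain ⟨L, hnd, hLI, hlen, hch⟩ := ih (by omega)
      -- the union of the sets of `L` and the union of the other sets
      have hex : ∃ j ∈ I, j ∉ L := by
        by_contra hcon
        push Not at hcon
        have h1 : I ⊆ L.toFinset := fun j hj => List.mem_toFinset.2 (hcon j hj)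
        have h2 := Finset.card_le_card h1
        rw [List.toFinset_card_of_nodup hnd] at h2
        omega
      have hLne : ∃ i, i ∈ L := by
        cases L with
        | nil => simp at hlen; omega
        | cons a L => exact ⟨a, by simp⟩
      obtain ⟨j, hjI, hjL⟩ := hex
      obtain ⟨i, hiL⟩ := hLne
      have h3 := hc (⋃ i ∈ L, U i) (⋃ i ∈ I.filter (fun i => i ∉ L), U i)
        (isOpen_biUnion fun i _ => hU i) (isOpen_biUnion fun i _ => hU i) (by
          intro x hx
          obtain ⟨i, hi, hxi⟩ := Set.mem_iUnion₂.1 (hcov hx)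
          by_cases hiL' : i ∈ L
          · exact Or.inl (Set.mem_iUnion₂.2 ⟨i, hiL', hxi⟩)
          · exact Or.inr (Set.mem_iUnion₂.2 ⟨i, Finset.mem_filter.2 ⟨hi, hiL'⟩, hxi⟩))
        (by
          obtain ⟨x, hxK, hxi⟩ := hmeet i (hLI i hiL)
          exact ⟨x, hxK, Set.mem_iUnion₂.2 ⟨i, hiL, hxi⟩⟩)
        (by
          obtain ⟨x, hxK, hxi⟩ := hmeet j hjI
          exact ⟨x, hxK, Set.mem_iUnion₂.2 ⟨j, Finset.mem_filter.2 ⟨hjI, hjL⟩, hxi⟩⟩)
      obtain ⟨x, -, hx1, hx2⟩ := h3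
      obtain ⟨a, haL, hxa⟩ := Set.mem_iUnion₂.1 hx1
      obtain ⟨b, hbF, hxb⟩ := Set.mem_iUnion₂.1 hx2
      obtain ⟨hbI, hbL⟩ := Finset.mem_filter.1 hbF
      refine ⟨b :: L, List.nodup_cons.2 ⟨hbL, hnd⟩, ?_, by simp [hlen], ?_⟩
      · intro i hi
        rcases List.mem_cons.1 hi with rfl | hi
        · exact hbI
        · exact hLI i hi
      · rw [List.map_cons]
        exact Chain.step hch ⟨U a, List.mem_map.2 ⟨a, haL, rfl⟩, x, hxb, hxa⟩
  obtain ⟨L, hnd, hLI, hlen, hch⟩ := key I.card (Finset.card_pos.2 ⟨i₀, hi₀⟩) le_rfl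
  refine ⟨L, hnd, fun i => ⟨hLI i, fun hi => ?_⟩, hch⟩
  have h1 : L.toFinset ⊆ I := fun j hj => hLI j (List.mem_toFinset.1 hj)
  have h2 : L.toFinset = I := Finset.eq_of_subset_of_card_le h1 (by
    rw [List.toFinset_card_of_nodup hnd, hlen])
  rw [← h2] at hi
  exact List.mem_toFinset.1 hi

/-- A compact connected set of finite length contains almost as short binary trees. -/
theorem exists_BT [MetricSpace E] [MeasurableSpace E] [BorelSpace E] {K : Set E}
    (hK : IsCompact K) (hc : IsConnected K) (hf : μH[1] K < ⊤) (A : Finset α)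
    (hA : A.Nonempty) (y : α → E) (hy : ∀ a ∈ A, y a ∈ K) {p : E} (hp : p ∈ K) {ε : ℝ}
    (hε : 0 < ε) :
    ∃ t : BT α, t.leaves.Nodup ∧ (∀ a, a ∈ t.leaves ↔ a ∈ A) ∧
      BT.R y t p ((μH[1] K).toReal + ε) := by
  classical
  have hcard : 0 < (A.card : ℝ) := by exact_mod_cast Finset.card_pos.2 hA
  set δ : ℝ := ε / (2 * A.card) with hδ
  have hδpos : 0 < δ := by positivity
  obtain ⟨I, U, hopen, hbdd, hdiam, hcov, hsum⟩ := exists_cover hK hf hδpos (half_pos hε)
  set I' := I.filter (fun i => (K ∩ U i).Nonempty) with hI'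
  have hcov' : K ⊆ ⋃ i ∈ I', U i := by
    intro x hx
    obtain ⟨i, hi, hxi⟩ := Set.mem_iUnion₂.1 (hcov hx)
    exact Set.mem_iUnion₂.2 ⟨i, Finset.mem_filter.2 ⟨hi, x, hx, hxi⟩, hxi⟩
  obtain ⟨i₀, hi₀, hpi⟩ := Set.mem_iUnion₂.1 (hcov' hp)
  obtain ⟨L, hnd, hL, hch⟩ := exists_chain hc.isPreconnected hopen hcov'
    (fun i hi => (Finset.mem_filter.1 hi).2) hi₀ hpi
  set Q : List (BT α × E × ℝ) := A.toList.map (fun a => (BT.leaf a, y a, (0 : ℝ))) with hQ
  have hflat : (Q.flatMap fun c => c.1.leaves) = A.toList := by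
    rw [hQ, List.flatMap_map]
    simp [BT.leaves]
  obtain ⟨t, ht1, ht2⟩ := glue (δ := δ) y hch (by
      intro V hV
      obtain ⟨i, -, rfl⟩ := List.mem_map.1 hV
      exact ⟨hbdd i, hdiam i⟩) Q (by
      rw [hQ, Ne, List.map_eq_nil_iff, Finset.toList_eq_nil]
      exact hA.ne_empty) (by
      intro c hc'
      obtain ⟨a, ha, rfl⟩ := List.mem_map.1 hc'
      rw [Finset.mem_toList] at ha
      refine ⟨by simp [BT.R], ?_⟩
      obtain ⟨i, hi, hxi⟩ := Set.mem_iUnion₂.1 (hcov' (hy a ha))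
      exact ⟨U i, List.mem_map.2 ⟨i, (hL i).2 hi, rfl⟩, hxi⟩)
  rw [hflat] at ht1
  refine ⟨t, ht1.nodup_iff.2 A.nodup_toList, fun a => by rw [ht1.mem_iff, Finset.mem_toList],
    BT.R_mono ht2 ?_⟩
  have h1 : (Q.map fun c => c.2.2).sum = 0 := by
    rw [hQ, List.map_map]
    simp [Function.comp_def]
  have h2 : ((L.map U).map diam).sum ≤ ∑ i ∈ I, diam (U i) := by
    have h3 : L.toFinset = I' := by
      ext i; rw [List.mem_toFinset, hL]
    rw [List.map_map, ← List.sum_toFinset _ hnd, h3]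
    exact Finset.sum_le_sum_of_subset_of_nonneg (Finset.filter_subset _ _)
      (fun i _ _ => diam_nonneg)
  have h3 : (Q.length : ℝ) = A.card := by
    rw [hQ, List.length_map, Finset.length_toList]
  rw [h1, h3]
  have h4 : (A.card : ℝ) * δ = ε / 2 := by rw [hδ]; field_simp
  linarith

end Pool.Agent.Lib.H21Steiner
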