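import Pool.Agent.Lib.H21Steiner.BT

/-!
# Drawn binary trees: substitution at the leaves
-/

namespace Pool.Agent.Lib.H21Steiner

namespace PT

variable {α β γ E : Type*}

theorem exists_mem_leaves : ∀ t : PT α E, ∃ a, a ∈ t.leaves
  | leaf a => ⟨a, by simp [leaves]⟩
  | node _ l _ => by
      obtain ⟨a, ha⟩ := exists_mem_leaves l
      exact ⟨a, by simp [leaves, ha]⟩

/-- Substitution of drawn trees for the leaves. -/
def subst : PT α E → (α → PT β E) → PT β E
  | leaf a, S => S a
  | node q l r, S => node q (l.subst S) (r.subst S)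

/-- Relabelling. -/
def map (f : α → β) : PT α E → PT β E
  | leaf a => leaf (f a)
  | node q l r => node q (l.map f) (r.map f)

theorem leaves_map (f : α → β) : ∀ t : PT α E, (t.map f).leaves = t.leaves.map f
  | leaf a => by simp [map, leaves]
  | node _ l r => by simp [map, leaves, leaves_map f l, leaves_map f r]

theorem mem_leaves_subst {S : α → PT β E} {c : β} : ∀ {t : PT α E},
    c ∈ (t.subst S).leaves ↔ ∃ i ∈ t.leaves, c ∈ (S i).leaves
  | leaf a => by simp [subst, leaves]
  | node _ l r => by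
      simp only [subst, leaves, List.mem_append]
      rw [mem_leaves_subst (t := l), mem_leaves_subst (t := r)]
      constructor
      · rintro (⟨i, h1, h2⟩ | ⟨i, h1, h2⟩)
        · exact ⟨i, Or.inl h1, h2⟩
        · exact ⟨i, Or.inr h1, h2⟩
      · rintro ⟨i, h1 | h1, h2⟩
        · exact Or.inl ⟨i, h1, h2⟩
        · exact Or.inr ⟨i, h1, h2⟩

theorem nodup_subst {S : α → PT β E} {π : β → α} : ∀ {t : PT α E}, t.leaves.Nodup →
    (∀ i ∈ t.leaves, (S i).leaves.Nodup) → (∀ i ∈ t.leaves, ∀ c ∈ (S i).leaves, π c = i) →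
      (t.subst S).leaves.Nodup
  | leaf a, _, h, _ => h a (by simp [leaves])
  | node _ l r, hnd, h, hπ => by
      simp only [leaves, List.mem_append] at hnd h hπ
      rw [List.nodup_append] at hnd
      obtain ⟨h1, h2, h3⟩ := hnd
      simp only [subst, leaves]
      rw [List.nodup_append]
      refine ⟨nodup_subst h1 (fun i hi => h i (Or.inl hi)) (fun i hi => hπ i (Or.inl hi)),
        nodup_subst h2 (fun i hi => h i (Or.inr hi)) (fun i hi => hπ i (Or.inr hi)), ?_⟩
      rintro c hc d hd rfl
      obtain ⟨i, hi, hi'⟩ := mem_leaves_subst.1 hc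
      obtain ⟨j, hj, hj'⟩ := mem_leaves_subst.1 hd
      apply h3 i hi j hj
      rw [← hπ i (Or.inl hi) c hi', ← hπ j (Or.inr hj) c hj']

theorem Cherry.mem {i j : α} : ∀ {t : PT α E}, t.Cherry i j → i ∈ t.leaves ∧ j ∈ t.leaves
  | leaf _, h => h.elim
  | node _ l r, h => by
      simp only [leaves, List.mem_append]
      rcases h with ⟨rfl, rfl⟩ | ⟨rfl, rfl⟩ | h | h
      · exact ⟨Or.inl (by simp [leaves]), Or.inr (by simp [leaves])⟩
      · exact ⟨Or.inr (by simp [leaves]), Or.inl (by simp [leaves])⟩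
      · exact ⟨Or.inl h.mem.1, Or.inl h.mem.2⟩
      · exact ⟨Or.inr h.mem.1, Or.inr h.mem.2⟩

theorem subst_ne_leaf {S : α → PT β E} {c : β} : ∀ {t : PT α E},
    (∀ i ∈ t.leaves, S i ≠ leaf c) → t.subst S ≠ leaf c
  | leaf a, h => h a (by simp [leaves])
  | node _ _ _, _ => by simp [subst]

theorem cherry_subst {S : α → PT β E} {c d : β} : ∀ {t : PT α E},
    (∀ i ∈ t.leaves, S i ≠ leaf c) →
      ((t.subst S).Cherry c d ↔ ∃ i ∈ t.leaves, (S i).Cherry c d)
  | leaf a, _ => by simp [subst, leaves]
  | node q l r, h => by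
      simp only [leaves, List.mem_append] at h
      have h1 := subst_ne_leaf (fun i hi => h i (Or.inl hi))
      have h2 := subst_ne_leaf (fun i hi => h i (Or.inr hi))
      have e1 := cherry_subst (d := d) (fun i hi => h i (Or.inl hi))
      have e2 := cherry_subst (d := d) (fun i hi => h i (Or.inr hi))
      simp only [subst, Cherry, leaves, List.mem_append]
      rw [e1, e2]
      constructor
      · rintro (⟨h3, -⟩ | ⟨-, h3⟩ | ⟨i, h3, h4⟩ | ⟨i, h3, h4⟩)
        · exact absurd h3 h1
        · exact absurd h3 h2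
        · exact ⟨i, Or.inl h3, h4⟩
        · exact ⟨i, Or.inr h3, h4⟩
      · rintro ⟨i, h3 | h3, h4⟩
        · exact Or.inr (Or.inr (Or.inl ⟨i, h3, h4⟩))
        · exact Or.inr (Or.inr (Or.inr ⟨i, h3, h4⟩))

theorem map_eq_leaf {f : α → β} (hf : Function.Injective f) {c : α} {t : PT α E} :
    t.map f = leaf (f c) ↔ t = leaf c := by
  cases t with
  | leaf a =>
      simp only [map, leaf.injEq]
      exact hf.eq_iff
  | node q l r => simp [map]

theorem cherry_map {f : α → β} (hf : Function.Injective f) {c d : α} : ∀ {t : PT α E},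
    (t.map f).Cherry (f c) (f d) ↔ t.Cherry c d
  | leaf a => Iff.rfl
  | node q l r => by
      simp only [map, Cherry]
      rw [map_eq_leaf hf, map_eq_leaf hf, map_eq_leaf hf, map_eq_leaf hf, cherry_map hf (t := l),
        cherry_map hf (t := r)]

theorem pos_map {f : α → β} {y : β → E} : ∀ {t : PT α E} {p : E},
    (t.map f).Pos y p ↔ t.Pos (fun a => y (f a)) p
  | leaf a, p => Iff.rfl
  | node q l r, p => by
      simp only [map, Pos]
      rw [pos_map (t := l), pos_map (t := r)]

section

variable [PseudoMetricSpace E]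

theorem len_map {f : α → β} {y : β → E} : ∀ {t : PT α E} {p : E},
    (t.map f).len y p = t.len (fun a => y (f a)) p
  | leaf a, p => rfl
  | node q l r, p => by
      simp only [map, len]
      rw [len_map (t := l), len_map (t := r)]

end

section

variable [NormedAddCommGroup E] [NormedSpace ℝ E]

/-- The leaf edges arrive in the directions `v i` and have length at least `μ`. -/
def Str (a v : α → E) (μ : ℝ) : PT α E → E → Prop
  | leaf i, p => ∃ s, μ ≤ s ∧ a i = p + s • v i
  | node q l r, _ => Str a v μ l q ∧ Str a v μ r q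

theorem len_subst {a v : α → E} {μ : ℝ} (hμ : 0 ≤ μ) {y : β → E} {S : α → PT β E} {D : α → ℝ} :
    ∀ {t : PT α E} {p : E}, Str a v μ t p → (∀ i ∈ t.leaves, ‖v i‖ = 1) →
      (∀ i ∈ t.leaves, ∀ (q : E) (s : ℝ), μ ≤ s → a i = q + s • v i →
        (S i).len y q = s + D i) → (t.subst S).len y p = t.len a p + (t.leaves.map D).sum
  | leaf i, p, ⟨s, hs, hi⟩, hv, h => by
      have h1 := h i (by simp [leaves]) p s hs hi
      have h2 : dist p (a i) = s := by
        rw [hi, dist_eq_norm, sub_add_cancel_left, norm_neg, norm_smul, hv i (by simp [leaves]),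
          mul_one, Real.norm_eq_abs, abs_of_nonneg (hμ.trans hs)]
      simp only [subst, len, leaves, List.map_cons, List.map_nil, List.sum_cons, List.sum_nil,
        add_zero]
      rw [h1, h2]
  | node q l r, p, ⟨h1, h2⟩, hv, h => by
      simp only [leaves, List.mem_append] at hv h
      simp only [subst, len, leaves, List.map_append, List.sum_append]
      rw [len_subst hμ h1 (fun i hi => hv i (Or.inl hi)) (fun i hi => h i (Or.inl hi)),
        len_subst hμ h2 (fun i hi => hv i (Or.inr hi)) (fun i hi => h i (Or.inr hi))]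
      ring

theorem pos_subst {a v : α → E} {μ : ℝ} {y : β → E} {S : α → PT β E} :
    ∀ {t : PT α E} {p : E}, Str a v μ t p → t.Pos a p →
      (∀ i ∈ t.leaves, ∀ (q : E) (s : ℝ), μ ≤ s → a i = q + s • v i → q ≠ a i →
        (S i).Pos y q) → (t.subst S).Pos y p
  | leaf i, p, ⟨s, hs, hi⟩, hp, h => h i (by simp [leaves]) p s hs hi hp
  | node q l r, p, ⟨h1, h2⟩, ⟨hp, hp1, hp2⟩, h => by
      simp only [leaves, List.mem_append] at h
      exact ⟨hp, pos_subst h1 hp1 (fun i hi => h i (Or.inl hi)),
        pos_subst h2 hp2 (fun i hi => h i (Or.inr hi))⟩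

theorem str_subst {a v : α → E} {μ : ℝ} {y w : β → E} {ν : ℝ} {S : α → PT β E} :
    ∀ {t : PT α E} {p : E}, Str a v μ t p →
      (∀ i ∈ t.leaves, ∀ (q : E) (s : ℝ), μ ≤ s → a i = q + s • v i → Str y w ν (S i) q) →
        Str y w ν (t.subst S) p
  | leaf i, p, ⟨s, hs, hi⟩, h => h i (by simp [leaves]) p s hs hi
  | node q l r, p, ⟨h1, h2⟩, h => by
      simp only [leaves, List.mem_append] at h
      exact ⟨str_subst h1 (fun i hi => h i (Or.inl hi)),
        str_subst h2 (fun i hi => h i (Or.inr hi))⟩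

end

end PT

end Pool.Agent.Lib.H21Steiner
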