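import Pool.Agent.Lib.H21Steiner.PhaseTwo

/-!
# Point sets with exponentially many optimal trees, as drawn binary trees
-/

namespace Pool.Agent.Lib.H21Steiner

open BT

variable {E : Type*} [NormedAddCommGroup E] [InnerProductSpace ℝ E]

theorem norm_cpt_le {e f : E} (h : Fr e f) (b : Fin 5) : ‖cpt e f b‖ ≤ 40 := by
  have key : ∀ z : ℤ × ℤ, z.1 * z.1 + z.1 * z.2 + z.2 * z.2 ≤ 1600 → ‖ev e f z‖ ≤ 40 := by
    intro z hz
    have h1 := h.inner_comb z.1 z.2 z.1 z.2
    rw [real_inner_self_eq_norm_sq] at h1
    have h2 : ((z.1 * z.1 + z.1 * z.2 + z.2 * z.2 : ℤ) : ℝ) ≤ ((1600 : ℤ) : ℝ) := by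
      exact_mod_cast hz
    push_cast at h2
    have h3 := norm_nonneg (ev e f z)
    rw [ev] at h3 ⊢
    nlinarith
  apply key
  revert b
  decide

/-- The leaf of the skeleton that carries a cluster. -/
def labC (M : ℕ) (j : ℕ) (u : Bool) : ℕ := if u then M + j else j

/-- The labels of the terminals, except for the root: `k` pairs of clusters of five points, and
`m` single points. -/
abbrev Lab (k m : ℕ) : Type := (Fin k × Bool × Fin 5) ⊕ Fin m

/-- The leaf of the skeleton at which a terminal is. -/
def labPi (k m : ℕ) : Lab k m → ℕ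
  | Sum.inl (j, u, _) => labC (k + m) j.val u
  | Sum.inr i => k + i.val

/-- The positions of the terminals. -/
noncomputable def labPos (k m : ℕ) (ε : ℕ → ℝ) (s : ℝ) (a e f : ℕ → E) : Lab k m → E
  | Sum.inl (j, u, b) => posTwo (k + m) k ε a e f (labC (k + m) j.val u) +
      s • cpt (dirTwo (k + m) k e f (labC (k + m) j.val u))
        (frTwo (k + m) k e f (labC (k + m) j.val u)) b
  | Sum.inr i => a (k + i.val)

theorem labC_lt {k m j : ℕ} (hj : j < k) (u : Bool) : labC (k + m) j u < k + m + k := by
  cases u <;> simp only [labC, if_true, Bool.false_eq_true, if_false] <;> omega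

theorem labC_inj {k m : ℕ} {j j' : ℕ} (hj : j < k) (hj' : j' < k) {u u' : Bool}
    (h : labC (k + m) j u = labC (k + m) j' u') : j = j' ∧ u = u' := by
  cases u <;> cases u' <;>
    simp only [labC, if_true, Bool.false_eq_true, if_false] at h <;>
    refine ⟨?_, ?_⟩ <;> first | omega | rfl

theorem labC_not_mid {k m : ℕ} {j i : ℕ} (hj : j < k) (hi : i < m) {u : Bool} :
    labC (k + m) j u ≠ k + i := by
  cases u <;> simp only [labC, if_true, Bool.false_eq_true, if_false] <;> omega

omit [InnerProductSpace ℝ E] in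
theorem R0_congr {α : Type*} {y y' : α → E} : ∀ {t : BT α} {q : E} {l : ℝ},
    (∀ b ∈ t.leaves, y b = y' b) → R0 y t q l → R0 y' t q l
  | leaf a, q, l, h, hR => by
      obtain ⟨h1, h2⟩ := hR
      exact ⟨by rw [h1]; exact h a (by simp [BT.leaves]), h2⟩
  | node s t, q, l, h, hR => by
      obtain ⟨l1, l2, h1, h2, h3⟩ := hR
      exact ⟨l1, l2, h1.congr (fun b hb => h b (by simp [BT.leaves, hb])),
        h2.congr (fun b hb => h b (by simp [BT.leaves, hb])), h3⟩

omit [InnerProductSpace ℝ E] in
theorem R0_map {α γ : Type*} (g : α → γ) {z : γ → E} : ∀ {t : BT α} {q : E} {l : ℝ},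
    R0 (fun a => z (g a)) t q l → R0 z (t.map g) q l
  | leaf _, _, _, h => h
  | node _ _, _, _, ⟨l1, l2, h1, h2, h3⟩ => ⟨l1, l2, (R_map g).2 h1, (R_map g).2 h2, h3⟩

/-- The lower bound for all trees. -/
theorem final_lower {p : E} {k m : ℕ} {a e f : ℕ → E} {ε : ℕ → ℝ} {L r δ : ℝ}
    (hG : Good p (Finset.range (k + m + k)) (posTwo (k + m) k ε a e f) (dirTwo (k + m) k e f)
      L r δ) (hfr : ∀ i < k + m, Fr (e i) (f i)) {s : ℝ} (hs : 0 < s) (hsr : 175 * s ≤ r)
    (hsδ : (((k + m + k : ℕ) : ℝ) + 1) * (40 * s) + 189 * k * s ≤ δ) {t : BT (Lab k m)}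
    (hnd : t.leaves.Nodup) (hall : ∀ b, b ∈ t.leaves) {l : ℝ}
    (hR : R (labPos k m ε s a e f) t p l) : L + 189 * k * s ≤ l := by
  classical
  have hfr2 := fr_two (M := k + m) (k := k) (by omega) hfr
  obtain ⟨P, hP⟩ : ∃ P, P = posTwo (k + m) k ε a e f := ⟨_, rfl⟩
  obtain ⟨U, hU⟩ : ∃ U, U = dirTwo (k + m) k e f := ⟨_, rfl⟩
  obtain ⟨F, hF⟩ : ∃ F, F = frTwo (k + m) k e f := ⟨_, rfl⟩
  obtain ⟨y, hy⟩ : ∃ y, y = labPos k m ε s a e f := ⟨_, rfl⟩
  have yl : ∀ j u b, y (Sum.inl (j, u, b)) = P (labC (k + m) j.val u) +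
      s • cpt (U (labC (k + m) j.val u)) (F (labC (k + m) j.val u)) b := by
    intro j u b
    rw [hy, hP, hU, hF]
    rfl
  have yr : ∀ i, y (Sum.inr i) = P (k + i.val) := by
    intro i
    have hi := i.isLt
    rw [hy, hP, posTwo_mid (by omega) (by omega)]
    rfl
  rw [← hP, ← hU] at hG
  rw [← hU, ← hF] at hfr2
  rw [← hy] at hR
  have hπ : ∀ b ∈ (Finset.univ : Finset (Lab k m)), labPi k m b ∈ Finset.range (k + m + k) := by
    intro b _
    rw [Finset.mem_range]
    rcases b with ⟨j, u, b⟩ | i
    · exact labC_lt j.isLt u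
    · have := i.isLt
      simp only [labPi]
      omega
  have hsurj : ∀ i ∈ Finset.range (k + m + k), ∃ b ∈ (Finset.univ : Finset (Lab k m)),
      labPi k m b = i := by
    intro i hi
    rw [Finset.mem_range] at hi
    by_cases h1 : i < k
    · refine ⟨Sum.inl (⟨i, h1⟩, false, 0), Finset.mem_univ _, ?_⟩
      simp [labPi, labC]
    · by_cases h2 : i < k + m
      · refine ⟨Sum.inr ⟨i - k, by omega⟩, Finset.mem_univ _, ?_⟩
        simp only [labPi]
        omega
      · refine ⟨Sum.inl (⟨i - (k + m), by omega⟩, true, 0), Finset.mem_univ _, ?_⟩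
        simp only [labPi, labC, if_true]
        omega
  have hη : ∀ b ∈ (Finset.univ : Finset (Lab k m)), dist (y b) (P (labPi k m b)) ≤ 40 * s := by
    intro b _
    rcases b with ⟨j, u, b⟩ | i
    · rw [yl]
      have h1 := norm_cpt_le (hfr2 _ (labC_lt (m := m) j.isLt u)) b
      simp only [labPi]
      rw [dist_eq_norm, add_sub_cancel_left, norm_smul, Real.norm_eq_abs, abs_of_pos hs]
      nlinarith
    · rw [yr]
      simp only [labPi]
      rw [dist_self]
      positivity
  obtain ⟨loc, hloc⟩ : ∃ loc : ℕ → ℝ, loc = fun x => if k ≤ x ∧ x < k + m then 0 else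
      189 / 2 * s := ⟨_, rfl⟩
  have hsum : ∑ x ∈ Finset.range (k + m + k), loc x = 189 * k * s := by
    rw [Finset.sum_range_add, Finset.sum_range_add]
    have h1 : ∑ x ∈ Finset.range k, loc x = k * (189 / 2 * s) := by
      rw [Finset.sum_congr rfl (g := fun _ => 189 / 2 * s), Finset.sum_const, Finset.card_range,
        nsmul_eq_mul]
      intro x hx
      rw [Finset.mem_range] at hx
      rw [hloc]
      exact if_neg (by omega)
    have h2 : ∑ x ∈ Finset.range m, loc (k + x) = 0 := by
      apply Finset.sum_eq_zero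
      intro x hx
      rw [Finset.mem_range] at hx
      rw [hloc]
      exact if_pos (by omega)
    have h3 : ∑ x ∈ Finset.range k, loc (k + m + x) = k * (189 / 2 * s) := by
      rw [Finset.sum_congr rfl (g := fun _ => 189 / 2 * s), Finset.sum_const, Finset.card_range,
        nsmul_eq_mul]
      intro x hx
      rw [hloc]
      exact if_neg (by omega)
    rw [h1, h2, h3]
    ring
  have hrpos := hG.rpos
  have h1 := hG.master (B := Finset.univ) (π := labPi k m) hπ hsurj hη hnd
    (fun b => by simp only [Finset.mem_univ, iff_true]; exact hall b) loc (by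
      rw [hsum, Finset.card_range]
      exact hsδ) (by
      intro x hx ρ q μ hρ hρB _ h0
      have hx' := Finset.mem_range.1 hx
      by_cases hmid : k ≤ x ∧ x < k + m
      · have locx : loc x = 0 := by rw [hloc]; exact if_pos hmid
        have hmem : ∀ b ∈ ρ.leaves, b = Sum.inr ⟨x - k, by omega⟩ := by
          intro b hb
          have h2 := ((hρB b).1 hb).2
          rcases b with ⟨j, u, b⟩ | i
          · exfalso
            have h3 : labC (k + m) j.val u = x := h2
            have h4 := labC_not_mid (m := m) (i := x - k) j.isLt (by omega) (u := u)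
            omega
          · simp only [labPi] at h2
            have h3 : i = ⟨x - k, by omega⟩ := by
              apply Fin.ext
              simp only
              omega
            rw [h3]
        have h2 := eq_leaf hρ hmem
        rw [h2] at h0
        obtain ⟨h3, h4⟩ := h0
        rw [yr] at h3
        have h5 : k + (x - k) = x := by omega
        simp only [h5] at h3
        rw [h3, locx]
        refine ⟨fun _ => ?_, fun hfar => ?_⟩
        · rw [sub_self, inner_zero_right]
          linarith
        · exfalso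
          rw [dist_self] at hfar
          linarith
      · have locx : loc x = 189 / 2 * s := by rw [hloc]; exact if_neg hmid
        obtain ⟨j, u, hju⟩ : ∃ (j : Fin k) (u : Bool), labC (k + m) j.val u = x := by
          by_cases h2 : x < k
          · exact ⟨⟨x, h2⟩, false, by simp [labC]⟩
          · refine ⟨⟨x - (k + m), by omega⟩, true, ?_⟩
            simp only [labC, if_true]
            omega
        have hmem : ∀ c, c ∈ ρ.leaves ↔ ∃ b, c = Sum.inl (j, u, b) := by
          intro c
          rw [hρB]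
          constructor
          · rintro ⟨-, h2⟩
            rcases c with ⟨j', u', b⟩ | i
            · have h3 : labC (k + m) j'.val u' = labC (k + m) j.val u := by
                rw [hju]
                exact h2
              obtain ⟨h4, h5⟩ := labC_inj j'.isLt j.isLt h3
              refine ⟨b, ?_⟩
              rw [h5, Fin.ext h4]
            · exfalso
              have h3 : k + i.val = x := h2
              have := i.isLt
              exact hmid ⟨by omega, by omega⟩
          · rintro ⟨b, rfl⟩
            exact ⟨Finset.mem_univ _, hju⟩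
        have hmem' : ∀ b, (Sum.inl (j, u, b) : Lab k m) ∈ ρ.leaves := fun b => (hmem _).2 ⟨b, rfl⟩
        have hF' := hfr2 x hx'
        obtain ⟨g, hg⟩ : ∃ g : Lab k m → Fin 5, g = fun c => c.elim (fun c => c.2.2) (fun _ => 0) :=
          ⟨_, rfl⟩
        have gl : ∀ b, g (Sum.inl (j, u, b)) = b := by
          intro b
          rw [hg]
          rfl
        refine ⟨fun _ => ?_, fun hfar => ?_⟩
        · have h2 : (ρ.map g).leaves.Nodup := by
            rw [BT.leaves_map]
            apply List.Nodup.map_on _ hρ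
            intro c hc c' hc' hcc
            obtain ⟨b, rfl⟩ := (hmem c).1 hc
            obtain ⟨b', rfl⟩ := (hmem c').1 hc'
            rw [gl, gl] at hcc
            rw [hcc]
          have h3 : ∀ b, b ∈ (ρ.map g).leaves := by
            intro b
            rw [BT.leaves_map, List.mem_map]
            exact ⟨_, hmem' b, gl b⟩
          have h4 : R0 (fun b => P x + s • cpt (U x) (F x) b) (ρ.map g) q μ := by
            apply R0_map
            refine R0_congr ?_ h0
            intro c hc
            obtain ⟨b, rfl⟩ := (hmem c).1 hc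
            rw [yl, hju, gl]
          have h5 := cluster_lower hF' h2 h3 hs.le (fun b => rfl) h4
          rw [locx]
          exact h5
        · have h2 := h0.far (i := Sum.inl (j, u, 0)) (j := Sum.inl (j, u, 1)) (by simp)
            (hmem' 0) (hmem' 1) (z := P x) (η := 40 * s) (by
              intro c hc
              have h3 := hη c (Finset.mem_univ _)
              rwa [((hρB c).1 hc).2] at h3)
          rw [locx]
          linarith) hR
  rw [hsum] at h1
  exact h1

/-- The substitution that puts the pairs of clusters at the leaves of the skeleton. -/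
noncomputable def finSubst (k m : ℕ) (ε : ℕ → ℝ) (s : ℝ) (a e f : ℕ → E) (ch : Fin k → Bool)
    (b₀ : Lab k m) (i : ℕ) : PT (Lab k m) E :=
  if h : i < k then pairPT (ch ⟨i, h⟩) (a i) (e i) (f i) (ε i) s
    (fun u b => Sum.inl (⟨i, h⟩, u, b))
  else if h' : i - k < m then PT.leaf (Sum.inr ⟨i - k, h'⟩) else PT.leaf b₀

section

variable {k m : ℕ} {ε : ℕ → ℝ} {s : ℝ} {a e f : ℕ → E} {ch : Fin k → Bool} {b₀ : Lab k m}

theorem finSubst_lt (j : Fin k) : finSubst k m ε s a e f ch b₀ j.val =
    pairPT (ch j) (a j.val) (e j.val) (f j.val) (ε j.val) s (fun u b => Sum.inl (j, u, b)) := by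
  rw [finSubst, dif_pos j.isLt]

theorem finSubst_mid (i : Fin m) : finSubst k m ε s a e f ch b₀ (k + i.val) =
    PT.leaf (Sum.inr i) := by
  have h1 : ¬ k + i.val < k := by omega
  have h2 : k + i.val - k < m := by
    have := i.isLt
    omega
  rw [finSubst, dif_neg h1, dif_pos h2]
  have h3 : (⟨k + i.val - k, h2⟩ : Fin m) = i := by
    apply Fin.ext
    simp
  rw [h3]

/-- The two kinds of leaves. -/
theorem lt_cases {k m i : ℕ} (hi : i < k + m) :
    (∃ j : Fin k, i = j.val) ∨ (∃ j : Fin m, i = k + j.val) := by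
  by_cases h : i < k
  · exact Or.inl ⟨⟨i, h⟩, rfl⟩
  · refine Or.inr ⟨⟨i - k, by omega⟩, ?_⟩
    simp only
    omega

theorem labPos_false (j : Fin k) (b : Fin 5) :
    labPos k m ε s a e f (Sum.inl (j, false, b)) =
      a j.val + ε j.val • f j.val + s • cpt (f j.val) (f j.val - e j.val) b := by
  have hj := j.isLt
  simp only [labPos, labC, Bool.false_eq_true, if_false]
  rw [posTwo_lt hj, dirTwo_lt hj, frTwo_lt hj]

theorem labPos_true (j : Fin k) (b : Fin 5) :
    labPos k m ε s a e f (Sum.inl (j, true, b)) =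
      a j.val + ε j.val • (e j.val - f j.val) + s • cpt (e j.val - f j.val) (e j.val) b := by
  have hj := j.isLt
  simp only [labPos, labC, if_true]
  rw [posTwo_add (by omega) hj, dirTwo_add (by omega) hj, frTwo_add (by omega) hj]

variable {p : E} {T : PT ℕ E} {μ L r δ : ℝ}

theorem fin_leaves (hS : Skel p (k + m) T a e f μ L r δ) :
    (T.subst (finSubst k m ε s a e f ch b₀)).leaves.Nodup ∧
      ∀ c, c ∈ (T.subst (finSubst k m ε s a e f ch b₀)).leaves := by
  constructor
  · refine PT.nodup_subst (π := fun c => c.elim (fun c => c.1.val) (fun i => k + i.val)) hS.nd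
      ?_ ?_
    · intro i hi
      rcases lt_cases ((hS.mem i).1 hi) with ⟨j, rfl⟩ | ⟨j, rfl⟩
      · rw [finSubst_lt]
        apply pair_nodup
        intro u b u' b' h
        simpa using h
      · rw [finSubst_mid]
        simp [PT.leaves]
    · intro i hi c hc
      rcases lt_cases ((hS.mem i).1 hi) with ⟨j, rfl⟩ | ⟨j, rfl⟩
      · rw [finSubst_lt, pair_leaves] at hc
        obtain ⟨u, b, rfl⟩ := hc
        rfl
      · rw [finSubst_mid] at hc
        simp only [PT.leaves, List.mem_singleton] at hc
        rw [hc]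
        rfl
  · intro c
    rw [PT.mem_leaves_subst]
    rcases c with ⟨j, u, b⟩ | i
    · refine ⟨j.val, (hS.mem _).2 (by have := j.isLt; omega), ?_⟩
      rw [finSubst_lt, pair_leaves]
      exact ⟨u, b, rfl⟩
    · refine ⟨k + i.val, (hS.mem _).2 (by have := i.isLt; omega), ?_⟩
      rw [finSubst_mid]
      simp [PT.leaves]

theorem fin_len (hS : Skel p (k + m) T a e f μ L r δ) (hε : ∀ i, 0 < ε i) (hs : 0 < s)
    (hsμ : 29 * s < μ) :
    (T.subst (finSubst k m ε s a e f ch b₀)).len (labPos k m ε s a e f) p =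
      L + 2 * ∑ i ∈ Finset.range k, ε i + 189 * k * s := by
  rw [PT.len_subst (D := fun i => if i < k then 2 * ε i + 189 * s else 0) hS.mpos.le hS.str
    (fun i hi => (hS.fr i ((hS.mem i).1 hi)).ne), hS.len]
  · have h1 : (T.leaves.map fun i => if i < k then 2 * ε i + 189 * s else 0).sum =
        2 * ∑ i ∈ Finset.range k, ε i + 189 * k * s := by
      have h2 : T.leaves.toFinset = Finset.range (k + m) := by
        ext i
        rw [List.mem_toFinset, hS.mem, Finset.mem_range]
      rw [← List.sum_toFinset _ hS.nd, h2, Finset.sum_range_add]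
      have h3 : ∑ x ∈ Finset.range m, (if k + x < k then 2 * ε (k + x) + 189 * s else 0) = 0 := by
        apply Finset.sum_eq_zero
        intro x _
        exact if_neg (by omega)
      have h4 : ∑ x ∈ Finset.range k, (if x < k then 2 * ε x + 189 * s else 0) =
          ∑ x ∈ Finset.range k, (2 * ε x + 189 * s) := by
        apply Finset.sum_congr rfl
        intro x hx
        exact if_pos (Finset.mem_range.1 hx)
      rw [h3, h4, Finset.sum_add_distrib, ← Finset.mul_sum, Finset.sum_const, Finset.card_range,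
        nsmul_eq_mul]
      ring
    rw [h1]
    ring
  · intro i hi q t ht hq
    rcases lt_cases ((hS.mem i).1 hi) with ⟨j, rfl⟩ | ⟨j, rfl⟩
    · rw [finSubst_lt, if_pos j.isLt]
      refine pair_len (hS.fr _ (by have := j.isLt; omega)) hs.le (hε _).le ?_ ?_ _ (by linarith) hq
      · exact fun b => labPos_false j b
      · exact fun b => labPos_true j b
    · rw [finSubst_mid, if_neg (by omega)]
      have hu : ‖e (k + j.val)‖ = 1 := (hS.fr _ (by have := j.isLt; omega)).ne
      change dist q (a (k + j.val)) = t + 0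
      rw [add_zero]
      refine dist_of_sub hu (by have := hS.mpos; linarith) ?_
      rw [hq]
      abel

theorem fin_pos (hS : Skel p (k + m) T a e f μ L r δ) (hε : ∀ i, 0 < ε i) (hs : 0 < s)
    (hsμ : 29 * s < μ) :
    (T.subst (finSubst k m ε s a e f ch b₀)).Pos (labPos k m ε s a e f) p := by
  refine PT.pos_subst hS.str hS.pos ?_
  intro i hi q t ht hq hne
  rcases lt_cases ((hS.mem i).1 hi) with ⟨j, rfl⟩ | ⟨j, rfl⟩
  · rw [finSubst_lt]
    refine pair_pos (hS.fr _ (by have := j.isLt; omega)) hs (hε _) ?_ ?_ _ (by linarith) hq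
    · exact fun b => labPos_false j b
    · exact fun b => labPos_true j b
  · rw [finSubst_mid]
    exact hne

theorem fin_cherry (hS : Skel p (k + m) T a e f μ L r δ) (j : Fin k) :
    (T.subst (finSubst k m ε s a e f ch b₀)).Cherry (Sum.inl (j, false, 3))
      (Sum.inl (j, false, 4)) ↔ ch j = true := by
  rw [PT.cherry_subst]
  · constructor
    · rintro ⟨i, hi, hc⟩
      rcases lt_cases ((hS.mem i).1 hi) with ⟨j', rfl⟩ | ⟨j', rfl⟩
      · rw [finSubst_lt] at hc
        have h1 := hc.mem.1
        rw [pair_leaves] at h1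
        obtain ⟨u, b, hub⟩ := h1
        have h2 : j = j' := by
          have := Sum.inl.inj hub
          exact (Prod.ext_iff.1 this).1
        subst h2
        refine (pair_cherry (lb := fun u b => (Sum.inl (j, u, b) : Lab k m)) ?_ (ch j)).1 hc
        intro u b u' b' h
        simpa using h
      · rw [finSubst_mid] at hc
        exact hc.elim
    · intro h
      refine ⟨j.val, (hS.mem _).2 (by have := j.isLt; omega), ?_⟩
      rw [finSubst_lt]
      refine (pair_cherry (lb := fun u b => (Sum.inl (j, u, b) : Lab k m)) ?_ (ch j)).2 h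
      intro u b u' b' h
      simpa using h
  · intro i hi
    rcases lt_cases ((hS.mem i).1 hi) with ⟨j', rfl⟩ | ⟨j', rfl⟩
    · rw [finSubst_lt]
      cases ch j' <;> simp [pairPT]
    · rw [finSubst_mid]
      intro h
      have := PT.leaf.inj h
      exact absurd this (by simp)

end

/-- The main construction. -/
theorem construction {e₀ f₀ : E} (h : Fr e₀ f₀) (k m : ℕ) (hkm : 1 ≤ k + m) :
    ∃ (y : Lab k m → E) (p : E) (L : ℝ),
      (∀ (t : BT (Lab k m)), t.leaves.Nodup → (∀ b, b ∈ t.leaves) → ∀ l, R y t p l → L ≤ l) ∧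
      ∀ ch : Fin k → Bool, ∃ t : PT (Lab k m) E, t.leaves.Nodup ∧ (∀ b, b ∈ t.leaves) ∧
        t.len y p = L ∧ t.Pos y p ∧
        ∀ j : Fin k, t.Cherry (Sum.inl (j, false, 3)) (Sum.inl (j, false, 4)) ↔ ch j = true := by
  obtain ⟨T, a, e, f, μ, L, r, δ, hS⟩ := exists_skel h 0 (k + m) hkm
  obtain ⟨ε, r', δ', hε, hG⟩ := phase_two hS.good hS.fr k (by omega)
  have hrpos := hG.rpos
  have hdpos := hG.dpos
  have hc : (0 : ℝ) < (((k + m + k : ℕ) : ℝ) + 1) * 40 + 189 * k := by positivity
  obtain ⟨s, hs⟩ : ∃ s : ℝ, s = min (μ / 30) (min (r' / 175)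
      (δ' / ((((k + m + k : ℕ) : ℝ) + 1) * 40 + 189 * k))) := ⟨_, rfl⟩
  have hspos : 0 < s := by
    rw [hs]
    refine lt_min ?_ (lt_min ?_ (div_pos hdpos hc))
    · have := hS.mpos
      positivity
    · positivity
  have hsμ : 29 * s < μ := by
    have h1 : s ≤ μ / 30 := by
      rw [hs]
      exact min_le_left _ _
    linarith
  have hsr : 175 * s ≤ r' := by
    have h1 : s ≤ r' / 175 := by
      rw [hs]
      exact (min_le_right _ _).trans (min_le_left _ _)
    linarith
  have hsδ : (((k + m + k : ℕ) : ℝ) + 1) * (40 * s) + 189 * k * s ≤ δ' := by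
    have h1 : s ≤ δ' / ((((k + m + k : ℕ) : ℝ) + 1) * 40 + 189 * k) := by
      rw [hs]
      exact (min_le_right _ _).trans (min_le_right _ _)
    rw [le_div_iff₀ hc] at h1
    linarith
  have hb₀ : Nonempty (Lab k m) := by
    by_cases hk : 0 < k
    · exact ⟨Sum.inl (⟨0, hk⟩, false, 0)⟩
    · exact ⟨Sum.inr ⟨0, by omega⟩⟩
  obtain ⟨b₀⟩ := hb₀
  refine ⟨labPos k m ε s a e f, 0, L + 2 * ∑ i ∈ Finset.range k, ε i + 189 * k * s, ?_, ?_⟩
  · intro t hnd hall l hR
    exact final_lower hG hS.fr hspos hsr hsδ hnd hall hR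
  · intro ch
    refine ⟨T.subst (finSubst k m ε s a e f ch b₀), (fin_leaves hS).1, (fin_leaves hS).2,
      fin_len hS hε hspos hsμ, fin_pos hS hε hspos hsμ, fun j => fin_cherry hS j⟩

end Pool.Agent.Lib.H21Steiner
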