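import Mathlib

/-!
# Rooted binary trees with labelled leaves, and their drawings
-/

namespace Pool.Agent.Lib.H21Steiner

/-- Binary trees whose leaves carry labels. -/
inductive BT (α : Type*) where
  | leaf (a : α) : BT α
  | node (l r : BT α) : BT α

namespace BT

variable {α E : Type*}

/-- The labels of the leaves. -/
def leaves : BT α → List α
  | leaf a => [a]
  | node l r => l.leaves ++ r.leaves

/-- The tree can be drawn with its leaves at the points `y`, starting with an edge from the point
`p`, with total length at most `ℓ`. -/
def R [PseudoMetricSpace E] (y : α → E) : BT α → E → ℝ → Prop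
  | leaf a, p, ℓ => dist p (y a) ≤ ℓ
  | node l r, p, ℓ => ∃ q ℓ₁ ℓ₂, R y l q ℓ₁ ∧ R y r q ℓ₂ ∧ dist p q + ℓ₁ + ℓ₂ ≤ ℓ

end BT

/-- Drawn binary trees: every inner node carries its position. -/
inductive PT (α E : Type*) where
  | leaf (a : α) : PT α E
  | node (q : E) (l r : PT α E) : PT α E

namespace PT

variable {α E : Type*}

/-- The labels of the leaves. -/
def leaves : PT α E → List α
  | leaf a => [a]
  | node _ l r => l.leaves ++ r.leaves

/-- The total length of the drawing, with the edge from the root point `p` included. -/
def len [PseudoMetricSpace E] (y : α → E) : PT α E → E → ℝ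
  | leaf a, p => dist p (y a)
  | node q l r, p => dist p q + l.len y q + r.len y q

/-- All the edges of the drawing, with the edge from the root point `p` included, have positive
length. -/
def Pos (y : α → E) : PT α E → E → Prop
  | leaf a, p => p ≠ y a
  | node q l r, p => p ≠ q ∧ l.Pos y q ∧ r.Pos y q

/-- The leaves with labels `i` and `j` are the two children of one node. -/
def Cherry (i j : α) : PT α E → Prop
  | leaf _ => False
  | node _ l r => (l = leaf i ∧ r = leaf j) ∨ (l = leaf j ∧ r = leaf i) ∨
      l.Cherry i j ∨ r.Cherry i j

end PT

end Pool.Agent.Lib.H21Steiner
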