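import Pool.Agent.Lib.H21Steiner.BT

/-!
# The vertices of a drawn binary tree
-/

namespace Pool.Agent.Lib.H21Steiner.PT

variable {α E : Type*}

/-- The vertices (leaves and inner nodes) of a tree. -/
def Node : PT α E → Type
  | leaf _ => Unit
  | node _ l r => Option (Node l ⊕ Node r)

instance instFintypeNode : (t : PT α E) → Fintype (Node t)
  | leaf _ => inferInstanceAs (Fintype Unit)
  | node _ l r =>
    haveI := instFintypeNode l
    haveI := instFintypeNode r
    inferInstanceAs (Fintype (Option (Node l ⊕ Node r)))

/-- The top vertex. -/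
def nTop (q : E) (l r : PT α E) : Node (node q l r) := (none : Option (Node l ⊕ Node r))

/-- A vertex of the left subtree. -/
def nL (q : E) (l r : PT α E) (v : Node l) : Node (node q l r) :=
  (some (Sum.inl v) : Option (Node l ⊕ Node r))

/-- A vertex of the right subtree. -/
def nR (q : E) (l r : PT α E) (v : Node r) : Node (node q l r) :=
  (some (Sum.inr v) : Option (Node l ⊕ Node r))

theorem nL_injective (q : E) (l r : PT α E) : Function.Injective (nL q l r) := by
  intro a b h
  exact Sum.inl_injective (Option.some.inj h)

theorem nR_injective (q : E) (l r : PT α E) : Function.Injective (nR q l r) := by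
  intro a b h
  exact Sum.inr_injective (Option.some.inj h)

theorem nL_ne_nTop (q : E) (l r : PT α E) (v : Node l) : nL q l r v ≠ nTop q l r := by
  intro h
  exact Option.some_ne_none _ h

theorem nR_ne_nTop (q : E) (l r : PT α E) (v : Node r) : nR q l r v ≠ nTop q l r := by
  intro h
  exact Option.some_ne_none _ h

theorem nL_ne_nR (q : E) (l r : PT α E) (v : Node l) (w : Node r) :
    nL q l r v ≠ nR q l r w := by
  intro h
  have h' := Option.some.inj h
  simp at h'

theorem node_cases {q : E} {l r : PT α E} (v : Node (node q l r)) :
    v = nTop q l r ∨ (∃ u : Node l, v = nL q l r u) ∨ ∃ u : Node r, v = nR q l r u := by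
  change Option (Node l ⊕ Node r) at v
  rcases v with _ | v | v
  · exact Or.inl rfl
  · exact Or.inr (Or.inl ⟨v, rfl⟩)
  · exact Or.inr (Or.inr ⟨v, rfl⟩)

theorem sum_node {M : Type*} [AddCommMonoid M] (q : E) (l r : PT α E)
    (g : Node (node q l r) → M) :
    ∑ v, g v = g (nTop q l r) + (∑ v, g (nL q l r v) + ∑ v, g (nR q l r v)) := by
  have h : ∑ v : Option (Node l ⊕ Node r), (g : Option (Node l ⊕ Node r) → M) v = _ :=
    Fintype.sum_option _
  rw [Fintype.sum_sum_type] at h
  exact h

/-- The parent of a vertex; the top vertex has none. -/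
def par : (t : PT α E) → Node t → Option (Node t)
  | leaf _ => fun _ => none
  | node q l r => fun v => match (v : Option (Node l ⊕ Node r)) with
    | none => none
    | some (Sum.inl v) => some ((par l v).elim (nTop q l r) (nL q l r))
    | some (Sum.inr v) => some ((par r v).elim (nTop q l r) (nR q l r))

theorem par_leaf (a : α) (v : Node (leaf a : PT α E)) : par (leaf a) v = none := rfl

theorem par_nTop (q : E) (l r : PT α E) : par (node q l r) (nTop q l r) = none := rfl

theorem par_nL (q : E) (l r : PT α E) (v : Node l) :
    par (node q l r) (nL q l r v) = some ((par l v).elim (nTop q l r) (nL q l r)) := rfl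

theorem par_nR (q : E) (l r : PT α E) (v : Node r) :
    par (node q l r) (nR q l r v) = some ((par r v).elim (nTop q l r) (nR q l r)) := rfl

/-- The position of a vertex. -/
def pos (y : α → E) : (t : PT α E) → Node t → E
  | leaf a => fun _ => y a
  | node q l r => fun v => match (v : Option (Node l ⊕ Node r)) with
    | none => q
    | some (Sum.inl v) => pos y l v
    | some (Sum.inr v) => pos y r v

theorem pos_leaf (y : α → E) (a : α) (v : Node (leaf a : PT α E)) : pos y (leaf a) v = y a := rfl

theorem pos_nTop (y : α → E) (q : E) (l r : PT α E) : pos y (node q l r) (nTop q l r) = q := rfl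

theorem pos_nL (y : α → E) (q : E) (l r : PT α E) (v : Node l) :
    pos y (node q l r) (nL q l r v) = pos y l v := rfl

theorem pos_nR (y : α → E) (q : E) (l r : PT α E) (v : Node r) :
    pos y (node q l r) (nR q l r v) = pos y r v := rfl

/-- The label of a leaf. -/
def lab : (t : PT α E) → Node t → Option α
  | leaf a => fun _ => some a
  | node _ l r => fun v => match (v : Option (Node l ⊕ Node r)) with
    | none => none
    | some (Sum.inl v) => lab l v
    | some (Sum.inr v) => lab r v

theorem lab_leaf (a : α) (v : Node (leaf a : PT α E)) : lab (leaf a) v = some a := rfl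

theorem lab_nTop (q : E) (l r : PT α E) : lab (node q l r) (nTop q l r) = none := rfl

theorem lab_nL (q : E) (l r : PT α E) (v : Node l) :
    lab (node q l r) (nL q l r v) = lab l v := rfl

theorem lab_nR (q : E) (l r : PT α E) (v : Node r) :
    lab (node q l r) (nR q l r v) = lab r v := rfl

/-- The depth of a vertex. -/
def dep : (t : PT α E) → Node t → ℕ
  | leaf _ => fun _ => 0
  | node _ l r => fun v => match (v : Option (Node l ⊕ Node r)) with
    | none => 0
    | some (Sum.inl v) => dep l v + 1
    | some (Sum.inr v) => dep r v + 1

theorem dep_nTop (q : E) (l r : PT α E) : dep (node q l r) (nTop q l r) = 0 := rfl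

theorem dep_nL (q : E) (l r : PT α E) (v : Node l) :
    dep (node q l r) (nL q l r v) = dep l v + 1 := rfl

theorem dep_nR (q : E) (l r : PT α E) (v : Node r) :
    dep (node q l r) (nR q l r v) = dep r v + 1 := rfl

/-- The position of a vertex or of the root point. -/
def posO (y : α → E) (t : PT α E) (p : E) (o : Option (Node t)) : E := o.elim p (pos y t)

theorem posO_nL (y : α → E) (q : E) (l r : PT α E) (p : E) (o : Option (Node l)) :
    posO y (node q l r) p (some (o.elim (nTop q l r) (nL q l r))) = posO y l q o := by
  cases o <;> rfl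

theorem posO_nR (y : α → E) (q : E) (l r : PT α E) (p : E) (o : Option (Node r)) :
    posO y (node q l r) p (some (o.elim (nTop q l r) (nR q l r))) = posO y r q o := by
  cases o <;> rfl

theorem sum_len [PseudoMetricSpace E] (y : α → E) (t : PT α E) (p : E) :
    ∑ v, dist (posO y t p (par t v)) (pos y t v) = t.len y p := by
  induction t generalizing p with
  | leaf a =>
    change ∑ v : Unit, dist p (y a) = dist p (y a)
    simp
  | node q l r ihl ihr =>
    rw [sum_node]
    simp only [par_nL, par_nR, pos_nL, pos_nR, posO_nL, posO_nR, ihl q, ihr q]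
    change dist p q + _ = dist p q + l.len y q + r.len y q
    ring

theorem posO_ne {y : α → E} {t : PT α E} {p : E} (h : t.Pos y p) (v : Node t) :
    posO y t p (par t v) ≠ pos y t v := by
  induction t generalizing p with
  | leaf a => exact h
  | node q l r ihl ihr =>
    obtain ⟨h1, h2, h3⟩ := h
    rcases node_cases v with rfl | ⟨u, rfl⟩ | ⟨u, rfl⟩
    · exact h1
    · rw [par_nL, posO_nL, pos_nL]; exact ihl h2 u
    · rw [par_nR, posO_nR, pos_nR]; exact ihr h3 u

theorem dep_lt {t : PT α E} {v w : Node t} (h : par t v = some w) : dep t w < dep t v := by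
  induction t with
  | leaf a => rw [par_leaf] at h; exact absurd h (by simp)
  | node q l r ihl ihr =>
    rcases node_cases v with rfl | ⟨u, rfl⟩ | ⟨u, rfl⟩
    · rw [par_nTop] at h; exact absurd h (by simp)
    · rw [par_nL] at h
      have h' := Option.some.inj h
      cases h2 : par l u with
      | none =>
        rw [h2] at h'
        subst h'
        rw [dep_nL]
        exact Nat.succ_pos _
      | some z =>
        rw [h2] at h'
        subst h'
        have := ihl h2
        change dep (node q l r) (nL q l r z) < _
        rw [dep_nL, dep_nL]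
        omega
    · rw [par_nR] at h
      have h' := Option.some.inj h
      cases h2 : par r u with
      | none =>
        rw [h2] at h'
        subst h'
        rw [dep_nR]
        exact Nat.succ_pos _
      | some z =>
        rw [h2] at h'
        subst h'
        have := ihr h2
        change dep (node q l r) (nR q l r z) < _
        rw [dep_nR, dep_nR]
        omega

theorem pos_of_lab {y : α → E} {t : PT α E} {v : Node t} {a : α} (h : lab t v = some a) :
    pos y t v = y a := by
  induction t with
  | leaf b =>
    rw [lab_leaf] at h
    rw [← Option.some.inj h]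
    rfl
  | node q l r ihl ihr =>
    rcases node_cases v with rfl | ⟨u, rfl⟩ | ⟨u, rfl⟩
    · rw [lab_nTop] at h; exact absurd h (by simp)
    · exact ihl h
    · exact ihr h

theorem exists_lab_iff {t : PT α E} {a : α} : (∃ v, lab t v = some a) ↔ a ∈ t.leaves := by
  induction t with
  | leaf b =>
    constructor
    · rintro ⟨v, h⟩
      rw [lab_leaf] at h
      rw [← Option.some.inj h]
      simp [leaves]
    · intro h
      have h' : a = b := by simpa [leaves] using h
      exact ⟨(), by rw [h']; rfl⟩
  | node q l r ihl ihr =>
    simp only [leaves, List.mem_append, ← ihl, ← ihr]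
    constructor
    · rintro ⟨v, h⟩
      rcases node_cases v with rfl | ⟨u, rfl⟩ | ⟨u, rfl⟩
      · rw [lab_nTop] at h; exact absurd h (by simp)
      · exact Or.inl ⟨u, h⟩
      · exact Or.inr ⟨u, h⟩
    · rintro (⟨u, h⟩ | ⟨u, h⟩)
      · exact ⟨nL q l r u, h⟩
      · exact ⟨nR q l r u, h⟩

theorem lab_inj {t : PT α E} (hnd : t.leaves.Nodup) {v w : Node t} {a : α}
    (hv : lab t v = some a) (hw : lab t w = some a) : v = w := by
  induction t with
  | leaf b => rfl
  | node q l r ihl ihr =>
    simp only [leaves, List.nodup_append] at hnd
    obtain ⟨hl, hr, hlr⟩ := hnd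
    rcases node_cases v with rfl | ⟨u, rfl⟩ | ⟨u, rfl⟩
    · rw [lab_nTop] at hv; exact absurd hv (by simp)
    · rcases node_cases w with rfl | ⟨u', rfl⟩ | ⟨u', rfl⟩
      · rw [lab_nTop] at hw; exact absurd hw (by simp)
      · rw [ihl hl hv hw]
      · exact absurd rfl (hlr a (exists_lab_iff.1 ⟨u, hv⟩) a (exists_lab_iff.1 ⟨u', hw⟩))
    · rcases node_cases w with rfl | ⟨u', rfl⟩ | ⟨u', rfl⟩
      · rw [lab_nTop] at hw; exact absurd hw (by simp)
      · exact absurd rfl (hlr a (exists_lab_iff.1 ⟨u', hw⟩) a (exists_lab_iff.1 ⟨u, hv⟩))
      · rw [ihr hr hv hw]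

theorem card_inner (t : PT α E) :
    (∑ v : Node t, if (lab t v).isNone then 1 else 0) + 1 = t.leaves.length := by
  induction t with
  | leaf a =>
    change (∑ v : Unit, if (some a : Option α).isNone then 1 else 0) + 1 = 1
    simp
  | node q l r ihl ihr =>
    have h := sum_node q l r (fun v => if (lab (node q l r) v).isNone then 1 else 0)
    have h0 : (if (lab (node q l r) (nTop q l r)).isNone then 1 else 0) = 1 := rfl
    have h1 : (∑ v : Node l, if (lab (node q l r) (nL q l r v)).isNone then 1 else 0)
        = ∑ v : Node l, if (lab l v).isNone then 1 else 0 := rfl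
    have h2 : (∑ v : Node r, if (lab (node q l r) (nR q l r v)).isNone then 1 else 0)
        = ∑ v : Node r, if (lab r v).isNone then 1 else 0 := rfl
    have h3 : (node q l r).leaves.length = l.leaves.length + r.leaves.length := by
      simp [leaves]
    rw [h3, ← ihl, ← ihr, h, h0, h1, h2]
    omega

/-- The number of vertices with a given parent. -/
noncomputable def cnt (t : PT α E) (o : Option (Node t)) : ℕ :=
  open Classical in ∑ v : Node t, if par t v = o then 1 else 0

theorem cnt_none (t : PT α E) : cnt t none = 1 := by
  classical
  cases t with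
  | leaf a =>
    change (∑ v : Unit, if (none : Option Unit) = none then 1 else 0) = 1
    simp
  | node q l r =>
    unfold cnt
    rw [sum_node]
    simp only [par_nTop, par_nL, par_nR, if_true, reduceCtorEq, if_false,
      Finset.sum_const_zero, add_zero]

theorem cnt_nTop (q : E) (l r : PT α E) : cnt (node q l r) (some (nTop q l r)) = 2 := by
  classical
  unfold cnt
  rw [sum_node]
  have h2 : ∀ v : Node l, (if par (node q l r) (nL q l r v) = some (nTop q l r) then 1 else 0)
      = (if par l v = none then 1 else 0) := by
    intro v
    rw [par_nL]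
    cases h : par l v with
    | none => rw [if_pos rfl]; exact if_pos rfl
    | some w =>
      rw [if_neg, if_neg (by simp)]
      intro h'
      exact nL_ne_nTop q l r w (Option.some.inj h')
  have h3 : ∀ v : Node r, (if par (node q l r) (nR q l r v) = some (nTop q l r) then 1 else 0)
      = (if par r v = none then 1 else 0) := by
    intro v
    rw [par_nR]
    cases h : par r v with
    | none => rw [if_pos rfl]; exact if_pos rfl
    | some w =>
      rw [if_neg, if_neg (by simp)]
      intro h'
      exact nR_ne_nTop q l r w (Option.some.inj h')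
  simp only [h2, h3, par_nTop, reduceCtorEq, if_false, zero_add]
  have h4 := cnt_none l
  have h5 := cnt_none r
  unfold cnt at h4 h5
  rw [h4, h5]

theorem cnt_nL (q : E) (l r : PT α E) (w : Node l) :
    cnt (node q l r) (some (nL q l r w)) = cnt l (some w) := by
  classical
  unfold cnt
  rw [sum_node]
  have h2 : ∀ v : Node l, (if par (node q l r) (nL q l r v) = some (nL q l r w) then 1 else 0)
      = (if par l v = some w then 1 else 0) := by
    intro v
    rw [par_nL]
    cases h : par l v with
    | none =>
      rw [if_neg, if_neg (by simp)]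
      intro h'
      exact nL_ne_nTop q l r w (Option.some.inj h').symm
    | some w' =>
      by_cases h' : w' = w
      · subst h'
        rw [if_pos rfl]
        exact if_pos rfl
      · rw [if_neg, if_neg (by simpa using h')]
        intro h''
        exact h' (nL_injective q l r (Option.some.inj h''))
  have h3 : ∀ v : Node r, (if par (node q l r) (nR q l r v) = some (nL q l r w) then 1 else 0)
      = 0 := by
    intro v
    rw [par_nR]
    cases h : par r v with
    | none =>
      refine if_neg ?_
      intro h'
      exact nL_ne_nTop q l r w (Option.some.inj h').symm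
    | some w' =>
      refine if_neg ?_
      intro h'
      exact nL_ne_nR q l r w w' (Option.some.inj h').symm
  simp only [h2, h3, par_nTop, reduceCtorEq, if_false, zero_add, Finset.sum_const_zero, add_zero]

theorem cnt_nR (q : E) (l r : PT α E) (w : Node r) :
    cnt (node q l r) (some (nR q l r w)) = cnt r (some w) := by
  classical
  unfold cnt
  rw [sum_node]
  have h2 : ∀ v : Node r, (if par (node q l r) (nR q l r v) = some (nR q l r w) then 1 else 0)
      = (if par r v = some w then 1 else 0) := by
    intro v
    rw [par_nR]
    cases h : par r v with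
    | none =>
      rw [if_neg, if_neg (by simp)]
      intro h'
      exact nR_ne_nTop q l r w (Option.some.inj h').symm
    | some w' =>
      by_cases h' : w' = w
      · subst h'
        rw [if_pos rfl]
        exact if_pos rfl
      · rw [if_neg, if_neg (by simpa using h')]
        intro h''
        exact h' (nR_injective q l r (Option.some.inj h''))
  have h3 : ∀ v : Node l, (if par (node q l r) (nL q l r v) = some (nR q l r w) then 1 else 0)
      = 0 := by
    intro v
    rw [par_nL]
    cases h : par l v with
    | none =>
      refine if_neg ?_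
      intro h'
      exact nR_ne_nTop q l r w (Option.some.inj h').symm
    | some w' =>
      refine if_neg ?_
      intro h'
      exact nL_ne_nR q l r w' w (Option.some.inj h')
  simp only [h2, h3, par_nTop, reduceCtorEq, if_false, zero_add, Finset.sum_const_zero, add_zero]

theorem cnt_some {t : PT α E} (w : Node t) :
    cnt t (some w) = if (lab t w).isNone then 2 else 0 := by
  classical
  induction t with
  | leaf a =>
    have h1 : cnt (leaf a : PT α E) (some w) = 0 := by
      unfold cnt
      refine Finset.sum_eq_zero (fun v _ => if_neg ?_)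
      rw [par_leaf]
      simp
    rw [h1, lab_leaf]
    rfl
  | node q l r ihl ihr =>
    rcases node_cases w with rfl | ⟨u, rfl⟩ | ⟨u, rfl⟩
    · rw [cnt_nTop, lab_nTop]
      rfl
    · rw [cnt_nL, ihl u, lab_nL]
    · rw [cnt_nR, ihr u, lab_nR]

theorem eq_leaf_of_top {t : PT α E} {v : Node t} {a : α} (hv : par t v = none)
    (hl : lab t v = some a) : t = leaf a := by
  cases t with
  | leaf b =>
    rw [lab_leaf] at hl
    rw [Option.some.inj hl]
  | node q l r =>
    exfalso
    rcases node_cases v with rfl | ⟨u, rfl⟩ | ⟨u, rfl⟩
    · rw [lab_nTop] at hl; exact absurd hl (by simp)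
    · rw [par_nL] at hv; exact absurd hv (by simp)
    · rw [par_nR] at hv; exact absurd hv (by simp)

theorem elim_nL_inj {q : E} {l r : PT α E} {o o' : Option (Node l)}
    (h : o.elim (nTop q l r) (nL q l r) = o'.elim (nTop q l r) (nL q l r)) : o = o' := by
  cases o with
  | none =>
    cases o' with
    | none => rfl
    | some w => exact absurd h.symm (nL_ne_nTop q l r w)
  | some v =>
    cases o' with
    | none => exact absurd h (nL_ne_nTop q l r v)
    | some w => rw [nL_injective q l r h]

theorem elim_nR_inj {q : E} {l r : PT α E} {o o' : Option (Node r)}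
    (h : o.elim (nTop q l r) (nR q l r) = o'.elim (nTop q l r) (nR q l r)) : o = o' := by
  cases o with
  | none =>
    cases o' with
    | none => rfl
    | some w => exact absurd h.symm (nR_ne_nTop q l r w)
  | some v =>
    cases o' with
    | none => exact absurd h (nR_ne_nTop q l r v)
    | some w => rw [nR_injective q l r h]

theorem elim_nL_nR {q : E} {l r : PT α E} {o : Option (Node l)} {o' : Option (Node r)}
    (h : o.elim (nTop q l r) (nL q l r) = o'.elim (nTop q l r) (nR q l r)) :
    o = none ∧ o' = none := by
  cases o with
  | none =>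
    cases o' with
    | none => exact ⟨rfl, rfl⟩
    | some w => exact absurd h.symm (nR_ne_nTop q l r w)
  | some v =>
    cases o' with
    | none => exact absurd h (nL_ne_nTop q l r v)
    | some w => exact absurd h (nL_ne_nR q l r v w)

theorem cherry_iff {t : PT α E} {i j : α} (hij : i ≠ j) :
    t.Cherry i j ↔ ∃ v w, lab t v = some i ∧ lab t w = some j ∧ par t v = par t w := by
  induction t with
  | leaf a =>
    constructor
    · intro h; exact absurd h (by simp [Cherry])
    · rintro ⟨v, w, h1, h2, -⟩
      exfalso
      apply hij
      rw [lab_leaf] at h1 h2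
      exact Option.some.inj (h1.symm.trans h2)
  | node q l r ihl ihr =>
    constructor
    · rintro (⟨rfl, rfl⟩ | ⟨rfl, rfl⟩ | h | h)
      · exact ⟨nL q _ _ (), nR q _ _ (), rfl, rfl, rfl⟩
      · exact ⟨nR q _ _ (), nL q _ _ (), rfl, rfl, rfl⟩
      · obtain ⟨v, w, h1, h2, h3⟩ := ihl.1 h
        refine ⟨nL q l r v, nL q l r w, h1, h2, ?_⟩
        rw [par_nL, par_nL, h3]
      · obtain ⟨v, w, h1, h2, h3⟩ := ihr.1 h
        refine ⟨nR q l r v, nR q l r w, h1, h2, ?_⟩
        rw [par_nR, par_nR, h3]
    · rintro ⟨v, w, h1, h2, h3⟩
      rcases node_cases v with rfl | ⟨u, rfl⟩ | ⟨u, rfl⟩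
      · rw [lab_nTop] at h1; exact absurd h1 (by simp)
      · rcases node_cases w with rfl | ⟨u', rfl⟩ | ⟨u', rfl⟩
        · rw [lab_nTop] at h2; exact absurd h2 (by simp)
        · rw [par_nL, par_nL] at h3
          exact Or.inr (Or.inr (Or.inl (ihl.2 ⟨u, u', h1, h2, elim_nL_inj (Option.some.inj h3)⟩)))
        · rw [par_nL, par_nR] at h3
          obtain ⟨h4, h5⟩ := elim_nL_nR (Option.some.inj h3)
          exact Or.inl ⟨eq_leaf_of_top h4 h1, eq_leaf_of_top h5 h2⟩
      · rcases node_cases w with rfl | ⟨u', rfl⟩ | ⟨u', rfl⟩
        · rw [lab_nTop] at h2; exact absurd h2 (by simp)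
        · rw [par_nL, par_nR] at h3
          obtain ⟨h4, h5⟩ := elim_nL_nR (Option.some.inj h3).symm
          exact Or.inr (Or.inl ⟨eq_leaf_of_top h4 h2, eq_leaf_of_top h5 h1⟩)
        · rw [par_nR, par_nR] at h3
          exact Or.inr (Or.inr (Or.inr (ihr.2 ⟨u, u', h1, h2, elim_nR_inj (Option.some.inj h3)⟩)))

end Pool.Agent.Lib.H21Steiner.PT
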