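import Pool.Agent.Lib.H21Steiner.BridgeA
import Pool.Agent.Lib.H21Steiner.BridgeB

/-!
# Minimal drawings of binary trees are Steiner trees with full topologies
-/

namespace Pool.Agent.Lib.H21Steiner

open MeasureTheory

namespace PT

variable {α E : Type*}

/-- The parent function on the vertices together with the root point. -/
def fO (t : PT α E) (o : Option (Node t)) : Option (Node t) := o.elim none (par t)

/-- The rank of a vertex or of the root point. -/
def rkO (t : PT α E) (o : Option (Node t)) : ℕ := o.elim 0 (fun v => dep t v + 1)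

theorem rkO_lt (t : PT α E) (o : Option (Node t)) (ho : o ≠ none) :
    rkO t (fO t o) < rkO t o := by
  cases o with
  | none => exact absurd rfl ho
  | some v =>
    change rkO t (par t v) < dep t v + 1
    cases h : par t v with
    | none => exact Nat.succ_pos _
    | some w =>
      have := dep_lt h
      change dep t w + 1 < dep t v + 1
      omega

theorem ncard_par (t : PT α E) (o : Option (Node t)) : {w | par t w = o}.ncard = cnt t o := by
  classical
  have h : {w | par t w = o} = ↑(Finset.univ.filter (fun w => par t w = o)) := by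
    ext w; simp
  unfold cnt
  rw [h, Set.ncard_coe_finset, Finset.card_filter]

theorem nbr_none (t : PT α E) :
    (PG (fO t) none).neighborSet none = some '' {w | par t w = none} := by
  ext b
  rw [SimpleGraph.mem_neighborSet, PG_adj]
  constructor
  · rintro ⟨h1, ⟨h2, -⟩ | ⟨h2, h3⟩⟩
    · exact absurd rfl h2
    · cases b with
      | none => exact absurd rfl h2
      | some w => exact ⟨w, h3, rfl⟩
  · rintro ⟨w, hw, rfl⟩
    exact ⟨by simp, Or.inr ⟨by simp, hw⟩⟩

theorem par_ne (t : PT α E) (v : Node t) : par t v ≠ some v := by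
  intro h
  exact lt_irrefl _ (dep_lt h)

theorem nbr_some (t : PT α E) (v : Node t) :
    (PG (fO t) none).neighborSet (some v) = insert (par t v) (some '' {w | par t w = some v}) := by
  ext b
  rw [SimpleGraph.mem_neighborSet, PG_adj]
  constructor
  · rintro ⟨h1, ⟨h2, h3⟩ | ⟨h2, h3⟩⟩
    · exact Or.inl h3.symm
    · cases b with
      | none => exact absurd rfl h2
      | some w => exact Or.inr ⟨w, h3, rfl⟩
  · rintro (h | ⟨w, hw, rfl⟩)
    · refine ⟨fun h' => par_ne t v (h.symm.trans h'.symm), Or.inl ⟨by simp, h.symm⟩⟩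
    · refine ⟨fun h' => ?_, Or.inr ⟨by simp, hw⟩⟩
      have := Option.some.inj h'
      subst this
      exact par_ne t v hw

theorem ncard_nbr_none (t : PT α E) : ((PG (fO t) none).neighborSet none).ncard = 1 := by
  rw [nbr_none, Set.ncard_image_of_injective _ (Option.some_injective _), ncard_par, cnt_none]

theorem ncard_nbr_some (t : PT α E) (v : Node t) :
    ((PG (fO t) none).neighborSet (some v)).ncard = (if (lab t v).isNone then 2 else 0) + 1 := by
  rw [nbr_some, Set.ncard_insert_of_notMem, Set.ncard_image_of_injective _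
    (Option.some_injective _), ncard_par, cnt_some]
  · rintro ⟨w, hw, h⟩
    have h1 := dep_lt hw
    have h2 := dep_lt h.symm
    omega

theorem no_child {t : PT α E} {v : Node t} {i : α} (hv : lab t v = some i) (w : Node t) :
    par t w ≠ some v := by
  intro hw
  have h1 : cnt t (some v) = 0 := by
    rw [cnt_some, hv]
    rfl
  rw [← ncard_par] at h1
  rw [Set.ncard_eq_zero] at h1
  have : w ∈ {w | par t w = some v} := hw
  rw [h1] at this
  exact this

theorem adj_leaf {t : PT α E} {v : Node t} {i : α} (hv : lab t v = some i)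
    (b : Option (Node t)) : (PG (fO t) none).Adj (some v) b ↔ b = par t v := by
  rw [← SimpleGraph.mem_neighborSet, nbr_some]
  constructor
  · rintro (h | ⟨w, hw, -⟩)
    · exact h
    · exact absurd hw (no_child hv w)
  · intro h
    exact Or.inl h

theorem exists_equiv {n : ℕ} (hn : 3 ≤ n) (t : PT (Fin n) E) (i0 : Fin n)
    (hnd : t.leaves.Nodup) (hlv : ∀ i, i ∈ t.leaves ↔ i ≠ i0) :
    ∃ e : Option (Node t) ≃ Vert n, e none = Sum.inl i0 ∧
      (∀ v i, lab t v = some i → e (some v) = Sum.inl i) ∧
      ∀ s, ∃ v, e (some v) = Sum.inr s ∧ (lab t v).isNone = true := by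
  classical
  have hlen : t.leaves.length = n - 1 := by
    have h1 : t.leaves.toFinset = Finset.univ.erase i0 := by
      ext i
      simp [hlv]
    have h2 := List.toFinset_card_of_nodup hnd
    rw [h1, Finset.card_erase_of_mem (Finset.mem_univ _), Finset.card_univ, Fintype.card_fin] at h2
    exact h2.symm
  have hcard : Fintype.card {v : Node t // (lab t v).isNone = true} = Fintype.card (Fin (n - 2)) := by
    have h1 := card_inner t
    rw [← Finset.card_filter] at h1
    rw [Fintype.card_subtype, Fintype.card_fin]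
    omega
  obtain ⟨ψ⟩ : Nonempty ({v : Node t // (lab t v).isNone = true} ≃ Fin (n - 2)) :=
    Fintype.card_eq.1 hcard
  obtain ⟨g, hg⟩ : ∃ g : Option (Node t) → Vert n, g = fun o => o.elim (Sum.inl i0)
      (fun v => if h : (lab t v).isNone = true then Sum.inr (ψ ⟨v, h⟩)
        else Sum.inl ((lab t v).getD i0)) := ⟨_, rfl⟩
  have g0 : g none = Sum.inl i0 := by rw [hg]; rfl
  have g1 : ∀ v i, lab t v = some i → g (some v) = Sum.inl i := by
    intro v i hv
    rw [hg]
    change (if h : (lab t v).isNone = true then Sum.inr (ψ ⟨v, h⟩)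
        else Sum.inl ((lab t v).getD i0)) = Sum.inl i
    rw [dif_neg (by rw [hv]; simp), hv]
    rfl
  have g2 : ∀ v (h : (lab t v).isNone = true), g (some v) = Sum.inr (ψ ⟨v, h⟩) := by
    intro v h
    rw [hg]
    change (if h : (lab t v).isNone = true then Sum.inr (ψ ⟨v, h⟩)
        else Sum.inl ((lab t v).getD i0)) = _
    rw [dif_pos h]
  have hcase : ∀ v : Node t, (lab t v).isNone = true ∨ ∃ i, lab t v = some i := by
    intro v
    cases h : lab t v with
    | none => exact Or.inl rfl
    | some i => exact Or.inr ⟨i, rfl⟩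
  have hinj : Function.Injective g := by
    intro o o' h
    cases o with
    | none =>
      cases o' with
      | none => rfl
      | some w =>
        exfalso
        rw [g0] at h
        rcases hcase w with hw | ⟨i, hw⟩
        · rw [g2 w hw] at h
          simp at h
        · rw [g1 w i hw] at h
          exact (hlv i).1 (exists_lab_iff.1 ⟨w, hw⟩) (Sum.inl_injective h).symm
    | some v =>
      cases o' with
      | none =>
        exfalso
        rw [g0] at h
        rcases hcase v with hw | ⟨i, hw⟩
        · rw [g2 v hw] at h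
          simp at h
        · rw [g1 v i hw] at h
          exact (hlv i).1 (exists_lab_iff.1 ⟨v, hw⟩) (Sum.inl_injective h)
      | some w =>
        rcases hcase v with hv | ⟨i, hv⟩
        · rcases hcase w with hw | ⟨j, hw⟩
          · rw [g2 v hv, g2 w hw] at h
            have := ψ.injective (Sum.inr_injective h)
            exact congrArg some (congrArg Subtype.val this)
          · rw [g2 v hv, g1 w j hw] at h
            simp at h
        · rcases hcase w with hw | ⟨j, hw⟩
          · rw [g1 v i hv, g2 w hw] at h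
            simp at h
          · rw [g1 v i hv, g1 w j hw] at h
            have := Sum.inl_injective h
            subst this
            rw [lab_inj hnd hv hw]
  have hsurj : Function.Surjective g := by
    rintro (i | s)
    · by_cases hi : i = i0
      · exact ⟨none, by rw [g0, hi]⟩
      · obtain ⟨v, hv⟩ := exists_lab_iff.2 ((hlv i).2 hi)
        exact ⟨some v, g1 v i hv⟩
    · refine ⟨some (ψ.symm s).1, ?_⟩
      rw [g2 _ (ψ.symm s).2]
      simp
  refine ⟨Equiv.ofBijective g ⟨hinj, hsurj⟩, g0, g1, ?_⟩
  intro s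
  refine ⟨(ψ.symm s).1, ?_, (ψ.symm s).2⟩
  change g (some (ψ.symm s).1) = _
  rw [g2 _ (ψ.symm s).2]
  simp

end PT

section Transfer

variable {W V : Type*} (e : W ≃ V) (f : W → W) (ρ : W)

theorem PG_transfer (a b : W) :
    (PG (fun v => e (f (e.symm v))) (e ρ)).Adj (e a) (e b) ↔ (PG f ρ).Adj a b := by
  simp only [PG_adj, ne_eq, EmbeddingLike.apply_eq_iff_eq, Equiv.symm_apply_apply]

theorem nbr_transfer (a : W) :
    (PG (fun v => e (f (e.symm v))) (e ρ)).neighborSet (e a) = e '' (PG f ρ).neighborSet a := by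
  ext v
  obtain ⟨b, rfl⟩ := e.surjective v
  rw [SimpleGraph.mem_neighborSet, PG_transfer, Set.mem_image]
  constructor
  · intro h
    exact ⟨b, h, rfl⟩
  · rintro ⟨b', h, h'⟩
    rw [← e.injective h']
    exact h

theorem ncard_transfer (a : W) :
    ((PG (fun v => e (f (e.symm v))) (e ρ)).neighborSet (e a)).ncard
      = ((PG f ρ).neighborSet a).ncard := by
  rw [nbr_transfer, Set.ncard_image_of_injective _ e.injective]

end Transfer

theorem isConnected_body {E W : Type*} [NormedAddCommGroup E] [NormedSpace ℝ E]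
    {G : SimpleGraph W} {x : W → E} (hG : G.Connected) {u v : W} (huv : G.Adj u v) :
    IsConnected (body G x) ∧ ∀ c, x c ∈ body G x := by
  have hseg : segment ℝ (x u) (x v) ⊆ body G x := fun t ht => mem_body.2 ⟨u, v, huv, ht⟩
  refine conn_of_join (u := u) (v := v) (S := segment ℝ (x u) (x v)) hG ?_ ?_ ?_ ?_
  · ext y
    constructor
    · intro hy
      obtain ⟨a, b, hab, hy⟩ := mem_body.1 hy
      by_cases he : s(a, b) = s(u, v)
      · right
        rcases Sym2.eq_iff.1 he with ⟨rfl, rfl⟩ | ⟨rfl, rfl⟩
        · exact hy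
        · rw [segment_symm]; exact hy
      · left
        refine mem_body.2 ⟨a, b, ?_, hy⟩
        rw [SimpleGraph.deleteEdges_adj]
        exact ⟨hab, fun h => he (Set.mem_singleton_iff.1 h)⟩
    · rintro (hy | hy)
      · obtain ⟨a, b, hab, hy⟩ := mem_body.1 hy
        rw [SimpleGraph.deleteEdges_adj] at hab
        exact mem_body.2 ⟨a, b, hab.1, hy⟩
      · exact hseg hy
  · intro y hy
    exact JoinedIn.of_segment_subset ((segment_subset_left hy).trans hseg)
  · exact hseg (left_mem_segment ℝ _ _)
  · exact JoinedIn.of_segment_subset hseg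

/-- A drawn binary tree whose total length is at most the measure of every compact connected set
that contains the terminals gives a Steiner tree with a full topology, and the cherries of the
topology are those of the tree. -/
theorem bridge {d n : ℕ} (hn : 3 ≤ n) (a : Fin n → EuclideanSpace ℝ (Fin d))
    (t : PT (Fin n) (EuclideanSpace ℝ (Fin d))) (i0 : Fin n) (hnd : t.leaves.Nodup)
    (hlv : ∀ i, i ∈ t.leaves ↔ i ≠ i0) (hpos : t.Pos a (a i0))
    (hmin : ∀ K' : Set (EuclideanSpace ℝ (Fin d)), IsCompact K' → IsConnected K' →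
      Set.range a ⊆ K' → ENNReal.ofReal (t.len a (a i0)) ≤ μH[1] K') :
    Function.Injective a ∧ ∃ G ∈ optimalGraphs a, ∀ i j, i ≠ i0 → j ≠ i0 → i ≠ j →
      ((∃ v, G.Adj (Sum.inl i) v ∧ G.Adj (Sum.inl j) v) ↔ t.Cherry i j) := by
  classical
  obtain ⟨e, he0, he1, he2⟩ := PT.exists_equiv hn t i0 hnd hlv
  obtain ⟨f, hf⟩ : ∃ f : Vert n → Vert n, f = fun v => e (t.fO (e.symm v)) := ⟨_, rfl⟩
  obtain ⟨x, hx⟩ : ∃ x : Vert n → EuclideanSpace ℝ (Fin d),
    x = fun v => PT.posO a t (a i0) (e.symm v) := ⟨_, rfl⟩
  obtain ⟨rk, hrkd⟩ : ∃ rk : Vert n → ℕ, rk = fun v => t.rkO (e.symm v) := ⟨_, rfl⟩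
  have hfe : ∀ o, f (e o) = e (t.fO o) := by
    intro o; rw [hf]; simp
  have hxe : ∀ o, x (e o) = PT.posO a t (a i0) o := by
    intro o; rw [hx]; simp
  have hrke : ∀ o, rk (e o) = t.rkO o := by
    intro o; rw [hrkd]; simp
  have hrk : ∀ v, v ≠ e none → rk (f v) < rk v := by
    intro v hv
    obtain ⟨o, rfl⟩ := e.surjective v
    rw [hfe, hrke, hrke]
    exact PT.rkO_lt t o (fun h => hv (by rw [h]))
  have hxinl : ∀ i, x (Sum.inl i) = a i := by
    intro i
    by_cases hi : i = i0
    · rw [hi, ← he0, hxe]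
      rfl
    · obtain ⟨v, hv⟩ := PT.exists_lab_iff.2 ((hlv i).2 hi)
      rw [← he1 v i hv, hxe]
      exact PT.pos_of_lab hv
  have hA : Set.range a ⊆ Set.range x := by
    rintro _ ⟨i, rfl⟩
    exact ⟨Sum.inl i, hxinl i⟩
  have htot : totalLen f (e none) x = t.len a (a i0) := by
    unfold totalLen
    rw [Finset.sum_filter, ← Equiv.sum_comp e, Fintype.sum_option, if_neg (by simp), zero_add,
      ← PT.sum_len a t (a i0)]
    refine Finset.sum_congr rfl (fun v _ => ?_)
    rw [if_pos (by simp), hfe, hxe, hxe, dist_comm]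
    rfl
  have hmin' : ∀ K' : Set (EuclideanSpace ℝ (Fin d)), IsCompact K' → IsConnected K' →
      Set.range a ⊆ K' → ENNReal.ofReal (totalLen f (e none) x) ≤ μH[1] K' := by
    rw [htot]; exact hmin
  have hinj : Function.Injective x := by
    refine injective_of_min hrk hA hmin' ?_
    intro v hv
    obtain ⟨o, rfl⟩ := e.surjective v
    cases o with
    | none => exact absurd rfl hv
    | some v =>
      rw [hfe, hxe, hxe]
      exact (PT.posO_ne hpos v).symm
  have hG : PG f (e none) = PG (fun v => e (t.fO (e.symm v))) (e none) := by rw [hf]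
  have htree : (PG f (e none)).IsTree := PG_isTree hrk
  have hncard : ∀ o, ((PG f (e none)).neighborSet (e o)).ncard
      = ((PG t.fO none).neighborSet o).ncard := by
    intro o
    rw [hG]
    exact ncard_transfer e t.fO none o
  have hadj : ∀ o o', (PG f (e none)).Adj (e o) (e o') ↔ (PG t.fO none).Adj o o' := by
    intro o o'
    rw [hG]
    exact PG_transfer e t.fO none o o'
  refine ⟨?_, PG f (e none), ⟨⟨htree, ?_, ?_⟩, body (PG f (e none)) x, ?_, x, hinj, hxinl, ?_, rfl⟩,
    ?_⟩
  · intro i j hij
    rw [← hxinl, ← hxinl] at hij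
    exact Sum.inl_injective (hinj hij)
  · intro i
    by_cases hi : i = i0
    · rw [hi, ← he0, hncard, PT.ncard_nbr_none]
    · obtain ⟨v, hv⟩ := PT.exists_lab_iff.2 ((hlv i).2 hi)
      rw [← he1 v i hv, hncard, PT.ncard_nbr_some, hv]
      rfl
  · intro s
    obtain ⟨v, hv, hv'⟩ := he2 s
    rw [← hv, hncard, PT.ncard_nbr_some, if_pos hv']
  · obtain ⟨v⟩ : Nonempty (PT.Node t) := by
      obtain ⟨v, -⟩ := he2 ⟨0, by omega⟩
      exact ⟨v⟩
    have hvn : e (some v) ≠ e none := by simp
    obtain ⟨h1, h2⟩ := isConnected_body (x := x) htree.1 (PG_adj_parent hrk hvn)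
    refine ⟨isCompact_body, h1, ?_, ?_⟩
    · rintro _ ⟨i, rfl⟩
      rw [← hxinl]
      exact h2 _
    · intro K' h3 h4 h5
      exact measure_body_le.trans (hmin' K' h3 h4 h5)
  · exact cross_of_min hrk hA hmin' hinj
  · intro i j hi hj hij
    obtain ⟨v, hv⟩ := PT.exists_lab_iff.2 ((hlv i).2 hi)
    obtain ⟨w, hw⟩ := PT.exists_lab_iff.2 ((hlv j).2 hj)
    rw [← he1 v i hv, ← he1 w j hw, PT.cherry_iff hij]
    constructor
    · rintro ⟨u, h1, h2⟩
      obtain ⟨o, rfl⟩ := e.surjective u
      rw [hadj, PT.adj_leaf hv] at h1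
      rw [hadj, PT.adj_leaf hw] at h2
      exact ⟨v, w, hv, hw, h1.symm.trans h2⟩
    · rintro ⟨v', w', hv', hw', h⟩
      have h1 := PT.lab_inj hnd hv' hv
      have h2 := PT.lab_inj hnd hw' hw
      subst h1
      subst h2
      refine ⟨e (PT.par t v'), ?_, ?_⟩
      · rw [hadj, PT.adj_leaf hv]
      · rw [hadj, PT.adj_leaf hw, h]

end Pool.Agent.Lib.H21Steiner
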