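import Pool.Agent.Lib.H21Steiner.SepTree

/-!
# Minimal straight-line trees have the separation property
-/

namespace Pool.Agent.Lib.H21Steiner

open Metric MeasureTheory

variable {E : Type*} [NormedAddCommGroup E] [NormedSpace ℝ E]

theorem isCompact_seg (a b : E) : IsCompact (segment ℝ a b) := by
  rw [segment_eq_image_lineMap]
  exact isCompact_Icc.image (by fun_prop)

theorem segment_subset_left {a b y : E} (h : y ∈ segment ℝ a b) : segment ℝ a y ⊆ segment ℝ a b :=
  (convex_segment a b).segment_subset (left_mem_segment ℝ a b) h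

section

variable {V : Type*} (G : SimpleGraph V) (x : V → E)

/-- The union of the edges of a drawn graph. -/
def body : Set E := ⋃ (u : V) (v : V) (_ : G.Adj u v), segment ℝ (x u) (x v)

variable {G x}

theorem mem_body {y : E} : y ∈ body G x ↔ ∃ u v, G.Adj u v ∧ y ∈ segment ℝ (x u) (x v) := by
  simp [body]

theorem isCompact_body [Finite V] : IsCompact (body G x) :=
  isCompact_iUnion fun _ => isCompact_iUnion fun _ => isCompact_iUnion fun _ => isCompact_seg _ _

theorem reach_or {u v : V} (hG : G.Connected) (c : V) :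
    (G.deleteEdges {s(u, v)}).Reachable u c ∨ (G.deleteEdges {s(u, v)}).Reachable v c := by
  obtain ⟨p⟩ := hG.preconnected u c
  have key : ∀ (a b : V) (p : G.Walk a b), ((G.deleteEdges {s(u, v)}).Reachable u a ∨
      (G.deleteEdges {s(u, v)}).Reachable v a) → ((G.deleteEdges {s(u, v)}).Reachable u b ∨
      (G.deleteEdges {s(u, v)}).Reachable v b) := by
    intro a b p
    induction p with
    | nil => exact id
    | @cons a b c hab _ ih =>
        intro h
        apply ih
        by_cases he : s(a, b) = s(u, v)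
        · rcases Sym2.eq_iff.1 he with ⟨rfl, rfl⟩ | ⟨rfl, rfl⟩
          · exact Or.inr (SimpleGraph.Reachable.refl _)
          · exact Or.inl (SimpleGraph.Reachable.refl _)
        · have hab' : (G.deleteEdges {s(u, v)}).Adj a b := by
            rw [SimpleGraph.deleteEdges_adj]
            exact ⟨hab, he⟩
          rcases h with h | h
          · exact Or.inl (h.trans hab'.reachable)
          · exact Or.inr (h.trans hab'.reachable)
  exact key u c p (Or.inl (SimpleGraph.Reachable.refl _))

variable [MeasurableSpace E] [BorelSpace E]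

theorem body_lt_top [Finite V] : μH[1] (body G x) < ⊤ := by
  have h1 : body G x ⊆ ⋃ q ∈ (Set.univ : Set (V × V)), segment ℝ (x q.1) (x q.2) := by
    intro y hy
    obtain ⟨u, v, -, hy⟩ := mem_body.1 hy
    exact Set.mem_biUnion (Set.mem_univ (u, v)) hy
  refine lt_of_le_of_lt (measure_mono h1) (measure_biUnion_lt_top Set.finite_univ ?_)
  intro q _
  rw [hausdorffMeasure_segment]
  exact edist_lt_top _ _

/-- Half of the separation property. -/
theorem sep_half [Finite V] {A : Set E} (hA : A ⊆ Set.range x) (hG : G.Connected)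
    (hcross : ∀ u v z w, G.Adj u v → G.Adj z w → s(u, v) ≠ s(z, w) →
      ∀ y ∈ segment ℝ (x u) (x v), y ∈ segment ℝ (x z) (x w) →
        ∃ c, c ∈ s(u, v) ∧ c ∈ s(z, w) ∧ y = x c)
    (hmin : ∀ K' : Set E, IsCompact K' → IsConnected K' → A ⊆ K' → μH[1] (body G x) ≤ μH[1] K')
    {u v z w : V} (huv : G.Adj u v) (hzw : G.Adj z w) (hne : s(u, v) ≠ s(z, w))
    (hvz : (G.deleteEdges {s(u, v)}).Reachable v z) {p q : E}
    (hp : p ∈ segment ℝ (x u) (x v)) (hq : q ∈ segment ℝ (x z) (x w)) :
    dist p (x v) ≤ dist p q := by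
  obtain ⟨G', hG'⟩ : ∃ G', G' = G.deleteEdges {s(u, v)} := ⟨_, rfl⟩
  have hadj' : ∀ a b, G'.Adj a b ↔ G.Adj a b ∧ s(a, b) ≠ s(u, v) := by
    intro a b
    rw [hG', SimpleGraph.deleteEdges_adj]
    rfl
  have hreach := fun c => reach_or (u := u) (v := v) hG c
  rw [← hG'] at hvz hreach
  obtain ⟨K', hK'⟩ : ∃ K', K' = body G' x ∪ (segment ℝ (x u) p ∪ segment ℝ p q) := ⟨_, rfl⟩
  have hR : body G' x ⊆ K' := by
    rw [hK']
    exact Set.subset_union_left
  have hup : segment ℝ (x u) p ⊆ K' := by
    rw [hK']
    exact Set.subset_union_left.trans Set.subset_union_right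
  have hpq : segment ℝ p q ⊆ K' := by
    rw [hK']
    exact Set.subset_union_right.trans Set.subset_union_right
  -- connectedness
  have hedge : ∀ a b, G'.Adj a b → ∀ y ∈ segment ℝ (x a) (x b), JoinedIn K' (x a) y := by
    intro a b hab y hy
    apply JoinedIn.of_segment_subset
    refine (segment_subset_left hy).trans (subset_trans ?_ hR)
    intro t ht
    exact mem_body.2 ⟨a, b, hab, ht⟩
  have hwalk : ∀ (a b : V), G'.Reachable a b → JoinedIn K' p (x a) → JoinedIn K' p (x b) := by
    intro a b hab
    obtain ⟨W⟩ := hab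
    induction W with
    | nil => exact id
    | @cons a b c hab _ ih =>
        intro h
        exact ih (h.trans (hedge a b hab _ (right_mem_segment ℝ _ _)))
  have hju : JoinedIn K' p (x u) := by
    apply JoinedIn.of_segment_subset
    rw [segment_symm]
    exact hup
  have hjq : JoinedIn K' p q := JoinedIn.of_segment_subset hpq
  have hzw' : G'.Adj z w := (hadj' z w).2 ⟨hzw, fun h => hne h.symm⟩
  have hjz : JoinedIn K' p (x z) := hjq.trans (hedge z w hzw' q hq).symm
  have hjv : JoinedIn K' p (x v) := hwalk z v hvz.symm hjz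
  have hjc : ∀ c, JoinedIn K' p (x c) := by
    intro c
    rcases hreach c with h | h
    · exact hwalk u c h hju
    · exact hwalk v c h hjv
  have hpK' : p ∈ K' := hju.source_mem
  have hconn : IsConnected K' := by
    apply IsPathConnected.isConnected
    refine ⟨p, hpK', ?_⟩
    intro y hy
    rw [hK'] at hy
    rcases hy with hy | hy | hy
    · obtain ⟨a, b, hab, hy⟩ := mem_body.1 hy
      exact (hjc a).trans (hedge a b hab y hy)
    · apply JoinedIn.of_segment_subset
      rw [segment_symm] at hy
      refine (segment_subset_left hy).trans ?_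
      rw [segment_symm]
      exact hup
    · apply JoinedIn.of_segment_subset
      exact (segment_subset_left hy).trans hpq
  have hcomp : IsCompact K' := by
    rw [hK']
    exact isCompact_body.union ((isCompact_seg _ _).union (isCompact_seg _ _))
  have hAK : A ⊆ K' := by
    intro y hy
    obtain ⟨c, rfl⟩ := hA hy
    exact (hjc c).target_mem
  have hle := hmin K' hcomp hconn hAK
  -- measures
  have hbody : body G x = body G' x ∪ segment ℝ (x u) (x v) := by
    ext y
    constructor
    · intro hy
      obtain ⟨a, b, hab, hy⟩ := mem_body.1 hy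
      by_cases he : s(a, b) = s(u, v)
      · right
        rcases Sym2.eq_iff.1 he with ⟨rfl, rfl⟩ | ⟨rfl, rfl⟩
        · exact hy
        · rw [segment_symm]
          exact hy
      · left
        exact mem_body.2 ⟨a, b, (hadj' a b).2 ⟨hab, he⟩, hy⟩
    · rintro (hy | hy)
      · obtain ⟨a, b, hab, hy⟩ := mem_body.1 hy
        exact mem_body.2 ⟨a, b, ((hadj' a b).1 hab).1, hy⟩
      · exact mem_body.2 ⟨u, v, huv, hy⟩
  have hinter : μH[1] (body G' x ∩ segment ℝ (x u) (x v)) = 0 := by
    have : NullSingletonClass (μH[1] : Measure E) :=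
      Measure.nullSingletonClass_hausdorff E one_pos
    refine Set.Finite.measure_zero (Set.Finite.subset (Set.toFinite ({x u, x v} : Set E)) ?_) _
    rintro y ⟨hy, hy'⟩
    obtain ⟨a, b, hab, hy⟩ := mem_body.1 hy
    obtain ⟨h1, h2⟩ := (hadj' a b).1 hab
    obtain ⟨c, hc, -, rfl⟩ := hcross u v a b huv h1 (Ne.symm h2) y hy' hy
    rcases Sym2.mem_iff.1 hc with rfl | rfl
    · simp
    · simp
  have hK : μH[1] (body G x) = μH[1] (body G' x) + edist (x u) (x v) := by
    have h1 := measure_union_add_inter (μ := (μH[1] : Measure E)) (body G' x)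
      (isCompact_seg (x u) (x v)).isClosed.measurableSet
    rw [hinter, add_zero, ← hbody, hausdorffMeasure_segment] at h1
    exact h1
  have hK2 : μH[1] K' ≤ μH[1] (body G' x) + (edist (x u) p + edist p q) := by
    rw [hK']
    refine (measure_union_le _ _).trans (add_le_add le_rfl ?_)
    refine (measure_union_le _ _).trans ?_
    rw [hausdorffMeasure_segment, hausdorffMeasure_segment]
  have h1 : edist (x u) (x v) ≤ edist (x u) p + edist p q := by
    have h2 := hle.trans hK2
    rw [hK] at h2
    exact (ENNReal.add_le_add_iff_left (body_lt_top (G := G') (x := x)).ne).1 h2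
  have h2 : dist (x u) (x v) ≤ dist (x u) p + dist p q := by
    rw [edist_dist, edist_dist, edist_dist, ← ENNReal.ofReal_add dist_nonneg dist_nonneg,
      ENNReal.ofReal_le_ofReal_iff (by positivity)] at h1
    exact h1
  have h3 := dist_add_dist_of_mem_segment hp
  linarith

/-- Minimal drawings have the separation property. -/
theorem sep_of_minimal [Finite V] {A : Set E} (hA : A ⊆ Set.range x) (hG : G.Connected)
    (hcross : ∀ u v z w, G.Adj u v → G.Adj z w → s(u, v) ≠ s(z, w) →
      ∀ y ∈ segment ℝ (x u) (x v), y ∈ segment ℝ (x z) (x w) →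
        ∃ c, c ∈ s(u, v) ∧ c ∈ s(z, w) ∧ y = x c)
    (hmin : ∀ K' : Set E, IsCompact K' → IsConnected K' → A ⊆ K' → μH[1] (body G x) ≤ μH[1] K')
    (u v z w : V) (huv : G.Adj u v) (hzw : G.Adj z w) (hne : s(u, v) ≠ s(z, w)) (p : E)
    (hp : p ∈ segment ℝ (x u) (x v)) (q : E) (hq : q ∈ segment ℝ (x z) (x w)) :
    min (dist p (x u)) (dist p (x v)) ≤ dist p q := by
  rcases reach_or (u := u) (v := v) hG z with h | h
  · refine (min_le_left _ _).trans ?_
    rw [Sym2.eq_swap] at h
    rw [segment_symm] at hp
    exact sep_half hA hG hcross hmin huv.symm hzw (by rwa [Sym2.eq_swap]) h hp hq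
  · exact (min_le_right _ _).trans (sep_half hA hG hcross hmin huv hzw hne h hp hq)

end

end Pool.Agent.Lib.H21Steiner
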