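import Pool.Agent.Lib.H21Steiner.Defs
import Pool.Agent.Lib.H21Steiner.Minimal

/-!
# Graphs given by a parent function, and minimal drawings of them
-/

namespace Pool.Agent.Lib.H21Steiner

open Metric MeasureTheory

section PG

variable {W : Type*}

/-- The graph in which every `v ≠ ρ` is adjacent to its parent `f v`. -/
def PG (f : W → W) (ρ : W) : SimpleGraph W where
  Adj v w := v ≠ w ∧ ((v ≠ ρ ∧ f v = w) ∨ (w ≠ ρ ∧ f w = v))
  symm := by
    constructor
    intro v w h
    exact ⟨h.1.symm, h.2.symm⟩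
  loopless := ⟨fun v h => h.1 rfl⟩

variable {f : W → W} {ρ : W} {rk : W → ℕ}

theorem PG_adj {v w : W} :
    (PG f ρ).Adj v w ↔ v ≠ w ∧ ((v ≠ ρ ∧ f v = w) ∨ (w ≠ ρ ∧ f w = v)) := Iff.rfl

theorem ne_parent (hrk : ∀ v, v ≠ ρ → rk (f v) < rk v) {v : W} (hv : v ≠ ρ) : v ≠ f v := by
  intro h
  have := hrk v hv
  rw [← h] at this
  exact lt_irrefl _ this

theorem PG_adj_parent (hrk : ∀ v, v ≠ ρ → rk (f v) < rk v) {v : W} (hv : v ≠ ρ) :
    (PG f ρ).Adj v (f v) :=
  ⟨ne_parent hrk hv, Or.inl ⟨hv, rfl⟩⟩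

theorem PG_connected (hrk : ∀ v, v ≠ ρ → rk (f v) < rk v) : (PG f ρ).Connected := by
  have key : ∀ k, ∀ v, rk v ≤ k → (PG f ρ).Reachable v ρ := by
    intro k
    induction k with
    | zero =>
      intro v hv
      by_cases h : v = ρ
      · rw [h]
      · have := hrk v h
        omega
    | succ k ih =>
      intro v hv
      by_cases h : v = ρ
      · rw [h]
      · have h1 := hrk v h
        exact (PG_adj_parent hrk h).reachable.trans (ih (f v) (by omega))
  have : Nonempty W := ⟨ρ⟩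
  exact ⟨fun v w => (key _ v le_rfl).trans (key _ w le_rfl).symm⟩

theorem parent_edge_injective (hrk : ∀ v, v ≠ ρ → rk (f v) < rk v) {v w : W} (hv : v ≠ ρ)
    (hw : w ≠ ρ) (h : s(v, f v) = s(w, f w)) : v = w := by
  rcases Sym2.eq_iff.1 h with ⟨h1, -⟩ | ⟨h1, h2⟩
  · exact h1
  · have h3 := hrk v hv
    have h4 := hrk w hw
    rw [h2] at h3
    rw [← h1] at h4
    omega

theorem PG_isTree [Finite W] (hrk : ∀ v, v ≠ ρ → rk (f v) < rk v) : (PG f ρ).IsTree := by
  classical
  rw [SimpleGraph.isTree_iff_connected_and_card]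
  refine ⟨PG_connected hrk, le_antisymm ?_ ((PG_connected hrk).card_vert_le_card_edgeSet_add_one)⟩
  have : Fintype W := Fintype.ofFinite W
  have h1 : Nat.card (PG f ρ).edgeSet ≤ Nat.card {v : W // v ≠ ρ} := by
    refine Nat.card_le_card_of_surjective
      (fun v : {v : W // v ≠ ρ} => (⟨s(v.1, f v.1), PG_adj_parent hrk v.2⟩ : (PG f ρ).edgeSet)) ?_
    rintro ⟨e, he⟩
    induction e using Sym2.ind with
    | _ a b =>
      rw [SimpleGraph.mem_edgeSet, PG_adj] at he
      rcases he.2 with ⟨h, h'⟩ | ⟨h, h'⟩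
      · exact ⟨⟨a, h⟩, by simp [h']⟩
      · exact ⟨⟨b, h⟩, by simp [h', Sym2.eq_swap]⟩
  have h2 : Nat.card {v : W // v ≠ ρ} + 1 = Nat.card W := by
    rw [Nat.card_eq_fintype_card, Nat.card_eq_fintype_card, Fintype.card_subtype_compl,
      Fintype.card_subtype_eq]
    have : 0 < Fintype.card W := Fintype.card_pos_iff.2 ⟨ρ⟩
    omega
  omega

end PG

section Geometry

variable {E : Type*} [NormedAddCommGroup E] [NormedSpace ℝ E]
variable {W : Type*} {G : SimpleGraph W} {x : W → E}

/-- Replacing an edge by a set that joins its two sides. -/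
theorem conn_of_join (hG : G.Connected) {u v : W} {S K' : Set E}
    (hK' : K' = body (G.deleteEdges {s(u, v)}) x ∪ S)
    (hS : ∀ y ∈ S, JoinedIn K' (x u) y) (hu : x u ∈ K') (hv : JoinedIn K' (x u) (x v)) :
    IsConnected K' ∧ ∀ c, x c ∈ K' := by
  have hreach := fun c => reach_or (u := u) (v := v) hG c
  set G' := G.deleteEdges {s(u, v)} with hG'
  have hR : body G' x ⊆ K' := by
    rw [hK']
    exact Set.subset_union_left
  have hedge : ∀ a b, G'.Adj a b → ∀ y ∈ segment ℝ (x a) (x b), JoinedIn K' (x a) y := by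
    intro a b hab y hy
    apply JoinedIn.of_segment_subset
    refine (segment_subset_left hy).trans (subset_trans ?_ hR)
    intro t ht
    exact mem_body.2 ⟨a, b, hab, ht⟩
  have hwalk : ∀ (a b : W), G'.Reachable a b → JoinedIn K' (x u) (x a) →
      JoinedIn K' (x u) (x b) := by
    intro a b hab
    obtain ⟨P⟩ := hab
    induction P with
    | nil => exact id
    | @cons a b c hab _ ih =>
        intro h
        exact ih (h.trans (hedge a b hab _ (right_mem_segment ℝ _ _)))
  have hjc : ∀ c, JoinedIn K' (x u) (x c) := by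
    intro c
    rcases hreach c with h | h
    · exact hwalk u c h (JoinedIn.refl hu)
    · exact hwalk v c h hv
  refine ⟨?_, fun c => (hjc c).target_mem⟩
  apply IsPathConnected.isConnected
  refine ⟨x u, hu, ?_⟩
  intro y hy
  rw [hK'] at hy
  rcases hy with hy | hy
  · obtain ⟨a, b, hab, hy⟩ := mem_body.1 hy
    exact (hjc a).trans (hedge a b hab y hy)
  · exact hS y hy

/-- In a connected graph, the first edge of a path. -/
theorem exists_first_edge (hG : G.Connected) {u v : W} (huv : u ≠ v) :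
    ∃ w, G.Adj u w ∧ (G.deleteEdges {s(u, w)}).Reachable w v := by
  classical
  obtain ⟨P, hP⟩ := (hG.preconnected u v).exists_isPath
  cases P with
  | nil => exact absurd rfl huv
  | @cons _ w _ h P =>
    refine ⟨w, h, ?_⟩
    rw [SimpleGraph.Walk.cons_isPath_iff] at hP
    refine ⟨P.toDeleteEdges {s(u, w)} ?_⟩
    intro e he hcon
    rw [Set.mem_singleton_iff] at hcon
    subst hcon
    exact hP.2 (P.fst_mem_support_of_mem_edges he)

variable [MeasurableSpace E] [BorelSpace E] {f : W → W} {ρ : W} {rk : W → ℕ}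

theorem measure_body_le_sum {H : SimpleGraph W} (S : Finset W)
    (hH : ∀ a b, H.Adj a b → (a ∈ S ∧ f a = b) ∨ (b ∈ S ∧ f b = a)) :
    μH[1] (body H x) ≤ ENNReal.ofReal (∑ v ∈ S, dist (x v) (x (f v))) := by
  have h1 : body H x ⊆ ⋃ v ∈ S, segment ℝ (x v) (x (f v)) := by
    intro y hy
    obtain ⟨a, b, hab, hy⟩ := mem_body.1 hy
    rcases hH a b hab with ⟨h, h'⟩ | ⟨h, h'⟩
    · exact Set.mem_iUnion₂.2 ⟨a, h, by rw [h']; exact hy⟩
    · exact Set.mem_iUnion₂.2 ⟨b, h, by rw [h', segment_symm]; exact hy⟩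
  refine (measure_mono h1).trans ((measure_biUnion_finset_le _ _).trans ?_)
  rw [ENNReal.ofReal_sum_of_nonneg (fun _ _ => dist_nonneg)]
  refine Finset.sum_le_sum (fun v _ => ?_)
  rw [hausdorffMeasure_segment, edist_dist]

/-- The total length of the drawing. -/
noncomputable def totalLen [Fintype W] (f : W → W) (ρ : W) (x : W → E) : ℝ :=
  open Classical in ∑ v ∈ Finset.univ.filter (fun v => v ≠ ρ), dist (x v) (x (f v))

theorem measure_body_le [Fintype W] :
    μH[1] (body (PG f ρ) x) ≤ ENNReal.ofReal (totalLen f ρ x) := by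
  classical
  unfold totalLen
  refine measure_body_le_sum (f := f) _ ?_
  intro a b hab
  rcases hab.2 with h | h
  · exact Or.inl ⟨by simpa using h.1, h.2⟩
  · exact Or.inr ⟨by simpa using h.1, h.2⟩

theorem measure_body_delete [Fintype W] {c : W} (hc : c ≠ ρ) :
    μH[1] (body ((PG f ρ).deleteEdges {s(c, f c)}) x) ≤
      ENNReal.ofReal (totalLen f ρ x - dist (x c) (x (f c))) := by
  classical
  have h1 : totalLen f ρ x - dist (x c) (x (f c))
      = ∑ v ∈ (Finset.univ.filter (fun v => v ≠ ρ)).erase c, dist (x v) (x (f v)) := by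
    unfold totalLen
    rw [← Finset.add_sum_erase (Finset.univ.filter (fun v => v ≠ ρ)) _
      (show c ∈ Finset.univ.filter (fun v => v ≠ ρ) by simpa using hc)]
    ring
  rw [h1]
  refine measure_body_le_sum (f := f) _ ?_
  intro a b hab
  rw [SimpleGraph.deleteEdges_adj] at hab
  obtain ⟨h2, h3⟩ := hab
  rw [Set.mem_singleton_iff] at h3
  rcases h2.2 with h | h
  · refine Or.inl ⟨?_, h.2⟩
    rw [Finset.mem_erase]
    refine ⟨?_, by simpa using h.1⟩
    rintro rfl
    exact h3 (by rw [h.2])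
  · refine Or.inr ⟨?_, h.2⟩
    rw [Finset.mem_erase]
    refine ⟨?_, by simpa using h.1⟩
    rintro rfl
    exact h3 (by rw [h.2, Sym2.eq_swap])

/-- In a minimal drawing, an edge is not longer than any set that can replace it. -/
theorem edge_le [Fintype W] (hrk : ∀ v, v ≠ ρ → rk (f v) < rk v) {A : Set E}
    (hA : A ⊆ Set.range x)
    (hmin : ∀ K' : Set E, IsCompact K' → IsConnected K' → A ⊆ K' →
      ENNReal.ofReal (totalLen f ρ x) ≤ μH[1] K')
    {u v : W} (huv : (PG f ρ).Adj u v) {S K' : Set E} (hSc : IsCompact S) {s : ℝ} (hs : 0 ≤ s)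
    (hSm : μH[1] S ≤ ENNReal.ofReal s)
    (hK' : K' = body ((PG f ρ).deleteEdges {s(u, v)}) x ∪ S)
    (hS : ∀ y ∈ S, JoinedIn K' (x u) y) (hu : x u ∈ K') (hv : JoinedIn K' (x u) (x v)) :
    dist (x u) (x v) ≤ s := by
  obtain ⟨hconn, hmem⟩ := conn_of_join (PG_connected hrk) hK' hS hu hv
  have hcomp : IsCompact K' := by
    rw [hK']; exact isCompact_body.union hSc
  have hAK : A ⊆ K' := by
    intro y hy
    obtain ⟨c, rfl⟩ := hA hy
    exact hmem c
  have h1 := hmin K' hcomp hconn hAK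
  obtain ⟨c, hc, hce, hcd⟩ : ∃ c, c ≠ ρ ∧ s(c, f c) = s(u, v) ∧
      dist (x c) (x (f c)) = dist (x u) (x v) := by
    rcases huv.2 with ⟨h, h'⟩ | ⟨h, h'⟩
    · exact ⟨u, h, by rw [h'], by rw [h']⟩
    · exact ⟨v, h, by rw [h', Sym2.eq_swap], by rw [h', dist_comm]⟩
  have h2 : μH[1] K' ≤ ENNReal.ofReal (totalLen f ρ x - dist (x u) (x v)) + ENNReal.ofReal s := by
    rw [hK', ← hce, ← hcd]
    exact (measure_union_le _ _).trans (add_le_add (measure_body_delete hc) hSm)
  have hdle : dist (x u) (x v) ≤ totalLen f ρ x := by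
    classical
    rw [← hcd]
    unfold totalLen
    exact Finset.single_le_sum (f := fun v => dist (x v) (x (f v))) (fun _ _ => dist_nonneg)
      (by simpa using hc)
  rw [← ENNReal.ofReal_add (by linarith) hs] at h2
  have h3 := (ENNReal.ofReal_le_ofReal_iff (by linarith)).1 (h1.trans h2)
  linarith

theorem injective_of_min [Fintype W] (hrk : ∀ v, v ≠ ρ → rk (f v) < rk v) {A : Set E}
    (hA : A ⊆ Set.range x)
    (hmin : ∀ K' : Set E, IsCompact K' → IsConnected K' → A ⊆ K' →
      ENNReal.ofReal (totalLen f ρ x) ≤ μH[1] K')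
    (hpos : ∀ v, v ≠ ρ → x v ≠ x (f v)) : Function.Injective x := by
  intro u v hxy
  by_contra huv
  obtain ⟨w, huw, hwv⟩ := exists_first_edge (PG_connected hrk) huv
  obtain ⟨K', hK'⟩ : ∃ K', K' = body ((PG f ρ).deleteEdges {s(u, w)}) x ∪ {x u} := ⟨_, rfl⟩
  have hu : x u ∈ K' := by rw [hK']; exact Or.inr rfl
  have hwalk : ∀ (a b : W), ((PG f ρ).deleteEdges {s(u, w)}).Reachable a b →
      JoinedIn K' (x u) (x a) → JoinedIn K' (x u) (x b) := by
    intro a b hab
    obtain ⟨P⟩ := hab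
    induction P with
    | nil => exact id
    | @cons a b c hab _ ih =>
        intro h
        refine ih (h.trans (JoinedIn.of_segment_subset ?_))
        intro t ht
        rw [hK']
        exact Or.inl (mem_body.2 ⟨a, b, hab, ht⟩)
  have hv : JoinedIn K' (x u) (x w) := by
    refine hwalk v w hwv.symm ?_
    rw [← hxy]
    exact JoinedIn.refl hu
  have hle := edge_le hrk hA hmin huw (S := {x u}) isCompact_singleton (le_refl (0 : ℝ)) (by
      have : NullSingletonClass (μH[1] : Measure E) :=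
        Measure.nullSingletonClass_hausdorff E one_pos
      rw [(Set.finite_singleton (x u)).measure_zero]
      exact zero_le) hK' (by
      intro y hy
      rw [Set.mem_singleton_iff] at hy
      subst hy
      exact JoinedIn.refl hu) hu hv
  have heq : x u = x w := by
    rw [← dist_eq_zero]; exact le_antisymm hle dist_nonneg
  rcases huw.2 with ⟨h, h'⟩ | ⟨h, h'⟩
  · exact hpos u h (by rw [h']; exact heq)
  · exact hpos w h (by rw [h']; exact heq.symm)

theorem cross_half [Fintype W] (hrk : ∀ v, v ≠ ρ → rk (f v) < rk v) {A : Set E}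
    (hA : A ⊆ Set.range x)
    (hmin : ∀ K' : Set E, IsCompact K' → IsConnected K' → A ⊆ K' →
      ENNReal.ofReal (totalLen f ρ x) ≤ μH[1] K')
    {u v z w : W} (huv : (PG f ρ).Adj u v) (hzw : (PG f ρ).Adj z w) (hne : s(u, v) ≠ s(z, w))
    (hvz : ((PG f ρ).deleteEdges {s(u, v)}).Reachable v z) {y : E}
    (hy : y ∈ segment ℝ (x u) (x v)) (hy' : y ∈ segment ℝ (x z) (x w)) : y = x v := by
  obtain ⟨K', hK'⟩ : ∃ K', K' = body ((PG f ρ).deleteEdges {s(u, v)}) x ∪
    segment ℝ (x u) y := ⟨_, rfl⟩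
  have hseg : segment ℝ (x u) y ⊆ K' := by rw [hK']; exact Set.subset_union_right
  have hu : x u ∈ K' := hseg (left_mem_segment ℝ _ _)
  have hstep : ∀ (a b : W), ((PG f ρ).deleteEdges {s(u, v)}).Adj a b →
      ∀ t ∈ segment ℝ (x a) (x b), JoinedIn K' (x a) t := by
    intro a b hab t ht
    refine JoinedIn.of_segment_subset ((segment_subset_left ht).trans ?_)
    intro t ht
    rw [hK']
    exact Or.inl (mem_body.2 ⟨a, b, hab, ht⟩)
  have hwalk : ∀ (a b : W), ((PG f ρ).deleteEdges {s(u, v)}).Reachable a b →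
      JoinedIn K' (x u) (x a) → JoinedIn K' (x u) (x b) := by
    intro a b hab
    obtain ⟨P⟩ := hab
    induction P with
    | nil => exact id
    | @cons a b c hab _ ih =>
        intro h
        exact ih (h.trans (hstep a b hab _ (right_mem_segment ℝ _ _)))
  have hzw' : ((PG f ρ).deleteEdges {s(u, v)}).Adj z w := by
    rw [SimpleGraph.deleteEdges_adj]
    exact ⟨hzw, fun h => hne (Set.mem_singleton_iff.1 h).symm⟩
  have hjy : JoinedIn K' (x u) y := JoinedIn.of_segment_subset hseg
  have hjz : JoinedIn K' (x u) (x z) := hjy.trans (hstep z w hzw' y hy').symm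
  have hv : JoinedIn K' (x u) (x v) := hwalk z v hvz.symm hjz
  have hle := edge_le hrk hA hmin huv (S := segment ℝ (x u) y) (isCompact_seg _ _)
    (s := dist (x u) y) dist_nonneg (by rw [hausdorffMeasure_segment, edist_dist]) hK' (by
      intro t ht
      exact JoinedIn.of_segment_subset ((segment_subset_left ht).trans hseg)) hu hv
  have h3 := dist_add_dist_of_mem_segment hy
  rw [← dist_eq_zero]
  have := dist_nonneg (x := y) (y := x v)
  linarith

/-- The edges of a minimal drawing do not cross. -/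
theorem cross_of_min [Fintype W] (hrk : ∀ v, v ≠ ρ → rk (f v) < rk v) {A : Set E}
    (hA : A ⊆ Set.range x)
    (hmin : ∀ K' : Set E, IsCompact K' → IsConnected K' → A ⊆ K' →
      ENNReal.ofReal (totalLen f ρ x) ≤ μH[1] K')
    (hinj : Function.Injective x) (u v z w : W) (huv : (PG f ρ).Adj u v)
    (hzw : (PG f ρ).Adj z w) (hne : s(u, v) ≠ s(z, w)) (y : E)
    (hy : y ∈ segment ℝ (x u) (x v)) (hy' : y ∈ segment ℝ (x z) (x w)) :
    ∃ c, c ∈ s(u, v) ∧ c ∈ s(z, w) ∧ y = x c := by
  -- `y` is an end of the first edge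
  have key : ∀ u v z w : W, (PG f ρ).Adj u v → (PG f ρ).Adj z w → s(u, v) ≠ s(z, w) →
      y ∈ segment ℝ (x u) (x v) → y ∈ segment ℝ (x z) (x w) → ∃ c ∈ s(u, v), y = x c := by
    intro u v z w huv hzw hne hy hy'
    rcases reach_or (u := u) (v := v) (PG_connected hrk) z with h | h
    · refine ⟨u, Sym2.mem_mk_left u v, ?_⟩
      rw [Sym2.eq_swap] at h hne
      rw [segment_symm] at hy
      exact cross_half hrk hA hmin huv.symm hzw hne h hy hy'
    · exact ⟨v, Sym2.mem_mk_right u v, cross_half hrk hA hmin huv hzw hne h hy hy'⟩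
  obtain ⟨c, hc, h1⟩ := key u v z w huv hzw hne hy hy'
  obtain ⟨c', hc', h2⟩ := key z w u v hzw huv hne.symm hy' hy
  have : c = c' := hinj (h1.symm.trans h2)
  subst this
  exact ⟨c, hc, hc', h1⟩

end Geometry

end Pool.Agent.Lib.H21Steiner
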