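import Pool.Agent.Lib.H21Steiner.Ext

/-!
# Certificates for the cluster of five points
-/

namespace Pool.Agent.Lib.H21Steiner

namespace BT

/-- Ten families of dual vectors, in Eisenstein coordinates and with denominator `100000`. -/
def certs : List (List (ℤ × ℤ)) :=
 [[(0, 100000), (100000, 0), (100000, -100000), (0, -100000), (-100000, 100000)],
  [(-100000, 100000), (100000, 0), (100000, -100000), (0, -100000), (0, 100000)],
  [(-57727, 115458), (35265, 77579), (5, -2), (64727, -77579), (57730, -115456)],
  [(-71692, 114224), (42533, 71694), (71694, -114222), (3, -2), (57462, -71694)],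
  [(-92931, 105801), (105803, -12868), (100068, -153), (-12943, -92779), (3, -1)],
  [(0, 100000), (165, 99917), (99885, -100018), (-50, -99898), (0, -1)],
  [(0, 100000), (100000, 0), (105963, -13247), (-13246, -92715), (-92717, 5962)],
  [(-99352, 100614), (100615, -1260), (99356, -100613), (98734, -99354), (-99353, 100613)],
  [(-89525, 107920), (107920, -18395), (107921, -18398), (81602, -89522), (-107918, 18395)],
  [(2, 99990), (39556, 74162), (113718, -39553), (-39552, -74162), (-13724, -60437)]]

/-- The five points of the cluster, in Eisenstein coordinates. -/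
def clusterPts : List (ℤ × ℤ) := [(0, 30), (43, -12), (43, -34), (33, -34), (29, -28)]

/-- The dual vector of the point `b` in the family `k`. -/
def dualV (k b : ℕ) : ℤ × ℤ := (certs.getD k []).getD b (0, 0)

/-- The `b`-th point of the cluster. -/
def ptQ (b : ℕ) : ℤ × ℤ := clusterPts.getD b (0, 0)

/-- The term of the point `b` in the sum over the set of points coded by `S`. -/
def term (k S b : ℕ) : ℤ × ℤ := if S.testBit b then dualV k b else (0, 0)

/-- The sum of the dual vectors over the set of points coded by `S`: first coordinate. -/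
def sumA (k S : ℕ) : ℤ :=
  (term k S 0).1 + (term k S 1).1 + (term k S 2).1 + (term k S 3).1 + (term k S 4).1

/-- The sum of the dual vectors over the set of points coded by `S`: second coordinate. -/
def sumB (k S : ℕ) : ℤ :=
  (term k S 0).2 + (term k S 1).2 + (term k S 2).2 + (term k S 3).2 + (term k S 4).2

/-- The families for which the sum over the set coded by the index has norm at most one. -/
def goodTab : List ℕ :=
  [1023, 1023, 1023, 402, 1023, 431, 44, 138, 1023, 1007, 639, 979, 604, 1023, 556, 26, 1023, 636,
    1021, 276, 1015, 1007, 165, 396, 443, 639, 1019, 855, 467, 1023, 609, 1023]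

/-- The possible values of `famSet`. -/
def achTab : List (List ℕ) :=
  [[], [1023], [1023], [402], [1023], [431], [44], [8, 130, 138], [1023], [1007], [639],
    [402, 595, 963], [604], [431, 604, 1007], [44, 524, 556], [2, 8, 10, 16, 18, 24], [1023],
    [636], [1021], [20, 272, 276], [1015], [431, 620, 999], [36, 165],
    [4, 8, 12, 128, 132, 136, 256, 260, 384, 388, 396], [443], [59, 623, 636], [443, 635, 1017],
    [19, 20, 272, 274, 275, 276, 583, 595, 596, 835, 837, 849], [80, 403, 467],
    [59, 80, 403, 427, 431, 467, 604, 620, 623, 636, 999, 1007],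
    [1, 32, 33, 64, 65, 512, 544, 576, 609], []]

theorem good_ok : ∀ S < 32, ∀ k < 10, (goodTab.getD S 0).testBit k = true →
    sumA k S * sumA k S + sumA k S * sumB k S + sumB k S * sumB k S ≤ 10000000000 := by
  decide +kernel

theorem full_ok : ∀ k < 10, sumA k 31 = 100000 ∧ sumB k 31 = 0 := by
  decide +kernel

/-- Twice the pairing of the dual vectors with the points of the cluster. -/
def pairing (k b : ℕ) : ℤ :=
  2 * ((dualV k b).1 * (ptQ b).1 + (dualV k b).2 * (ptQ b).2) +
    (dualV k b).1 * (ptQ b).2 + (dualV k b).2 * (ptQ b).1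

theorem pairing_ok : ∀ k < 10, 18900000 ≤ pairing k 0 + pairing k 1 + pairing k 2 + pairing k 3 +
    pairing k 4 := by
  decide +kernel

/-- The closure property of the table, for one pair of sets. -/
def closedAt (S₁ S₂ : ℕ) : Bool :=
  (achTab.getD S₁ []).all fun u => (achTab.getD S₂ []).all fun v =>
    (achTab.getD (S₁ ||| S₂) []).contains (u &&& v &&& goodTab.getD (S₁ ||| S₂) 0)

/-- The covering property of the table, for one pair of sets. -/
def coverAt (S₁ S₂ : ℕ) : Bool :=
  (achTab.getD S₁ []).all fun u => (achTab.getD S₂ []).all fun v =>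
    (List.range 10).any fun k => u.testBit k && v.testBit k

theorem ach_closed : ∀ S₁ < 32, ∀ S₂ < 32, S₁ &&& S₂ = 0 → S₁ ||| S₂ ≠ 31 →
    closedAt S₁ S₂ = true := by
  decide +kernel

theorem ach_full : ∀ S₁ < 32, ∀ S₂ < 32, S₁ &&& S₂ = 0 → S₁ ||| S₂ = 31 →
    coverAt S₁ S₂ = true := by
  decide +kernel

theorem ach_leaf : ∀ b < 5, goodTab.getD (2 ^ b) 0 ∈ achTab.getD (2 ^ b) [] := by
  decide +kernel

end BT

end Pool.Agent.Lib.H21Steiner
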