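import Pool.Agent.Lib.H21Steiner.Cert

/-!
# The lower bound for trees on the cluster of five points
-/

namespace Pool.Agent.Lib.H21Steiner

namespace BT

/-- The code of the set of leaves. -/
def mask : BT (Fin 5) → ℕ
  | leaf b => 2 ^ b.val
  | node l r => mask l ||| mask r

/-- The code of the set of families that calibrate the tree. -/
def famSet : BT (Fin 5) → ℕ
  | leaf b => goodTab.getD (2 ^ b.val) 0
  | node l r => famSet l &&& famSet r &&& goodTab.getD (mask l ||| mask r) 0

theorem testBit_mask : ∀ (t : BT (Fin 5)) (b : Fin 5),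
    (mask t).testBit b.val = true ↔ b ∈ t.leaves
  | leaf a, b => by
      simp only [mask, leaves, List.mem_singleton, Nat.testBit_two_pow, decide_eq_true_eq]
      constructor
      · intro h
        exact Fin.ext h.symm
      · rintro rfl
        rfl
  | node l r, b => by
      simp only [mask, leaves, List.mem_append, Nat.testBit_or, Bool.or_eq_true]
      rw [testBit_mask l, testBit_mask r]

theorem mask_lt : ∀ t : BT (Fin 5), mask t < 32
  | leaf a => by
      have := a.isLt
      have h : 2 ^ a.val < 2 ^ 5 := Nat.pow_lt_pow_right (by norm_num) this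
      simpa [mask] using h
  | node l r => by
      have h1 : mask l < 2 ^ 5 := mask_lt l
      have h2 : mask r < 2 ^ 5 := mask_lt r
      have h : mask l ||| mask r < 2 ^ 5 := Nat.or_lt_two_pow h1 h2
      simpa [mask] using h

theorem mask_disj {l r : BT (Fin 5)} (h : ∀ b ∈ l.leaves, b ∈ r.leaves → False) :
    mask l &&& mask r = 0 := by
  apply Nat.eq_of_testBit_eq
  intro i
  rw [Nat.testBit_and, Nat.zero_testBit]
  by_cases hi : i < 5
  · rw [Bool.and_eq_false_iff]
    by_contra hcon
    push Not at hcon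
    obtain ⟨h1, h2⟩ := hcon
    rw [ne_eq, Bool.not_eq_false] at h1 h2
    exact h ⟨i, hi⟩ ((testBit_mask l ⟨i, hi⟩).1 h1) ((testBit_mask r ⟨i, hi⟩).1 h2)
  · have h1 : mask l < 2 ^ i := (mask_lt l).trans_le
      (Nat.pow_le_pow_right (by norm_num) (not_lt.1 hi) : 2 ^ 5 ≤ 2 ^ i)
    rw [Nat.testBit_lt_two_pow h1, Bool.false_and]

theorem bit_31 : ∀ b < 5, (31 : ℕ).testBit b = true := by
  decide +kernel

theorem or_31 : ∀ S < 32, 31 ||| S = 31 ∧ S ||| 31 = 31 := by
  decide +kernel

theorem famSet_mem : ∀ t : BT (Fin 5), t.leaves.Nodup → mask t ≠ 31 →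
    famSet t ∈ achTab.getD (mask t) []
  | leaf b, _, _ => ach_leaf b.val b.isLt
  | node l r, hnd, hm => by
      simp only [leaves] at hnd
      rw [List.nodup_append] at hnd
      obtain ⟨hl, hr, hlr⟩ := hnd
      have hm' : mask l ||| mask r ≠ 31 := hm
      have h1 : mask l ≠ 31 := by
        intro h
        rw [h] at hm'
        exact hm' (or_31 _ (mask_lt r)).1
      have h2 : mask r ≠ 31 := by
        intro h
        rw [h] at hm'
        exact hm' (or_31 _ (mask_lt l)).2
      have h3 := ach_closed _ (mask_lt l) _ (mask_lt r)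
        (mask_disj fun b hb hb' => hlr b hb b hb' rfl) hm'
      rw [closedAt, List.all_eq_true] at h3
      have h4 := h3 _ (famSet_mem l hl h1)
      rw [List.all_eq_true] at h4
      have h5 := h4 _ (famSet_mem r hr h2)
      rw [List.contains_iff_mem] at h5
      exact h5

theorem exists_fam {l r : BT (Fin 5)} (hnd : (node l r).leaves.Nodup)
    (hall : ∀ b, b ∈ (node l r).leaves) :
    ∃ k < 10, (famSet l).testBit k = true ∧ (famSet r).testBit k = true := by
  simp only [leaves] at hnd
  rw [List.nodup_append] at hnd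
  obtain ⟨hl, hr, hlr⟩ := hnd
  have hm : mask l ||| mask r = 31 := by
    apply Nat.eq_of_testBit_eq
    intro i
    by_cases hi : i < 5
    · have h1 := (testBit_mask (node l r) ⟨i, hi⟩).2 (hall _)
      have h2 : (mask l ||| mask r).testBit i = true := h1
      rw [h2, bit_31 i hi]
    · have h1 : mask l ||| mask r < 2 ^ i := (mask_lt (node l r)).trans_le
        (Nat.pow_le_pow_right (by norm_num) (not_lt.1 hi) : 2 ^ 5 ≤ 2 ^ i)
      have h2 : 31 < 2 ^ i := lt_of_lt_of_le (by norm_num)
        (Nat.pow_le_pow_right (by norm_num) (not_lt.1 hi) : 2 ^ 5 ≤ 2 ^ i)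
      rw [Nat.testBit_lt_two_pow h1, Nat.testBit_lt_two_pow h2]
  have hex : ∀ s t : BT (Fin 5), (∀ b ∈ s.leaves, b ∈ t.leaves → False) → mask s ≠ 31 := by
    intro s t h h31
    obtain ⟨b, hb⟩ := exists_mem_leaves t
    apply h b _ hb
    rw [← testBit_mask, h31]
    exact bit_31 _ b.isLt
  have h1 : mask l ≠ 31 := hex l r fun b hb hb' => hlr b hb b hb' rfl
  have h2 : mask r ≠ 31 := hex r l fun b hb hb' => hlr b hb' b hb rfl
  have h3 := ach_full _ (mask_lt l) _ (mask_lt r)
    (mask_disj fun b hb hb' => hlr b hb b hb' rfl) hm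
  rw [coverAt, List.all_eq_true] at h3
  have h4 := h3 _ (famSet_mem l hl h1)
  rw [List.all_eq_true] at h4
  have h5 := h4 _ (famSet_mem r hr h2)
  rw [List.any_eq_true] at h5
  obtain ⟨k, hk, hk'⟩ := h5
  rw [Bool.and_eq_true] at hk'
  exact ⟨k, List.mem_range.1 hk, hk'⟩

variable {E : Type*} [NormedAddCommGroup E] [InnerProductSpace ℝ E]

/-- Two unit vectors at an angle of 60 degrees. -/
structure Fr (e f : E) : Prop where
  ne : ‖e‖ = 1
  nf : ‖f‖ = 1
  inn : inner ℝ e f = (1 / 2 : ℝ)

theorem Fr.inner_comb {e f : E} (h : Fr e f) (a b c d : ℝ) :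
    inner ℝ (a • e + b • f) (c • e + d • f) = a * c + b * d + (a * d + b * c) / 2 := by
  have h1 : inner ℝ e e = (1 : ℝ) := by rw [real_inner_self_eq_norm_sq, h.ne]; norm_num
  have h2 : inner ℝ f f = (1 : ℝ) := by rw [real_inner_self_eq_norm_sq, h.nf]; norm_num
  have h3 : inner ℝ f e = (1 / 2 : ℝ) := by rw [real_inner_comm]; exact h.inn
  simp only [inner_add_left, inner_add_right, real_inner_smul_left, real_inner_smul_right, h1, h2,
    h3, h.inn]
  ring

/-- The vector with the given Eisenstein coordinates. -/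
noncomputable def ev (e f : E) (z : ℤ × ℤ) : E := (z.1 : ℝ) • e + (z.2 : ℝ) • f

theorem ev_add (e f : E) (z w : ℤ × ℤ) : ev e f (z + w) = ev e f z + ev e f w := by
  simp only [ev, Prod.fst_add, Prod.snd_add]
  push_cast
  module

/-- The dual vectors. -/
noncomputable def dual (e f : E) (k : ℕ) (b : Fin 5) : E :=
  (1 / 100000 : ℝ) • ev e f (dualV k b.val)

theorem sum_dual (e f : E) (k : ℕ) {t : BT (Fin 5)} (hnd : t.leaves.Nodup) :
    (t.leaves.map (dual e f k)).sum =
      (1 / 100000 : ℝ) • ((sumA k (mask t) : ℝ) • e + (sumB k (mask t) : ℝ) • f) := by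
  rw [sum_leaves hnd (A := t.leaves.toFinset) (fun i => by rw [List.mem_toFinset])]
  have h1 : ∑ i ∈ t.leaves.toFinset, dual e f k i =
      ∑ i : Fin 5, (1 / 100000 : ℝ) • ev e f (term k (mask t) i.val) := by
    rw [← Finset.sum_subset (Finset.subset_univ t.leaves.toFinset)]
    · apply Finset.sum_congr rfl
      intro i hi
      rw [List.mem_toFinset, ← testBit_mask] at hi
      rw [term, if_pos hi]
      rfl
    · intro i _ hi
      rw [List.mem_toFinset, ← testBit_mask] at hi
      rw [term, if_neg hi]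
      simp [ev]
  rw [h1, Fin.sum_univ_five, sumA, sumB]
  simp only [ev, Fin.val_zero, Fin.val_one, Fin.val_two]
  have h3 : ((3 : Fin 5) : ℕ) = 3 := rfl
  have h4 : ((4 : Fin 5) : ℕ) = 4 := rfl
  rw [h3, h4]
  push_cast
  module

theorem norm_sum_dual {e f : E} (h : Fr e f) {k : ℕ} (hk : k < 10) {t : BT (Fin 5)}
    (hnd : t.leaves.Nodup) (hg : (goodTab.getD (mask t) 0).testBit k = true) :
    ‖(t.leaves.map (dual e f k)).sum‖ ≤ 1 := by
  rw [sum_dual e f k hnd, norm_smul]
  have h1 := good_ok (mask t) (mask_lt t) k hk hg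
  have h2 := h.inner_comb (sumA k (mask t)) (sumB k (mask t)) (sumA k (mask t)) (sumB k (mask t))
  rw [real_inner_self_eq_norm_sq] at h2
  have h3 : ((sumA k (mask t) * sumA k (mask t) + sumA k (mask t) * sumB k (mask t) +
      sumB k (mask t) * sumB k (mask t) : ℤ) : ℝ) ≤ ((10000000000 : ℤ) : ℝ) := by
    exact_mod_cast h1
  push_cast at h3
  have h4 := norm_nonneg ((sumA k (mask t) : ℝ) • e + (sumB k (mask t) : ℝ) • f)
  have h5 : ‖(sumA k (mask t) : ℝ) • e + (sumB k (mask t) : ℝ) • f‖ ≤ 100000 := by
    nlinarith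
  rw [Real.norm_eq_abs, abs_of_pos (by norm_num : (0 : ℝ) < 1 / 100000)]
  linarith

theorem cal_of_testBit {e f : E} (h : Fr e f) {k : ℕ} (hk : k < 10) : ∀ t : BT (Fin 5),
    t.leaves.Nodup → (famSet t).testBit k = true → Cal (dual e f k) t
  | leaf b, hnd, hg => by
      have h1 := norm_sum_dual h hk hnd hg
      change ‖dual e f k b‖ ≤ 1
      simpa [leaves] using h1
  | node l r, hnd, hg => by
      have hnd' := hnd
      simp only [leaves] at hnd'
      rw [List.nodup_append] at hnd'
      obtain ⟨hl, hr, -⟩ := hnd'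
      simp only [famSet, Nat.testBit_and, Bool.and_eq_true] at hg
      obtain ⟨⟨h1, h2⟩, h3⟩ := hg
      exact ⟨norm_sum_dual h hk hnd h3, cal_of_testBit h hk l hl h1, cal_of_testBit h hk r hr h2⟩

/-- The points of the cluster. -/
noncomputable def cpt (e f : E) (b : Fin 5) : E := ev e f (ptQ b.val)

/-- The lower bound for the trees on the cluster. -/
theorem cluster_lower {e f : E} (h : Fr e f) {ρ : BT (Fin 5)} (hnd : ρ.leaves.Nodup)
    (hall : ∀ b, b ∈ ρ.leaves) {y : Fin 5 → E} {z q : E} {s m : ℝ} (hs : 0 ≤ s)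
    (hy : ∀ b, y b = z + s • cpt e f b) (hR : R0 y ρ q m) :
    189 / 2 * s ≤ m + inner ℝ e (q - z) := by
  cases ρ with
  | leaf b =>
      exfalso
      have h0 := hall 0
      have h1 := hall 1
      simp only [leaves, List.mem_singleton] at h0 h1
      rw [← h0] at h1
      exact absurd h1 (by decide)
  | node l r =>
      obtain ⟨k, hk, hl, hr⟩ := exists_fam hnd hall
      have hnd' := hnd
      simp only [leaves] at hnd'
      rw [List.nodup_append] at hnd'
      obtain ⟨hnl, hnr, -⟩ := hnd'
      have hcal : Cal0 (dual e f k) (node l r) :=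
        ⟨cal_of_testBit h hk l hnl hl, cal_of_testBit h hk r hnr hr⟩
      have h1 := hcal.le hR
      have hset : ∀ b, b ∈ (node l r).leaves ↔ b ∈ (Finset.univ : Finset (Fin 5)) := by
        intro b
        simp only [Finset.mem_univ, iff_true]
        exact hall b
      rw [sum_leaves hnd hset] at h1
      have h2 : ∑ b : Fin 5, dual e f k b = e := by
        rw [← sum_leaves hnd hset, sum_dual e f k hnd]
        have hm : mask (node l r) = 31 := by
          apply Nat.eq_of_testBit_eq
          intro i
          by_cases hi : i < 5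
          · rw [(testBit_mask (node l r) ⟨i, hi⟩).2 (hall _), bit_31 i hi]
          · have h3 : mask (node l r) < 2 ^ i := (mask_lt (node l r)).trans_le
              (Nat.pow_le_pow_right (by norm_num) (not_lt.1 hi) : 2 ^ 5 ≤ 2 ^ i)
            have h4 : 31 < 2 ^ i := lt_of_lt_of_le (by norm_num)
              (Nat.pow_le_pow_right (by norm_num) (not_lt.1 hi) : 2 ^ 5 ≤ 2 ^ i)
            rw [Nat.testBit_lt_two_pow h3, Nat.testBit_lt_two_pow h4]
        rw [hm, (full_ok k hk).1, (full_ok k hk).2]
        push_cast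
        module
      have h3 : ∑ b : Fin 5, inner ℝ (dual e f k b) (y b - q) =
          inner ℝ e (z - q) + s * ∑ b : Fin 5, inner ℝ (dual e f k b) (cpt e f b) := by
        rw [Finset.mul_sum]
        nth_rewrite 2 [← h2]
        rw [sum_inner, ← Finset.sum_add_distrib]
        apply Finset.sum_congr rfl
        intro b _
        have h4 : y b - q = (z - q) + s • cpt e f b := by
          rw [hy]
          abel
        rw [h4, inner_add_right, real_inner_smul_right]
      have h4 : ∑ b : Fin 5, inner ℝ (dual e f k b) (cpt e f b) =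
          ((pairing k 0 + pairing k 1 + pairing k 2 + pairing k 3 + pairing k 4 : ℤ) : ℝ) /
            200000 := by
        have h5 : ∀ b : Fin 5, inner ℝ (dual e f k b) (cpt e f b) =
            ((pairing k b.val : ℤ) : ℝ) / 200000 := by
          intro b
          rw [dual, cpt, real_inner_smul_left, ev, ev, h.inner_comb, pairing]
          push_cast
          ring
        rw [Finset.sum_congr rfl fun b _ => h5 b, Fin.sum_univ_five]
        have h3 : ((3 : Fin 5) : ℕ) = 3 := rfl
        have h4 : ((4 : Fin 5) : ℕ) = 4 := rfl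
        simp only [Fin.val_zero, Fin.val_one, Fin.val_two, h3, h4]
        push_cast
        ring
      have h5 : ((18900000 : ℤ) : ℝ) ≤
          ((pairing k 0 + pairing k 1 + pairing k 2 + pairing k 3 + pairing k 4 : ℤ) : ℝ) := by
        exact_mod_cast pairing_ok k hk
      have h6 : inner ℝ e (q - z) = -inner ℝ e (z - q) := by
        rw [← inner_neg_right, neg_sub]
      rw [h3, h4] at h1
      rw [h6]
      have h7 : (189 / 2 : ℝ) ≤
          ((pairing k 0 + pairing k 1 + pairing k 2 + pairing k 3 + pairing k 4 : ℤ) : ℝ) /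
            200000 := by
        have h8 : ((18900000 : ℤ) : ℝ) = 18900000 := by norm_num
        rw [h8] at h5
        linarith
      have h8 := mul_le_mul_of_nonneg_left h7 hs
      linarith

end BT

end Pool.Agent.Lib.H21Steiner
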