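import Pool.Agent.Lib.H21Steiner.SepTree

/-!
# Congestion bounds for trees with the separation property
-/

namespace Pool.Agent.Lib.H21Steiner

open Finset Metric Module

namespace SepTree

section Basic

variable {E : Type*} [NormedAddCommGroup E] [NormedSpace ℝ E] {V : Type*}

/-- Distance to the terminals. -/
noncomputable def D (S : SepTree E V) (y : E) : ℝ := infDist y (S.x '' S.T)

/-- The scale of an edge. -/
noncomputable def rho (S : SepTree E V) (u v : V) : ℝ :=
  max (dist (S.x u) (S.x v)) (max (S.D (S.x u)) (S.D (S.x v)))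

theorem D_nonneg (S : SepTree E V) (y : E) : 0 ≤ S.D y := infDist_nonneg

theorem D_le (S : SepTree E V) {t : V} (ht : t ∈ S.T) (y : E) : S.D y ≤ dist y (S.x t) :=
  infDist_le_dist_of_mem ⟨t, ht, rfl⟩

theorem D_terminal (S : SepTree E V) {t : V} (ht : t ∈ S.T) : S.D (S.x t) = 0 :=
  le_antisymm (by simpa using S.D_le ht (S.x t)) (S.D_nonneg _)

theorem D_le_add (S : SepTree E V) (y z : E) : S.D y ≤ S.D z + dist y z := by
  unfold D
  exact infDist_le_infDist_add_dist

theorem le_D (S : SepTree E V) (hT : S.T.Nonempty) {y : E} {a : ℝ}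
    (h : ∀ t ∈ S.T, a ≤ dist y (S.x t)) : a ≤ S.D y := by
  unfold D
  rw [le_infDist (hT.image _)]
  rintro _ ⟨t, ht, rfl⟩
  exact h t ht

theorem rho_comm (S : SepTree E V) (u v : V) : S.rho u v = S.rho v u := by
  unfold rho
  rw [dist_comm, max_comm (S.D (S.x u))]

theorem dist_le_rho (S : SepTree E V) (u v : V) : dist (S.x u) (S.x v) ≤ S.rho u v :=
  le_max_left _ _

theorem D_le_rho (S : SepTree E V) (u v : V) : S.D (S.x u) ≤ S.rho u v :=
  (le_max_left _ _).trans (le_max_right _ _)

theorem D_le_rho' (S : SepTree E V) (u v : V) : S.D (S.x v) ≤ S.rho u v :=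
  (le_max_right _ _).trans (le_max_right _ _)

theorem D_le_two_rho (S : SepTree E V) {u v : V} {y : E}
    (hy : y ∈ segment ℝ (S.x u) (S.x v)) : S.D y ≤ 2 * S.rho u v := by
  have h1 := S.D_le_add y (S.x u)
  have h2 := dist_le_of_mem_segment hy
  have h3 := S.dist_le_rho u v
  have h4 := S.D_le_rho u v
  linarith

/-- The edge `e` has scale at least `s` and meets the closed ball of radius `R` about `p`. -/
def Big (S : SepTree E V) (p : E) (s R : ℝ) (e : Sym2 V) : Prop :=
  ∃ u v, e = s(u, v) ∧ S.G.Adj u v ∧ s ≤ S.rho u v ∧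
    ∃ y ∈ segment ℝ (S.x u) (S.x v), dist y p ≤ R

/-- A point of a segment at a prescribed distance from `p`. -/
theorem exists_dist_eq {a b p : E} {r : ℝ} (ha : dist a p ≤ r) (hb : r ≤ dist b p) :
    ∃ y ∈ segment ℝ a b, dist y p = r := by
  have h1 : IsPreconnected (segment ℝ a b) := (convex_segment a b).isPreconnected
  have h2 : ContinuousOn (fun y => dist y p) (segment ℝ a b) := by fun_prop
  obtain ⟨y, hy, hyr⟩ := h1.intermediate_value (left_mem_segment ℝ a b)
    (right_mem_segment ℝ a b) h2 ⟨ha, hb⟩
  exact ⟨y, hy, hyr⟩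

end Basic

end SepTree

/-- The bound for `Big` edges. -/
noncomputable def M5 (k : ℕ) (C c : ℝ) : ℝ :=
  (44 * C / c) ^ k + 3 * (M0 k * (16 * (C + 1) / c + 1) ^ k)

namespace SepTree

variable {E : Type*} [NormedAddCommGroup E] [NormedSpace ℝ E] {V : Type*}
  [FiniteDimensional ℝ E] [Fintype V]

/-- The number of vertices far from the terminals. -/
theorem card_far (S : SepTree E V) {p : E} {R c C : ℝ} (hR : 0 < R) (hc : 0 < c) (hC : 0 ≤ C)
    (W : Finset V) (hW : ∀ u ∈ W, c * R / 2 ≤ S.D (S.x u) ∧ dist (S.x u) p ≤ (C + 1) * R) :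
    (W.card : ℝ) ≤ M0 (finrank ℝ E) * (16 * (C + 1) / c + 1) ^ finrank ℝ E := by
  classical
  -- a maximal separated subset
  let P : Finset V → Prop := fun Y => Y ⊆ W ∧
    ∀ u ∈ Y, ∀ v ∈ Y, u ≠ v → c * R / 8 ≤ dist (S.x u) (S.x v)
  have hex : ∃ Y ∈ (W.powerset.filter P), ∀ Y' ∈ (W.powerset.filter P), Y'.card ≤ Y.card := by
    apply Finset.exists_max_image
    exact ⟨∅, by simp [P]⟩
  obtain ⟨Y, hY, hmax⟩ := hex
  simp only [mem_filter, mem_powerset, P] at hY hmax
  obtain ⟨-, hYW, hYsep⟩ := hY
  have hδ : 0 < c * R / 8 := by positivity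
  -- every vertex of `W` is near a vertex of `Y`
  have hcov : ∀ w ∈ W, ∃ y ∈ Y, dist (S.x w) (S.x y) ≤ c * R / 8 := by
    intro w hw
    by_contra hcon
    push Not at hcon
    have hwY : w ∉ Y := by
      intro h
      have := hcon w h
      rw [dist_self] at this
      linarith
    have h1 := hmax (insert w Y) ⟨insert_subset hw hYW, insert_subset hw hYW, by
      intro u hu v hv huv
      rcases mem_insert.1 hu with hu1 | hu1
      · rcases mem_insert.1 hv with hv1 | hv1
        · exact absurd (hu1.trans hv1.symm) huv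
        · rw [hu1]
          exact (hcon v hv1).le
      · rcases mem_insert.1 hv with hv1 | hv1
        · rw [dist_comm, hv1]
          exact (hcon u hu1).le
        · exact hYsep u hu1 v hv1 huv⟩
    rw [card_insert_of_notMem hwY] at h1
    omega
  -- size of `Y`
  have hYcard : (Y.card : ℝ) ≤ (16 * (C + 1) / c + 1) ^ finrank ℝ E := by
    have hinj : Set.InjOn S.x Y := by
      intro u hu v hv h
      by_contra huv
      have := hYsep u hu v hv huv
      rw [h, dist_self] at this
      linarith
    have h1 := packing (κ := 8 * (C + 1) / c) (δ := c * R / 8) (by positivity) hδ (Y.image S.x) p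
      (by
        intro q hq
        obtain ⟨u, hu, rfl⟩ := mem_image.1 hq
        have h2 := (hW u (hYW hu)).2
        have h3 : 8 * (C + 1) / c * (c * R / 8) = (C + 1) * R := by
          field_simp
        rw [h3]
        exact h2)
      (by
        intro q hq q' hq' hqq
        obtain ⟨u, hu, rfl⟩ := mem_image.1 hq
        obtain ⟨v, hv, rfl⟩ := mem_image.1 hq'
        exact hYsep u hu v hv (fun h => hqq (by rw [h])))
    rw [Finset.card_image_of_injOn hinj] at h1
    have h4 : 2 * (8 * (C + 1) / c) + 1 = 16 * (C + 1) / c + 1 := by ring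
    rwa [h4] at h1
  -- each ball contains few vertices
  have hball : ∀ y ∈ Y, (W.filter fun w => dist (S.x w) (S.x y) ≤ c * R / 8).card ≤
      M0 (finrank ℝ E) := by
    intro y hy
    have h1 := (hW y (hYW hy)).1
    have h2 := S.local_density (c := S.x y) (R := c * R / 4) (by positivity) (by
      intro t ht
      have := S.D_le ht (S.x y)
      rw [dist_comm] at this
      have h3 : 0 < c * R := by positivity
      linarith)
    have h3 : c * R / 4 / 2 = c * R / 8 := by ring
    rw [h3] at h2
    refine le_trans (card_le_card ?_) h2.le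
    intro w hw
    exact S.mem_near.2 (mem_filter.1 hw).2
  have hsub : W ⊆ Y.biUnion fun y => W.filter fun w => dist (S.x w) (S.x y) ≤ c * R / 8 := by
    intro w hw
    obtain ⟨y, hy, hwy⟩ := hcov w hw
    exact mem_biUnion.2 ⟨y, hy, mem_filter.2 ⟨hw, hwy⟩⟩
  have h1 : W.card ≤ Y.card * M0 (finrank ℝ E) := by
    refine (card_le_card hsub).trans (card_biUnion_le.trans ?_)
    calc ∑ y ∈ Y, (W.filter fun w => dist (S.x w) (S.x y) ≤ c * R / 8).card
        ≤ ∑ y ∈ Y, M0 (finrank ℝ E) := sum_le_sum hball
      _ = Y.card * M0 (finrank ℝ E) := by rw [sum_const, smul_eq_mul]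
  have h2 : (W.card : ℝ) ≤ Y.card * M0 (finrank ℝ E) := by exact_mod_cast h1
  refine h2.trans ?_
  rw [mul_comm]
  exact mul_le_mul_of_nonneg_left hYcard (by positivity)

omit [FiniteDimensional ℝ E] in
/-- The edges incident to a set of non-terminals. -/
theorem card_incident (S : SepTree E V) (U : Finset V) (hU : ∀ u ∈ U, u ∉ S.T)
    (F : Finset (Sym2 V)) (hF : ∀ e ∈ F, ∃ u v, e = s(u, v) ∧ S.G.Adj u v ∧ u ∈ U) :
    F.card ≤ 3 * U.card := by
  classical
  have hsub : F ⊆ U.biUnion fun u => (univ.filter fun w => S.G.Adj u w).image fun w => s(u, w) := by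
    intro e he
    obtain ⟨u, v, rfl, huv, hu⟩ := hF e he
    exact mem_biUnion.2 ⟨u, hu, mem_image.2 ⟨v, by simpa using huv, rfl⟩⟩
  refine (card_le_card hsub).trans (card_biUnion_le.trans ?_)
  calc ∑ u ∈ U, ((univ.filter fun w => S.G.Adj u w).image fun w => s(u, w)).card
      ≤ ∑ u ∈ U, 3 := by
        refine sum_le_sum fun u hu => card_image_le.trans ?_
        rw [← S.deg u (hU u hu), Set.ncard_eq_toFinset_card']
        apply le_of_eq
        congr 1
        ext w
        simp
    _ = 3 * U.card := by rw [sum_const, smul_eq_mul, mul_comm]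

/-- Bound for the number of edges of large scale near a point. -/
theorem card_big (S : SepTree E V) {p : E} {R c C : ℝ} (hR : 0 < R) (hc : 0 < c) (hc1 : c ≤ 1)
    (hC : 1 ≤ C) (F : Finset (Sym2 V)) (hF : ∀ e ∈ F, S.Big p (c * R) (C * R) e) :
    (F.card : ℝ) ≤ M5 (finrank ℝ E) C c := by
  classical
  set F₁ := F.filter fun e => S.Long p (c * R / 4) (C * R) e with hF₁
  set F₂ := F.filter fun e => ¬ S.Long p (c * R / 4) (C * R) e with hF₂
  have hsum : F₁.card + F₂.card = F.card := Finset.card_filter_add_card_filter_not _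
  have h1 : (F₁.card : ℝ) ≤ (44 * C / c) ^ finrank ℝ E := by
    have h2 := S.card_long (c := p) (ε := c * R / 4) (R := C * R) (by positivity)
      (by nlinarith) F₁ (fun e he => (mem_filter.1 he).2)
    have h3 : 11 * (C * R) / (c * R / 4) = 44 * C / c := by
      field_simp
      ring
    rwa [h3] at h2
  set W := (univ : Finset V).filter fun u => c * R / 2 ≤ S.D (S.x u) ∧
    dist (S.x u) p ≤ (C + 1) * R with hW
  have hcR : 0 < c * R := by positivity
  have h2 : F₂.card ≤ 3 * W.card := by
    refine S.card_incident W ?_ F₂ ?_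
    · intro u hu hut
      have := (mem_filter.1 hu).2.1
      rw [S.D_terminal hut] at this
      linarith
    · intro e he
      obtain ⟨heF, hnl⟩ := mem_filter.1 he
      obtain ⟨u, v, rfl, huv, hrho, y, hy, hyp⟩ := hF e heF
      have hshort : dist (S.x u) (S.x v) < c * R / 4 := by
        by_contra hcon
        exact hnl ⟨u, v, rfl, huv, not_lt.1 hcon, y, hy, hyp⟩
      refine ⟨u, v, rfl, huv, mem_filter.2 ⟨mem_univ _, ?_, ?_⟩⟩
      · have h3 := S.D_le_add (S.x v) (S.x u)
        rw [dist_comm] at h3
        unfold rho at hrho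
        rcases le_max_iff.1 hrho with h | h
        · linarith
        rcases le_max_iff.1 h with h | h <;> linarith
      · have h3 := dist_triangle (S.x u) y p
        have h4 := dist_le_of_mem_segment hy
        rw [dist_comm y] at h4
        nlinarith
  have h3 := S.card_far (p := p) hR hc (by linarith : (0 : ℝ) ≤ C) W
    (fun u hu => (mem_filter.1 hu).2)
  have h4 : (F₂.card : ℝ) ≤ 3 * W.card := by exact_mod_cast h2
  have h5 : (F.card : ℝ) = F₁.card + F₂.card := by exact_mod_cast hsum.symm
  unfold M5
  linarith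

end SepTree

/-- The congestion bound. -/
noncomputable def KK (k : ℕ) : ℝ :=
  M5 k 4 (1 / 128) + M5 k 4 (1 / 2) + 3 * (M5 k 1 (1 / 32) + M5 k 4 1)

namespace SepTree

variable {E : Type*} [NormedAddCommGroup E] [NormedSpace ℝ E] {V : Type*}
  [FiniteDimensional ℝ E] [Fintype V]

/-- Congestion lemma: the number of edges that are relevant at some scale between `r` and `R` near
the point `p`, if the terminals within `R / 2` of `p` are within `2 r` of `p`. -/
theorem congestion (S : SepTree E V) (hT : S.T.Nonempty) {p : E} {r R : ℝ} (hr : 0 < r)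
    (hrR : r ≤ R)
    (hgap : ∀ t ∈ S.T, dist (S.x t) p ≤ R / 2 → dist (S.x t) p ≤ 2 * r)
    (F : Finset (Sym2 V))
    (hF : ∀ e ∈ F, ∃ u v, e = s(u, v) ∧ S.G.Adj u v ∧ ∃ σ, r ≤ σ ∧ σ ≤ R ∧
      σ ≤ 2 * S.rho u v ∧ dist (S.x u) p ≤ 4 * σ) :
    (F.card : ℝ) ≤ KK (finrank ℝ E) := by
  classical
  have hR : 0 < R := lt_of_lt_of_le hr hrR
  set U := (univ : Finset V).filter fun u => 4 * r < dist (S.x u) p ∧ dist (S.x u) p < R / 8
    with hU
  have hUT : ∀ u ∈ U, u ∉ S.T := by
    intro u hu hut
    obtain ⟨h1, h2⟩ := (mem_filter.1 hu).2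
    have := hgap u hut (by linarith)
    linarith
  -- bound for `U`
  have hUcard : (U.card : ℝ) ≤ M5 (finrank ℝ E) 1 (1 / 32) + M5 (finrank ℝ E) 4 1 := by
    have hleave := darts_leaving S.G S.acyclic U (fun u hu => S.deg u (hUT u hu))
    set Dt := (U ×ˢ Uᶜ).filter (fun p => S.G.Adj p.1 p.2) with hDt
    have hinj : Set.InjOn (fun p : V × V => s(p.1, p.2)) Dt := by
      intro p hp p' hp' h
      simp only [hDt, coe_filter, mem_product, mem_compl, Set.mem_ofPred_eq] at hp hp'
      simp only [Sym2.eq_iff] at h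
      rcases h with h | h
      · exact Prod.ext h.1 h.2
      · exfalso
        exact hp'.1.2 (h.1 ▸ hp.1.1)
    set Fd := Dt.image (fun p : V × V => s(p.1, p.2)) with hFd
    have hFdcard : Fd.card = Dt.card := Finset.card_image_of_injOn hinj
    set Fa := Fd.filter fun e => S.Big p (1 / 32 * R) (1 * R) e with hFa
    set Fb := Fd.filter fun e => S.Big p (1 * r) (4 * r) e with hFb
    have hcov : Fd ⊆ Fa ∪ Fb := by
      intro e he
      obtain ⟨q, hq, rfl⟩ := mem_image.1 he
      simp only [hDt, mem_filter, mem_product, mem_compl] at hq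
      obtain ⟨⟨hq1, hq2⟩, hadj⟩ := hq
      obtain ⟨h1, h2⟩ := (mem_filter.1 hq1).2
      have h3 : R / 8 ≤ dist (S.x q.2) p ∨ dist (S.x q.2) p ≤ 4 * r := by
        by_contra hcon
        push Not at hcon
        exact hq2 (mem_filter.2 ⟨mem_univ _, hcon.2, hcon.1⟩)
      rw [mem_union, mem_filter, mem_filter]
      rcases h3 with h3 | h3
      · left
        refine ⟨he, q.1, q.2, rfl, hadj, ?_, ?_⟩
        · obtain ⟨y, hy, hyp⟩ := exists_dist_eq h2.le h3
          have h4 : R / 16 ≤ S.D y := by
            apply S.le_D hT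
            intro t ht
            by_cases h5 : dist (S.x t) p ≤ R / 2
            · have h6 := hgap t ht h5
              have h7 := dist_triangle y (S.x t) p
              linarith
            · have h7 := dist_triangle (S.x t) y p
              rw [dist_comm (S.x t) y] at h7
              linarith
          have h5 := S.D_le_two_rho hy
          linarith
        · exact ⟨S.x q.1, left_mem_segment _ _ _, by linarith⟩
      · right
        refine ⟨he, q.1, q.2, rfl, hadj, ?_, ?_⟩
        · obtain ⟨y, hy, hyp⟩ := exists_dist_eq h3 h1.le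
          rw [segment_symm] at hy
          have h4 : 2 * r ≤ S.D y := by
            apply S.le_D hT
            intro t ht
            by_cases h5 : dist (S.x t) p ≤ R / 2
            · have h6 := hgap t ht h5
              have h7 := dist_triangle y (S.x t) p
              linarith
            · have h7 := dist_triangle (S.x t) y p
              rw [dist_comm (S.x t) y] at h7
              linarith
          have h5 := S.D_le_two_rho hy
          linarith
        · exact ⟨S.x q.2, right_mem_segment _ _ _, h3⟩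
    have ha := S.card_big (p := p) (C := 1) (c := 1 / 32) hR (by norm_num) (by norm_num) le_rfl
      Fa (fun e he => (mem_filter.1 he).2)
    have hb := S.card_big (p := p) (C := 4) (c := 1) hr (by norm_num) le_rfl (by norm_num)
      Fb (fun e he => (mem_filter.1 he).2)
    have h6 : Fd.card ≤ Fa.card + Fb.card := (card_le_card hcov).trans (card_union_le _ _)
    have h7 : (U.card : ℝ) ≤ Fa.card + Fb.card := by
      have : U.card ≤ Fa.card + Fb.card := by omega
      exact_mod_cast this
    linarith
  -- the three classes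
  set F₁ := F.filter fun e => S.Big p (1 / 128 * R) (4 * R) e with hF₁
  set F₂ := F.filter fun e => S.Big p (1 / 2 * r) (4 * r) e with hF₂
  set F₃ := F.filter fun e => ∃ u v, e = s(u, v) ∧ S.G.Adj u v ∧ u ∈ U with hF₃
  have hcov : F ⊆ (F₁ ∪ F₂) ∪ F₃ := by
    intro e he
    obtain ⟨u, v, rfl, huv, σ, hσ1, hσ2, hσ3, hσ4⟩ := hF e he
    rw [mem_union, mem_union, mem_filter, mem_filter, mem_filter]
    by_cases h1 : R / 64 ≤ σ
    · left; left
      exact ⟨he, u, v, rfl, huv, by linarith, S.x u, left_mem_segment _ _ _, by linarith⟩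
    · push Not at h1
      by_cases h2 : dist (S.x u) p ≤ 4 * r
      · left; right
        exact ⟨he, u, v, rfl, huv, by linarith, S.x u, left_mem_segment _ _ _, h2⟩
      · right
        push Not at h2
        exact ⟨he, u, v, rfl, huv, mem_filter.2 ⟨mem_univ _, h2, by linarith⟩⟩
  have h1 := S.card_big (p := p) (C := 4) (c := 1 / 128) hR (by norm_num) (by norm_num)
    (by norm_num) F₁ (fun e he => (mem_filter.1 he).2)
  have h2 := S.card_big (p := p) (C := 4) (c := 1 / 2) hr (by norm_num) (by norm_num)
    (by norm_num) F₂ (fun e he => (mem_filter.1 he).2)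
  have h3 := S.card_incident U hUT F₃ (fun e he => (mem_filter.1 he).2)
  have h4 : F.card ≤ F₁.card + F₂.card + F₃.card :=
    (card_le_card hcov).trans ((card_union_le _ _).trans
      (Nat.add_le_add_right (card_union_le _ _) _))
  have h5 : (F.card : ℝ) ≤ F₁.card + F₂.card + F₃.card := by exact_mod_cast h4
  have h6 : (F₃.card : ℝ) ≤ 3 * U.card := by exact_mod_cast h3
  unfold KK
  linarith

end SepTree

end Pool.Agent.Lib.H21Steiner
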