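import Mathlib

/-!
# Abstract counting lemma

A graph on `ι ⊕ σ` together with a placement of its edges on hosts, with bounded congestion, is
determined up to an isomorphism fixing `ι` by a short code.
-/

namespace Pool.Agent.Lib.H21Steiner

open Finset

variable {ι σ : Type} {H : Type}

/-- A placement of the edges of a graph on hosts. -/
structure Placed (hosts : Finset H) (pairs : Finset (H × H)) (τ : ι → H) (L : Type)
    (G : SimpleGraph (ι ⊕ σ)) where
  /-- the hosts of an edge -/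
  P : Sym2 (ι ⊕ σ) → Set H
  /-- the label of an edge at a host -/
  lab : H → Sym2 (ι ⊕ σ) → L
  sub : ∀ e ∈ G.edgeSet, ∀ h ∈ P e, h ∈ hosts
  inj : ∀ h, ∀ e ∈ G.edgeSet, ∀ e' ∈ G.edgeSet, h ∈ P e → h ∈ P e' → lab h e = lab h e' → e = e'
  chain : ∀ e ∈ G.edgeSet, ∀ h ∈ P e, ∀ h' ∈ P e, Relation.ReflTransGen
    (fun h₁ h₂ => h₁ ∈ P e ∧ h₂ ∈ P e ∧ ((h₁, h₂) ∈ pairs ∨ (h₂, h₁) ∈ pairs)) h h'
  steiner : ∀ s : σ, ∃ h, ∀ e ∈ G.incidenceSet (Sum.inr s), h ∈ P e
  terminal : ∀ i : ι, ∀ e ∈ G.incidenceSet (Sum.inl i), τ i ∈ P e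
  two : ∀ s : σ, (G.incidenceSet (Sum.inr s)).Nontrivial

namespace Placed

variable {hosts : Finset H} {pairs : Finset (H × H)} {τ : ι → H} {L : Type}
  {G G' : SimpleGraph (ι ⊕ σ)}

/-- Labels used at a host. -/
def c0 (R : Placed hosts pairs τ L G) (h : H) : Set L :=
  {l | ∃ e ∈ G.edgeSet, h ∈ R.P e ∧ R.lab h e = l}

/-- Pairs of labels used at a pair of hosts. -/
def c1 (R : Placed hosts pairs τ L G) (h : H × H) : Set (L × L) :=
  {l | ∃ e ∈ G.edgeSet, h.1 ∈ R.P e ∧ h.2 ∈ R.P e ∧ R.lab h.1 e = l.1 ∧ R.lab h.2 e = l.2}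

/-- Label sets of the vertices at a host. -/
def c2 (R : Placed hosts pairs τ L G) (h : H) : Set (Set L) :=
  {A | ∃ s : σ, (∀ e ∈ G.incidenceSet (Sum.inr s), h ∈ R.P e) ∧
    A = R.lab h '' G.incidenceSet (Sum.inr s)}

/-- Label sets of the terminals. -/
def c3 (R : Placed hosts pairs τ L G) (i : ι) : Set L :=
  R.lab (τ i) '' G.incidenceSet (Sum.inl i)

/-- Two placed graphs have the same code. -/
structure SameCode (R : Placed hosts pairs τ L G) (R' : Placed hosts pairs τ L G') : Prop where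
  h0 : ∀ h ∈ hosts, R.c0 h = R'.c0 h
  h1 : ∀ h ∈ pairs, R.c1 h = R'.c1 h
  h2 : ∀ h ∈ hosts, R.c2 h = R'.c2 h
  h3 : ∀ i, R.c3 i = R'.c3 i

theorem SameCode.symm {R : Placed hosts pairs τ L G} {R' : Placed hosts pairs τ L G'}
    (h : SameCode R R') : SameCode R' R :=
  ⟨fun x hx => (h.h0 x hx).symm, fun x hx => (h.h1 x hx).symm, fun x hx => (h.h2 x hx).symm,
    fun i => (h.h3 i).symm⟩

/-- Matching edges. -/
def Match (R : Placed hosts pairs τ L G) (R' : Placed hosts pairs τ L G')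
    (e e' : Sym2 (ι ⊕ σ)) : Prop :=
  e' ∈ G'.edgeSet ∧ ∀ h ∈ R.P e, h ∈ R'.P e' ∧ R'.lab h e' = R.lab h e

theorem exists_match {R : Placed hosts pairs τ L G} {R' : Placed hosts pairs τ L G'}
    (hc : SameCode R R') {e : Sym2 (ι ⊕ σ)} (he : e ∈ G.edgeSet) {h : H} (hh : h ∈ R.P e) :
    ∃ e', Match R R' e e' := by
  have h1 : R.lab h e ∈ R'.c0 h := by
    rw [← hc.h0 h (R.sub e he h hh)]
    exact ⟨e, he, hh, rfl⟩
  obtain ⟨e', he', hh', hl⟩ := h1
  refine ⟨e', he', ?_⟩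
  intro h' hh2
  have hch := R.chain e he h hh h' hh2
  induction hch with
  | refl => exact ⟨hh', hl⟩
  | @tail h₁ h₂ _ hstep ih =>
      obtain ⟨hP1, hP2, hp⟩ := hstep
      obtain ⟨ih1, ih2⟩ := ih hP1
      rcases hp with hp | hp
      · have h2 : (R.lab h₁ e, R.lab h₂ e) ∈ R'.c1 (h₁, h₂) := by
          rw [← hc.h1 _ hp]
          exact ⟨e, he, hP1, hP2, rfl, rfl⟩
        obtain ⟨e'', he'', ha, hb, hla, hlb⟩ := h2
        simp only at ha hb hla hlb
        have : e'' = e' := R'.inj h₁ e'' he'' e' he' ha ih1 (hla.trans ih2.symm)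
        subst this
        exact ⟨hb, hlb⟩
      · have h2 : (R.lab h₂ e, R.lab h₁ e) ∈ R'.c1 (h₂, h₁) := by
          rw [← hc.h1 _ hp]
          exact ⟨e, he, hP2, hP1, rfl, rfl⟩
        obtain ⟨e'', he'', ha, hb, hla, hlb⟩ := h2
        simp only at ha hb hla hlb
        have : e'' = e' := R'.inj h₁ e'' he'' e' he' hb ih1 (hlb.trans ih2.symm)
        subst this
        exact ⟨ha, hla⟩

theorem exists_host (R : Placed hosts pairs τ L G) {e : Sym2 (ι ⊕ σ)} (he : e ∈ G.edgeSet) :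
    ∃ h, h ∈ R.P e := by
  induction e using Sym2.ind with
  | _ u v =>
      rcases u with i | s
      · exact ⟨τ i, R.terminal i _ ⟨he, Sym2.mem_mk_left _ _⟩⟩
      · obtain ⟨h, hh⟩ := R.steiner s
        exact ⟨h, hh _ ⟨he, Sym2.mem_mk_left _ _⟩⟩

/-- The vertex map, at one vertex. -/
theorem exists_vertex {R : Placed hosts pairs τ L G} {R' : Placed hosts pairs τ L G'}
    (hc : SameCode R R') (v : ι ⊕ σ) :
    ∃ w : ι ⊕ σ, (∀ i, v = Sum.inl i → w = Sum.inl i) ∧ ((∃ s, v = Sum.inr s) → ∃ s, w = Sum.inr s) ∧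
      (∀ e ∈ G.incidenceSet v, ∀ e', Match R R' e e' → e' ∈ G'.incidenceSet w) ∧
      (∀ e' ∈ G'.incidenceSet w, ∃ e ∈ G.incidenceSet v, Match R R' e e') := by
  have key : ∀ (h : H) (w : ι ⊕ σ), (∀ e ∈ G.incidenceSet v, h ∈ R.P e) →
      (∀ e ∈ G'.incidenceSet w, h ∈ R'.P e) →
      R.lab h '' G.incidenceSet v = R'.lab h '' G'.incidenceSet w →
      (∀ e ∈ G.incidenceSet v, ∀ e', Match R R' e e' → e' ∈ G'.incidenceSet w) ∧
      (∀ e' ∈ G'.incidenceSet w, ∃ e ∈ G.incidenceSet v, Match R R' e e') := by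
    intro h w hv hw himg
    constructor
    · intro e he e' hm
      have h1 : R.lab h e ∈ R'.lab h '' G'.incidenceSet w := by
        rw [← himg]
        exact ⟨e, he, rfl⟩
      obtain ⟨e'', he'', hl⟩ := h1
      have h2 := hm.2 h (hv e he)
      have : e'' = e' := R'.inj h e'' he''.1 e' hm.1 (hw e'' he'') h2.1 (hl.trans h2.2.symm)
      rwa [← this]
    · intro e' he'
      have h1 : R'.lab h e' ∈ R.lab h '' G.incidenceSet v := by
        rw [himg]
        exact ⟨e', he', rfl⟩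
      obtain ⟨e, he, hl⟩ := h1
      refine ⟨e, he, ?_⟩
      obtain ⟨e'', hm⟩ := exists_match hc he.1 (hv e he)
      have h2 := hm.2 h (hv e he)
      have : e'' = e' := R'.inj h e'' hm.1 e' he'.1 h2.1 (hw e' he') (h2.2.trans hl)
      rwa [← this]
  rcases v with i | s
  · refine ⟨Sum.inl i, fun j hj => hj, fun ⟨s, hs⟩ => by simp at hs, ?_⟩
    exact key (τ i) (Sum.inl i) (R.terminal i) (R'.terminal i) (hc.h3 i)
  · obtain ⟨h, hh⟩ := R.steiner s
    obtain ⟨e, he⟩ := (R.two s).nonempty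
    have h1 : R.lab h '' G.incidenceSet (Sum.inr s) ∈ R'.c2 h := by
      rw [← hc.h2 h (R.sub e he.1 h (hh e he))]
      exact ⟨s, hh, rfl⟩
    obtain ⟨s', hs', himg⟩ := h1
    refine ⟨Sum.inr s', fun j hj => by simp at hj, fun _ => ⟨s', rfl⟩, ?_⟩
    exact key h (Sum.inr s') hh hs' himg

theorem match_unique {R : Placed hosts pairs τ L G} {R' : Placed hosts pairs τ L G'}
    {e e₁ e₂ : Sym2 (ι ⊕ σ)} (he : e ∈ G.edgeSet) (h1 : Match R R' e e₁) (h2 : Match R R' e e₂) :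
    e₁ = e₂ := by
  obtain ⟨h, hh⟩ := R.exists_host he
  exact R'.inj h e₁ h1.1 e₂ h2.1 (h1.2 h hh).1 (h2.2 h hh).1
    ((h1.2 h hh).2.trans (h2.2 h hh).2.symm)

theorem match_symm {R : Placed hosts pairs τ L G} {R' : Placed hosts pairs τ L G'}
    (hc : SameCode R R') {e e' : Sym2 (ι ⊕ σ)} (he : e ∈ G.edgeSet) (hm : Match R R' e e') :
    Match R' R e' e := by
  obtain ⟨h, hh⟩ := R.exists_host he
  obtain ⟨h1, h2⟩ := hm.2 h hh
  obtain ⟨e'', hm'⟩ := exists_match hc.symm hm.1 h1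
  obtain ⟨h3, h4⟩ := hm'.2 h h1
  have : e'' = e := R.inj h e'' hm'.1 e he h3 hh (h4.trans h2)
  rwa [← this]

/-- The inverse property of the vertex maps. -/
theorem vertex_inv {R : Placed hosts pairs τ L G} {R' : Placed hosts pairs τ L G'}
    (hc : SameCode R R') (f g : ι ⊕ σ → ι ⊕ σ)
    (hf1 : ∀ v, ∀ i, v = Sum.inl i → f v = Sum.inl i)
    (hf3 : ∀ v, ∀ e ∈ G.incidenceSet v, ∀ e', Match R R' e e' → e' ∈ G'.incidenceSet (f v))
    (hg1 : ∀ v, ∀ i, v = Sum.inl i → g v = Sum.inl i)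
    (hg3 : ∀ v, ∀ e ∈ G'.incidenceSet v, ∀ e', Match R' R e e' → e' ∈ G.incidenceSet (g v))
    (v : ι ⊕ σ) : g (f v) = v := by
  rcases v with i | s
  · rw [hf1 _ i rfl, hg1 _ i rfl]
  · obtain ⟨e₁, he₁, e₂, he₂, hne⟩ := R.two s
    have key : ∀ e ∈ G.incidenceSet (Sum.inr s), e ∈ G.incidenceSet (g (f (Sum.inr s))) := by
      intro e he
      obtain ⟨h, hh⟩ := R.exists_host he.1
      obtain ⟨e', hm⟩ := exists_match hc he.1 hh
      exact hg3 _ e' (hf3 _ e he e' hm) e (match_symm hc he.1 hm)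
    by_contra hcon
    have h1 : ∀ e ∈ G.incidenceSet (Sum.inr s), e = s(g (f (Sum.inr s)), Sum.inr s) := by
      intro e he
      exact (Sym2.mem_and_mem_iff hcon).1 ⟨(key e he).2, he.2⟩
    exact hne ((h1 e₁ he₁).trans (h1 e₂ he₂).symm)

/-- Placed graphs with the same code are isomorphic over `ι`. -/
theorem iso_of_sameCode {R : Placed hosts pairs τ L G} {R' : Placed hosts pairs τ L G'}
    (hc : SameCode R R') : ∃ φ : G ≃g G', ∀ i, φ (Sum.inl i) = Sum.inl i := by
  choose f hf1 _ hf3 _ using fun v => exists_vertex hc v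
  choose g hg1 _ hg3 _ using fun v => exists_vertex hc.symm v
  have hgf := vertex_inv hc f g hf1 hf3 hg1 hg3
  have hfg := vertex_inv hc.symm g f hg1 hg3 hf1 hf3
  have hadj : ∀ u v, G.Adj u v → G'.Adj (f u) (f v) := by
    intro u v huv
    have he : s(u, v) ∈ G.edgeSet := huv
    obtain ⟨h, hh⟩ := R.exists_host he
    obtain ⟨e', hm⟩ := exists_match hc he hh
    have h1 := hf3 u _ ⟨he, Sym2.mem_mk_left _ _⟩ e' hm
    have h2 := hf3 v _ ⟨he, Sym2.mem_mk_right _ _⟩ e' hm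
    have hne : f u ≠ f v := by
      intro h
      have := congrArg g h
      rw [hgf, hgf] at this
      exact huv.ne this
    have h3 : e' = s(f u, f v) := (Sym2.mem_and_mem_iff hne).1 ⟨h1.2, h2.2⟩
    have h4 := h1.1
    rw [h3] at h4
    exact h4
  have hadj' : ∀ u v, G'.Adj u v → G.Adj (g u) (g v) := by
    intro u v huv
    have he : s(u, v) ∈ G'.edgeSet := huv
    obtain ⟨h, hh⟩ := R'.exists_host he
    obtain ⟨e', hm⟩ := exists_match hc.symm he hh
    have h1 := hg3 u _ ⟨he, Sym2.mem_mk_left _ _⟩ e' hm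
    have h2 := hg3 v _ ⟨he, Sym2.mem_mk_right _ _⟩ e' hm
    have hne : g u ≠ g v := by
      intro h
      have := congrArg f h
      rw [hfg, hfg] at this
      exact huv.ne this
    have h3 : e' = s(g u, g v) := (Sym2.mem_and_mem_iff hne).1 ⟨h1.2, h2.2⟩
    have h4 := h1.1
    rw [h3] at h4
    exact h4
  refine ⟨⟨⟨f, g, hgf, hfg⟩, ?_⟩, fun i => hf1 _ i rfl⟩
  intro u v
  constructor
  · intro h
    have := hadj' _ _ h
    simp only [Equiv.coe_fn_mk] at this
    rwa [hgf, hgf] at this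
  · intro h
    exact hadj u v h

end Placed

theorem encard_image_le_of_code {α β γ : Type*} (S : Set α) (f : α → β) (g : α → γ)
    (h : ∀ a ∈ S, ∀ b ∈ S, g a = g b → f a = f b) : (f '' S).encard ≤ (g '' S).encard := by
  classical
  rcases S.eq_empty_or_nonempty with rfl | ⟨a₀, ha₀⟩
  · simp
  let k : γ → β := fun c => if h : ∃ a ∈ S, g a = c then f h.choose else f a₀
  have hsub : f '' S ⊆ k '' (g '' S) := by
    rintro _ ⟨a, ha, rfl⟩
    refine ⟨g a, ⟨a, ha, rfl⟩, ?_⟩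
    have hex : ∃ b ∈ S, g b = g a := ⟨a, ha, rfl⟩
    have h1 : k (g a) = f hex.choose := dif_pos hex
    rw [h1]
    exact h _ hex.choose_spec.1 _ ha hex.choose_spec.2
  exact (Set.encard_le_encard hsub).trans (Set.encard_image_le _ _)

/-- The counting lemma. -/
theorem card_classes_le {ι σ H : Type} [Fintype ι] (hosts : Finset H) (pairs : Finset (H × H))
    (τ : ι → H) (K : ℕ) (r : Setoid (SimpleGraph (ι ⊕ σ)))
    (hr : ∀ G G' : SimpleGraph (ι ⊕ σ), (∃ φ : G ≃g G', ∀ i, φ (Sum.inl i) = Sum.inl i) → r G G')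
    (S : Set (SimpleGraph (ι ⊕ σ)))
    (hS : ∀ G ∈ S, Nonempty (Placed hosts pairs τ (Fin K) G)) :
    (Quotient.mk r '' S).encard ≤
      ((2 ^ (K * hosts.card + K * K * pairs.card + 2 ^ K * hosts.card +
        K * Fintype.card ι) : ℕ) : ℕ∞) := by
  classical
  let Code : Type := (hosts → Set (Fin K)) × (pairs → Set (Fin K × Fin K)) ×
    (hosts → Set (Set (Fin K))) × (ι → Set (Fin K))
  let cd : ∀ G : SimpleGraph (ι ⊕ σ), Placed hosts pairs τ (Fin K) G → Code := fun G R =>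
    (fun x => R.c0 x, fun x => R.c1 x, fun x => R.c2 x, fun i => R.c3 i)
  let g : SimpleGraph (ι ⊕ σ) → Code := fun G =>
    if h : Nonempty (Placed hosts pairs τ (Fin K) G) then cd G (Classical.choice h)
    else (fun _ => ∅, fun _ => ∅, fun _ => ∅, fun _ => ∅)
  have h1 : (Quotient.mk r '' S).encard ≤ (g '' S).encard := by
    apply encard_image_le_of_code
    intro G hG G' hG' hgg
    have hN := hS G hG
    have hN' := hS G' hG'
    have e1 : g G = cd G (Classical.choice hN) := dif_pos hN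
    have e2 : g G' = cd G' (Classical.choice hN') := dif_pos hN'
    rw [e1, e2] at hgg
    have q0 := congrArg (fun c : Code => c.1) hgg
    have q1 := congrArg (fun c : Code => c.2.1) hgg
    have q2 := congrArg (fun c : Code => c.2.2.1) hgg
    have q3 := congrArg (fun c : Code => c.2.2.2) hgg
    apply Quotient.sound
    apply hr
    refine Placed.iso_of_sameCode (R := Classical.choice hN) (R' := Classical.choice hN') ?_
    exact ⟨fun x hx => congrFun q0 ⟨x, hx⟩, fun x hx => congrFun q1 ⟨x, hx⟩,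
      fun x hx => congrFun q2 ⟨x, hx⟩, fun i => congrFun q3 i⟩
  refine h1.trans ((Set.encard_le_encard (Set.subset_univ _)).trans ?_)
  rw [Set.encard_univ, ENat.card_eq_coe_fintype_card]
  apply le_of_eq
  congr 1
  simp only [Code, Fintype.card_prod, Fintype.card_pi, Fintype.card_set, Finset.prod_const,
    Finset.card_univ, Fintype.card_fin, Fintype.card_coe]
  rw [← pow_mul, ← pow_mul, ← pow_mul, ← pow_mul, ← pow_add, ← pow_add, ← pow_add]
  congr 1
  ring

end Pool.Agent.Lib.H21Steiner
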