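import Mathlib

/-!
# Steiner trees, full topologies
-/

namespace Pool.Agent.Lib.H21Steiner

open MeasureTheory

/-- The vertices of a full topology on `n` terminals: the terminals `Sum.inl i` and the `n - 2`
Steiner points `Sum.inr s`. -/
abbrev Vert (n : ℕ) : Type := Fin n ⊕ Fin (n - 2)

/-- `K` is a Steiner tree for the set `A`: a compact connected set containing `A`, of minimal
one-dimensional Hausdorff measure. -/
def IsSteinerTree {d : ℕ} (A K : Set (EuclideanSpace ℝ (Fin d))) : Prop :=
  IsCompact K ∧ IsConnected K ∧ A ⊆ K ∧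
    ∀ K' : Set (EuclideanSpace ℝ (Fin d)), IsCompact K' → IsConnected K' → A ⊆ K' →
      μH[1] K ≤ μH[1] K'

/-- A graph on the terminals and Steiner points is a full topology: it is a tree, the terminals
have degree one and the Steiner points have degree three. -/
def IsFullTopology {n : ℕ} (G : SimpleGraph (Vert n)) : Prop :=
  G.IsTree ∧ (∀ i, (G.neighborSet (Sum.inl i)).ncard = 1) ∧
    ∀ s, (G.neighborSet (Sum.inr s)).ncard = 3

/-- Two graphs are the same topology: they are isomorphic by an isomorphism that fixes every
terminal (the Steiner points are unlabelled). -/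
def SameTopology {n : ℕ} (G G' : SimpleGraph (Vert n)) : Prop :=
  ∃ φ : G ≃g G', ∀ i, φ (Sum.inl i) = Sum.inl i

theorem sameTopology_equivalence (n : ℕ) :
    Equivalence (SameTopology : SimpleGraph (Vert n) → SimpleGraph (Vert n) → Prop) where
  refl G := ⟨SimpleGraph.Iso.refl, fun _ => rfl⟩
  symm := by
    rintro G G' ⟨φ, hφ⟩
    refine ⟨φ.symm, fun i => ?_⟩
    have h := φ.symm_apply_apply (Sum.inl i)
    rw [hφ] at h
    exact h
  trans := by
    rintro G G' G'' ⟨φ, hφ⟩ ⟨ψ, hψ⟩
    refine ⟨φ.trans ψ, fun i => ?_⟩
    change ψ (φ (Sum.inl i)) = _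
    rw [hφ, hψ]

/-- The setoid of topologies. -/
def topologySetoid (n : ℕ) : Setoid (SimpleGraph (Vert n)) :=
  ⟨SameTopology, sameTopology_equivalence n⟩

/-- The set `K` is a straight-line drawing, without crossings, of the graph `G`, in which the
terminal `i` is drawn at the point `a i`: the vertices are drawn at distinct points, distinct edges
meet only at the image of a common end-vertex, and `K` is the union of the edges. -/
def IsDrawing {n d : ℕ} (a : Fin n → EuclideanSpace ℝ (Fin d)) (G : SimpleGraph (Vert n))
    (K : Set (EuclideanSpace ℝ (Fin d))) : Prop :=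
  ∃ x : Vert n → EuclideanSpace ℝ (Fin d), Function.Injective x ∧ (∀ i, x (Sum.inl i) = a i) ∧
    (∀ u v z w, G.Adj u v → G.Adj z w → s(u, v) ≠ s(z, w) →
      ∀ y ∈ segment ℝ (x u) (x v), y ∈ segment ℝ (x z) (x w) →
        ∃ c, c ∈ s(u, v) ∧ c ∈ s(z, w) ∧ y = x c) ∧
    K = ⋃ (u : Vert n) (v : Vert n) (_ : G.Adj u v), segment ℝ (x u) (x v)

/-- The full graphs on the terminals and Steiner points that are realized by a Steiner tree for the
points `a i`. -/
def optimalGraphs {n d : ℕ} (a : Fin n → EuclideanSpace ℝ (Fin d)) : Set (SimpleGraph (Vert n)) :=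
  {G | IsFullTopology G ∧ ∃ K, IsSteinerTree (Set.range a) K ∧ IsDrawing a G K}

/-- The number of distinct full topologies that are realized by Steiner trees for the points
`a i`. -/
noncomputable def numOptimal {n d : ℕ} (a : Fin n → EuclideanSpace ℝ (Fin d)) : ℕ∞ :=
  (Quotient.mk (topologySetoid n) '' optimalGraphs a).encard

/-- The quantity `N_d(n)`: the maximum, over all sets of `n` distinct points of `ℝ ^ d`, of the
number of distinct full topologies realized by Steiner trees for these points. -/
noncomputable def maxOptimal (d n : ℕ) : ℕ∞ :=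
  ⨆ a : {a : Fin n → EuclideanSpace ℝ (Fin d) // Function.Injective a}, numOptimal a.1

end Pool.Agent.Lib.H21Steiner
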