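import Pool.Agent.Lib.H21Steiner.BTBasic

/-!
# Clusters of leaves: they are separated, or the tree decomposes along them
-/

namespace Pool.Agent.Lib.H21Steiner

namespace BT

variable {α β : Type*}

/-- Either two leaves of one cluster are separated by a leaf of another cluster, or the clusters
are subtrees. -/
theorem dichotomy (E : Type*) [PseudoMetricSpace E] (π : β → α) : ∀ t : BT β, t.leaves.Nodup →
    (∃ c c' x, c ≠ c' ∧ π c = π c' ∧ π x ≠ π c ∧ Sep c c' x t) ∨
    ∃ (t₀ : BT α) (ρ : α → BT β), t₀.leaves.Nodup ∧
      (∀ i, i ∈ t₀.leaves ↔ ∃ b ∈ t.leaves, π b = i) ∧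
      (∀ i ∈ t₀.leaves, (ρ i).leaves.Nodup ∧
        ∀ b, b ∈ (ρ i).leaves ↔ b ∈ t.leaves ∧ π b = i) ∧
      (∀ c c' x, Sep c c' x t → π c = π c' → π x = π c → Sep c c' x (ρ (π c))) ∧
      (∀ (y : β → E) (p : E) (l : ℝ), R y t p l → ∃ (q : α → E) (l₀ : ℝ) (m : α → ℝ),
        R q t₀ p l₀ ∧ (∀ i ∈ t₀.leaves, R0 y (ρ i) (q i) (m i)) ∧
          l₀ + (t₀.leaves.map m).sum ≤ l)
  | leaf b, _ => by
      refine Or.inr ⟨leaf (π b), fun _ => leaf b, by simp [leaves], ?_, ?_, ?_, ?_⟩
      · intro i
        simp only [leaves, List.mem_singleton]
        constructor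
        · rintro rfl
          exact ⟨b, rfl, rfl⟩
        · rintro ⟨_, rfl, rfl⟩
          rfl
      · intro i hi
        simp only [leaves, List.mem_singleton] at hi
        refine ⟨by simp [leaves], ?_⟩
        intro b'
        simp only [leaves, List.mem_singleton]
        constructor
        · rintro rfl
          exact ⟨rfl, hi.symm⟩
        · exact fun h => h.1
      · intro c c' x h
        exact h.elim
      · intro y p l h
        refine ⟨fun _ => y b, l, fun _ => 0, h, ?_, by simp [leaves]⟩
        intro i _
        exact ⟨rfl, le_rfl⟩
  | node s t, hnd => by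
      classical
      have hnd' := hnd
      simp only [leaves] at hnd'
      rw [List.nodup_append] at hnd'
      obtain ⟨hs, ht, hst⟩ := hnd'
      by_cases hcross : ∃ c ∈ s.leaves, ∃ c' ∈ t.leaves, π c = π c'
      · obtain ⟨c, hc, c', hc', hπ⟩ := hcross
        by_cases hall : ∀ x ∈ (node s t).leaves, π x = π c
        · refine Or.inr ⟨leaf (π c), fun _ => node s t, by simp [leaves], ?_, ?_, ?_, ?_⟩
          · intro i
            simp only [leaves, List.mem_singleton]
            constructor
            · rintro rfl
              exact ⟨c, by simp [hc], rfl⟩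
            · rintro ⟨b, hb, rfl⟩
              exact hall b (by simpa only [leaves] using hb)
          · intro i hi
            simp only [leaves, List.mem_singleton] at hi
            refine ⟨hnd, ?_⟩
            intro b
            constructor
            · intro hb
              exact ⟨hb, by rw [hi]; exact hall b hb⟩
            · exact fun h => h.1
          · intro c1 c2 x h _ _
            exact h
          · intro y p l h
            obtain ⟨q, m, hq, hm⟩ := h.exists_R0
            refine ⟨fun _ => q, dist p q, fun _ => m, le_rfl, fun _ _ => hq, ?_⟩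
            simpa [leaves] using hm
        · push Not at hall
          obtain ⟨x, hx, hxc⟩ := hall
          left
          refine ⟨c, c', x, ?_, hπ, hxc, ?_⟩
          · rintro rfl
            exact hst c hc c hc' rfl
          · refine Or.inr (Or.inr ⟨Or.inl ⟨hc, hc'⟩, ?_⟩)
            simpa only [leaves, List.mem_append] using hx
      · push Not at hcross
        rcases dichotomy E π s hs with ⟨c, c', x, h1, h2, h3, h4⟩ |
          ⟨s₀, ρs, hs1, hs2, hs3, hs4, hs5⟩
        · exact Or.inl ⟨c, c', x, h1, h2, h3, Or.inl h4⟩
        rcases dichotomy E π t ht with ⟨c, c', x, h1, h2, h3, h4⟩ |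
          ⟨t₀, ρt, ht1, ht2, ht3, ht4, ht5⟩
        · exact Or.inl ⟨c, c', x, h1, h2, h3, Or.inr (Or.inl h4)⟩
        right
        have hdis : ∀ i, i ∈ s₀.leaves → i ∈ t₀.leaves → False := by
          intro i h1 h2
          obtain ⟨b, hb, rfl⟩ := (hs2 i).1 h1
          obtain ⟨b', hb', h3⟩ := (ht2 _).1 h2
          exact hcross b hb b' hb' h3.symm
        refine ⟨node s₀ t₀, fun i => if i ∈ s₀.leaves then ρs i else ρt i, ?_, ?_, ?_, ?_, ?_⟩
        · simp only [leaves]
          rw [List.nodup_append]
          refine ⟨hs1, ht1, ?_⟩
          rintro i hi j hj rfl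
          exact hdis i hi hj
        · intro i
          simp only [leaves, List.mem_append]
          rw [hs2, ht2]
          constructor
          · rintro (⟨b, hb, h⟩ | ⟨b, hb, h⟩)
            · exact ⟨b, Or.inl hb, h⟩
            · exact ⟨b, Or.inr hb, h⟩
          · rintro ⟨b, hb | hb, h⟩
            · exact Or.inl ⟨b, hb, h⟩
            · exact Or.inr ⟨b, hb, h⟩
        · intro i hi
          simp only [leaves, List.mem_append] at hi ⊢
          by_cases his : i ∈ s₀.leaves
          · rw [if_pos his]
            obtain ⟨h1, h2⟩ := hs3 i his
            refine ⟨h1, fun b => ?_⟩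
            rw [h2]
            constructor
            · exact fun h => ⟨Or.inl h.1, h.2⟩
            · rintro ⟨hb | hb, rfl⟩
              · exact ⟨hb, rfl⟩
              · exact (hdis _ his ((ht2 _).2 ⟨b, hb, rfl⟩)).elim
          · rw [if_neg his]
            have hit : i ∈ t₀.leaves := hi.resolve_left his
            obtain ⟨h1, h2⟩ := ht3 i hit
            refine ⟨h1, fun b => ?_⟩
            rw [h2]
            constructor
            · exact fun h => ⟨Or.inr h.1, h.2⟩
            · rintro ⟨hb | hb, rfl⟩
              · exact (his ((hs2 _).2 ⟨b, hb, rfl⟩)).elim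
              · exact ⟨hb, rfl⟩
        · intro c c' x h hcc hxc
          beta_reduce
          rcases h with h | h | ⟨h, -⟩
          · rw [if_pos ((hs2 _).2 ⟨c, h.mem.1, rfl⟩)]
            exact hs4 c c' x h hcc hxc
          · rw [if_neg (fun h' => hdis _ h' ((ht2 _).2 ⟨c, h.mem.1, rfl⟩))]
            exact ht4 c c' x h hcc hxc
          · rcases h with ⟨h1, h2⟩ | ⟨h1, h2⟩
            · exact (hcross c h1 c' h2 hcc).elim
            · exact (hcross c' h1 c h2 hcc.symm).elim
        · intro y p l h
          obtain ⟨q, l1, l2, h1, h2, h3⟩ := h
          obtain ⟨qs, ls, ms, hs6, hs7, hs8⟩ := hs5 y q l1 h1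
          obtain ⟨qt, lt, mt, ht6, ht7, ht8⟩ := ht5 y q l2 h2
          refine ⟨fun i => if i ∈ s₀.leaves then qs i else qt i, dist p q + ls + lt,
            fun i => if i ∈ s₀.leaves then ms i else mt i, ⟨q, ls, lt, ?_, ?_, le_rfl⟩, ?_, ?_⟩
          · refine hs6.congr ?_
            intro i hi
            rw [if_pos hi]
          · refine ht6.congr ?_
            intro i hi
            rw [if_neg (fun h' => hdis i h' hi)]
          · intro i hi
            simp only [leaves, List.mem_append] at hi
            by_cases his : i ∈ s₀.leaves
            · simp only [if_pos his]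
              exact hs7 i his
            · simp only [if_neg his]
              exact ht7 i (hi.resolve_left his)
          · have e1 : s₀.leaves.map (fun i => if i ∈ s₀.leaves then ms i else mt i) =
                s₀.leaves.map ms := by
              apply List.map_congr_left
              intro i hi
              rw [if_pos hi]
            have e2 : t₀.leaves.map (fun i => if i ∈ s₀.leaves then ms i else mt i) =
                t₀.leaves.map mt := by
              apply List.map_congr_left
              intro i hi
              rw [if_neg (fun h' => hdis i h' hi)]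
            simp only [leaves, List.map_append, List.sum_append]
            rw [e1, e2]
            linarith

end BT

end Pool.Agent.Lib.H21Steiner
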