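import Pool.Agent.Lib.H21Steiner.Master

/-!
# A leaf of a good skeleton can be replaced by a small cherry
-/

namespace Pool.Agent.Lib.H21Steiner

namespace BT

variable {α β : Type*}

theorem eq_leaf {t : BT α} (hnd : t.leaves.Nodup) {i : α} (h : ∀ b ∈ t.leaves, b = i) :
    t = leaf i := by
  cases t with
  | leaf a => rw [h a (by simp [leaves])]
  | node l r =>
      exfalso
      obtain ⟨b, hb⟩ := exists_mem_leaves l
      obtain ⟨c, hc⟩ := exists_mem_leaves r
      simp only [leaves] at hnd h
      rw [List.nodup_append] at hnd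
      apply hnd.2.2 b hb c hc
      rw [h b (List.mem_append.2 (Or.inl hb)), h c (List.mem_append.2 (Or.inr hc))]

section

variable {E : Type*} [NormedAddCommGroup E] [InnerProductSpace ℝ E]

omit [InnerProductSpace ℝ E] in
theorem Cal.pair {w : α → E} {i j : α} (h1 : ‖w i‖ ≤ 1) (h2 : ‖w j‖ ≤ 1) (h12 : ‖w i + w j‖ ≤ 1)
    {t : BT α} (hnd : t.leaves.Nodup) (h : ∀ b ∈ t.leaves, b = i ∨ b = j) : Cal w t := by
  cases t with
  | leaf a =>
      have h3 := h a (by simp [leaves])
      change ‖w a‖ ≤ 1
      rcases h3 with rfl | rfl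
      · exact h1
      · exact h2
  | node l r =>
      simp only [leaves] at hnd h
      rw [List.nodup_append] at hnd
      obtain ⟨hl, hr, hlr⟩ := hnd
      have key : ∀ {i j : α}, ‖w i‖ ≤ 1 → ‖w j‖ ≤ 1 → ‖w i + w j‖ ≤ 1 →
          (∀ b ∈ l.leaves ++ r.leaves, b = i ∨ b = j) → i ∈ l.leaves → Cal w (node l r) := by
        intro i j h1 h2 h12 h hi
        have h3 : ∀ b ∈ r.leaves, b = j := by
          intro b hb
          refine (h b (List.mem_append.2 (Or.inr hb))).resolve_left ?_
          rintro rfl
          exact hlr b hi b hb rfl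
        have h4 := eq_leaf hr h3
        have h5 : ∀ b ∈ l.leaves, b = i := by
          intro b hb
          refine (h b (List.mem_append.2 (Or.inl hb))).resolve_right ?_
          rintro rfl
          exact hlr b hb b (by rw [h4]; simp [leaves]) rfl
        have h6 := eq_leaf hl h5
        rw [h4, h6]
        refine ⟨?_, h1, h2⟩
        simpa [leaves] using h12
      obtain ⟨b, hb⟩ := exists_mem_leaves l
      rcases h b (List.mem_append.2 (Or.inl hb)) with rfl | rfl
      · exact key h1 h2 h12 h hb
      · refine key h2 h1 (by rwa [add_comm]) ?_ hb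
        intro c hc
        exact (h c hc).symm

omit [InnerProductSpace ℝ E] in
theorem Cal0.pair {w : α → E} {i j : α} (h1 : ‖w i‖ ≤ 1) (h2 : ‖w j‖ ≤ 1)
    {t : BT α} (hnd : t.leaves.Nodup) (h : ∀ b ∈ t.leaves, b = i ∨ b = j) : Cal0 w t := by
  cases t with
  | leaf a => trivial
  | node l r =>
      simp only [leaves] at hnd h
      rw [List.nodup_append] at hnd
      obtain ⟨hl, hr, hlr⟩ := hnd
      have key : ∀ {i j : α}, ‖w i‖ ≤ 1 → ‖w j‖ ≤ 1 →
          (∀ b ∈ l.leaves ++ r.leaves, b = i ∨ b = j) → i ∈ l.leaves → Cal0 w (node l r) := by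
        intro i j h1 h2 h hi
        have h3 : ∀ b ∈ r.leaves, b = j := by
          intro b hb
          refine (h b (List.mem_append.2 (Or.inr hb))).resolve_left ?_
          rintro rfl
          exact hlr b hi b hb rfl
        have h4 := eq_leaf hr h3
        have h5 : ∀ b ∈ l.leaves, b = i := by
          intro b hb
          refine (h b (List.mem_append.2 (Or.inl hb))).resolve_right ?_
          rintro rfl
          exact hlr b hb b (by rw [h4]; simp [leaves]) rfl
        have h6 := eq_leaf hl h5
        rw [h4, h6]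
        exact ⟨h1, h2⟩
      obtain ⟨b, hb⟩ := exists_mem_leaves l
      rcases h b (List.mem_append.2 (Or.inl hb)) with rfl | rfl
      · exact key h1 h2 h hb
      · refine key h2 h1 ?_ hb
        intro c hc
        exact (h c hc).symm

omit [InnerProductSpace ℝ E] in
/-- A calibration of a tree with three leaves in which `x` separates `c` and `c'`. -/
theorem Cal0.triple {w₁ w₂ : α → E} {c c' x : α}
    (hc1 : ‖w₁ c‖ ≤ 1) (hc'1 : ‖w₁ c'‖ ≤ 1) (hx1 : ‖w₁ x‖ ≤ 1) (hcx1 : ‖w₁ c' + w₁ x‖ ≤ 1)
    (hc2 : ‖w₂ c'‖ ≤ 1) (hc'2 : ‖w₂ c‖ ≤ 1) (hx2 : ‖w₂ x‖ ≤ 1) (hcx2 : ‖w₂ c + w₂ x‖ ≤ 1)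
    {t : BT α} (hnd : t.leaves.Nodup) (h : ∀ b ∈ t.leaves, b = c ∨ b = c' ∨ b = x)
    (hsep : Sep c c' x t) : Cal0 w₁ t ∨ Cal0 w₂ t := by
  cases t with
  | leaf a => exact hsep.elim
  | node l r =>
      simp only [leaves] at hnd h
      rw [List.nodup_append] at hnd
      obtain ⟨hl, hr, hlr⟩ := hnd
      have key : ∀ l r : BT α, l.leaves.Nodup → r.leaves.Nodup →
          (∀ b ∈ l.leaves, b ∈ r.leaves → False) →
          (∀ b ∈ l.leaves, b = c ∨ b = c' ∨ b = x) → (∀ b ∈ r.leaves, b = c ∨ b = c' ∨ b = x) →
          Sep c c' x (node l r) → x ∈ r.leaves → (Cal w₁ l ∧ Cal w₁ r) ∨ (Cal w₂ l ∧ Cal w₂ r) := by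
        intro l r hl hr hlr hll hrr hsep hx
        have hxl : x ∉ l.leaves := fun h => hlr x h hx
        rcases hsep with hs | hs | ⟨hs, -⟩
        · exact absurd hs.mem.2.2 hxl
        · exfalso
          obtain ⟨b, hb⟩ := exists_mem_leaves l
          rcases hll b hb with rfl | rfl | rfl
          · exact hlr _ hb hs.mem.1
          · exact hlr _ hb hs.mem.2.1
          · exact hxl hb
        · rcases hs with ⟨h1, h2⟩ | ⟨h1, h2⟩
          · left
            have h3 : l = leaf c := by
              apply eq_leaf hl
              intro b hb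
              rcases hll b hb with rfl | rfl | rfl
              · rfl
              · exact (hlr _ hb h2).elim
              · exact (hxl hb).elim
            refine ⟨by rw [h3]; exact hc1, Cal.pair hc'1 hx1 hcx1 hr ?_⟩
            intro b hb
            rcases hrr b hb with rfl | h4
            · exact (hlr _ h1 hb).elim
            · exact h4
          · right
            have h3 : l = leaf c' := by
              apply eq_leaf hl
              intro b hb
              rcases hll b hb with rfl | rfl | rfl
              · exact (hlr _ hb h2).elim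
              · rfl
              · exact (hxl hb).elim
            refine ⟨by rw [h3]; exact hc2, Cal.pair hc'2 hx2 hcx2 hr ?_⟩
            intro b hb
            rcases hrr b hb with rfl | rfl | rfl
            · exact Or.inl rfl
            · exact (hlr _ h1 hb).elim
            · exact Or.inr rfl
      have hx : x ∈ l.leaves ∨ x ∈ r.leaves := by
        have := hsep.mem.2.2
        simpa only [leaves, List.mem_append] using this
      rcases hx with hx | hx
      · have h5 := key r l hr hl (fun b hb hb' => hlr b hb' b hb rfl)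
          (fun b hb => h b (List.mem_append.2 (Or.inr hb)))
          (fun b hb => h b (List.mem_append.2 (Or.inl hb))) (by
            rcases hsep with hs | hs | ⟨hs, hs'⟩
            · exact Or.inr (Or.inl hs)
            · exact Or.inl hs
            · refine Or.inr (Or.inr ⟨?_, hs'.symm⟩)
              rcases hs with ⟨h1, h2⟩ | ⟨h1, h2⟩
              · exact Or.inr ⟨h2, h1⟩
              · exact Or.inl ⟨h2, h1⟩) hx
        rcases h5 with ⟨h6, h7⟩ | ⟨h6, h7⟩
        · exact Or.inl ⟨h7, h6⟩
        · exact Or.inr ⟨h7, h6⟩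
      · exact key l r hl hr (fun b hb hb' => hlr b hb b hb' rfl)
          (fun b hb => h b (List.mem_append.2 (Or.inl hb)))
          (fun b hb => h b (List.mem_append.2 (Or.inr hb))) hsep hx

end

/-- A cluster with two leaves is expensive if its first node is far away. -/
theorem R0.far {E : Type*} [PseudoMetricSpace E] {y : α → E} {t : BT α} {q : E} {m : ℝ}
    (h : R0 y t q m) {i j : α} (hij : i ≠ j) (hi : i ∈ t.leaves) (hj : j ∈ t.leaves) {z : E}
    {η : ℝ} (hη : ∀ b ∈ t.leaves, dist (y b) z ≤ η) : 2 * (dist q z - η) ≤ m := by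
  cases t with
  | leaf a =>
      simp only [leaves, List.mem_singleton] at hi hj
      exact absurd (hi.trans hj.symm) hij
  | node l r =>
      obtain ⟨l1, l2, h1, h2, h3⟩ := h
      obtain ⟨b, hb⟩ := exists_mem_leaves l
      obtain ⟨c, hc⟩ := exists_mem_leaves r
      have h4 := h1.dist_le.2 b hb
      have h5 := h2.dist_le.2 c hc
      have h6 := hη b (by simp [leaves, hb])
      have h7 := hη c (by simp [leaves, hc])
      have h8 := dist_triangle q (y b) z
      have h9 := dist_triangle q (y c) z
      linarith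

end BT

end Pool.Agent.Lib.H21Steiner
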