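import Pool.Agent.Lib.H21Steiner.Ext

/-!
# A leaf of a good skeleton can be replaced by a small cherry: the estimates
-/

namespace Pool.Agent.Lib.H21Steiner

namespace BT

variable {α : Type*} [DecidableEq α] {E : Type*} [NormedAddCommGroup E] [InnerProductSpace ℝ E]

/-- Two unit vectors at an angle of 120 degrees. -/
structure Fork (w₁ w₂ : E) : Prop where
  n₁ : ‖w₁‖ = 1
  n₂ : ‖w₂‖ = 1
  inn : inner ℝ w₁ w₂ = -(1 / 2 : ℝ)

theorem Fork.symm {w₁ w₂ : E} (h : Fork w₁ w₂) : Fork w₂ w₁ :=
  ⟨h.n₂, h.n₁, by rw [real_inner_comm]; exact h.inn⟩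

theorem Fork.inner_comb {w₁ w₂ : E} (h : Fork w₁ w₂) (a b c d : ℝ) :
    inner ℝ (a • w₁ + b • w₂) (c • w₁ + d • w₂) = a * c + b * d - (a * d + b * c) / 2 := by
  have h1 : inner ℝ w₁ w₁ = (1 : ℝ) := by rw [real_inner_self_eq_norm_sq, h.n₁]; norm_num
  have h2 : inner ℝ w₂ w₂ = (1 : ℝ) := by rw [real_inner_self_eq_norm_sq, h.n₂]; norm_num
  have h3 : inner ℝ w₂ w₁ = -(1 / 2 : ℝ) := h.symm.inn
  simp only [inner_add_left, inner_add_right, real_inner_smul_left, real_inner_smul_right, h1, h2,
    h3, h.inn]
  ring

theorem Fork.norm_comb {w₁ w₂ : E} (h : Fork w₁ w₂) {a b : ℝ} (hab : a * a + b * b - a * b ≤ 1) :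
    ‖a • w₁ + b • w₂‖ ≤ 1 := by
  have h1 := h.inner_comb a b a b
  rw [real_inner_self_eq_norm_sq] at h1
  have h2 : ‖a • w₁ + b • w₂‖ ^ 2 ≤ 1 := by
    rw [h1]
    linarith
  have h3 := norm_nonneg (a • w₁ + b • w₂)
  nlinarith

variable {p : E} {A : Finset α} {a v : α → E} {L r δ : ℝ}

/-- The label of the old leaf: the new leaf `j` comes from the leaf `i`. -/
def old (i j b : α) : α := if b = j then i else b

/-- The data at the new leaves. -/
def upd (i j : α) (z₁ z₂ : E) (a : α → E) : α → E :=
  fun b => if b = j then z₂ else if b = i then z₁ else a b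

omit [NormedAddCommGroup E] [InnerProductSpace ℝ E] in
theorem upd_j {i j : α} {z₁ z₂ : E} {a : α → E} : upd i j z₁ z₂ a j = z₂ := if_pos rfl

omit [NormedAddCommGroup E] [InnerProductSpace ℝ E] in
theorem upd_i {i j : α} (hij : i ≠ j) {z₁ z₂ : E} {a : α → E} : upd i j z₁ z₂ a i = z₁ := by
  simp [upd, hij]

omit [NormedAddCommGroup E] [InnerProductSpace ℝ E] in
theorem upd_other {i j b : α} (hi : b ≠ i) (hj : b ≠ j) {z₁ z₂ : E} {a : α → E} :
    upd i j z₁ z₂ a b = a b := by
  simp [upd, hi, hj]

theorem Good.ext (hG : Good p A a v L r δ) (hv : ∀ k ∈ A, ‖v k‖ ≤ 1) {i j : α} (hi : i ∈ A)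
    (hj : j ∉ A) {w₁ w₂ : E} (hw : Fork w₁ w₂) (hvw : v i = w₁ + w₂) {ε : ℝ} (hε : 0 < ε)
    (hεr : 8 * ε ≤ r) (hεδ : (3 * A.card + 6) * ε ≤ δ) :
    Good p (insert j A) (upd i j (a i + ε • w₁) (a i + ε • w₂) a) (upd i j w₁ w₂ v) (L + 2 * ε) ε
      (3 / 20 * ε) := by
  have hij : i ≠ j := by
    rintro rfl
    exact hj hi
  obtain ⟨a', ha'⟩ : ∃ a', a' = upd i j (a i + ε • w₁) (a i + ε • w₂) a := ⟨_, rfl⟩
  obtain ⟨v', hv'⟩ : ∃ v', v' = upd i j w₁ w₂ v := ⟨_, rfl⟩
  rw [← ha', ← hv']
  have a'i : a' i = a i + ε • w₁ := by rw [ha', upd_i hij]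
  have a'j : a' j = a i + ε • w₂ := by rw [ha', upd_j]
  have a'o : ∀ b, b ≠ i → b ≠ j → a' b = a b := by
    intro b h1 h2
    rw [ha', upd_other h1 h2]
  have v'i : v' i = w₁ := by rw [hv', upd_i hij]
  have v'j : v' j = w₂ := by rw [hv', upd_j]
  have v'o : ∀ b, b ≠ i → b ≠ j → v' b = v b := by
    intro b h1 h2
    rw [hv', upd_other h1 h2]
  have hoj : old i j j = i := if_pos rfl
  have hoo : ∀ b, b ≠ j → old i j b = b := fun b hb => if_neg hb
  have hoi : old i j i = i := hoo i hij
  have hda : ∀ b, dist (a' b) (a (old i j b)) ≤ ε := by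
    intro b
    by_cases h1 : b = j
    · rw [h1, hoj, a'j, dist_eq_norm, add_sub_cancel_left, norm_smul, hw.n₂, mul_one,
        Real.norm_eq_abs, abs_of_pos hε]
    · rw [hoo b h1]
      by_cases h2 : b = i
      · rw [h2, a'i, dist_eq_norm, add_sub_cancel_left, norm_smul, hw.n₁, mul_one,
          Real.norm_eq_abs, abs_of_pos hε]
      · rw [a'o b h2 h1, dist_self]
        exact hε.le
  have holdA : ∀ b ∈ insert j A, old i j b ∈ A := by
    intro b hb
    by_cases h1 : b = j
    · rw [h1, hoj]
      exact hi
    · rw [hoo b h1]
      exact (Finset.mem_insert.1 hb).resolve_left h1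
  have hneA : ∀ k ∈ A, k ≠ j := by
    rintro k hk rfl
    exact hj hk
  have hcard : (0 : ℝ) ≤ A.card := Nat.cast_nonneg _
  refine ⟨hε, by positivity, ?_, ?_⟩
  · -- the linear lower bound
    intro t y l hnd hB hy hR
    obtain ⟨loc, hloc⟩ : ∃ loc : α → ℝ, loc = fun k => if k = i then
        2 * ε + inner ℝ w₁ (y i - a' i) + inner ℝ w₂ (y j - a' j)
        else inner ℝ (v k) (y k - a k) := ⟨_, rfl⟩
    have loci : loc i = 2 * ε + inner ℝ w₁ (y i - a' i) + inner ℝ w₂ (y j - a' j) := by
      rw [hloc]
      exact if_pos rfl
    have loco : ∀ k, k ≠ i → loc k = inner ℝ (v k) (y k - a k) := by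
      intro k hk
      rw [hloc]
      exact if_neg hk
    have hinn : ∀ b ∈ insert j A, inner ℝ (v' b) (y b - a' b) ≤ ε := by
      intro b hb
      have h1 : ‖v' b‖ ≤ 1 := by
        by_cases h2 : b = j
        · rw [h2, v'j, hw.n₂]
        · by_cases h3 : b = i
          · rw [h3, v'i, hw.n₁]
          · rw [v'o b h3 h2]
            exact hv b ((Finset.mem_insert.1 hb).resolve_left h2)
      have h2 := inner_le_dist h1 (a' b) (y b)
      rw [dist_comm] at h2
      exact h2.trans (hy b hb)
    have hsum : ∑ k ∈ A, loc k = 2 * ε + ∑ b ∈ insert j A, inner ℝ (v' b) (y b - a' b) := by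
      rw [Finset.sum_insert hj, ← Finset.add_sum_erase A loc hi,
        ← Finset.add_sum_erase A (fun b => inner ℝ (v' b) (y b - a' b)) hi, loci, v'i, v'j]
      have h1 : ∑ k ∈ A.erase i, loc k = ∑ k ∈ A.erase i, inner ℝ (v' k) (y k - a' k) := by
        apply Finset.sum_congr rfl
        intro k hk
        obtain ⟨h2, h3⟩ := Finset.mem_erase.1 hk
        rw [loco k h2, v'o k h2 (hneA k h3), a'o k h2 (hneA k h3)]
      rw [h1]
      ring
    have hsum' : ∑ b ∈ insert j A, inner ℝ (v' b) (y b - a' b) ≤ (A.card + 1) * ε := by
      have h1 := Finset.sum_le_card_nsmul (insert j A) _ ε hinn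
      rw [Finset.card_insert_of_notMem hj, nsmul_eq_mul] at h1
      push_cast at h1
      exact h1
    have hη : ∀ b ∈ insert j A, dist (y b) (a (old i j b)) ≤ 2 * ε := by
      intro b hb
      have h1 := dist_triangle (y b) (a' b) (a (old i j b))
      have h2 := hy b hb
      have h3 := hda b
      linarith
    have h1 := hG.master (B := insert j A) (π := old i j) holdA (by
      intro k hk
      exact ⟨k, Finset.mem_insert_of_mem hk, hoo k (hneA k hk)⟩) hη hnd hB loc (by
        rw [hsum]
        nlinarith) (by
        intro k hk ρ q m hρ hρB _ h0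
        by_cases hki : k = i
        · -- the cherry
          have hmem : ∀ b ∈ ρ.leaves, b = i ∨ b = j := by
            intro b hb
            have h2 := ((hρB b).1 hb).2
            by_cases h3 : b = j
            · exact Or.inr h3
            · rw [hoo b h3] at h2
              exact Or.inl (h2.trans hki)
          have hiρ : i ∈ ρ.leaves :=
            (hρB i).2 ⟨Finset.mem_insert_of_mem hi, by rw [hoi, hki]⟩
          have hjρ : j ∈ ρ.leaves :=
            (hρB j).2 ⟨Finset.mem_insert_self _ _, by rw [hoj, hki]⟩
          have hρset : ∀ b, b ∈ ρ.leaves ↔ b ∈ ({i, j} : Finset α) := by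
            intro b
            rw [Finset.mem_insert, Finset.mem_singleton]
            constructor
            · exact hmem b
            · rintro (rfl | rfl)
              · exact hiρ
              · exact hjρ
          rw [hki]
          refine ⟨?_, ?_⟩
          · intro _
            have h2 : Cal0 v' ρ := by
              refine Cal0.pair (i := i) (j := j) ?_ ?_ hρ hmem
              · rw [v'i, hw.n₁]
              · rw [v'j, hw.n₂]
            have h3 := h2.le h0
            rw [sum_leaves hρ hρset, Finset.sum_pair hij, v'i, v'j] at h3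
            have h4 : y i - q = (y i - a' i) + (a i - q) + ε • w₁ := by
              rw [a'i]
              abel
            have h5 : y j - q = (y j - a' j) + (a i - q) + ε • w₂ := by
              rw [a'j]
              abel
            rw [h4, h5] at h3
            simp only [inner_add_right, real_inner_smul_right, real_inner_self_eq_norm_sq, hw.n₁,
              hw.n₂] at h3
            have h6 : inner ℝ (v i) (q - a i) = -(inner ℝ w₁ (a i - q) + inner ℝ w₂ (a i - q)) := by
              rw [hvw, ← inner_add_left, ← inner_neg_right, neg_sub]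
            rw [loci, h6]
            linarith
          · intro hfar
            have h2 := h0.far hij hiρ hjρ (z := a i) (η := 2 * ε) (by
              intro b hb
              have h3 := hη b ((hρB b).1 hb).1
              rw [((hρB b).1 hb).2, hki] at h3
              exact h3)
            rw [loci]
            have h3 := hinn i (Finset.mem_insert_of_mem hi)
            have h4 := hinn j (Finset.mem_insert_self _ _)
            rw [v'i] at h3
            rw [v'j] at h4
            linarith
        · -- an old leaf
          have hmem : ∀ b ∈ ρ.leaves, b = k := by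
            intro b hb
            have h2 := ((hρB b).1 hb).2
            by_cases h3 : b = j
            · rw [h3, hoj] at h2
              exact absurd h2.symm hki
            · rwa [hoo b h3] at h2
          have h2 := eq_leaf hρ hmem
          rw [h2] at h0
          obtain ⟨h3, h4⟩ := h0
          rw [h3]
          refine ⟨fun _ => ?_, fun hfar => ?_⟩
          · rw [loco k hki]
            linarith
          · exfalso
            have h5 := hy k (Finset.mem_insert_of_mem hk)
            rw [a'o k hki (hneA k hk)] at h5
            linarith) hR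
    rw [hsum] at h1
    linarith
  · -- separated copies are expensive
    intro t i₀ x l hnd hB hi₀ hx hxi hsep hR
    obtain ⟨y, hy⟩ : ∃ y : Option α → E, y = fun o => o.elim (a' i₀) a' := ⟨_, rfl⟩
    rw [← hy] at hR
    have yn : y none = a' i₀ := by rw [hy]; rfl
    have ys : ∀ b, y (some b) = a' b := by
      intro b
      rw [hy]
      rfl
    obtain ⟨π, hπdef⟩ : ∃ π : Option α → α, π = fun o => o.elim (old i j i₀) (old i j) := ⟨_, rfl⟩
    have πn : π none = old i j i₀ := by rw [hπdef]; rfl
    have πs : ∀ b, π (some b) = old i j b := by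
      intro b
      rw [hπdef]
      rfl
    have hπ : ∀ o ∈ (insert j A).insertNone, π o ∈ A := by
      intro o ho
      cases o with
      | none =>
          rw [πn]
          exact holdA _ hi₀
      | some b =>
          rw [πs]
          exact holdA _ (Finset.some_mem_insertNone.1 ho)
    have hsurj : ∀ k ∈ A, ∃ o ∈ (insert j A).insertNone, π o = k := by
      intro k hk
      refine ⟨some k, Finset.some_mem_insertNone.2 (Finset.mem_insert_of_mem hk), ?_⟩
      rw [πs, hoo k (hneA k hk)]
    have hη : ∀ o ∈ (insert j A).insertNone, dist (y o) (a (π o)) ≤ ε := by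
      intro o _
      cases o with
      | none =>
          rw [yn, πn]
          exact hda _
      | some b =>
          rw [ys, πs]
          exact hda _
    by_cases hcase : old i j x = old i j i₀
    · -- inside the cherry
      obtain ⟨w₀, wx, hf, hsum, hdi₀, hdx, hiold, h7⟩ : ∃ w₀ wx : E, Fork w₀ wx ∧
          w₀ + wx = v i ∧ a' i₀ = a i + ε • w₀ ∧ a' x = a i + ε • wx ∧ old i j i₀ = i ∧
          (∀ b, old i j b = i → b = i₀ ∨ b = x) := by
        by_cases h1 : i₀ = j
        · have h2 : x = i := by
            rw [h1, hoj] at hcase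
            by_cases h3 : x = j
            · exact absurd (h3.trans h1.symm) hxi
            · rwa [hoo x h3] at hcase
          refine ⟨w₂, w₁, hw.symm, by rw [hvw, add_comm], by rw [h1, a'j], by rw [h2, a'i],
            by rw [h1, hoj], ?_⟩
          intro b hb
          by_cases h3 : b = j
          · exact Or.inl (h3.trans h1.symm)
          · rw [hoo b h3] at hb
            exact Or.inr (hb.trans h2.symm)
        · rw [hoo i₀ h1] at hcase
          have h2 : x = j := by
            by_contra h3
            rw [hoo x h3] at hcase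
            exact hxi hcase
          rw [h2, hoj] at hcase
          refine ⟨w₁, w₂, hw, by rw [hvw], by rw [← hcase, a'i], by rw [h2, a'j],
            by rw [hoo i₀ h1, hcase], ?_⟩
          intro b hb
          by_cases h3 : b = j
          · exact Or.inr (h3.trans h2.symm)
          · rw [hoo b h3] at hb
            exact Or.inl (hb.trans hcase)
      obtain ⟨loc, hloc⟩ : ∃ loc : α → ℝ, loc = fun k => if k = i then
        2 * ε + 3 / 20 * ε else 0 := ⟨_, rfl⟩
      have loci : loc i = 2 * ε + 3 / 20 * ε := by
        rw [hloc]
        exact if_pos rfl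
      have loco : ∀ k, k ≠ i → loc k = 0 := by
        intro k hk
        rw [hloc]
        exact if_neg hk
      have hsl : ∑ k ∈ A, loc k = 2 * ε + 3 / 20 * ε := by
        rw [Finset.sum_eq_single_of_mem i hi (fun k _ hk => loco k hk), loci]
      have h1 := hG.master (B := (insert j A).insertNone) (π := π) hπ hsurj hη hnd hB loc (by
        rw [hsl]
        nlinarith) (by
        intro k hk ρ q m hρ hρB hρS h0
        by_cases hki : k = i
        · rw [hki] at hρB hρS ⊢
          have hmem : ∀ o ∈ ρ.leaves, o = some i₀ ∨ o = none ∨ o = some x := by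
            intro o ho
            have h2 := ((hρB o).1 ho).2
            cases o with
            | none => exact Or.inr (Or.inl rfl)
            | some b =>
                rw [πs] at h2
                rcases h7 b h2 with rfl | rfl
                · exact Or.inl rfl
                · exact Or.inr (Or.inr rfl)
          have hsepρ : Sep (some i₀) none (some x) ρ := by
            apply hρS _ _ _ hsep
            · rw [πs, hiold]
            · rw [πn, hiold]
            · rw [πs, hcase, hiold]
          obtain ⟨hm1, hm2, hm3⟩ := hsepρ.mem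
          have hxne : (some x : Option α) ≠ some i₀ := fun h => hxi (Option.some_inj.1 h)
          have hρset : ∀ o, o ∈ ρ.leaves ↔ o ∈ ({some i₀, none, some x} : Finset (Option α)) := by
            intro o
            rw [Finset.mem_insert, Finset.mem_insert, Finset.mem_singleton]
            constructor
            · exact hmem o
            · rintro (rfl | rfl | rfl)
              · exact hm1
              · exact hm2
              · exact hm3
          have hy3 : ∀ (w : Option α → E), w (some i₀) + w none = (1 + 55 / 100 : ℝ) • w₀ +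
              (45 / 100 : ℝ) • wx → w (some x) = (-(55 / 100) : ℝ) • w₀ + (55 / 100 : ℝ) • wx →
              Cal0 w ρ → loc i ≤ m + inner ℝ (v i) (q - a i) := by
            intro w e1 e2 hc
            have h2 := hc.le h0
            rw [sum_leaves hρ hρset, Finset.sum_insert (by simp [hxi.symm]),
              Finset.sum_insert (by simp), Finset.sum_singleton, yn, ys, ys, hdi₀, hdx,
              ← add_assoc, ← inner_add_left, e1, e2] at h2
            have h3 : a i + ε • w₀ - q = (a i - q) + (ε • w₀ + (0 : ℝ) • wx) := by
              rw [zero_smul, add_zero]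
              abel
            have h4 : a i + ε • wx - q = (a i - q) + ((0 : ℝ) • w₀ + ε • wx) := by
              rw [zero_smul, zero_add]
              abel
            rw [h3, h4, inner_add_right _ (a i - q), inner_add_right _ (a i - q), hf.inner_comb,
              hf.inner_comb] at h2
            have h5 : inner ℝ (v i) (q - a i) =
                -(inner ℝ ((1 + 55 / 100 : ℝ) • w₀ + (45 / 100 : ℝ) • wx) (a i - q) +
                  inner ℝ ((-(55 / 100) : ℝ) • w₀ + (55 / 100 : ℝ) • wx) (a i - q)) := by
              rw [← inner_add_left, ← inner_neg_right, neg_sub, ← hsum]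
              have h6 : (1 + 55 / 100 : ℝ) • w₀ + (45 / 100 : ℝ) • wx +
                  ((-(55 / 100) : ℝ) • w₀ + (55 / 100 : ℝ) • wx) = w₀ + wx := by
                module
              rw [h6]
            rw [loci, h5]
            nlinarith
          refine ⟨fun _ => ?_, fun hfar => ?_⟩
          · obtain ⟨u₁, hu₁⟩ : ∃ u : Option α → E, u = fun o => o.elim
                ((55 / 100 : ℝ) • w₀ + (45 / 100 : ℝ) • wx) (fun b => if b = x then
                (-(55 / 100) : ℝ) • w₀ + (55 / 100 : ℝ) • wx else (1 : ℝ) • w₀ + (0 : ℝ) • wx) :=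
              ⟨_, rfl⟩
            obtain ⟨u₂, hu₂⟩ : ∃ u : Option α → E, u = fun o => o.elim
                ((1 : ℝ) • w₀ + (0 : ℝ) • wx) (fun b => if b = x then
                (-(55 / 100) : ℝ) • w₀ + (55 / 100 : ℝ) • wx else
                (55 / 100 : ℝ) • w₀ + (45 / 100 : ℝ) • wx) := ⟨_, rfl⟩
            have u1n : u₁ none = (55 / 100 : ℝ) • w₀ + (45 / 100 : ℝ) • wx := by rw [hu₁]; rfl
            have u1x : u₁ (some x) = (-(55 / 100) : ℝ) • w₀ + (55 / 100 : ℝ) • wx := by
              rw [hu₁]
              exact if_pos rfl
            have u1i : u₁ (some i₀) = (1 : ℝ) • w₀ + (0 : ℝ) • wx := by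
              rw [hu₁]
              exact if_neg hxi.symm
            have u2n : u₂ none = (1 : ℝ) • w₀ + (0 : ℝ) • wx := by rw [hu₂]; rfl
            have u2x : u₂ (some x) = (-(55 / 100) : ℝ) • w₀ + (55 / 100 : ℝ) • wx := by
              rw [hu₂]
              exact if_pos rfl
            have u2i : u₂ (some i₀) = (55 / 100 : ℝ) • w₀ + (45 / 100 : ℝ) • wx := by
              rw [hu₂]
              exact if_neg hxi.symm
            have n1 : ‖(1 : ℝ) • w₀ + (0 : ℝ) • wx‖ ≤ 1 := hf.norm_comb (by norm_num)
            have n2 : ‖(55 / 100 : ℝ) • w₀ + (45 / 100 : ℝ) • wx‖ ≤ 1 :=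
              hf.norm_comb (by norm_num)
            have n3 : ‖(-(55 / 100) : ℝ) • w₀ + (55 / 100 : ℝ) • wx‖ ≤ 1 :=
              hf.norm_comb (by norm_num)
            have n4 : ‖((55 / 100 : ℝ) • w₀ + (45 / 100 : ℝ) • wx) +
                ((-(55 / 100) : ℝ) • w₀ + (55 / 100 : ℝ) • wx)‖ ≤ 1 := by
              have h6 : ((55 / 100 : ℝ) • w₀ + (45 / 100 : ℝ) • wx) +
                ((-(55 / 100) : ℝ) • w₀ + (55 / 100 : ℝ) • wx) = (0 : ℝ) • w₀ + (1 : ℝ) • wx := by
                module
              rw [h6]
              exact hf.norm_comb (by norm_num)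
            rcases Cal0.triple (w₁ := u₁) (w₂ := u₂) (c := some i₀) (c' := none) (x := some x)
              (by rw [u1i]; exact n1) (by rw [u1n]; exact n2) (by rw [u1x]; exact n3)
              (by rw [u1n, u1x]; exact n4) (by rw [u2n]; exact n1) (by rw [u2i]; exact n2)
              (by rw [u2x]; exact n3) (by rw [u2i, u2x]; exact n4) hρ hmem hsepρ with hc | hc
            · exact hy3 u₁ (by rw [u1i, u1n]; module) u1x hc
            · exact hy3 u₂ (by rw [u2i, u2n]; module) u2x hc
          · have h2 := h0.far (i := some i₀) (j := none) (by simp) hm1 hm2 (z := a i) (η := ε) (by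
              intro o ho
              have h3 := hη o ((hρB o).1 ho).1
              rw [((hρB o).1 ho).2] at h3
              exact h3)
            rw [loci]
            linarith
        · have hmem : ∀ o ∈ ρ.leaves, o = some k := by
            intro o ho
            have h2 := ((hρB o).1 ho).2
            cases o with
            | none =>
                rw [πn, hiold] at h2
                exact absurd h2.symm hki
            | some b =>
                rw [πs] at h2
                by_cases h3 : b = j
                · rw [h3, hoj] at h2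
                  exact absurd h2.symm hki
                · rw [hoo b h3] at h2
                  rw [h2]
          have h2 := eq_leaf hρ hmem
          rw [h2] at h0
          obtain ⟨h3, h4⟩ := h0
          rw [ys, a'o k hki (hneA k hk)] at h3
          rw [h3]
          refine ⟨fun _ => ?_, fun hfar => ?_⟩
          · rw [loco k hki, sub_self, inner_zero_right]
            linarith
          · exfalso
            rw [dist_self] at hfar
            have := hG.rpos
            linarith) hR
      rw [hsl] at h1
      linarith
    · -- separated by an old leaf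
      have h1 := hG.sep_case hπ hsurj hη hnd hB hR ⟨some i₀, none, some x, by simp,
        by rw [πs, πn], by rw [πs, πs]; exact hcase, hsep⟩
      nlinarith

end BT

end Pool.Agent.Lib.H21Steiner
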