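import Pool.Agent.Lib.H21Steiner.Assembly
import Pool.Agent.Lib.H21Steiner.Cont
import Pool.Agent.Lib.H21Steiner.Bridge

/-!
# The exponential lower bound
-/

namespace Pool.Agent.Lib.H21Steiner

open MeasureTheory BT

theorem exists_fr {d : ℕ} (hd : 2 ≤ d) : ∃ e f : EuclideanSpace ℝ (Fin d), Fr e f := by
  obtain ⟨u, hu⟩ : ∃ u : EuclideanSpace ℝ (Fin d),
      u = EuclideanSpace.single (⟨0, by omega⟩ : Fin d) (1 : ℝ) := ⟨_, rfl⟩
  obtain ⟨w, hw⟩ : ∃ w : EuclideanSpace ℝ (Fin d),
      w = EuclideanSpace.single (⟨1, by omega⟩ : Fin d) (1 : ℝ) := ⟨_, rfl⟩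
  have huu : inner ℝ u u = (1 : ℝ) := by simp [hu]
  have hww : inner ℝ w w = (1 : ℝ) := by simp [hw]
  have huw : inner ℝ u w = (0 : ℝ) := by
    rw [hu, hw, EuclideanSpace.inner_single_left]
    simp [Fin.ext_iff]
  have hwu : inner ℝ w u = (0 : ℝ) := by rw [real_inner_comm]; exact huw
  have h3 : Real.sqrt 3 * Real.sqrt 3 = 3 := Real.mul_self_sqrt (by norm_num)
  refine ⟨u, (1 / 2 : ℝ) • u + (Real.sqrt 3 / 2) • w, ?_, ?_, ?_⟩
  · have h1 : ‖u‖ ^ 2 = 1 := by rw [← real_inner_self_eq_norm_sq, huu]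
    have h2 := norm_nonneg u
    nlinarith
  · have h1 : ‖(1 / 2 : ℝ) • u + (Real.sqrt 3 / 2) • w‖ ^ 2 = 1 := by
      rw [← real_inner_self_eq_norm_sq]
      simp only [inner_add_left, inner_add_right, real_inner_smul_left, real_inner_smul_right, huu,
        hww, huw, hwu]
      nlinarith
    have h2 := norm_nonneg ((1 / 2 : ℝ) • u + (Real.sqrt 3 / 2) • w)
    nlinarith
  · simp only [inner_add_right, real_inner_smul_right, huu, huw]
    norm_num

theorem numOptimal_ge {d k m n : ℕ} (hn : 3 ≤ n) (hnkm : n = 10 * k + m + 1)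
    {y : Lab k m → EuclideanSpace ℝ (Fin d)} {p : EuclideanSpace ℝ (Fin d)} {L : ℝ}
    (hlow : ∀ t : BT (Lab k m), t.leaves.Nodup → (∀ b, b ∈ t.leaves) →
      ∀ l, R y t p l → L ≤ l)
    (hprim : ∀ ch : Fin k → Bool, ∃ t : PT (Lab k m) (EuclideanSpace ℝ (Fin d)),
      t.leaves.Nodup ∧ (∀ b, b ∈ t.leaves) ∧ t.len y p = L ∧ t.Pos y p ∧
        ∀ j : Fin k, t.Cherry (Sum.inl (j, false, 3)) (Sum.inl (j, false, 4)) ↔ ch j = true) :
    ((2 ^ k : ℕ) : ℕ∞) ≤ maxOptimal d n := by
  classical
  have hcard : Fintype.card (Option (Lab k m)) = n := by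
    rw [Fintype.card_option, Fintype.card_sum, Fintype.card_prod, Fintype.card_prod,
      Fintype.card_fin, Fintype.card_fin, Fintype.card_fin, Fintype.card_bool]
    omega
  have φ : Option (Lab k m) ≃ Fin n := Fintype.equivFinOfCardEq hcard
  obtain ⟨a, ha⟩ : ∃ a : Fin n → EuclideanSpace ℝ (Fin d), a = fun i => (φ.symm i).elim p y :=
    ⟨_, rfl⟩
  have an : a (φ none) = p := by
    rw [ha]
    simp
  have as : ∀ b, a (φ (some b)) = y b := by
    intro b
    rw [ha]
    simp
  obtain ⟨g, hg⟩ : ∃ g : Lab k m → Fin n, g = fun b => φ (some b) := ⟨_, rfl⟩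
  have hginj : Function.Injective g := by
    intro b b' h
    rw [hg] at h
    exact Option.some_inj.1 (φ.injective h)
  have hag : (fun b => a (g b)) = y := by
    funext b
    rw [hg]
    exact as b
  -- minimality
  have hmin : ∀ K' : Set (EuclideanSpace ℝ (Fin d)), IsCompact K' → IsConnected K' →
      Set.range a ⊆ K' → ENNReal.ofReal L ≤ μH[1] K' := by
    intro K' hK hc hr
    by_cases htop : μH[1] K' = ⊤
    · rw [htop]
      exact le_top
    · have hp : p ∈ K' := hr ⟨φ none, an⟩
      have hne : (Finset.univ : Finset (Lab k m)).Nonempty := by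
        rw [Finset.univ_nonempty_iff]
        by_contra hcon
        rw [not_nonempty_iff] at hcon
        have h1 : Fintype.card (Lab k m) = 0 := Fintype.card_eq_zero_iff.2 hcon
        rw [Fintype.card_option, h1] at hcard
        omega
      apply ENNReal.ofReal_le_of_le_toReal
      apply le_of_forall_pos_le_add
      intro ε hε
      obtain ⟨t, h1, h2, h3⟩ := exists_BT hK hc (lt_top_iff_ne_top.2 htop) Finset.univ hne y
        (fun b _ => hr ⟨φ (some b), as b⟩) hp hε
      exact hlow t h1 (fun b => (h2 b).2 (Finset.mem_univ b)) _ h3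
  -- the graphs
  have hgraph : ∀ ch : Fin k → Bool, Function.Injective a ∧ ∃ G ∈ optimalGraphs a,
      ∀ j : Fin k, (∃ v, G.Adj (Sum.inl (g (Sum.inl (j, false, 3)))) v ∧
        G.Adj (Sum.inl (g (Sum.inl (j, false, 4)))) v) ↔ ch j = true := by
    intro ch
    obtain ⟨t, h1, h2, h3, h4, h5⟩ := hprim ch
    have hb := bridge hn a (t.map g) (φ none) (by
      rw [PT.leaves_map]
      exact h1.map hginj) (by
        intro i
        rw [PT.leaves_map, List.mem_map]
        constructor
        · rintro ⟨b, -, rfl⟩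
          rw [hg]
          intro h
          exact absurd (φ.injective h) (by simp)
        · intro hi
          obtain ⟨o, rfl⟩ := φ.surjective i
          cases o with
          | none => exact absurd rfl hi
          | some b => exact ⟨b, h2 b, by rw [hg]⟩) (by
        rw [PT.pos_map, an, hag]
        exact h4) (by
        rw [PT.len_map, an, hag, h3]
        exact hmin)
    obtain ⟨hinj, G, hG, hcher⟩ := hb
    refine ⟨hinj, G, hG, fun j => ?_⟩
    have hgne : ∀ b, g b ≠ φ none := by
      intro b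
      rw [hg]
      intro h
      exact absurd (φ.injective h) (by simp)
    rw [hcher _ _ (hgne _) (hgne _) (by
      intro h
      have := hginj h
      simp at this), PT.cherry_map hginj]
    exact h5 j
  have hinj : Function.Injective a := (hgraph fun _ => true).1
  choose _ G hG hch using hgraph
  obtain ⟨q, hq⟩ : ∃ q : (Fin k → Bool) → Quotient (topologySetoid n),
      q = fun ch => Quotient.mk (topologySetoid n) (G ch) := ⟨_, rfl⟩
  have hqinj : Function.Injective q := by
    intro ch ch' h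
    rw [hq] at h
    have h1 : SameTopology (G ch) (G ch') := Quotient.exact h
    obtain ⟨ψ, hψ⟩ := h1
    funext j
    have h2 : (∃ v, (G ch).Adj (Sum.inl (g (Sum.inl (j, false, 3)))) v ∧
        (G ch).Adj (Sum.inl (g (Sum.inl (j, false, 4)))) v) ↔
        (∃ v, (G ch').Adj (Sum.inl (g (Sum.inl (j, false, 3)))) v ∧
        (G ch').Adj (Sum.inl (g (Sum.inl (j, false, 4)))) v) := by
      constructor
      · rintro ⟨v, h3, h4⟩
        refine ⟨ψ v, ?_, ?_⟩
        · rw [← hψ]
          exact ψ.map_rel_iff.2 h3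
        · rw [← hψ]
          exact ψ.map_rel_iff.2 h4
      · rintro ⟨v, h3, h4⟩
        refine ⟨ψ.symm v, ?_, ?_⟩
        · rw [← ψ.map_rel_iff, hψ, RelIso.apply_symm_apply]
          exact h3
        · rw [← ψ.map_rel_iff, hψ, RelIso.apply_symm_apply]
          exact h4
    rw [hch, hch] at h2
    exact Bool.eq_iff_iff.2 h2
  have hsub : Set.range q ⊆ Quotient.mk (topologySetoid n) '' optimalGraphs a := by
    rintro _ ⟨ch, rfl⟩
    rw [hq]
    exact ⟨G ch, hG ch, rfl⟩
  have h1 : ((2 ^ k : ℕ) : ℕ∞) ≤ numOptimal a := by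
    have h2 : (Set.range q).encard = ((2 ^ k : ℕ) : ℕ∞) := by
      rw [← Set.image_univ, hqinj.encard_image, Set.encard_univ, ENat.card_eq_coe_fintype_card,
        Fintype.card_fun, Fintype.card_bool, Fintype.card_fin]
    rw [← h2]
    exact Set.encard_le_encard hsub
  exact h1.trans (le_iSup (fun a : {a : Fin n → EuclideanSpace ℝ (Fin d) // Function.Injective a} =>
    numOptimal a.1) ⟨a, hinj⟩)

/-- There are at least `2 ^ ((n - 1) / 10)` simultaneously optimal full topologies, for suitable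
sets of `n` points in dimension at least two. -/
theorem le_maxOptimal {d n : ℕ} (hd : 2 ≤ d) (hn : 3 ≤ n) :
    ((2 ^ ((n - 1) / 10) : ℕ) : ℕ∞) ≤ maxOptimal d n := by
  obtain ⟨e, f, hef⟩ := exists_fr hd
  obtain ⟨y, p, L, hlow, hprim⟩ := construction hef ((n - 1) / 10) ((n - 1) % 10) (by omega)
  exact numOptimal_ge hn (by omega) hlow hprim

end Pool.Agent.Lib.H21Steiner
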