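import Pool.Agent.Lib.H21Steiner.Dichotomy

/-!
# Local replacement at the leaves of a good skeleton
-/

namespace Pool.Agent.Lib.H21Steiner

namespace BT

variable {α β : Type*}

theorem sum_leaves {M : Type*} [AddCommMonoid M] {t : BT α} (hnd : t.leaves.Nodup) {A : Finset α}
    (hA : ∀ i, i ∈ t.leaves ↔ i ∈ A) (f : α → M) : (t.leaves.map f).sum = ∑ i ∈ A, f i := by
  classical
  have h : t.leaves.toFinset = A := by
    ext i
    rw [List.mem_toFinset, hA]
  rw [← h, List.sum_toFinset f hnd]

variable {E : Type*} [NormedAddCommGroup E] [InnerProductSpace ℝ E]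

/-- All the subtrees have a sum of vectors of norm at most one. -/
def Cal (w : α → E) : BT α → Prop
  | leaf a => ‖w a‖ ≤ 1
  | node l r => ‖((node l r).leaves.map w).sum‖ ≤ 1 ∧ Cal w l ∧ Cal w r

omit [InnerProductSpace ℝ E] in
theorem Cal.norm_le {w : α → E} : ∀ {t : BT α}, Cal w t → ‖(t.leaves.map w).sum‖ ≤ 1
  | leaf a, h => by
      have h' : ‖w a‖ ≤ 1 := h
      simpa [leaves] using h'
  | node _ _, h => h.1

theorem sum_inner_sub (w y : α → E) (p q : E) (L : List α) :
    (L.map fun a => inner ℝ (w a) (y a - p)).sum =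
      (L.map fun a => inner ℝ (w a) (y a - q)).sum + inner ℝ (L.map w).sum (q - p) := by
  induction L with
  | nil => simp
  | cons a L ih =>
      simp only [List.map_cons, List.sum_cons, inner_add_left, ih]
      have h : y a - p = (y a - q) + (q - p) := by abel
      rw [h, inner_add_right]
      ring

theorem inner_le_dist {w : E} (hw : ‖w‖ ≤ 1) (p q : E) : inner ℝ w (q - p) ≤ dist p q := by
  have h1 : inner ℝ w (q - p) ≤ ‖w‖ * ‖q - p‖ := real_inner_le_norm _ _
  have h2 : ‖w‖ * ‖q - p‖ ≤ 1 * ‖q - p‖ := mul_le_mul_of_nonneg_right hw (norm_nonneg _)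
  rw [dist_comm, dist_eq_norm]
  linarith

/-- The lower bound given by a calibration. -/
theorem Cal.le {w y : α → E} : ∀ {t : BT α} {p : E} {l : ℝ}, Cal w t → R y t p l →
    (t.leaves.map fun a => inner ℝ (w a) (y a - p)).sum ≤ l
  | leaf a, p, l, hc, h => by
      have h1 : dist p (y a) ≤ l := h
      simp only [leaves, List.map_cons, List.map_nil, List.sum_cons, List.sum_nil, add_zero]
      exact (inner_le_dist hc p (y a)).trans h1
  | node s t, p, l, hc, ⟨q, l1, l2, h1, h2, h3⟩ => by
      rw [sum_inner_sub w y p q]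
      have h4 := Cal.le hc.2.1 h1
      have h5 := Cal.le hc.2.2 h2
      have h6 := inner_le_dist hc.1 p q
      have h7 : ((node s t).leaves.map fun a => inner ℝ (w a) (y a - q)).sum =
          (s.leaves.map fun a => inner ℝ (w a) (y a - q)).sum +
          (t.leaves.map fun a => inner ℝ (w a) (y a - q)).sum := by
        simp only [leaves, List.map_append, List.sum_append]
      rw [h7]
      linarith

/-- All the proper subtrees have a sum of vectors of norm at most one. -/
def Cal0 (w : α → E) : BT α → Prop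
  | leaf _ => True
  | node l r => Cal w l ∧ Cal w r

theorem Cal0.le {w y : α → E} : ∀ {t : BT α} {q : E} {l : ℝ}, Cal0 w t → R0 y t q l →
    (t.leaves.map fun a => inner ℝ (w a) (y a - q)).sum ≤ l
  | leaf a, q, l, _, h => by
      obtain ⟨h1, h2⟩ := h
      simpa [leaves, h1] using h2
  | node s t, q, l, hc, ⟨l1, l2, h1, h2, h3⟩ => by
      have h4 := Cal.le hc.1 h1
      have h5 := Cal.le hc.2 h2
      simp only [leaves, List.map_append, List.sum_append]
      linarith

/-- The properties of the skeleton that allow local replacements at its leaves. The skeleton has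
its root at `p`, its leaves at the points `a i`, `i ∈ A`, with the leaf edges arriving in the
directions `v i`, and its length is `L`. -/
structure Good (p : E) (A : Finset α) (a v : α → E) (L r δ : ℝ) : Prop where
  rpos : 0 < r
  dpos : 0 < δ
  lsi : ∀ (t : BT α) (y : α → E) (l : ℝ), t.leaves.Nodup → (∀ i, i ∈ t.leaves ↔ i ∈ A) →
    (∀ i ∈ A, dist (y i) (a i) ≤ r) → R y t p l → L + ∑ i ∈ A, inner ℝ (v i) (y i - a i) ≤ l
  nc : ∀ (t : BT (Option α)) (i x : α) (l : ℝ), t.leaves.Nodup →
    (∀ o, o ∈ t.leaves ↔ o ∈ A.insertNone) → i ∈ A → x ∈ A → x ≠ i →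
      Sep (some i) none (some x) t → R (fun o => o.elim (a i) a) t p l → L + δ ≤ l

variable {p : E} {A : Finset α} {a v : α → E} {L r δ : ℝ}

/-- Separated clusters are expensive. -/
theorem Good.sep_case (hG : Good p A a v L r δ) {B : Finset β} {π : β → α}
    (hπ : ∀ b ∈ B, π b ∈ A) (hsurj : ∀ i ∈ A, ∃ b ∈ B, π b = i) {y : β → E} {η : ℝ}
    (hη : ∀ b ∈ B, dist (y b) (a (π b)) ≤ η) {t : BT β} (hnd : t.leaves.Nodup)
    (hB : ∀ b, b ∈ t.leaves ↔ b ∈ B) {l : ℝ} (hR : R y t p l)
    (hsep : ∃ c c' x, c ≠ c' ∧ π c = π c' ∧ π x ≠ π c ∧ Sep c c' x t) :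
    L + δ ≤ l + (A.card + 1) * η := by
  classical
  obtain ⟨c, c', x, hcc, hπc, hπx, hS⟩ := hsep
  obtain ⟨hcm, hcm', hxm⟩ := hS.mem
  -- representatives
  have : Nonempty β := ⟨c⟩
  choose! σ₀ hσ₀ hσ₀' using hsurj
  obtain ⟨σ, hσ⟩ : ∃ σ : α → β, σ = fun i => if i = π c then c else if i = π x then x else σ₀ i :=
    ⟨_, rfl⟩
  have hσB : ∀ i ∈ A, σ i ∈ B ∧ π (σ i) = i := by
    intro i hi
    rw [hσ]
    dsimp only
    split_ifs with h1 h2
    · exact ⟨(hB c).1 hcm, h1.symm⟩
    · exact ⟨(hB x).1 hxm, h2.symm⟩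
    · exact ⟨hσ₀ i hi, hσ₀' i hi⟩
  have hσc : σ (π c) = c := by simp [hσ]
  have hσx : σ (π x) = x := by simp [hσ, hπx]
  obtain ⟨P, hP⟩ : ∃ P : β → Prop, P = fun b => b = c' ∨ b = σ (π b) := ⟨_, rfl⟩
  have hPc : P c := by
    rw [hP]
    exact Or.inr hσc.symm
  have hPc' : P c' := by
    rw [hP]
    exact Or.inl rfl
  have hPx : P x := by
    rw [hP]
    exact Or.inr hσx.symm
  rcases prune E P t with h | ⟨t', h1, h2, h3, h4⟩
  · exact absurd hPc (h c hcm)
  have hnd' : t'.leaves.Nodup := h1.nodup hnd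
  obtain ⟨f, hf⟩ : ∃ f : β → Option α, f = fun b => if b = c' then none else some (π b) :=
    ⟨_, rfl⟩
  have hfc' : f c' = none := by simp [hf]
  have hfn : ∀ b, b ≠ c' → f b = some (π b) := by
    intro b hb
    simp [hf, hb]
  have hxc' : x ≠ c' := by
    rintro rfl
    exact hπx hπc.symm
  have hmem : ∀ b, b ∈ t'.leaves → b ≠ c' → b = σ (π b) := by
    intro b hb hbc
    have h5 := ((h2 b).1 hb).2
    rw [hP] at h5
    exact h5.resolve_left hbc
  -- the image tree
  have hnd'' : (t'.map f).leaves.Nodup := by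
    rw [leaves_map]
    apply List.Nodup.map_on _ hnd'
    intro b hb b' hb' hbb
    by_cases h5 : b = c'
    · by_cases h6 : b' = c'
      · rw [h5, h6]
      · rw [h5, hfc', hfn b' h6] at hbb
        exact absurd hbb (by simp)
    · by_cases h6 : b' = c'
      · rw [h6, hfc', hfn b h5] at hbb
        exact absurd hbb (by simp)
      · rw [hfn b h5, hfn b' h6, Option.some_inj] at hbb
        rw [hmem b hb h5, hmem b' hb' h6, hbb]
  have hleaf : ∀ o, o ∈ (t'.map f).leaves ↔ o ∈ A.insertNone := by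
    intro o
    rw [leaves_map, List.mem_map]
    constructor
    · rintro ⟨b, hb, rfl⟩
      by_cases h5 : b = c'
      · rw [h5, hfc']
        simp
      · rw [hfn b h5]
        simp only [Finset.some_mem_insertNone]
        exact hπ b ((hB b).1 ((h2 b).1 hb).1)
    · intro ho
      cases o with
      | none => exact ⟨c', (h2 c').2 ⟨hcm', hPc'⟩, hfc'⟩
      | some i =>
          rw [Finset.some_mem_insertNone] at ho
          obtain ⟨h5, h6⟩ := hσB i ho
          have h7 : σ i ≠ c' := by
            intro h8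
            have h9 : i = π c := by rw [← h6, h8, hπc]
            rw [h9, hσc] at h8
            exact hcc h8
          refine ⟨σ i, (h2 _).2 ⟨(hB _).2 h5, ?_⟩, ?_⟩
          · rw [hP]
            right
            rw [h6]
          · rw [hfn _ h7, h6]
  have hSep : Sep (some (π c)) none (some (π x)) (t'.map f) := by
    have h5 := Sep.map f (h3 c c' x hPc hPc' hPx hS)
    rwa [hfc', hfn c hcc, hfn x hxc'] at h5
  obtain ⟨z, hz⟩ : ∃ z : Option α → E, z = fun o => o.elim (a (π c)) a := ⟨_, rfl⟩
  have hR' : R (fun b => z (f b)) t' p (l + (t'.leaves.map fun _ => η).sum) := by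
    refine (h4 y p l hR).lip ?_
    intro b hb
    have h5 := hη b ((hB b).1 ((h2 b).1 hb).1)
    by_cases h6 : b = c'
    · have h7 : z (f b) = a (π b) := by
        rw [h6, hfc', hz, ← hπc]
        rfl
      rw [h7]
      exact h5
    · have h7 : z (f b) = a (π b) := by
        rw [hfn b h6, hz]
        rfl
      rw [h7]
      exact h5
  have hlen : (t'.leaves.length : ℝ) = A.card + 1 := by
    have h5 : (t'.map f).leaves.length = A.insertNone.card := by
      have h6 : (t'.map f).leaves.toFinset = A.insertNone := by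
        ext o
        rw [List.mem_toFinset, hleaf]
      rw [← h6, List.toFinset_card_of_nodup hnd'']
    rw [leaves_map, List.length_map, Finset.card_insertNone] at h5
    rw [h5]
    push_cast
    ring
  have hsum : (t'.leaves.map fun _ => η).sum = (A.card + 1) * η := by
    rw [List.map_const', List.sum_replicate, nsmul_eq_mul, hlen]
  rw [hsum] at hR'
  have hR'' := (R_map f (z := z)).2 hR'
  rw [hz] at hR''
  exact hG.nc (t'.map f) (π c) (π x) _ hnd'' hleaf (hπ c ((hB c).1 hcm)) (hπ x ((hB x).1 hxm))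
    hπx hSep hR''

/-- Local replacement. -/
theorem Good.master (hG : Good p A a v L r δ) {B : Finset β} {π : β → α}
    (hπ : ∀ b ∈ B, π b ∈ A) (hsurj : ∀ i ∈ A, ∃ b ∈ B, π b = i) {y : β → E} {η : ℝ}
    (hη : ∀ b ∈ B, dist (y b) (a (π b)) ≤ η) {t : BT β} (hnd : t.leaves.Nodup)
    (hB : ∀ b, b ∈ t.leaves ↔ b ∈ B) (loc : α → ℝ)
    (hsmall : (A.card + 1) * η + ∑ i ∈ A, loc i ≤ δ)
    (hloc : ∀ i ∈ A, ∀ (ρ : BT β) (q : E) (m : ℝ), ρ.leaves.Nodup →
      (∀ b, b ∈ ρ.leaves ↔ b ∈ B ∧ π b = i) →
      (∀ c c' x, Sep c c' x t → π c = i → π c' = i → π x = i → Sep c c' x ρ) → R0 y ρ q m →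
        (dist q (a i) ≤ r → loc i ≤ m + inner ℝ (v i) (q - a i)) ∧
        (r < dist q (a i) → loc i ≤ m - dist q (a i)))
    {l : ℝ} (hR : R y t p l) : L + ∑ i ∈ A, loc i ≤ l := by
  classical
  rcases dichotomy E π t hnd with h | ⟨t₀, ρ, h1, h2, h3, h4, h5⟩
  · have := hG.sep_case hπ hsurj hη hnd hB hR h
    linarith
  · have hA : ∀ i, i ∈ t₀.leaves ↔ i ∈ A := by
      intro i
      rw [h2]
      constructor
      · rintro ⟨b, hb, rfl⟩
        exact hπ b ((hB b).1 hb)
      · intro hi
        obtain ⟨b, hb, hb'⟩ := hsurj i hi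
        exact ⟨b, (hB b).2 hb, hb'⟩
    obtain ⟨q, l₀, m, h6, h7, h8⟩ := h5 y p l hR
    rw [sum_leaves h1 hA] at h8
    obtain ⟨q', hq'⟩ : ∃ q' : α → E, q' = fun i => if dist (q i) (a i) ≤ r then q i else a i :=
      ⟨_, rfl⟩
    obtain ⟨e, he⟩ : ∃ e : α → ℝ, e = fun i => if dist (q i) (a i) ≤ r then 0 else
      dist (q i) (a i) := ⟨_, rfl⟩
    have h9 : R q' t₀ p (l₀ + (t₀.leaves.map e).sum) := by
      refine h6.lip ?_
      intro i _
      rw [hq', he]
      dsimp only
      split_ifs
      · rw [dist_self]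
      · exact le_rfl
    rw [sum_leaves h1 hA] at h9
    have h10 := hG.lsi t₀ q' _ h1 hA (by
      intro i _
      rw [hq']
      dsimp only
      split_ifs with h
      · exact h
      · rw [dist_self]
        exact hG.rpos.le) h9
    have h11 : ∑ i ∈ A, loc i ≤ ∑ i ∈ A, (m i + inner ℝ (v i) (q' i - a i) - e i) := by
      apply Finset.sum_le_sum
      intro i hi
      obtain ⟨h12, h13⟩ := h3 i ((hA i).2 hi)
      obtain ⟨h14, h15⟩ := hloc i hi (ρ i) (q i) (m i) h12
        (by
          intro b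
          rw [h13, hB])
        (by
          intro c c' x hs hc hc' hx
          have := h4 c c' x hs (hc.trans hc'.symm) (hx.trans hc.symm)
          rwa [hc] at this) (h7 i ((hA i).2 hi))
      by_cases h : dist (q i) (a i) ≤ r
      · have h16 : q' i = q i := by rw [hq']; exact if_pos h
        have h17 : e i = 0 := by rw [he]; exact if_pos h
        rw [h16, h17, sub_zero]
        exact h14 h
      · have h16 : q' i = a i := by rw [hq']; exact if_neg h
        have h17 : e i = dist (q i) (a i) := by rw [he]; exact if_neg h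
        rw [h16, h17, sub_self, inner_zero_right, add_zero]
        exact h15 (not_le.1 h)
    rw [Finset.sum_sub_distrib, Finset.sum_add_distrib] at h11
    linarith

end BT

end Pool.Agent.Lib.H21Steiner
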