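import Pool.Agent.Lib.H21Steiner.Packing

/-!
# Nested nets of a finite point set, hosts and their neighbourhoods
-/

set_option linter.unusedSectionVars false

namespace Pool.Agent.Lib.H21Steiner

open Finset Metric Module

variable {E : Type*} [NormedAddCommGroup E] [NormedSpace ℝ E] {ι : Type*}

/-- Birth levels of nested nets of the points `a i`, at the scales `Λ / 2 ^ m`. -/
structure Net (a : ι → E) where
  /-- the top scale -/
  top : ℝ
  top_pos : 0 < top
  /-- the birth level -/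
  b : ι → ℕ
  sep : ∀ i j, i ≠ j → ∀ m, b i ≤ m → b j ≤ m → top / 2 ^ m ≤ dist (a i) (a j)
  cov : ∀ m i, ∃ j, b j ≤ m ∧ dist (a i) (a j) ≤ top / 2 ^ m

/-- Every separated set extends to a separated and covering one. -/
theorem exists_maximal_sep [Fintype ι] (a : ι → E) (r : ℝ) (A : Finset ι)
    (hA : ∀ i ∈ A, ∀ j ∈ A, i ≠ j → r ≤ dist (a i) (a j)) :
    ∃ B : Finset ι, A ⊆ B ∧ (∀ i ∈ B, ∀ j ∈ B, i ≠ j → r ≤ dist (a i) (a j)) ∧
      ∀ i, i ∉ B → ∃ j ∈ B, dist (a i) (a j) < r := by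
  classical
  let P : Finset ι → Prop := fun B => A ⊆ B ∧ ∀ i ∈ B, ∀ j ∈ B, i ≠ j → r ≤ dist (a i) (a j)
  have hex : ∃ B ∈ ((univ : Finset (Finset ι)).filter P),
      ∀ B' ∈ ((univ : Finset (Finset ι)).filter P), B'.card ≤ B.card := by
    apply Finset.exists_max_image
    exact ⟨A, by simpa [P] using hA⟩
  obtain ⟨B, hB, hmax⟩ := hex
  simp only [mem_filter, mem_univ, true_and, P] at hB hmax
  refine ⟨B, hB.1, hB.2, ?_⟩
  intro i hi
  by_contra hcon
  push Not at hcon
  have h1 := hmax (insert i B) ⟨hB.1.trans (subset_insert _ _), by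
    intro u hu v hv huv
    rcases mem_insert.1 hu with hu1 | hu1
    · rcases mem_insert.1 hv with hv1 | hv1
      · exact absurd (hu1.trans hv1.symm) huv
      · rw [hu1]
        exact hcon v hv1
    · rcases mem_insert.1 hv with hv1 | hv1
      · rw [dist_comm, hv1]
        exact hcon u hu1
      · exact hB.2 u hu1 v hv1 huv⟩
  rw [card_insert_of_notMem hi] at h1
  omega

/-- Nested nets exist. -/
theorem exists_net [Fintype ι] (a : ι → E) (ha : Function.Injective a) {Λ : ℝ} (hΛ : 0 < Λ) :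
    ∃ N : Net a, N.top = Λ := by
  classical
  -- the nets
  have hsucc : ∀ (m : ℕ) (A : Finset ι), ∃ B : Finset ι,
      (∀ i ∈ A, ∀ j ∈ A, i ≠ j → Λ / 2 ^ m ≤ dist (a i) (a j)) →
      A ⊆ B ∧ (∀ i ∈ B, ∀ j ∈ B, i ≠ j → Λ / 2 ^ (m + 1) ≤ dist (a i) (a j)) ∧
      ∀ i, i ∉ B → ∃ j ∈ B, dist (a i) (a j) < Λ / 2 ^ (m + 1) := by
    intro m A
    by_cases hA : ∀ i ∈ A, ∀ j ∈ A, i ≠ j → Λ / 2 ^ m ≤ dist (a i) (a j)
    · obtain ⟨B, hB⟩ := exists_maximal_sep a (Λ / 2 ^ (m + 1)) A (by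
        intro i hi j hj hij
        refine le_trans ?_ (hA i hi j hj hij)
        apply div_le_div_of_nonneg_left hΛ.le (by positivity)
        exact pow_le_pow_right₀ (by norm_num) (by omega))
      exact ⟨B, fun _ => hB⟩
    · exact ⟨∅, fun h => absurd h hA⟩
  choose nxt hnxt using hsucc
  obtain ⟨B₀, hB₀⟩ := exists_maximal_sep a (Λ / 2 ^ 0) ∅ (by simp)
  let N : ℕ → Finset ι := fun m => Nat.rec B₀ (fun m A => nxt m A) m
  have hN0 : N 0 = B₀ := rfl
  have hNs : ∀ m, N (m + 1) = nxt m (N m) := fun m => rfl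
  have hsep : ∀ m, (∀ i ∈ N m, ∀ j ∈ N m, i ≠ j → Λ / 2 ^ m ≤ dist (a i) (a j)) ∧
      ∀ i, i ∉ N m → ∃ j ∈ N m, dist (a i) (a j) < Λ / 2 ^ m := by
    intro m
    induction m with
    | zero => exact ⟨hB₀.2.1, hB₀.2.2⟩
    | succ m ih =>
        rw [hNs]
        exact ⟨(hnxt m _ ih.1).2.1, (hnxt m _ ih.1).2.2⟩
  have hmono1 : ∀ m, N m ⊆ N (m + 1) := fun m => by
    rw [hNs]
    exact (hnxt m _ (hsep m).1).1
  have hmono : ∀ m m', m ≤ m' → N m ⊆ N m' := fun m m' h =>
    monotone_nat_of_le_succ (f := N) hmono1 h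
  -- every point is born
  have hborn : ∀ i, ∃ m, i ∈ N m := by
    intro i
    obtain ⟨δ, hδ, hδ'⟩ : ∃ δ > 0, ∀ j, j ≠ i → δ ≤ dist (a i) (a j) := by
      by_cases hne : (univ.filter fun j => j ≠ i).Nonempty
      · obtain ⟨j₀, hj₀, hmin⟩ := Finset.exists_min_image (univ.filter fun j => j ≠ i)
          (fun j => dist (a i) (a j)) hne
        refine ⟨dist (a i) (a j₀), ?_, ?_⟩
        · rw [gt_iff_lt, dist_pos]
          intro h
          exact (mem_filter.1 hj₀).2 (ha h).symm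
        · intro j hj
          exact hmin j (by simpa using hj)
      · refine ⟨1, one_pos, ?_⟩
        intro j hj
        exact absurd ⟨j, by simpa using hj⟩ hne
    obtain ⟨m, hm⟩ : ∃ m : ℕ, Λ / 2 ^ m < δ := by
      obtain ⟨m, hm⟩ := exists_nat_gt (Λ / δ)
      refine ⟨m, ?_⟩
      rw [div_lt_iff₀ (by positivity)]
      have h1 : (m : ℝ) < 2 ^ m := by exact_mod_cast Nat.lt_two_pow_self
      rw [div_lt_iff₀ hδ] at hm
      nlinarith
    refine ⟨m, ?_⟩
    by_contra hcon
    obtain ⟨j, hj, hjd⟩ := (hsep m).2 i hcon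
    have hji : j ≠ i := fun h => hcon (h ▸ hj)
    have := hδ' j hji
    linarith
  let b : ι → ℕ := fun i => sInf {m | i ∈ N m}
  have hb : ∀ i m, b i ≤ m ↔ i ∈ N m := by
    intro i m
    constructor
    · intro h
      exact hmono _ _ h (Nat.sInf_mem (s := {m | i ∈ N m}) (hborn i))
    · intro h
      exact Nat.sInf_le h
  refine ⟨⟨Λ, hΛ, b, ?_, ?_⟩, rfl⟩
  · intro i j hij m hi hj
    exact (hsep m).1 i ((hb i m).1 hi) j ((hb j m).1 hj) hij
  · intro m i
    rcases Classical.em (i ∈ N m) with hi | hi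
    · exact ⟨i, (hb i m).2 hi, by rw [dist_self]; positivity⟩
    · obtain ⟨j, hj, hjd⟩ := (hsep m).2 i hi
      exact ⟨j, (hb j m).2 hj, hjd.le⟩

namespace Net

variable {a : ι → E} (N : Net a)

/-- The scale of level `m`. -/
noncomputable def sc (m : ℕ) : ℝ := N.top / 2 ^ m

theorem sc_pos (m : ℕ) : 0 < N.sc m := by
  have := N.top_pos
  unfold sc
  positivity

theorem sc_succ (m : ℕ) : N.sc m = 2 * N.sc (m + 1) := by
  unfold sc
  rw [pow_succ]
  field_simp

theorem sc_anti {m m' : ℕ} (h : m ≤ m') : N.sc m' ≤ N.sc m := by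
  unfold sc
  apply div_le_div_of_nonneg_left N.top_pos.le (by positivity)
  exact pow_le_pow_right₀ (by norm_num) h

theorem exists_sc_lt {δ : ℝ} (hδ : 0 < δ) : ∃ m, N.sc m < δ := by
  obtain ⟨m, hm⟩ := exists_nat_gt (N.top / δ)
  refine ⟨m, ?_⟩
  unfold sc
  rw [div_lt_iff₀ (by positivity)]
  have h1 : (m : ℝ) < 2 ^ m := by exact_mod_cast Nat.lt_two_pow_self
  rw [div_lt_iff₀ hδ] at hm
  nlinarith

/-- `m` is an event for the point `p`. -/
def Ev (p : ι) (m : ℕ) : Prop :=
  N.b p ≤ m ∧ ∃ k, N.b k = m ∧ dist (a k) (a p) ≤ 5 * N.sc m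

theorem ev_birth (p : ι) : N.Ev p (N.b p) :=
  ⟨le_rfl, p, rfl, by rw [dist_self]; have := N.sc_pos (N.b p); positivity⟩

open Classical in
/-- The last event for `p` up to level `m`. -/
noncomputable def cur (p : ι) (m : ℕ) : ℕ := Nat.findGreatest (N.Ev p) m

theorem cur_le (p : ι) (m : ℕ) : N.cur p m ≤ m := by
  classical
  exact Nat.findGreatest_le m

theorem ev_cur {p : ι} {m : ℕ} (h : N.b p ≤ m) : N.Ev p (N.cur p m) := by
  classical
  exact Nat.findGreatest_spec h (N.ev_birth p)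

theorem birth_le_cur {p : ι} {m : ℕ} (h : N.b p ≤ m) : N.b p ≤ N.cur p m := (N.ev_cur h).1

theorem le_cur {p : ι} {m m' : ℕ} (hm : m' ≤ m) (h : N.Ev p m') : m' ≤ N.cur p m := by
  classical
  exact Nat.le_findGreatest hm h

theorem cur_eq_of_ev {p : ι} {m : ℕ} (h : N.Ev p m) : N.cur p m = m :=
  le_antisymm (N.cur_le p m) (N.le_cur le_rfl h)

theorem not_ev {p : ι} {m m' : ℕ} (h1 : N.cur p m < m') (h2 : m' ≤ m) : ¬ N.Ev p m' := by
  intro h
  exact absurd (N.le_cur h2 h) (not_le.2 h1)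

/-- `cur` does not change between `cur p m` and `m`. -/
theorem cur_eq {p : ι} {c m : ℕ} (hb : N.b p ≤ m) (h1 : N.cur p m ≤ c) (h2 : c ≤ m) :
    N.cur p c = N.cur p m := by
  apply le_antisymm
  · exact N.le_cur ((N.cur_le p c).trans h2) (N.ev_cur ((N.birth_le_cur hb).trans h1))
  · exact N.le_cur h1 (N.ev_cur hb)

/-- If there is no event for `p` between the levels `c` and `m`, then the points near `p` are very
near `p`. -/
theorem gap {p z : ι} {c m : ℕ} (hb : N.b p ≤ c) (hne : ∀ m', c < m' → m' ≤ m → ¬ N.Ev p m')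
    (hz : dist (a z) (a p) ≤ N.sc c / 2) : dist (a z) (a p) ≤ 2 * N.sc m := by
  classical
  by_contra hcon
  push Not at hcon
  have hex : ∃ m', 2 * N.sc m' < dist (a z) (a p) := ⟨m, hcon⟩
  obtain ⟨m', hm', hmin⟩ : ∃ m', 2 * N.sc m' < dist (a z) (a p) ∧
      ∀ m'' < m', ¬ 2 * N.sc m'' < dist (a z) (a p) :=
    ⟨Nat.find hex, Nat.find_spec hex, fun m'' h => Nat.find_min hex h⟩
  have hm'm : m' ≤ m := by
    by_contra h
    exact hmin m (by omega) hcon
  have hcm' : c < m' := by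
    by_contra h
    have h1 := N.sc_anti (not_lt.1 h)
    have h2 := N.sc_pos c
    linarith
  have h4 : dist (a z) (a p) ≤ 4 * N.sc m' := by
    have h1 := hmin (m' - 1) (by omega)
    have h2 := N.sc_succ (m' - 1)
    have h3 : m' - 1 + 1 = m' := by omega
    rw [h3] at h2
    push Not at h1
    linarith
  obtain ⟨q, hq, hqd⟩ := N.cov m' z
  change dist (a z) (a q) ≤ N.sc m' at hqd
  have hqp : q ≠ p := by
    rintro rfl
    have := N.sc_pos m'
    linarith
  have h5 : dist (a q) (a p) ≤ 5 * N.sc m' := by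
    have := dist_triangle (a q) (a z) (a p)
    rw [dist_comm (a q) (a z)] at this
    linarith
  have h6 : c < N.b q := by
    by_contra h
    have h1 := N.sep q p hqp c (not_lt.1 h) hb
    change N.sc c ≤ _ at h1
    have := dist_triangle (a q) (a z) (a p)
    rw [dist_comm (a q) (a z)] at this
    have h7 := N.sc_pos c
    linarith
  refine hne (N.b q) h6 (hq.trans hm'm) ⟨by omega, q, rfl, ?_⟩
  have := N.sc_anti hq
  linarith

section Finite

variable [Fintype ι] [FiniteDimensional ℝ E]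

open Classical in
/-- The net points of level `m` near the point `y`. -/
noncomputable def around (y : E) (κ : ℝ) (m : ℕ) : Finset ι :=
  univ.filter fun p => N.b p ≤ m ∧ dist (a p) y ≤ κ * N.sc m

theorem card_around (y : E) {κ : ℝ} (hκ : 0 ≤ κ) (m : ℕ) :
    ((N.around y κ m).card : ℝ) ≤ (2 * κ + 1) ^ finrank ℝ E := by
  classical
  have hinj : Set.InjOn a (N.around y κ m) := by
    intro p hp q hq h
    by_contra hpq
    simp only [around, coe_filter, mem_univ, true_and, Set.mem_ofPred_eq] at hp hq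
    have h1 := N.sep p q hpq m hp.1 hq.1
    rw [h, dist_self] at h1
    have := N.sc_pos m
    unfold sc at this
    linarith
  rw [← Finset.card_image_of_injOn hinj]
  refine packing hκ (N.sc_pos m) _ y ?_ ?_
  · intro q hq
    obtain ⟨p, hp, rfl⟩ := mem_image.1 hq
    exact (mem_filter.1 hp).2.2
  · intro q hq q' hq' hqq
    obtain ⟨p, hp, rfl⟩ := mem_image.1 hq
    obtain ⟨p', hp', rfl⟩ := mem_image.1 hq'
    exact N.sep p p' (fun h => hqq (by rw [h])) m (mem_filter.1 hp).2.1 (mem_filter.1 hp').2.1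

open Classical in
/-- The hosts. -/
noncomputable def hosts : Finset (ι × ℕ) :=
  univ.biUnion fun k => (N.around (a k) 5 (N.b k)).image fun p => (p, N.b k)

theorem mem_hosts {p : ι} {m : ℕ} (h : N.Ev p m) : (p, m) ∈ N.hosts := by
  classical
  obtain ⟨h1, k, rfl, h2⟩ := h
  refine mem_biUnion.2 ⟨k, mem_univ _, mem_image.2 ⟨p, mem_filter.2 ⟨mem_univ _, h1, ?_⟩, rfl⟩⟩
  rw [dist_comm]
  exact h2

theorem card_hosts : (N.hosts.card : ℝ) ≤ 11 ^ finrank ℝ E * Fintype.card ι := by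
  classical
  have h1 : N.hosts.card ≤ ∑ k : ι, (N.around (a k) 5 (N.b k)).card :=
    card_biUnion_le.trans (sum_le_sum fun k _ => card_image_le)
  have h2 : (N.hosts.card : ℝ) ≤ ∑ k : ι, ((N.around (a k) 5 (N.b k)).card : ℝ) := by
    exact_mod_cast h1
  refine h2.trans ?_
  calc ∑ k : ι, ((N.around (a k) 5 (N.b k)).card : ℝ) ≤ ∑ k : ι, (11 : ℝ) ^ finrank ℝ E := by
        refine sum_le_sum fun k _ => ?_
        have := N.card_around (a k) (κ := 5) (by norm_num) (N.b k)
        norm_num at this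
        exact this
    _ = 11 ^ finrank ℝ E * Fintype.card ι := by
        rw [sum_const, nsmul_eq_mul, card_univ, mul_comm]

open Classical in
/-- The neighbours of a host. -/
noncomputable def nb (h : ι × ℕ) : Finset (ι × ℕ) :=
  insert (h.1, N.cur h.1 (h.2 - 1)) ((N.around (a h.1) 8 h.2).image fun q => (q, N.cur q h.2))

open Classical in
/-- The pairs of neighbouring hosts. -/
noncomputable def pairs : Finset ((ι × ℕ) × (ι × ℕ)) :=
  N.hosts.biUnion fun h => (N.nb h).image fun h' => (h, h')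

theorem mem_pairs {h h' : ι × ℕ} (hh : h ∈ N.hosts) (hn : h' ∈ N.nb h) : (h, h') ∈ N.pairs := by
  classical
  exact mem_biUnion.2 ⟨h, hh, mem_image.2 ⟨h', hn, rfl⟩⟩

theorem card_nb (h : ι × ℕ) : ((N.nb h).card : ℝ) ≤ 17 ^ finrank ℝ E + 1 := by
  classical
  have h1 : (N.nb h).card ≤ (N.around (a h.1) 8 h.2).card + 1 :=
    (card_insert_le _ _).trans (Nat.add_le_add_right card_image_le 1)
  have h2 := N.card_around (a h.1) (κ := 8) (by norm_num) h.2
  norm_num at h2
  have h3 : ((N.nb h).card : ℝ) ≤ (N.around (a h.1) 8 h.2).card + 1 := by exact_mod_cast h1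
  linarith

theorem card_pairs :
    (N.pairs.card : ℝ) ≤ (17 ^ finrank ℝ E + 1) * (11 ^ finrank ℝ E * Fintype.card ι) := by
  classical
  have h1 : N.pairs.card ≤ ∑ h ∈ N.hosts, (N.nb h).card :=
    card_biUnion_le.trans (sum_le_sum fun k _ => card_image_le)
  have h2 : (N.pairs.card : ℝ) ≤ ∑ h ∈ N.hosts, ((N.nb h).card : ℝ) := by exact_mod_cast h1
  refine h2.trans ?_
  calc ∑ h ∈ N.hosts, ((N.nb h).card : ℝ) ≤ ∑ h ∈ N.hosts, ((17 : ℝ) ^ finrank ℝ E + 1) :=
        sum_le_sum fun h _ => N.card_nb h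
    _ = (17 ^ finrank ℝ E + 1) * N.hosts.card := by
        rw [sum_const, nsmul_eq_mul, mul_comm]
    _ ≤ _ := mul_le_mul_of_nonneg_left N.card_hosts (by positivity)

/-- Two current hosts of the same level that are near one another are neighbours. -/
theorem pair_same {p q : ι} {m : ℕ} (hp : N.b p ≤ m) (hq : N.b q ≤ m)
    (hpq : dist (a p) (a q) ≤ 8 * N.sc m) :
    ((p, N.cur p m), (q, N.cur q m)) ∈ N.pairs ∨ ((q, N.cur q m), (p, N.cur p m)) ∈ N.pairs := by
  classical
  rcases le_total (N.cur q m) (N.cur p m) with h | h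
  · left
    apply N.mem_pairs (N.mem_hosts (N.ev_cur hp))
    refine mem_insert_of_mem (mem_image.2 ⟨q, mem_filter.2 ⟨mem_univ _, ?_, ?_⟩, ?_⟩)
    · exact (N.birth_le_cur hq).trans h
    · rw [dist_comm]
      refine hpq.trans (mul_le_mul_of_nonneg_left (N.sc_anti (N.cur_le p m)) (by norm_num))
    · simp only [Prod.mk.injEq, true_and]
      exact N.cur_eq hq h (N.cur_le p m)
  · right
    apply N.mem_pairs (N.mem_hosts (N.ev_cur hq))
    refine mem_insert_of_mem (mem_image.2 ⟨p, mem_filter.2 ⟨mem_univ _, ?_, ?_⟩, ?_⟩)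
    · exact (N.birth_le_cur hp).trans h
    · refine hpq.trans (mul_le_mul_of_nonneg_left (N.sc_anti (N.cur_le q m)) (by norm_num))
    · simp only [Prod.mk.injEq, true_and]
      exact N.cur_eq hp h (N.cur_le q m)

/-- The current hosts of consecutive levels of the same point are neighbours. -/
theorem pair_succ {p : ι} {m : ℕ} (hp : N.b p ≤ m) :
    ((p, N.cur p (m + 1)), (p, N.cur p m)) ∈ N.pairs := by
  classical
  apply N.mem_pairs (N.mem_hosts (N.ev_cur (hp.trans (Nat.le_succ m))))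
  by_cases h : N.cur p (m + 1) = m + 1
  · rw [h]
    exact mem_insert_self _ _
  · have h1 : N.cur p (m + 1) ≤ m := by
      have := N.cur_le p (m + 1)
      omega
    have h2 : N.cur p m = N.cur p (m + 1) := N.cur_eq (hp.trans (Nat.le_succ m)) h1 (Nat.le_succ m)
    rw [h2]
    refine mem_insert_of_mem (mem_image.2 ⟨p, mem_filter.2 ⟨mem_univ _, ?_, ?_⟩, ?_⟩)
    · exact N.birth_le_cur (hp.trans (Nat.le_succ m))
    · rw [dist_self]
      have := N.sc_pos (N.cur p (m + 1))
      positivity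
    · simp only [Prod.mk.injEq, true_and]
      exact N.cur_eq (hp.trans (Nat.le_succ m)) le_rfl (N.cur_le _ _)

end Finite

end Net

end Pool.Agent.Lib.H21Steiner
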