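import Mathlib

/-!
# A packing bound
-/

open MeasureTheory MeasureTheory.Measure Metric Module Set
open scoped ENNReal

namespace Pool.Agent.Lib.H21Steiner

variable {E : Type*} [NormedAddCommGroup E] [NormedSpace ℝ E] [FiniteDimensional ℝ E]

open scoped Function in
/-- A `δ`-separated finite set in a closed ball of radius `κ * δ` has at most `(2κ + 1) ^ dim`
elements. -/
theorem packing {κ δ : ℝ} (hκ : 0 ≤ κ) (hδ : 0 < δ) (s : Finset E) (c : E)
    (hs : ∀ p ∈ s, dist p c ≤ κ * δ) (h : ∀ p ∈ s, ∀ q ∈ s, p ≠ q → δ ≤ dist p q) :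
    (s.card : ℝ) ≤ (2 * κ + 1) ^ finrank ℝ E := by
  borelize E
  let μ : Measure E := Measure.addHaar
  have hδ2 : 0 < δ / 2 := by positivity
  have hρpos : 0 < κ * δ + δ / 2 := by positivity
  set A := ⋃ p ∈ s, ball (p : E) (δ / 2) with hA
  have D : Set.Pairwise (s : Set E) (Disjoint on fun p => ball (p : E) (δ / 2)) := by
    rintro p hp q hq hpq
    apply ball_disjoint_ball
    have := h p hp q hq hpq
    linarith
  have A_subset : A ⊆ ball c (κ * δ + δ / 2) := by
    refine iUnion₂_subset fun x hx => ?_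
    apply ball_subset_ball'
    have := hs x hx
    linarith
  have I :
    (s.card : ℝ≥0∞) * ENNReal.ofReal ((δ / 2) ^ finrank ℝ E) * μ (ball 0 1) ≤
      ENNReal.ofReal ((κ * δ + δ / 2) ^ finrank ℝ E) * μ (ball 0 1) :=
    calc
      (s.card : ℝ≥0∞) * ENNReal.ofReal ((δ / 2) ^ finrank ℝ E) * μ (ball 0 1) = μ A := by
        rw [hA, measure_biUnion_finset D fun c _ => measurableSet_ball]
        simp only [μ.addHaar_ball_of_pos _ hδ2]
        simp only [Finset.sum_const, nsmul_eq_mul, mul_assoc]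
      _ ≤ μ (ball c (κ * δ + δ / 2)) := measure_mono A_subset
      _ = ENNReal.ofReal ((κ * δ + δ / 2) ^ finrank ℝ E) * μ (ball 0 1) := by
        simp only [μ.addHaar_ball_of_pos _ hρpos]
  have J : (s.card : ℝ≥0∞) * ENNReal.ofReal ((δ / 2) ^ finrank ℝ E) ≤
      ENNReal.ofReal ((κ * δ + δ / 2) ^ finrank ℝ E) :=
    (ENNReal.mul_le_mul_iff_left (measure_ball_pos _ _ zero_lt_one).ne' measure_ball_lt_top.ne).1 I
  have K : (s.card : ℝ) * (δ / 2) ^ finrank ℝ E ≤ (κ * δ + δ / 2) ^ finrank ℝ E := by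
    have := ENNReal.toReal_le_of_le_ofReal (pow_nonneg hρpos.le _) J
    rwa [ENNReal.toReal_mul, ENNReal.toReal_natCast, ENNReal.toReal_ofReal (by positivity)] at this
  have h1 : κ * δ + δ / 2 = (2 * κ + 1) * (δ / 2) := by ring
  rw [h1, mul_pow] at K
  exact le_of_mul_le_mul_right K (by positivity)

end Pool.Agent.Lib.H21Steiner
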