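import Pool.Agent.Lib.H21Steiner.Super

/-!
# The skeleton with the cherries for the pairs of clusters
-/

namespace Pool.Agent.Lib.H21Steiner

open BT

variable {E : Type*} [NormedAddCommGroup E] [InnerProductSpace ℝ E]

/-- Positions of the leaves after replacing the leaves `0, …, k - 1` by cherries. -/
noncomputable def posTwo (M k : ℕ) (ε : ℕ → ℝ) (a e f : ℕ → E) (b : ℕ) : E :=
  if b < k then a b + ε b • f b else
    if M ≤ b ∧ b < M + k then a (b - M) + ε (b - M) • (e (b - M) - f (b - M)) else a b

/-- Directions of the leaf edges after replacing the leaves `0, …, k - 1` by cherries. -/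
noncomputable def dirTwo (M k : ℕ) (e f : ℕ → E) (b : ℕ) : E :=
  if b < k then f b else if M ≤ b ∧ b < M + k then e (b - M) - f (b - M) else e b

/-- The second vectors of the frames after replacing the leaves `0, …, k - 1` by cherries. -/
noncomputable def frTwo (M k : ℕ) (e f : ℕ → E) (b : ℕ) : E :=
  if b < k then f b - e b else if M ≤ b ∧ b < M + k then e (b - M) else f b

section

variable {M k : ℕ} {ε : ℕ → ℝ} {a e f : ℕ → E}

theorem posTwo_lt {b : ℕ} (hb : b < k) : posTwo M k ε a e f b = a b + ε b • f b := if_pos hb

theorem posTwo_add {b : ℕ} (hkM : k ≤ M) (hb : b < k) :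
    posTwo M k ε a e f (M + b) = a b + ε b • (e b - f b) := by
  rw [posTwo, if_neg (by omega), if_pos (by omega), Nat.add_sub_cancel_left]

theorem posTwo_mid {b : ℕ} (hb : k ≤ b) (hb' : b < M) : posTwo M k ε a e f b = a b := by
  rw [posTwo, if_neg (by omega), if_neg (by omega)]

omit [InnerProductSpace ℝ E] in
theorem dirTwo_lt {b : ℕ} (hb : b < k) : dirTwo M k e f b = f b := if_pos hb

omit [InnerProductSpace ℝ E] in
theorem dirTwo_add {b : ℕ} (hkM : k ≤ M) (hb : b < k) : dirTwo M k e f (M + b) = e b - f b := by
  rw [dirTwo, if_neg (by omega), if_pos (by omega), Nat.add_sub_cancel_left]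

omit [InnerProductSpace ℝ E] in
theorem dirTwo_mid {b : ℕ} (hb : k ≤ b) (hb' : b < M) : dirTwo M k e f b = e b := by
  rw [dirTwo, if_neg (by omega), if_neg (by omega)]

omit [InnerProductSpace ℝ E] in
theorem frTwo_lt {b : ℕ} (hb : b < k) : frTwo M k e f b = f b - e b := if_pos hb

omit [InnerProductSpace ℝ E] in
theorem frTwo_add {b : ℕ} (hkM : k ≤ M) (hb : b < k) : frTwo M k e f (M + b) = e b := by
  rw [frTwo, if_neg (by omega), if_pos (by omega), Nat.add_sub_cancel_left]

omit [InnerProductSpace ℝ E] in
theorem frTwo_mid {b : ℕ} (hb : k ≤ b) (hb' : b < M) : frTwo M k e f b = f b := by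
  rw [frTwo, if_neg (by omega), if_neg (by omega)]

theorem fr_two (hkM : k ≤ M) (h : ∀ i < M, Fr (e i) (f i)) : ∀ b < M + k,
    Fr (dirTwo M k e f b) (frTwo M k e f b) := by
  intro b hb
  by_cases h1 : b < k
  · rw [dirTwo_lt h1, frTwo_lt h1]
    exact (h b (by omega)).next
  · by_cases h2 : b < M
    · rw [dirTwo_mid (not_lt.1 h1) h2, frTwo_mid (not_lt.1 h1) h2]
      exact h b h2
    · obtain ⟨c, rfl⟩ := Nat.exists_eq_add_of_le (not_lt.1 h2)
      rw [dirTwo_add hkM (by omega), frTwo_add hkM (by omega)]
      exact (h c (by omega)).prev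

end

theorem phase_two {p : E} {M : ℕ} {a e f : ℕ → E} {L r δ : ℝ}
    (hG : Good p (Finset.range M) a e L r δ) (hfr : ∀ i < M, Fr (e i) (f i)) :
    ∀ k ≤ M, ∃ (ε : ℕ → ℝ) (r' δ' : ℝ), (∀ i, 0 < ε i) ∧
      Good p (Finset.range (M + k)) (posTwo M k ε a e f) (dirTwo M k e f)
        (L + 2 * ∑ i ∈ Finset.range k, ε i) r' δ' := by
  intro k
  induction k with
  | zero =>
      intro _
      refine ⟨fun _ => 1, r, δ, fun _ => one_pos, ?_⟩
      have h1 : posTwo M 0 (fun _ => (1 : ℝ)) a e f = a := by
        funext b
        rw [posTwo, if_neg (by omega), if_neg (by omega)]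
      have h2 : dirTwo M 0 e f = e := by
        funext b
        rw [dirTwo, if_neg (by omega), if_neg (by omega)]
      rw [h1, h2, Finset.range_zero, Finset.sum_empty, mul_zero, add_zero, add_zero]
      exact hG
  | succ k ih =>
      intro hk
      obtain ⟨ε, r', δ', hε, hG'⟩ := ih (by omega)
      obtain ⟨ε₁, hε₁⟩ : ∃ ε₁ : ℝ, ε₁ = min (r' / 8) (δ' / (3 * ((M + k : ℕ) : ℝ) + 6)) := ⟨_, rfl⟩
      have hMr : (0 : ℝ) < 3 * ((M + k : ℕ) : ℝ) + 6 := by positivity
      have hpos : 0 < ε₁ := by
        rw [hε₁]
        exact lt_min (by have := hG'.rpos; positivity) (div_pos hG'.dpos hMr)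
      have hεr : 8 * ε₁ ≤ r' := by
        have := min_le_left (r' / 8) (δ' / (3 * ((M + k : ℕ) : ℝ) + 6))
        rw [← hε₁] at this
        linarith
      have hεδ : (3 * ((M + k : ℕ) : ℝ) + 6) * ε₁ ≤ δ' := by
        have := min_le_right (r' / 8) (δ' / (3 * ((M + k : ℕ) : ℝ) + 6))
        rw [← hε₁, le_div_iff₀ hMr] at this
        linarith
      have hkM : k < M := by omega
      have hdk : dirTwo M k e f k = e k := dirTwo_mid le_rfl hkM
      have hpk : posTwo M k ε a e f k = a k := posTwo_mid le_rfl hkM
      have hgood := hG'.ext (i := k) (j := M + k) (w₁ := f k) (w₂ := e k - f k) (ε := ε₁)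
        (fun b hb => (fr_two (by omega) hfr b (Finset.mem_range.1 hb)).ne.le)
        (Finset.mem_range.2 (by omega)) (by simp) (hfr k hkM).fork (by rw [hdk]; abel) hpos hεr
        (by rw [Finset.card_range]; exact hεδ)
      refine ⟨Function.update ε k ε₁, ε₁, 3 / 20 * ε₁, ?_, ?_⟩
      · intro i
        by_cases hi : i = k
        · rw [hi, Function.update_self]
          exact hpos
        · rw [Function.update_of_ne hi]
          exact hε i
      · have h1 : posTwo M (k + 1) (Function.update ε k ε₁) a e f =
            upd k (M + k) (posTwo M k ε a e f k + ε₁ • f k)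
              (posTwo M k ε a e f k + ε₁ • (e k - f k)) (posTwo M k ε a e f) := by
          funext b
          rw [hpk]
          by_cases hb : b = M + k
          · rw [hb, upd_j, posTwo_add (by omega) (by omega), Function.update_self]
          · by_cases hb' : b = k
            · rw [hb', upd_i (by omega), posTwo_lt (by omega), Function.update_self]
            · rw [upd_other hb' hb, posTwo, posTwo]
              by_cases h3 : b < k
              · rw [if_pos (by omega), if_pos h3, Function.update_of_ne hb']
              · rw [if_neg (by omega), if_neg h3]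
                by_cases h4 : M ≤ b ∧ b < M + k
                · rw [if_pos (by omega), if_pos h4, Function.update_of_ne (by omega)]
                · rw [if_neg (by omega), if_neg h4]
        have h2 : dirTwo M (k + 1) e f = upd k (M + k) (f k) (e k - f k) (dirTwo M k e f) := by
          funext b
          by_cases hb : b = M + k
          · rw [hb, upd_j, dirTwo_add (by omega) (by omega)]
          · by_cases hb' : b = k
            · rw [hb', upd_i (by omega), dirTwo_lt (by omega)]
            · rw [upd_other hb' hb, dirTwo, dirTwo]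
              by_cases h3 : b < k
              · rw [if_pos (by omega), if_pos h3]
              · rw [if_neg (by omega), if_neg h3]
                by_cases h4 : M ≤ b ∧ b < M + k
                · rw [if_pos (by omega), if_pos h4]
                · rw [if_neg (by omega), if_neg h4]
        have h3 : L + 2 * ∑ i ∈ Finset.range (k + 1), Function.update ε k ε₁ i =
            L + 2 * ∑ i ∈ Finset.range k, ε i + 2 * ε₁ := by
          rw [Finset.sum_range_succ, Function.update_self]
          have h4 : ∑ i ∈ Finset.range k, Function.update ε k ε₁ i =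
              ∑ i ∈ Finset.range k, ε i := by
            apply Finset.sum_congr rfl
            intro i hi
            rw [Finset.mem_range] at hi
            rw [Function.update_of_ne (by omega)]
          rw [h4]
          ring
        rw [h1, h2, h3, ← add_assoc, Finset.range_add_one]
        exact hgood

end Pool.Agent.Lib.H21Steiner
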