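import Pool.Agent.Lib.H21Steiner.Congestion
import Pool.Agent.Lib.H21Steiner.Nets
import Pool.Agent.Lib.H21Steiner.Counting

/-!
# Placing the edges of a tree with the separation property on hosts
-/

set_option linter.unusedSectionVars false

namespace Pool.Agent.Lib.H21Steiner

open Finset Metric Module

/-- The relation between a tree and a net of its terminals. -/
structure Fits {E : Type*} [NormedAddCommGroup E] [NormedSpace ℝ E] {ι σ : Type}
    (S : SepTree E (ι ⊕ σ)) {a : ι → E} (N : Net a) : Prop where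
  T_eq : S.T = Set.range Sum.inl
  x_inl : ∀ i, S.x (Sum.inl i) = a i
  x_inj : Function.Injective S.x
  rho_le : ∀ u v, S.G.Adj u v → S.rho u v ≤ N.top

namespace SepTree

variable {E : Type*} [NormedAddCommGroup E] [NormedSpace ℝ E] [FiniteDimensional ℝ E]
  {ι σ : Type} [Fintype ι] {a : ι → E} {S : SepTree E (ι ⊕ σ)} {N : Net a}

/-- The hosts of an edge. -/
def Host (S : SepTree E (ι ⊕ σ)) (N : Net a) (e : Sym2 (ι ⊕ σ)) : Set (ι × ℕ) :=
  {h | ∃ u v, e = s(u, v) ∧ S.G.Adj u v ∧ ∃ m, S.D (S.x u) ≤ N.sc m ∧ N.sc m < 2 * S.rho u v ∧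
    N.b h.1 ≤ m ∧ dist (S.x u) (a h.1) ≤ 4 * N.sc m ∧ h.2 = N.cur h.1 m}

theorem host_mem {e : Sym2 (ι ⊕ σ)} {h : ι × ℕ} (hh : h ∈ S.Host N e) : h ∈ N.hosts := by
  obtain ⟨u, v, -, -, m, -, -, hb, -, hc⟩ := hh
  have h1 := N.mem_hosts (N.ev_cur hb)
  rw [← hc] at h1
  exact h1

theorem D_attained (hF : Fits S N) [Nonempty ι] (y : E) : ∃ i, dist y (a i) = S.D y := by
  have h1 : (S.x '' S.T).Finite := by
    rw [hF.T_eq]
    exact (Set.finite_range _).image _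
  have h2 : (S.x '' S.T).Nonempty := by
    rw [hF.T_eq]
    exact (Set.range_nonempty _).image _
  obtain ⟨z, ⟨t, ht, rfl⟩, hz⟩ := h1.isCompact.exists_infDist_eq_dist h2 y
  rw [hF.T_eq] at ht
  obtain ⟨i, rfl⟩ := ht
  refine ⟨i, ?_⟩
  rw [hF.x_inl] at hz
  exact hz.symm

/-- A net point near a point. -/
theorem exists_near (hF : Fits S N) [Nonempty ι] {y : E} {m : ℕ} (hy : S.D y ≤ N.sc m) :
    ∃ p, N.b p ≤ m ∧ dist y (a p) ≤ 2 * N.sc m := by
  obtain ⟨i, hi⟩ := D_attained hF y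
  obtain ⟨p, hp, hd⟩ := N.cov m i
  change dist (a i) (a p) ≤ N.sc m at hd
  refine ⟨p, hp, ?_⟩
  have := dist_triangle y (a i) (a p)
  linarith

theorem host_congestion [Fintype σ] (hF : Fits S N) (h : ι × ℕ)
    (F : Finset (Sym2 (ι ⊕ σ))) (hh : ∀ e ∈ F, h ∈ S.Host N e) :
    (F.card : ℝ) ≤ KK (finrank ℝ E) := by
  classical
  rcases F.eq_empty_or_nonempty with rfl | hne
  · unfold KK M5
    simp only [card_empty, Nat.cast_zero]
    positivity
  have hex : ∀ e : Sym2 (ι ⊕ σ), ∃ m : ℕ, e ∈ F → ∃ u v, e = s(u, v) ∧ S.G.Adj u v ∧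
      S.D (S.x u) ≤ N.sc m ∧ N.sc m < 2 * S.rho u v ∧
      N.b h.1 ≤ m ∧ dist (S.x u) (a h.1) ≤ 4 * N.sc m ∧ h.2 = N.cur h.1 m := by
    intro e
    by_cases he : e ∈ F
    · obtain ⟨u, v, h1, h2, m, h3⟩ := hh e he
      exact ⟨m, fun _ => ⟨u, v, h1, h2, h3⟩⟩
    · exact ⟨0, fun h => absurd h he⟩
  choose lv hlv using hex
  obtain ⟨e₁, he₁, hmax⟩ := Finset.exists_max_image F lv hne
  obtain ⟨-, -, -, -, -, -, hb1, -, hc1⟩ := hlv e₁ he₁
  have hT : S.T.Nonempty := by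
    rw [hF.T_eq]
    exact ⟨_, h.1, rfl⟩
  refine S.congestion hT (p := a h.1) (r := N.sc (lv e₁)) (R := N.sc h.2) (N.sc_pos _) ?_ ?_ F ?_
  · rw [hc1]
    exact N.sc_anti (N.cur_le _ _)
  · intro t ht
    rw [hF.T_eq] at ht
    obtain ⟨i, rfl⟩ := ht
    rw [hF.x_inl]
    refine N.gap ?_ ?_
    · rw [hc1]
      exact N.birth_le_cur hb1
    · intro m' h1 h2
      rw [hc1] at h1
      exact N.not_ev h1 h2
  · intro e he
    obtain ⟨u, v, h1, h2, h3, h4, h5, h6, h7⟩ := hlv e he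
    refine ⟨u, v, h1, h2, N.sc (lv e), N.sc_anti (hmax e he), ?_, h4.le, h6⟩
    rw [h7]
    exact N.sc_anti (N.cur_le _ _)

/-- The relation of neighbouring hosts of an edge. -/
def HStep (S : SepTree E (ι ⊕ σ)) (N : Net a) (e : Sym2 (ι ⊕ σ)) (h₁ h₂ : ι × ℕ) : Prop :=
  h₁ ∈ S.Host N e ∧ h₂ ∈ S.Host N e ∧ ((h₁, h₂) ∈ N.pairs ∨ (h₂, h₁) ∈ N.pairs)

theorem HStep.symm {e : Sym2 (ι ⊕ σ)} {h₁ h₂ : ι × ℕ} (h : S.HStep N e h₁ h₂) :
    S.HStep N e h₂ h₁ := ⟨h.2.1, h.1, h.2.2.symm⟩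

theorem chain_aux (hF : Fits S N) [Nonempty ι] {e : Sym2 (ι ⊕ σ)} {w w' : ι ⊕ σ} {m₀ : ℕ}
    {p₀ : ι} (he : e = s(w, w')) (hadj : S.G.Adj w w')
    (hm₀ : N.sc m₀ < 2 * S.rho w w') (hb₀ : N.b p₀ ≤ m₀)
    (hd₀ : dist (S.x w) (a p₀) ≤ 4 * N.sc m₀) {m : ℕ} (hm : m₀ ≤ m) :
    S.D (S.x w) ≤ N.sc m → ∀ p, N.b p ≤ m → dist (S.x w) (a p) ≤ 4 * N.sc m →
    Relation.ReflTransGen (S.HStep N e) (p, N.cur p m) (p₀, N.cur p₀ m₀) := by
  have mem : ∀ m', m₀ ≤ m' → S.D (S.x w) ≤ N.sc m' → ∀ q, N.b q ≤ m' →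
      dist (S.x w) (a q) ≤ 4 * N.sc m' → (q, N.cur q m') ∈ S.Host N e := by
    intro m' hm' hD q hq hqd
    exact ⟨w, w', he, hadj, m', hD, lt_of_le_of_lt (N.sc_anti hm') hm₀, hq, hqd, rfl⟩
  have same : ∀ m', m₀ ≤ m' → S.D (S.x w) ≤ N.sc m' → ∀ q q', N.b q ≤ m' → N.b q' ≤ m' →
      dist (S.x w) (a q) ≤ 4 * N.sc m' → dist (S.x w) (a q') ≤ 4 * N.sc m' →
      S.HStep N e (q, N.cur q m') (q', N.cur q' m') := by
    intro m' hm' hD q q' hq hq' hqd hqd'
    refine ⟨mem m' hm' hD q hq hqd, mem m' hm' hD q' hq' hqd', N.pair_same hq hq' ?_⟩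
    have := dist_triangle (a q) (S.x w) (a q')
    rw [dist_comm (a q) (S.x w)] at this
    linarith
  induction m, hm using Nat.le_induction with
  | base =>
      intro hD p hp hpd
      exact Relation.ReflTransGen.single (same m₀ le_rfl hD p p₀ hp hb₀ hpd hd₀)
  | succ m hm ih =>
      intro hD p hp hpd
      have hs := N.sc_succ m
      have hD' : S.D (S.x w) ≤ N.sc m := hD.trans (N.sc_anti (Nat.le_succ m))
      obtain ⟨q, hq, hqd⟩ := exists_near hF hD'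
      have hpos := N.sc_pos m
      have h1 : S.HStep N e (p, N.cur p (m + 1)) (q, N.cur q (m + 1)) :=
        same (m + 1) (by omega) hD p q hp (by omega) hpd (by linarith)
      have h2 : S.HStep N e (q, N.cur q (m + 1)) (q, N.cur q m) :=
        ⟨mem (m + 1) (by omega) hD q (by omega) (by linarith), mem m hm hD' q hq (by linarith),
          Or.inl (N.pair_succ hq)⟩
      exact Relation.ReflTransGen.head h1 (Relation.ReflTransGen.head h2
        (ih hD' q hq (by linarith)))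

theorem rho_pos (hF : Fits S N) {u v : ι ⊕ σ} (h : S.G.Adj u v) : 0 < S.rho u v := by
  refine lt_of_lt_of_le ?_ (S.dist_le_rho u v)
  rw [dist_pos]
  exact fun h' => h.ne (hF.x_inj h')

/-- The last level whose scale is at least a given number. -/
theorem exists_level {y : ℝ} (hy : 0 < y) (hy' : y ≤ N.top) :
    ∃ m, y ≤ N.sc m ∧ N.sc m < 2 * y := by
  classical
  obtain ⟨M, hM⟩ := N.exists_sc_lt hy
  have hex : ∃ m, N.sc m < y := ⟨M, hM⟩
  obtain ⟨m, hm, hmin⟩ : ∃ m, N.sc m < y ∧ ∀ k < m, ¬ N.sc k < y :=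
    ⟨Nat.find hex, Nat.find_spec hex, fun k hk => Nat.find_min hex hk⟩
  have hm0 : m ≠ 0 := by
    rintro rfl
    unfold Net.sc at hm
    simp at hm
    linarith
  obtain ⟨k, rfl⟩ := Nat.exists_eq_succ_of_ne_zero hm0
  refine ⟨k, not_lt.1 (hmin k (Nat.lt_succ_self k)), ?_⟩
  rw [N.sc_succ k]
  linarith

theorem chain (hF : Fits S N) {e : Sym2 (ι ⊕ σ)} (he : e ∈ S.G.edgeSet) {h h' : ι × ℕ}
    (hh : h ∈ S.Host N e) (hh' : h' ∈ S.Host N e) :
    Relation.ReflTransGen (S.HStep N e) h h' := by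
  have hne : Nonempty ι := ⟨h.1⟩
  induction e using Sym2.ind with
  | _ u v =>
  have hadj : S.G.Adj u v := he
  obtain ⟨m₀, hm₀, hm₀'⟩ := exists_level (N := N) (rho_pos hF hadj) (hF.rho_le u v hadj)
  have hDu : S.D (S.x u) ≤ N.sc m₀ := (S.D_le_rho u v).trans hm₀
  obtain ⟨p₀, hb₀, hd₀⟩ := exists_near hF hDu
  have hpos := N.sc_pos m₀
  have hdv : dist (S.x v) (a p₀) ≤ 4 * N.sc m₀ := by
    have h1 := dist_triangle (S.x v) (S.x u) (a p₀)
    have h2 := S.dist_le_rho v u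
    rw [S.rho_comm] at h2
    linarith
  have key : ∀ k ∈ S.Host N s(u, v),
      Relation.ReflTransGen (S.HStep N s(u, v)) k (p₀, N.cur p₀ m₀) := by
    rintro ⟨p, c⟩ ⟨w, w', hw, hadj', m, hD, hs, hb, hd, hc⟩
    simp only at hb hd hc
    subst hc
    have hrho : S.rho w w' = S.rho u v := by
      rcases Sym2.eq_iff.1 hw with ⟨rfl, rfl⟩ | ⟨rfl, rfl⟩
      · rfl
      · exact S.rho_comm _ _
    have hm : m₀ ≤ m := by
      by_contra hcon
      have h1 := N.sc_anti (show m + 1 ≤ m₀ by omega)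
      have h2 := N.sc_succ m
      linarith
    have hd1 : dist (S.x w) (a p₀) ≤ 4 * N.sc m₀ := by
      rcases Sym2.eq_iff.1 hw with ⟨rfl, rfl⟩ | ⟨rfl, rfl⟩
      · linarith
      · exact hdv
    exact chain_aux hF hw hadj' (by rw [hrho]; exact hm₀') hb₀ hd1 hm hD p hb hd
  have h1 := key h hh
  have h2 := key h' hh'
  refine h1.trans ?_
  have hsymm : ∀ {x y : ι × ℕ}, Relation.ReflTransGen (S.HStep N s(u, v)) x y →
      Relation.ReflTransGen (S.HStep N s(u, v)) y x := by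
    intro x y hxy
    induction hxy with
    | refl => exact Relation.ReflTransGen.refl
    | tail _ hstep ih => exact Relation.ReflTransGen.head hstep.symm ih
  exact hsymm h2

/-- A common host of the edges at a Steiner point. -/
theorem steiner_host (hF : Fits S N) [Nonempty ι] (s : σ) :
    ∃ h, ∀ e ∈ S.G.incidenceSet (Sum.inr s), h ∈ S.Host N e := by
  have hnT : Sum.inr s ∉ S.T := by
    rw [hF.T_eq]
    rintro ⟨i, hi⟩
    simp at hi
  have hpos : 0 < S.D (S.x (Sum.inr s)) := by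
    obtain ⟨i, hi⟩ := D_attained hF (S.x (Sum.inr s))
    rw [← hi, dist_pos, ← hF.x_inl]
    intro h
    have := hF.x_inj h
    simp at this
  obtain ⟨w, hw⟩ : ∃ w, S.G.Adj (Sum.inr s) w := by
    have h3 := S.deg _ hnT
    have h4 : (S.G.neighborSet (Sum.inr s)).Nonempty := by
      rw [← Set.ncard_pos (Set.finite_of_ncard_pos (by omega))]
      omega
    exact h4
  obtain ⟨m, hm, hm'⟩ := exists_level (N := N) hpos
    ((S.D_le_rho (Sum.inr s) w).trans (hF.rho_le _ _ hw))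
  obtain ⟨p, hb, hd⟩ := exists_near hF hm
  refine ⟨(p, N.cur p m), ?_⟩
  rintro e ⟨he, hse⟩
  obtain ⟨v, rfl⟩ := Sym2.mem_iff_exists.1 hse
  have := N.sc_pos m
  refine ⟨Sum.inr s, v, rfl, he, m, hm, ?_, hb, by linarith, rfl⟩
  have := S.D_le_rho (Sum.inr s) v
  linarith

/-- The host of a terminal. -/
noncomputable def tauHost (N : Net a) (i : ι) : ι × ℕ :=
  (i, N.cur i ((univ : Finset ι).sup N.b))

theorem terminal_host (hF : Fits S N) (i : ι) :
    ∀ e ∈ S.G.incidenceSet (Sum.inl i), tauHost N i ∈ S.Host N e := by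
  rintro e ⟨he, hse⟩
  obtain ⟨v, rfl⟩ := Sym2.mem_iff_exists.1 hse
  have hrho := rho_pos hF he
  obtain ⟨m₁, hm₁⟩ := N.exists_sc_lt hrho
  obtain ⟨M, hM⟩ : ∃ M, M = (univ : Finset ι).sup N.b := ⟨_, rfl⟩
  have hbM : ∀ k, N.b k ≤ M := fun k => by rw [hM]; exact Finset.le_sup (Finset.mem_univ k)
  have hbi := hbM i
  refine ⟨Sum.inl i, v, rfl, he, max m₁ M, ?_, ?_, ?_, ?_, ?_⟩
  · rw [S.D_terminal (by rw [hF.T_eq]; exact ⟨i, rfl⟩)]
    exact (N.sc_pos _).le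
  · have := N.sc_anti (le_max_left m₁ M)
    linarith
  · exact hbi.trans (le_max_right _ _)
  · rw [hF.x_inl]
    change dist (a i) (a i) ≤ _
    rw [dist_self]
    have := N.sc_pos (max m₁ M)
    positivity
  · change N.cur i ((univ : Finset ι).sup N.b) = N.cur i (max m₁ M)
    rw [← hM]
    refine N.cur_eq (hbi.trans (le_max_right _ _)) ?_ (le_max_right _ _)
    obtain ⟨-, k, hk, -⟩ := N.ev_cur (hbi.trans (le_max_right m₁ M))
    rw [← hk]
    exact hbM k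

theorem exists_lab {α : Type*} (F : Finset α) (K : ℕ) [NeZero K] (h : F.card ≤ K) :
    ∃ f : α → Fin K, ∀ x ∈ F, ∀ y ∈ F, f x = f y → x = y := by
  classical
  obtain ⟨f, hf, hf'⟩ := (F : Set α).toFinite.exists_injOn_of_encard_le
    (t := (Set.univ : Set (Fin K))) (by
      rw [Set.encard_coe_eq_coe_finsetCard, Set.encard_univ, ENat.card_eq_coe_fintype_card,
        Fintype.card_fin]
      exact_mod_cast h)
  exact ⟨f, fun x hx y hy hxy => hf' hx hy hxy⟩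

/-- The graph of a tree with the separation property is placed. -/
theorem placed [Fintype σ] [Nonempty ι] (hF : Fits S N) {K : ℕ}
    (hK : KK (finrank ℝ E) ≤ K) [NeZero K] :
    Nonempty (Placed N.hosts N.pairs (tauHost N) (Fin K) S.G) := by
  classical
  have hcard : ∀ h : ι × ℕ, ((univ : Finset (Sym2 (ι ⊕ σ))).filter
      fun e => e ∈ S.G.edgeSet ∧ h ∈ S.Host N e).card ≤ K := by
    intro h
    have h1 := host_congestion hF h ((univ : Finset (Sym2 (ι ⊕ σ))).filter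
      fun e => e ∈ S.G.edgeSet ∧ h ∈ S.Host N e) (fun e he => (mem_filter.1 he).2.2)
    exact_mod_cast h1.trans hK
  choose f hf using fun h => exists_lab _ K (hcard h)
  refine ⟨⟨S.Host N, f, fun e _ h hh => host_mem hh, ?_, ?_, steiner_host hF, terminal_host hF,
    ?_⟩⟩
  · intro h e he e' he' hh hh'
    exact hf h e (mem_filter.2 ⟨mem_univ _, he, hh⟩) e' (mem_filter.2 ⟨mem_univ _, he', hh'⟩)
  · intro e he h hh h' hh'
    exact chain hF he hh hh'
  · intro s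
    have hnT : Sum.inr s ∉ S.T := by
      rw [hF.T_eq]
      rintro ⟨i, hi⟩
      simp at hi
    have h3 := S.deg _ hnT
    obtain ⟨w₁, w₂, w₃, h12, -, -, hN⟩ := Set.ncard_eq_three.1 h3
    have hw₁ : S.G.Adj (Sum.inr s) w₁ := by
      have : w₁ ∈ S.G.neighborSet (Sum.inr s) := by rw [hN]; simp
      exact this
    have hw₂ : S.G.Adj (Sum.inr s) w₂ := by
      have : w₂ ∈ S.G.neighborSet (Sum.inr s) := by rw [hN]; simp
      exact this
    refine ⟨s(Sum.inr s, w₁), ⟨hw₁, Sym2.mem_mk_left _ _⟩, s(Sum.inr s, w₂),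
      ⟨hw₂, Sym2.mem_mk_left _ _⟩, ?_⟩
    intro h
    rcases Sym2.eq_iff.1 h with ⟨-, h⟩ | ⟨h, h'⟩
    · exact h12 h
    · exact hw₂.ne h

end SepTree

end Pool.Agent.Lib.H21Steiner
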