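import Mathlib

/-!
# Counting in finite acyclic graphs
-/

namespace Pool.Agent.Lib.H21Steiner

open Finset

variable {V : Type*} [Fintype V]

open Classical in
/-- In an acyclic graph a finite vertex set `U` spans at most `2 |U|` darts. -/
theorem darts_inside (G : SimpleGraph V) (hG : G.IsAcyclic) (U : Finset V) :
    ((U ×ˢ U).filter (fun p => G.Adj p.1 p.2)).card ≤ 2 * U.card := by
  rcases U.eq_empty_or_nonempty with rfl | hU
  · simp
  let W := {v // v ∈ U}
  have hne : Nonempty W := ⟨⟨hU.choose, hU.choose_spec⟩⟩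
  let H : SimpleGraph W := G.comap (Subtype.val : W → V)
  have hH : H.IsAcyclic := hG.comap ⟨Subtype.val, fun h => h⟩ Subtype.val_injective
  obtain ⟨F, hHF, -, hF⟩ := (SimpleGraph.connected_top (V := W)).exists_isTree_le_of_le_of_isAcyclic
    (le_top : H ≤ ⊤) hH
  have h1 : Finset.card F.edgeFinset + 1 = Fintype.card W := hF.card_edgeFinset
  have h2 := F.two_mul_card_edgeFinset
  have h3 : ((U ×ˢ U).filter (fun p => G.Adj p.1 p.2)).card ≤
      (univ.filter fun p : W × W => F.Adj p.1 p.2).card := by
    refine Finset.card_le_card_of_injOn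
      (fun p => if hp : p.1 ∈ U ∧ p.2 ∈ U then ((⟨p.1, hp.1⟩ : W), (⟨p.2, hp.2⟩ : W)) else
        (hne.some, hne.some)) ?_ ?_
    · intro p hp
      simp only [coe_filter, mem_product, Set.mem_ofPred_eq] at hp
      obtain ⟨hp1, hp2⟩ := hp
      simp only [coe_filter, mem_univ, true_and, Set.mem_ofPred_eq, hp1, and_self, dif_pos]
      exact hHF hp2
    · intro p hp p' hp' h
      simp only [coe_filter, mem_product, Set.mem_ofPred_eq] at hp hp'
      simp only [hp.1, hp'.1, and_self, dif_pos, Prod.mk.injEq] at h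
      exact Prod.ext (congrArg Subtype.val h.1) (congrArg Subtype.val h.2)
  have h4 : Fintype.card W = U.card := Fintype.card_coe U
  have h5 : (univ.filter fun p : W × W => F.Adj p.1 p.2).card = 2 * Finset.card F.edgeFinset :=
    h2.symm
  omega

open Classical in
/-- The number of darts leaving a set `U` of vertices of degree `3` is at least `|U|`. -/
theorem darts_leaving (G : SimpleGraph V) (hG : G.IsAcyclic) (U : Finset V)
    (hdeg : ∀ u ∈ U, (G.neighborSet u).ncard = 3) :
    U.card ≤ ((U ×ˢ Uᶜ).filter (fun p => G.Adj p.1 p.2)).card := by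
  have h1 := darts_inside G hG U
  have h2 : ((U ×ˢ (univ : Finset V)).filter (fun p => G.Adj p.1 p.2)).card = 3 * U.card := by
    have h4 : ∀ u ∈ U, (univ.filter fun w => G.Adj u w).card = 3 := by
      intro u hu
      rw [← hdeg u hu, Set.ncard_eq_toFinset_card']
      congr 1
      ext w
      simp
    rw [card_filter, sum_product]
    have h3 : ∀ u ∈ U, (∑ w : V, if G.Adj u w then 1 else 0) = 3 := by
      intro u hu
      rw [← card_filter]
      exact h4 u hu
    rw [sum_congr rfl h3, sum_const, smul_eq_mul, mul_comm]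
  have h5 : (U ×ˢ (univ : Finset V)).filter (fun p => G.Adj p.1 p.2) =
      (U ×ˢ U).filter (fun p => G.Adj p.1 p.2) ∪ (U ×ˢ Uᶜ).filter (fun p => G.Adj p.1 p.2) := by
    ext p
    simp only [mem_filter, mem_product, mem_univ, and_true, mem_union, mem_compl]
    tauto
  have h6 : ((U ×ˢ (univ : Finset V)).filter (fun p => G.Adj p.1 p.2)).card ≤
      ((U ×ˢ U).filter (fun p => G.Adj p.1 p.2)).card +
      ((U ×ˢ Uᶜ).filter (fun p => G.Adj p.1 p.2)).card := by
    rw [h5]
    exact card_union_le _ _
  omega

end Pool.Agent.Lib.H21Steiner
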