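import Pool.Agent.Lib.H21Steiner.Packing
import Pool.Agent.Lib.H21Steiner.Tree

/-!
# Straight-line trees with the separation property

`SepTree` collects the properties of a full Steiner tree that are used in the counting argument.
-/

namespace Pool.Agent.Lib.H21Steiner

open Finset Metric Module

section Segment

variable {E : Type*} [NormedAddCommGroup E] [NormedSpace ℝ E]

theorem exists_mid {a b y : E} {ε : ℝ} (hε : 0 < ε) (hab : ε ≤ dist a b)
    (hy : y ∈ segment ℝ a b) :
    ∃ p ∈ segment ℝ a b, dist p y ≤ ε / 4 ∧ ε / 4 ≤ dist p a ∧ ε / 4 ≤ dist p b := by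
  rw [segment_eq_image_lineMap] at hy
  obtain ⟨t, ⟨ht0, ht1⟩, rfl⟩ := hy
  have hL : 0 < dist a b := lt_of_lt_of_le hε hab
  obtain ⟨τ, hτ⟩ : ∃ τ, τ = ε / (4 * dist a b) := ⟨_, rfl⟩
  have hτL : τ * dist a b = ε / 4 := by
    rw [hτ]
    field_simp
  have hτ0 : 0 < τ := by rw [hτ]; positivity
  have hτ1 : τ ≤ 1 / 4 := by
    rw [hτ, div_le_iff₀ (by positivity)]
    linarith
  obtain ⟨t', ht'⟩ : ∃ t', t' = max τ (min t (1 - τ)) := ⟨_, rfl⟩
  have h1 : τ ≤ t' := by rw [ht']; exact le_max_left _ _
  have h2 : t' ≤ 1 - τ := by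
    rw [ht']
    exact max_le (by linarith) (min_le_right _ _)
  have h3 : |t' - t| ≤ τ := by
    rw [abs_le]
    constructor
    · rcases le_total t (1 - τ) with h | h
      · have : t ≤ t' := by
          rw [ht', min_eq_left h]
          exact le_max_right _ _
        linarith
      · have : 1 - τ ≤ t' := by
          rw [ht', min_eq_right h]
          exact le_max_right _ _
        linarith
    · rw [ht']
      have h5 : min t (1 - τ) ≤ t := min_le_left _ _
      rcases max_cases τ (min t (1 - τ)) with h | h <;> linarith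
  refine ⟨AffineMap.lineMap a b t', ?_, ?_, ?_, ?_⟩
  · rw [segment_eq_image_lineMap]
    exact ⟨t', ⟨by linarith, by linarith⟩, rfl⟩
  · rw [dist_lineMap_lineMap, Real.dist_eq, ← hτL]
    exact mul_le_mul_of_nonneg_right h3 hL.le
  · rw [dist_lineMap_left, Real.norm_of_nonneg (by linarith), ← hτL]
    exact mul_le_mul_of_nonneg_right h1 hL.le
  · rw [dist_lineMap_right, Real.norm_of_nonneg (by linarith), ← hτL]
    exact mul_le_mul_of_nonneg_right (by linarith) hL.le

theorem dist_le_of_mem_segment {a b y : E} (hy : y ∈ segment ℝ a b) : dist y a ≤ dist a b := by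
  rw [segment_eq_image_lineMap] at hy
  obtain ⟨t, ⟨ht0, ht1⟩, rfl⟩ := hy
  rw [dist_lineMap_left, Real.norm_of_nonneg ht0]
  exact mul_le_of_le_one_left dist_nonneg ht1

theorem dist_le_of_mem_segment' {a b y : E} (hy : y ∈ segment ℝ a b) : dist y b ≤ dist a b := by
  rw [segment_symm] at hy
  rw [dist_comm a b]
  exact dist_le_of_mem_segment hy

end Segment

/-- A finite tree drawn with straight edges, with the separation property. -/
structure SepTree (E : Type*) [NormedAddCommGroup E] [NormedSpace ℝ E] (V : Type*) where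
  /-- the graph -/
  G : SimpleGraph V
  /-- the positions of the vertices -/
  x : V → E
  /-- the terminals -/
  T : Set V
  acyclic : G.IsAcyclic
  deg : ∀ u, u ∉ T → (G.neighborSet u).ncard = 3
  sep : ∀ u v z w, G.Adj u v → G.Adj z w → s(u, v) ≠ s(z, w) →
    ∀ p ∈ segment ℝ (x u) (x v), ∀ q ∈ segment ℝ (x z) (x w),
      min (dist p (x u)) (dist p (x v)) ≤ dist p q

namespace SepTree

variable {E : Type*} [NormedAddCommGroup E] [NormedSpace ℝ E] {V : Type*}

/-- The edge `e` has length at least `ε` and meets the closed ball of radius `R` about `c`. -/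
def Long (S : SepTree E V) (c : E) (ε R : ℝ) (e : Sym2 V) : Prop :=
  ∃ u v, e = s(u, v) ∧ S.G.Adj u v ∧ ε ≤ dist (S.x u) (S.x v) ∧
    ∃ y ∈ segment ℝ (S.x u) (S.x v), dist y c ≤ R

variable [FiniteDimensional ℝ E]

/-- Packing bound for long edges. -/
theorem card_long (S : SepTree E V) {c : E} {ε R : ℝ} (hε : 0 < ε) (hεR : ε ≤ R)
    (F : Finset (Sym2 V)) (hF : ∀ e ∈ F, S.Long c ε R e) :
    (F.card : ℝ) ≤ (11 * R / ε) ^ finrank ℝ E := by
  classical
  have h1 : ∀ e : Sym2 V, ∃ p : E, e ∈ F → dist p c ≤ R + ε / 4 ∧ ∃ u v, e = s(u, v) ∧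
      S.G.Adj u v ∧ p ∈ segment ℝ (S.x u) (S.x v) ∧ ε / 4 ≤ dist p (S.x u) ∧
      ε / 4 ≤ dist p (S.x v) := by
    intro e
    by_cases he : e ∈ F
    · obtain ⟨u, v, rfl, huv, hl, y, hy, hyc⟩ := hF e he
      obtain ⟨p, hp, hpy, hpu, hpv⟩ := exists_mid hε hl hy
      refine ⟨p, fun _ => ⟨?_, u, v, rfl, huv, hp, hpu, hpv⟩⟩
      have := dist_triangle p y c
      linarith
    · exact ⟨0, fun h => absurd h he⟩
  choose P hP using h1
  have hsep : ∀ e ∈ F, ∀ e' ∈ F, e ≠ e' → ε / 4 ≤ dist (P e) (P e') := by
    intro e he e' he' hne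
    obtain ⟨-, u, v, he1, huv, hp, hpu, hpv⟩ := hP e he
    obtain ⟨-, u', v', he1', huv', hp', -, -⟩ := hP e' he'
    have hne' : s(u, v) ≠ s(u', v') := by
      rw [← he1, ← he1']
      exact hne
    exact (le_min hpu hpv).trans (S.sep u v u' v' huv huv' hne' _ hp _ hp')
  have hinj : Set.InjOn P F := by
    intro e he e' he' h
    by_contra hne
    have := hsep e he e' he' hne
    rw [h, dist_self] at this
    linarith
  have hcard : (F.image P).card = F.card := Finset.card_image_of_injOn hinj
  have hR : 0 < R := lt_of_lt_of_le hε hεR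
  have h2 := packing (κ := 4 * R / ε + 1) (δ := ε / 4) (by positivity) (by positivity)
    (F.image P) c
    (by
      intro p hp
      obtain ⟨e, he, rfl⟩ := Finset.mem_image.1 hp
      have h3 : (4 * R / ε + 1) * (ε / 4) = R + ε / 4 := by
        field_simp
      rw [h3]
      exact (hP e he).1)
    (by
      intro p hp q hq hpq
      obtain ⟨e, he, rfl⟩ := Finset.mem_image.1 hp
      obtain ⟨e', he', rfl⟩ := Finset.mem_image.1 hq
      exact hsep e he e' he' (fun h => hpq (by rw [h])))
  rw [hcard] at h2
  refine h2.trans (pow_le_pow_left₀ (by positivity) ?_ _)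
  have h4 : 1 ≤ R / ε := (one_le_div hε).2 hεR
  have h5 : 2 * (4 * R / ε + 1) + 1 = 8 * (R / ε) + 3 := by ring
  have h6 : 11 * R / ε = 8 * (R / ε) + 3 * (R / ε) := by ring
  rw [h5, h6]
  linarith

variable [Fintype V]

open Classical in
/-- The vertices within distance `r` of `c`. -/
noncomputable def near (S : SepTree E V) (c : E) (r : ℝ) : Finset V :=
  univ.filter fun u => dist (S.x u) c ≤ r

omit [FiniteDimensional ℝ E] in
theorem mem_near (S : SepTree E V) {c : E} {r : ℝ} {u : V} :
    u ∈ S.near c r ↔ dist (S.x u) c ≤ r := by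
  simp [near]

/-- One step of the growth argument. -/
theorem step (S : SepTree E V) {c : E} {r ε R : ℝ} (hr : 0 ≤ r) (hε : 0 < ε) (hrR : r + ε ≤ R)
    (hT : ∀ t ∈ S.T, R < dist (S.x t) c)
    (hbig : 2 * (11 * R / ε) ^ finrank ℝ E ≤ ((S.near c r).card : ℝ)) :
    (7 / 6 : ℝ) * (S.near c r).card ≤ (S.near c (r + ε)).card := by
  classical
  set U := S.near c r with hU
  set U' := S.near c (r + ε) with hU'
  have hUT : ∀ u, dist (S.x u) c ≤ R → u ∉ S.T := fun u hu h => absurd (hT u h) (not_lt.2 hu)
  have hdegU : ∀ u ∈ U, (S.G.neighborSet u).ncard = 3 := by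
    intro u hu
    exact S.deg u (hUT u ((S.mem_near.1 hu).trans (by linarith)))
  have hleave := darts_leaving S.G S.acyclic U hdegU
  set D := (U ×ˢ Uᶜ).filter (fun p => S.G.Adj p.1 p.2) with hD
  -- long darts
  set D₁ := D.filter (fun p => ε ≤ dist (S.x p.1) (S.x p.2)) with hD₁
  set D₂ := D.filter (fun p => ¬ ε ≤ dist (S.x p.1) (S.x p.2)) with hD₂
  have hDsum : D₁.card + D₂.card = D.card := Finset.card_filter_add_card_filter_not _
  have hD₁card : (D₁.card : ℝ) ≤ (11 * R / ε) ^ finrank ℝ E := by
    have hinj : Set.InjOn (fun p : V × V => s(p.1, p.2)) D₁ := by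
      intro p hp p' hp' h
      simp only [hD₁, hD, coe_filter, mem_filter, mem_product, mem_compl,
        Set.mem_ofPred_eq] at hp hp'
      simp only [Sym2.eq_iff] at h
      rcases h with h | h
      · exact Prod.ext h.1 h.2
      · exfalso
        exact hp'.1.1.2 (h.1 ▸ hp.1.1.1)
    rw [← Finset.card_image_of_injOn hinj]
    refine S.card_long (c := c) hε (by linarith) _ ?_
    intro e he
    obtain ⟨p, hp, rfl⟩ := Finset.mem_image.1 he
    simp only [hD₁, hD, mem_filter, mem_product] at hp
    refine ⟨p.1, p.2, rfl, hp.1.2, hp.2, S.x p.1, left_mem_segment _ _ _, ?_⟩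
    exact (S.mem_near.1 hp.1.1.1).trans (by linarith)
  have hD₂card : D₂.card ≤ 3 * (U' \ U).card := by
    have hmaps : ∀ p ∈ D₂, p.2 ∈ U' \ U := by
      intro p hp
      simp only [hD₂, hD, mem_filter, mem_product, mem_compl] at hp
      refine mem_sdiff.2 ⟨S.mem_near.2 ?_, hp.1.1.2⟩
      have h1 := S.mem_near.1 hp.1.1.1
      have h2 := dist_triangle (S.x p.2) (S.x p.1) c
      rw [dist_comm (S.x p.2) (S.x p.1)] at h2
      have h3 := not_le.1 hp.2
      linarith
    rw [Finset.card_eq_sum_card_fiberwise hmaps]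
    have hfib : ∀ w ∈ U' \ U, (D₂.filter (fun p => p.2 = w)).card ≤ 3 := by
      intro w hw
      have hw3 : (S.G.neighborSet w).ncard = 3 :=
        S.deg w (hUT w ((S.mem_near.1 (mem_sdiff.1 hw).1).trans hrR))
      rw [← hw3, Set.ncard_eq_toFinset_card']
      refine Finset.card_le_card_of_injOn (fun p => p.1) ?_ ?_
      · intro p hp
        simp only [hD₂, hD, coe_filter, mem_filter, mem_product, Set.mem_ofPred_eq] at hp
        simp only [Set.coe_toFinset, SimpleGraph.mem_neighborSet]
        rw [← hp.2]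
        exact hp.1.1.2.symm
      · intro p hp p' hp' h
        simp only [coe_filter, Set.mem_ofPred_eq] at hp hp'
        exact Prod.ext h (hp.2.trans hp'.2.symm)
    calc ∑ w ∈ U' \ U, (D₂.filter (fun p => p.2 = w)).card ≤ ∑ w ∈ U' \ U, 3 :=
          Finset.sum_le_sum hfib
      _ = 3 * (U' \ U).card := by rw [sum_const, smul_eq_mul, mul_comm]
  have hUU' : U ⊆ U' := by
    intro u hu
    exact S.mem_near.2 ((S.mem_near.1 hu).trans (by linarith))
  have hcardU' : (U' \ U).card + U.card = U'.card := Finset.card_sdiff_add_card_eq_card hUU'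
  have e1 : (U.card : ℝ) ≤ D.card := by exact_mod_cast hleave
  have e2 : (D₁.card : ℝ) + D₂.card = D.card := by exact_mod_cast hDsum
  have e3 : (D₂.card : ℝ) ≤ 3 * (U' \ U).card := by exact_mod_cast hD₂card
  have e4 : ((U' \ U).card : ℝ) + U.card = U'.card := by exact_mod_cast hcardU'
  linarith

/-- Iterating the step. -/
theorem steps (S : SepTree E V) {c : E} {ε R : ℝ} (hε : 0 < ε)
    (hT : ∀ t ∈ S.T, R < dist (S.x t) c) (N : ℕ) :
    ∀ r : ℝ, 0 ≤ r → r + N * ε ≤ R →
    2 * (11 * R / ε) ^ finrank ℝ E ≤ ((S.near c r).card : ℝ) →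
    (7 / 6 : ℝ) ^ N * (S.near c r).card ≤ (S.near c (r + N * ε)).card := by
  induction N with
  | zero => intro r _ _ _; simp
  | succ N ih =>
      intro r hr hrR hbig
      have hcast : ((N + 1 : ℕ) : ℝ) = N + 1 := by push_cast; ring
      have hNε : 0 ≤ (N : ℝ) * ε := by positivity
      have h1 : r + ε ≤ R := by
        rw [hcast] at hrR
        nlinarith
      have h2 := S.step hr hε h1 hT hbig
      have h3 := ih (r + ε) (by linarith) (by rw [hcast] at hrR; linarith) (by
        refine hbig.trans ?_
        have : (0 : ℝ) ≤ (S.near c r).card := by positivity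
        linarith)
      have h4 : r + ε + N * ε = r + ((N + 1 : ℕ) : ℝ) * ε := by rw [hcast]; ring
      rw [h4] at h3
      refine le_trans ?_ h3
      rw [pow_succ, mul_assoc]
      exact mul_le_mul_of_nonneg_left h2 (by positivity)

end SepTree

/-- Number of steps per stage. -/
def kap (k : ℕ) : ℕ := 5 * (k + 1)

/-- The bound in the local density lemma. -/
def M0 (k : ℕ) : ℕ := 2 * (44 * kap k) ^ k

namespace SepTree

variable {E : Type*} [NormedAddCommGroup E] [NormedSpace ℝ E] {V : Type*}
  [FiniteDimensional ℝ E] [Fintype V]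

/-- Local density: if there is no terminal in the closed ball of radius `R` about `c`, then the
closed ball of radius `R / 2` contains fewer than `M0` vertices. -/
theorem local_density (S : SepTree E V) {c : E} {R : ℝ} (hR : 0 < R)
    (hT : ∀ t ∈ S.T, R < dist (S.x t) c) :
    (S.near c (R / 2)).card < M0 (finrank ℝ E) := by
  by_contra hcon
  rw [not_lt] at hcon
  set k := finrank ℝ E with hk
  have hκ : (0 : ℝ) < kap k := by
    have : 0 < kap k := by unfold kap; omega
    exact_mod_cast this
  have hstage : ∀ i : ℕ, (M0 k : ℝ) * 2 ^ (i * k) ≤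
      ((S.near c (R - R / 2 ^ (i + 1))).card : ℝ) := by
    intro i
    induction i with
    | zero =>
        have h1 : R - R / 2 ^ (0 + 1) = R / 2 := by ring
        rw [h1]
        simpa using (by exact_mod_cast hcon : (M0 k : ℝ) ≤ ((S.near c (R / 2)).card : ℝ))
    | succ i ih =>
        have hp : (0 : ℝ) < 2 ^ (i + 1) := by positivity
        obtain ⟨ε, hεdef⟩ : ∃ ε, ε = R / (4 * kap k * 2 ^ i) := ⟨_, rfl⟩
        have hε : 0 < ε := by rw [hεdef]; positivity
        have h2 : (kap k : ℝ) * ε = R / 2 ^ (i + 2) := by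
          rw [hεdef]
          field_simp
          ring
        have h3 : R - R / 2 ^ (i + 1) + kap k * ε = R - R / 2 ^ (i + 1 + 1) := by
          rw [h2]
          have : R / 2 ^ (i + 1) = 2 * (R / 2 ^ (i + 2)) := by
            field_simp
            ring
          rw [this]
          ring
        have h4 : 11 * R / ε = 44 * kap k * 2 ^ i := by
          rw [hεdef]
          field_simp
          ring
        have h5 : 2 * (11 * R / ε) ^ k = (M0 k : ℝ) * 2 ^ (i * k) := by
          rw [h4, mul_pow, M0, ← pow_mul]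
          push_cast
          ring
        have h6 := S.steps (c := c) hε hT (kap k) (R - R / 2 ^ (i + 1)) (by
            have : R / 2 ^ (i + 1) ≤ R := by
              apply div_le_self hR.le
              exact one_le_pow₀ (by norm_num)
            linarith) (by
            rw [h3]
            have : 0 ≤ R / 2 ^ (i + 1 + 1) := by positivity
            linarith) (by
            rw [← hk, h5]
            exact ih)
        rw [h3] at h6
        refine le_trans ?_ h6
        have h7 : (2 : ℝ) ^ k ≤ (7 / 6 : ℝ) ^ kap k := by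
          have h8 : (2 : ℝ) ≤ (7 / 6 : ℝ) ^ 5 := by norm_num
          calc (2 : ℝ) ^ k ≤ ((7 / 6 : ℝ) ^ 5) ^ k := pow_le_pow_left₀ (by norm_num) h8 _
            _ = (7 / 6 : ℝ) ^ (5 * k) := by rw [← pow_mul]
            _ ≤ (7 / 6 : ℝ) ^ kap k := by
              apply pow_le_pow_right₀ (by norm_num)
              unfold kap
              omega
        calc (M0 k : ℝ) * 2 ^ ((i + 1) * k) = 2 ^ k * ((M0 k : ℝ) * 2 ^ (i * k)) := by
              rw [add_mul, one_mul, pow_add]
              ring
          _ ≤ (7 / 6 : ℝ) ^ kap k * (S.near c (R - R / 2 ^ (i + 1))).card :=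
              mul_le_mul h7 ih (by positivity) (by positivity)
  -- contradiction with finiteness; the case `k = 0` is special
  rcases Nat.eq_zero_or_pos k with hk0 | hkpos
  · -- in dimension `0` there is a single point
    have hsub : Subsingleton E := finrank_zero_iff.1 (hk ▸ hk0)
    -- at least two vertices, hence leaving darts, which is impossible
    classical
    have hall : S.near c (R / 2) = univ := by
      ext u
      simp only [S.mem_near, mem_univ, iff_true]
      rw [Subsingleton.elim (S.x u) c, dist_self]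
      positivity
    have hne : (S.near c (R / 2)).Nonempty := by
      rw [← Finset.card_pos]
      have : 0 < M0 k := by unfold M0; rw [hk0]; norm_num
      omega
    obtain ⟨u₀, hu₀⟩ := hne
    have h1 := darts_leaving S.G S.acyclic (univ : Finset V) (by
      intro u _
      apply S.deg
      intro hu
      have := hT u hu
      rw [Subsingleton.elim (S.x u) c, dist_self] at this
      linarith)
    simp only [compl_univ, product_empty, filter_empty, card_empty, card_univ,
      nonpos_iff_eq_zero] at h1
    have := Fintype.card_pos_iff.2 ⟨u₀⟩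
    omega
  · have hM : 1 ≤ M0 k := by
      have : 0 < M0 k := by unfold M0 kap; positivity
      omega
    have h1 : ∀ i : ℕ, i < Fintype.card V + 1 := by
      intro i
      have h2 := hstage i
      have h3 : ((S.near c (R - R / 2 ^ (i + 1))).card : ℝ) ≤ Fintype.card V := by
        exact_mod_cast Finset.card_le_univ _
      have h4 : (i : ℝ) < 2 ^ i := by exact_mod_cast Nat.lt_two_pow_self
      have h5 : (2 : ℝ) ^ i ≤ 2 ^ (i * k) :=
        pow_le_pow_right₀ (by norm_num) (Nat.le_mul_of_pos_right i hkpos)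
      have h6 : (1 : ℝ) ≤ M0 k := by exact_mod_cast hM
      have h7 : (2 : ℝ) ^ (i * k) ≤ (M0 k : ℝ) * 2 ^ (i * k) :=
        le_mul_of_one_le_left (by positivity) h6
      have h8 : (i : ℝ) < Fintype.card V := by linarith
      have : i < Fintype.card V := by exact_mod_cast h8
      omega
    exact absurd (h1 (Fintype.card V + 1)) (lt_irrefl _)

end SepTree

end Pool.Agent.Lib.H21Steiner
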