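import Pool.Agent.Lib.H21Steiner.ExtGood
import Pool.Agent.Lib.H21Steiner.CertUse
import Pool.Agent.Lib.H21Steiner.PTBasic

/-!
# Good skeletons with any number of leaves
-/

namespace Pool.Agent.Lib.H21Steiner

open BT

variable {E : Type*} [NormedAddCommGroup E] [InnerProductSpace ℝ E]

theorem BT.Fr.next {e f : E} (h : Fr e f) : Fr f (f - e) := by
  refine ⟨h.nf, ?_, ?_⟩
  · have h1 := h.inner_comb (-1) 1 (-1) 1
    have h2 : (-1 : ℝ) • e + (1 : ℝ) • f = f - e := by module
    rw [h2, real_inner_self_eq_norm_sq] at h1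
    have h3 := norm_nonneg (f - e)
    nlinarith
  · have h1 := h.inner_comb 0 1 (-1) 1
    have h2 : (-1 : ℝ) • e + (1 : ℝ) • f = f - e := by module
    have h3 : (0 : ℝ) • e + (1 : ℝ) • f = f := by module
    rw [h2, h3] at h1
    rw [h1]
    norm_num

theorem BT.Fr.prev {e f : E} (h : Fr e f) : Fr (e - f) e := by
  refine ⟨?_, h.ne, ?_⟩
  · have h1 := h.inner_comb 1 (-1) 1 (-1)
    have h2 : (1 : ℝ) • e + (-1 : ℝ) • f = e - f := by module
    rw [h2, real_inner_self_eq_norm_sq] at h1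
    have h3 := norm_nonneg (e - f)
    nlinarith
  · have h1 := h.inner_comb 1 (-1) 1 0
    have h2 : (1 : ℝ) • e + (-1 : ℝ) • f = e - f := by module
    have h3 : (1 : ℝ) • e + (0 : ℝ) • f = e := by module
    rw [h2, h3] at h1
    rw [h1]
    norm_num

theorem BT.Fr.fork {e f : E} (h : Fr e f) : Fork f (e - f) := by
  refine ⟨h.nf, h.prev.ne, ?_⟩
  have h1 := h.inner_comb 0 1 1 (-1)
  have h2 : (1 : ℝ) • e + (-1 : ℝ) • f = e - f := by module
  have h3 : (0 : ℝ) • e + (1 : ℝ) • f = f := by module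
  rw [h2, h3] at h1
  rw [h1]
  norm_num

/-- A good skeleton with `M` leaves. -/
structure Skel (p : E) (M : ℕ) (T : PT ℕ E) (a e f : ℕ → E) (μ L r δ : ℝ) : Prop where
  good : Good p (Finset.range M) a e L r δ
  fr : ∀ i < M, Fr (e i) (f i)
  nd : T.leaves.Nodup
  mem : ∀ i, i ∈ T.leaves ↔ i < M
  mpos : 0 < μ
  str : T.Str a e μ p
  pos : T.Pos a p
  len : T.len a p = L

theorem skel_one (p e f : E) (h : Fr e f) :
    Skel p 1 (PT.leaf 0) (fun _ => p + e) (fun _ => e) (fun _ => f) 1 1 1 1 := by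
  refine ⟨⟨one_pos, one_pos, ?_, ?_⟩, fun _ _ => h, by simp [PT.leaves], ?_, one_pos, ?_, ?_, ?_⟩
  · intro t y l hnd hB _ hR
    have h1 : t = leaf 0 := by
      apply eq_leaf hnd
      intro b hb
      have := (hB b).1 hb
      rw [Finset.mem_range] at this
      omega
    rw [h1] at hR
    have h2 : dist p (y 0) ≤ l := hR
    have h3 := inner_le_dist h.ne.le p (y 0)
    rw [Finset.sum_range_one]
    have h4 : y 0 - p = (y 0 - (p + e)) + e := by abel
    rw [h4, inner_add_right, real_inner_self_eq_norm_sq, h.ne] at h3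
    linarith
  · intro t i x l _ _ hi hx hxi
    rw [Finset.mem_range] at hi hx
    omega
  · intro i
    simp [PT.leaves]
  · exact ⟨1, le_rfl, by rw [one_smul]⟩
  · intro h1
    have h2 : ‖e‖ = 0 := by
      have h3 : e = 0 := by
        have h4 : p + e = p := h1.symm
        simpa using h4
      rw [h3, norm_zero]
    rw [h.ne] at h2
    norm_num at h2
  · change dist p (p + e) = 1
    rw [dist_eq_norm, sub_add_cancel_left, norm_neg, h.ne]

/-- The substitution that replaces the leaf `i` by a cherry with leaves `i` and `j`. -/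
def cherrySubst (a : ℕ → E) (i j : ℕ) (b : ℕ) : PT ℕ E :=
  if b = i then PT.node (a i) (PT.leaf i) (PT.leaf j) else PT.leaf b

theorem skel_succ {p : E} {M : ℕ} {T : PT ℕ E} {a e f : ℕ → E} {μ L r δ : ℝ} (hM : 1 ≤ M)
    (h : Skel p M T a e f μ L r δ) :
    ∃ (T' : PT ℕ E) (a' e' f' : ℕ → E) (μ' L' r' δ' : ℝ),
      Skel p (M + 1) T' a' e' f' μ' L' r' δ' := by
  have h0 : 0 < M := hM
  obtain ⟨ε, hε⟩ : ∃ ε : ℝ, ε = min (r / 8) (δ / (3 * M + 6)) := ⟨_, rfl⟩
  have hMr : (0 : ℝ) < 3 * M + 6 := by positivity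
  have hεpos : 0 < ε := by
    rw [hε]
    exact lt_min (by have := h.good.rpos; positivity) (div_pos h.good.dpos hMr)
  have hεr : 8 * ε ≤ r := by
    have := min_le_left (r / 8) (δ / (3 * M + 6))
    rw [← hε] at this
    linarith
  have hεδ : (3 * (M : ℝ) + 6) * ε ≤ δ := by
    have := min_le_right (r / 8) (δ / (3 * M + 6))
    rw [← hε, le_div_iff₀ hMr] at this
    linarith
  have hfr := h.fr 0 h0
  have hgood := h.good.ext (i := 0) (j := M) (w₁ := f 0) (w₂ := e 0 - f 0) (ε := ε)
    (fun k hk => (h.fr k (Finset.mem_range.1 hk)).ne.le) (Finset.mem_range.2 h0)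
    (by simp) hfr.fork (by abel) hεpos hεr (by rw [Finset.card_range]; exact hεδ)
  obtain ⟨a', ha'⟩ : ∃ a', a' = upd 0 M (a 0 + ε • f 0) (a 0 + ε • (e 0 - f 0)) a := ⟨_, rfl⟩
  obtain ⟨e', he'⟩ : ∃ e', e' = upd 0 M (f 0) (e 0 - f 0) e := ⟨_, rfl⟩
  obtain ⟨f', hf'⟩ : ∃ f', f' = upd 0 M (f 0 - e 0) (e 0) f := ⟨_, rfl⟩
  rw [← ha', ← he'] at hgood
  have h0M : (0 : ℕ) ≠ M := h0.ne
  have a'0 : a' 0 = a 0 + ε • f 0 := by rw [ha', upd_i h0M]
  have a'M : a' M = a 0 + ε • (e 0 - f 0) := by rw [ha', upd_j]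
  have a'o : ∀ b, b ≠ 0 → b ≠ M → a' b = a b := by
    intro b h1 h2
    rw [ha', upd_other h1 h2]
  have e'0 : e' 0 = f 0 := by rw [he', upd_i h0M]
  have e'M : e' M = e 0 - f 0 := by rw [he', upd_j]
  have e'o : ∀ b, b ≠ 0 → b ≠ M → e' b = e b := by
    intro b h1 h2
    rw [he', upd_other h1 h2]
  have f'0 : f' 0 = f 0 - e 0 := by rw [hf', upd_i h0M]
  have f'M : f' M = e 0 := by rw [hf', upd_j]
  have f'o : ∀ b, b ≠ 0 → b ≠ M → f' b = f b := by
    intro b h1 h2
    rw [hf', upd_other h1 h2]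
  obtain ⟨S, hS⟩ : ∃ S, S = cherrySubst a 0 M := ⟨_, rfl⟩
  have S0 : S 0 = PT.node (a 0) (PT.leaf 0) (PT.leaf M) := by rw [hS]; exact if_pos rfl
  have So : ∀ b, b ≠ 0 → S b = PT.leaf b := by
    intro b hb
    rw [hS]
    exact if_neg hb
  have hlt : ∀ i ∈ T.leaves, i ≠ M := by
    intro i hi
    exact ((h.mem i).1 hi).ne
  have hd1 : dist (a 0) (a' 0) = ε := by
    rw [a'0, dist_eq_norm, sub_add_cancel_left, norm_neg, norm_smul, hfr.nf, mul_one,
      Real.norm_eq_abs, abs_of_pos hεpos]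
  have hd2 : dist (a 0) (a' M) = ε := by
    rw [a'M, dist_eq_norm, sub_add_cancel_left, norm_neg, norm_smul, hfr.prev.ne, mul_one,
      Real.norm_eq_abs, abs_of_pos hεpos]
  have hunit : ∀ i ∈ T.leaves, ‖e i‖ = 1 := fun i hi => (h.fr i ((h.mem i).1 hi)).ne
  have hdist : ∀ i ∈ T.leaves, ∀ (q : E) (s : ℝ), μ ≤ s → a i = q + s • e i → dist q (a i) = s := by
    intro i hi q s hs hq
    rw [hq, dist_eq_norm, sub_add_cancel_left, norm_neg, norm_smul, hunit i hi, mul_one,
      Real.norm_eq_abs, abs_of_pos (h.mpos.trans_le hs)]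
  refine ⟨T.subst S, a', e', f', min μ ε, L + 2 * ε, ε, 3 / 20 * ε, ?_, ?_, ?_, ?_, ?_, ?_, ?_, ?_⟩
  · rw [Finset.range_add_one]
    exact hgood
  · intro i hi
    by_cases h1 : i = M
    · rw [h1, e'M, f'M]
      exact hfr.prev
    · by_cases h2 : i = 0
      · rw [h2, e'0, f'0]
        exact hfr.next
      · rw [e'o i h2 h1, f'o i h2 h1]
        exact h.fr i (by omega)
  · refine PT.nodup_subst (π := fun b => if b = M then 0 else b) h.nd ?_ ?_
    · intro i hi
      by_cases h2 : i = 0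
      · rw [h2, S0]
        simp [PT.leaves, h0M]
      · rw [So i h2]
        simp [PT.leaves]
    · intro i hi c hc
      have hiM := hlt i hi
      by_cases h2 : i = 0
      · rw [h2, S0] at hc
        simp only [PT.leaves, List.mem_append, List.mem_singleton] at hc
        rcases hc with rfl | rfl
        · rw [h2, if_neg h0M]
        · rw [h2, if_pos rfl]
      · rw [So i h2] at hc
        simp only [PT.leaves, List.mem_singleton] at hc
        rw [hc, if_neg hiM]
  · intro c
    rw [PT.mem_leaves_subst]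
    constructor
    · rintro ⟨i, hi, hc⟩
      have hiM := (h.mem i).1 hi
      by_cases h2 : i = 0
      · rw [h2, S0] at hc
        simp only [PT.leaves, List.mem_append, List.mem_singleton] at hc
        omega
      · rw [So i h2] at hc
        simp only [PT.leaves, List.mem_singleton] at hc
        omega
    · intro hc
      by_cases h1 : c = M
      · refine ⟨0, (h.mem 0).2 h0, ?_⟩
        rw [S0, h1]
        simp [PT.leaves]
      · by_cases h2 : c = 0
        · refine ⟨0, (h.mem 0).2 h0, ?_⟩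
          rw [S0, h2]
          simp [PT.leaves]
        · refine ⟨c, (h.mem c).2 (by omega), ?_⟩
          rw [So c h2]
          simp [PT.leaves]
  · exact lt_min h.mpos hεpos
  · refine PT.str_subst h.str ?_
    intro i hi q s hs hq
    by_cases h2 : i = 0
    · rw [h2, S0]
      exact ⟨⟨ε, min_le_right _ _, by rw [a'0, e'0]⟩, ⟨ε, min_le_right _ _, by rw [a'M, e'M]⟩⟩
    · rw [So i h2]
      exact ⟨s, (min_le_left _ _).trans hs, by rw [a'o i h2 (hlt i hi), e'o i h2 (hlt i hi), hq]⟩
  · refine PT.pos_subst h.str h.pos ?_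
    intro i hi q s hs hq hne
    by_cases h2 : i = 0
    · rw [h2] at hne
      rw [h2, S0]
      refine ⟨hne, ?_, ?_⟩
      · change a 0 ≠ a' 0
        rw [← dist_pos, hd1]
        exact hεpos
      · change a 0 ≠ a' M
        rw [← dist_pos, hd2]
        exact hεpos
    · rw [So i h2]
      change q ≠ a' i
      rw [a'o i h2 (hlt i hi)]
      exact hne
  · rw [PT.len_subst (D := fun i => if i = 0 then 2 * ε else 0) h.mpos.le h.str hunit, h.len]
    · have h1 : (T.leaves.map fun i => if i = 0 then 2 * ε else 0).sum = 2 * ε := by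
        have h2 : T.leaves.toFinset = Finset.range M := by
          ext i
          rw [List.mem_toFinset, h.mem, Finset.mem_range]
        rw [← List.sum_toFinset _ h.nd, h2, Finset.sum_ite_eq', if_pos (Finset.mem_range.2 h0)]
      rw [h1]
    · intro i hi q s hs hq
      have h3 := hdist i hi q s hs hq
      by_cases h2 : i = 0
      · rw [h2] at h3
        rw [h2, S0, if_pos rfl]
        simp only [PT.len]
        rw [hd1, hd2, h3]
        ring
      · rw [So i h2, if_neg h2]
        simp only [PT.len]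
        rw [a'o i h2 (hlt i hi), h3, add_zero]

theorem exists_skel {e f : E} (h : Fr e f) (p : E) : ∀ M : ℕ, 1 ≤ M →
    ∃ (T : PT ℕ E) (a e f : ℕ → E) (μ L r δ : ℝ), Skel p M T a e f μ L r δ := by
  intro M hM
  induction M, hM using Nat.le_induction with
  | base => exact ⟨_, _, _, _, _, _, _, _, skel_one p e f h⟩
  | succ M hM ih =>
      obtain ⟨T, a, e, f, μ, L, r, δ, hS⟩ := ih
      exact skel_succ hM hS

end Pool.Agent.Lib.H21Steiner
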