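import Pool.Agent.Lib.H21Steiner.Skel

/-!
# The pairs of clusters with two optimal local topologies
-/

namespace Pool.Agent.Lib.H21Steiner

open BT

variable {β : Type*} {E : Type*} [NormedAddCommGroup E] [InnerProductSpace ℝ E]

theorem dist_of_sub {x y w : E} {t : ℝ} (hw : ‖w‖ = 1) (ht : 0 ≤ t) (h : y - x = t • w) :
    dist x y = t := by
  rw [dist_comm, dist_eq_norm, h, norm_smul, hw, mul_one, Real.norm_eq_abs, abs_of_nonneg ht]

theorem dist_ev {e f : E} (h : Fr e f) {z : E} {s : ℝ} (hs : 0 ≤ s) (u v : ℤ × ℤ) (N : ℕ)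
    (hN : (v.1 - u.1) * (v.1 - u.1) + (v.1 - u.1) * (v.2 - u.2) + (v.2 - u.2) * (v.2 - u.2) =
      (N : ℤ) * N) : dist (z + s • ev e f u) (z + s • ev e f v) = s * N := by
  have h1 : z + s • ev e f v - (z + s • ev e f u) =
      s • (((v.1 - u.1 : ℤ) : ℝ) • e + ((v.2 - u.2 : ℤ) : ℝ) • f) := by
    simp only [ev]
    push_cast
    module
  rw [dist_comm, dist_eq_norm, h1, norm_smul, Real.norm_eq_abs, abs_of_nonneg hs]
  have h2 := h.inner_comb ((v.1 - u.1 : ℤ) : ℝ) ((v.2 - u.2 : ℤ) : ℝ) ((v.1 - u.1 : ℤ) : ℝ)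
    ((v.2 - u.2 : ℤ) : ℝ)
  rw [real_inner_self_eq_norm_sq] at h2
  have h3 : (((v.1 - u.1) * (v.1 - u.1) + (v.1 - u.1) * (v.2 - u.2) +
      (v.2 - u.2) * (v.2 - u.2) : ℤ) : ℝ) = (((N : ℤ) * N : ℤ) : ℝ) := by
    rw [hN]
  push_cast at h3
  push_cast at h2
  have h4 : ‖((v.1 - u.1 : ℤ) : ℝ) • e + ((v.2 - u.2 : ℤ) : ℝ) • f‖ ^ 2 = (N : ℝ) ^ 2 := by
    push_cast
    rw [h2]
    nlinarith
  rw [(pow_left_inj₀ (norm_nonneg _) (Nat.cast_nonneg N) two_ne_zero).1 h4]

/-- The first local topology. -/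
noncomputable def clOne (z e f : E) (s : ℝ) (lb : Fin 5 → β) : PT β E :=
  .node (z + s • ev e f (0, 29))
    (.node (z + s • ev e f (41, -12))
      (.node (z + s • ev e f (41, -32))
        (.node (z + s • ev e f (33, -32)) (.leaf (lb 3)) (.leaf (lb 4)))
        (.leaf (lb 2)))
      (.leaf (lb 1)))
    (.leaf (lb 0))

/-- The second local topology. -/
noncomputable def clTwo (z e f : E) (s : ℝ) (lb : Fin 5 → β) : PT β E :=
  .node (z + s • ev e f (29, -29))
    (.leaf (lb 4))
    (.node (z + s • ev e f (33, -33))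
      (.node (z + s • ev e f (42, -33))
        (.node (z + s • ev e f (42, -12)) (.leaf (lb 0)) (.leaf (lb 1)))
        (.leaf (lb 2)))
      (.leaf (lb 3)))

section

variable {z e f : E} {s : ℝ} {lb : Fin 5 → β} {y : β → E}

theorem clOne_len (h : Fr e f) (hs : 0 ≤ s) (hy : ∀ b, y (lb b) = z + s • cpt e f b) (q : E) :
    (clOne z e f s lb).len y q = dist q (z + s • ev e f (0, 29)) + 80 * s := by
  simp only [clOne, PT.len, hy, cpt]
  have h3 : ((3 : Fin 5) : ℕ) = 3 := rfl
  have h4 : ((4 : Fin 5) : ℕ) = 4 := rfl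
  simp only [Fin.val_zero, Fin.val_one, Fin.val_two, h3, h4]
  rw [dist_ev h hs (0, 29) (41, -12) 41 (by norm_num),
    dist_ev h hs (41, -12) (41, -32) 20 (by norm_num),
    dist_ev h hs (41, -32) (33, -32) 8 (by norm_num),
    dist_ev h hs (33, -32) (ptQ 3) 2 (by norm_num [ptQ, clusterPts]),
    dist_ev h hs (33, -32) (ptQ 4) 4 (by norm_num [ptQ, clusterPts]),
    dist_ev h hs (41, -32) (ptQ 2) 2 (by norm_num [ptQ, clusterPts]),
    dist_ev h hs (41, -12) (ptQ 1) 2 (by norm_num [ptQ, clusterPts]),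
    dist_ev h hs (0, 29) (ptQ 0) 1 (by norm_num [ptQ, clusterPts])]
  push_cast
  ring

theorem clTwo_len (h : Fr e f) (hs : 0 ≤ s) (hy : ∀ b, y (lb b) = z + s • cpt e f b) (q : E) :
    (clTwo z e f s lb).len y q = dist q (z + s • ev e f (29, -29)) + 80 * s := by
  simp only [clTwo, PT.len, hy, cpt]
  have h3 : ((3 : Fin 5) : ℕ) = 3 := rfl
  have h4 : ((4 : Fin 5) : ℕ) = 4 := rfl
  simp only [Fin.val_zero, Fin.val_one, Fin.val_two, h3, h4]
  rw [dist_ev h hs (29, -29) (33, -33) 4 (by norm_num),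
    dist_ev h hs (33, -33) (42, -33) 9 (by norm_num),
    dist_ev h hs (42, -33) (42, -12) 21 (by norm_num),
    dist_ev h hs (42, -12) (ptQ 0) 42 (by norm_num [ptQ, clusterPts]),
    dist_ev h hs (42, -12) (ptQ 1) 1 (by norm_num [ptQ, clusterPts]),
    dist_ev h hs (42, -33) (ptQ 2) 1 (by norm_num [ptQ, clusterPts]),
    dist_ev h hs (33, -33) (ptQ 3) 1 (by norm_num [ptQ, clusterPts]),
    dist_ev h hs (29, -29) (ptQ 4) 1 (by norm_num [ptQ, clusterPts])]
  push_cast
  ring

omit [InnerProductSpace ℝ E] in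
theorem ne_of_dist {x y : E} {t : ℝ} (ht : 0 < t) (h : dist x y = t) : x ≠ y := by
  rw [← dist_pos, h]
  exact ht

theorem clOne_pos (h : Fr e f) (hs : 0 < s) (hy : ∀ b, y (lb b) = z + s • cpt e f b) {q : E}
    (hq : q ≠ z + s • ev e f (0, 29)) : (clOne z e f s lb).Pos y q := by
  simp only [clOne, PT.Pos, hy, cpt]
  have h3 : ((3 : Fin 5) : ℕ) = 3 := rfl
  have h4 : ((4 : Fin 5) : ℕ) = 4 := rfl
  simp only [Fin.val_zero, Fin.val_one, Fin.val_two, h3, h4]
  refine ⟨hq, ⟨?_, ⟨?_, ⟨?_, ?_, ?_⟩, ?_⟩, ?_⟩, ?_⟩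
  · exact ne_of_dist (by positivity) (dist_ev h hs.le (0, 29) (41, -12) 41 (by norm_num))
  · exact ne_of_dist (by positivity) (dist_ev h hs.le (41, -12) (41, -32) 20 (by norm_num))
  · exact ne_of_dist (by positivity) (dist_ev h hs.le (41, -32) (33, -32) 8 (by norm_num))
  · exact ne_of_dist (by positivity)
      (dist_ev h hs.le (33, -32) (ptQ 3) 2 (by norm_num [ptQ, clusterPts]))
  · exact ne_of_dist (by positivity)
      (dist_ev h hs.le (33, -32) (ptQ 4) 4 (by norm_num [ptQ, clusterPts]))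
  · exact ne_of_dist (by positivity)
      (dist_ev h hs.le (41, -32) (ptQ 2) 2 (by norm_num [ptQ, clusterPts]))
  · exact ne_of_dist (by positivity)
      (dist_ev h hs.le (41, -12) (ptQ 1) 2 (by norm_num [ptQ, clusterPts]))
  · exact ne_of_dist (by positivity)
      (dist_ev h hs.le (0, 29) (ptQ 0) 1 (by norm_num [ptQ, clusterPts]))

theorem clTwo_pos (h : Fr e f) (hs : 0 < s) (hy : ∀ b, y (lb b) = z + s • cpt e f b) {q : E}
    (hq : q ≠ z + s • ev e f (29, -29)) : (clTwo z e f s lb).Pos y q := by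
  simp only [clTwo, PT.Pos, hy, cpt]
  have h3 : ((3 : Fin 5) : ℕ) = 3 := rfl
  have h4 : ((4 : Fin 5) : ℕ) = 4 := rfl
  simp only [Fin.val_zero, Fin.val_one, Fin.val_two, h3, h4]
  refine ⟨hq, ?_, ⟨?_, ⟨?_, ⟨?_, ?_, ?_⟩, ?_⟩, ?_⟩⟩
  · exact ne_of_dist (by positivity)
      (dist_ev h hs.le (29, -29) (ptQ 4) 1 (by norm_num [ptQ, clusterPts]))
  · exact ne_of_dist (by positivity) (dist_ev h hs.le (29, -29) (33, -33) 4 (by norm_num))
  · exact ne_of_dist (by positivity) (dist_ev h hs.le (33, -33) (42, -33) 9 (by norm_num))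
  · exact ne_of_dist (by positivity) (dist_ev h hs.le (42, -33) (42, -12) 21 (by norm_num))
  · exact ne_of_dist (by positivity)
      (dist_ev h hs.le (42, -12) (ptQ 0) 42 (by norm_num [ptQ, clusterPts]))
  · exact ne_of_dist (by positivity)
      (dist_ev h hs.le (42, -12) (ptQ 1) 1 (by norm_num [ptQ, clusterPts]))
  · exact ne_of_dist (by positivity)
      (dist_ev h hs.le (42, -33) (ptQ 2) 1 (by norm_num [ptQ, clusterPts]))
  · exact ne_of_dist (by positivity)
      (dist_ev h hs.le (33, -33) (ptQ 3) 1 (by norm_num [ptQ, clusterPts]))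

theorem clOne_leaves : (clOne z e f s lb).leaves = [lb 3, lb 4, lb 2, lb 1, lb 0] := by
  simp [clOne, PT.leaves]

theorem clTwo_leaves : (clTwo z e f s lb).leaves = [lb 4, lb 0, lb 1, lb 2, lb 3] := by
  simp [clTwo, PT.leaves]

theorem clOne_cherry : (clOne z e f s lb).Cherry (lb 3) (lb 4) := by
  simp [clOne, PT.Cherry]

theorem clTwo_cherry (hlb : Function.Injective lb) : ¬ (clTwo z e f s lb).Cherry (lb 3) (lb 4) := by
  simp only [clTwo, PT.Cherry, PT.leaf.injEq, hlb.eq_iff]
  simp

end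

/-- A pair of clusters, with the choice of the local topologies. -/
noncomputable def pairPT (ch : Bool) (z e f : E) (ε s : ℝ) (lb : Bool → Fin 5 → β) : PT β E :=
  if ch then .node (z - (29 * s) • e) (clOne (z + ε • f) f (f - e) s (lb false))
    (clTwo (z + ε • (e - f)) (e - f) e s (lb true))
  else .node (z + (29 * s) • e) (clTwo (z + ε • f) f (f - e) s (lb false))
    (clOne (z + ε • (e - f)) (e - f) e s (lb true))

section

variable {z e f : E} {ε s : ℝ} {lb : Bool → Fin 5 → β} {y : β → E}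

theorem pair_dist_one (h : Fr e f) (hs : 0 ≤ s) (hε : 0 ≤ ε) :
    dist (z - (29 * s) • e) (z + ε • f + s • ev f (f - e) (0, 29)) = ε + 29 * s := by
  apply dist_of_sub h.nf (by positivity)
  simp only [ev]
  push_cast
  module

theorem pair_dist_two (h : Fr e f) (hs : 0 ≤ s) (hε : 0 ≤ ε) :
    dist (z - (29 * s) • e) (z + ε • (e - f) + s • ev (e - f) e (29, -29)) = ε + 29 * s := by
  apply dist_of_sub h.prev.ne (by positivity)
  simp only [ev]
  push_cast
  module

theorem pair_dist_three (h : Fr e f) (hε : 0 ≤ ε) :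
    dist (z + (29 * s) • e) (z + ε • f + s • ev f (f - e) (29, -29)) = ε := by
  apply dist_of_sub h.nf hε
  simp only [ev]
  push_cast
  module

theorem pair_dist_four (h : Fr e f) (hε : 0 ≤ ε) :
    dist (z + (29 * s) • e) (z + ε • (e - f) + s • ev (e - f) e (0, 29)) = ε := by
  apply dist_of_sub h.prev.ne hε
  simp only [ev]
  push_cast
  module

theorem pair_len (h : Fr e f) (hs : 0 ≤ s) (hε : 0 ≤ ε)
    (hy₁ : ∀ b, y (lb false b) = z + ε • f + s • cpt f (f - e) b)
    (hy₂ : ∀ b, y (lb true b) = z + ε • (e - f) + s • cpt (e - f) e b)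
    (ch : Bool) {q : E} {t : ℝ} (ht : 29 * s ≤ t) (hz : z = q + t • e) :
    (pairPT ch z e f ε s lb).len y q = t + (2 * ε + 189 * s) := by
  cases ch with
  | true =>
      simp only [pairPT, if_true, PT.len]
      rw [clOne_len h.next hs hy₁, clTwo_len h.prev hs hy₂, pair_dist_one h hs hε,
        pair_dist_two h hs hε]
      have h1 : dist q (z - (29 * s) • e) = t - 29 * s := by
        apply dist_of_sub h.ne (by linarith)
        rw [hz]
        module
      rw [h1]
      ring
  | false =>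
      simp only [pairPT, PT.len, Bool.false_eq_true, if_false]
      rw [clTwo_len h.next hs hy₁, clOne_len h.prev hs hy₂, pair_dist_three h hε,
        pair_dist_four h hε]
      have h1 : dist q (z + (29 * s) • e) = t + 29 * s := by
        apply dist_of_sub h.ne (by linarith)
        rw [hz]
        module
      rw [h1]
      ring

theorem pair_pos (h : Fr e f) (hs : 0 < s) (hε : 0 < ε)
    (hy₁ : ∀ b, y (lb false b) = z + ε • f + s • cpt f (f - e) b)
    (hy₂ : ∀ b, y (lb true b) = z + ε • (e - f) + s • cpt (e - f) e b)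
    (ch : Bool) {q : E} {t : ℝ} (ht : 29 * s < t) (hz : z = q + t • e) :
    (pairPT ch z e f ε s lb).Pos y q := by
  cases ch with
  | true =>
      simp only [pairPT, if_true, PT.Pos]
      refine ⟨?_, clOne_pos h.next hs hy₁ ?_, clTwo_pos h.prev hs hy₂ ?_⟩
      · have h1 : dist q (z - (29 * s) • e) = t - 29 * s := by
          apply dist_of_sub h.ne (by linarith)
          rw [hz]
          module
        exact ne_of_dist (by linarith) h1
      · exact ne_of_dist (by positivity) (pair_dist_one h hs.le hε.le)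
      · exact ne_of_dist (by positivity) (pair_dist_two h hs.le hε.le)
  | false =>
      simp only [pairPT, PT.Pos, Bool.false_eq_true, if_false]
      refine ⟨?_, clTwo_pos h.next hs hy₁ ?_, clOne_pos h.prev hs hy₂ ?_⟩
      · have h1 : dist q (z + (29 * s) • e) = t + 29 * s := by
          apply dist_of_sub h.ne (by linarith)
          rw [hz]
          module
        exact ne_of_dist (by linarith) h1
      · exact ne_of_dist hε (pair_dist_three h hε.le)
      · exact ne_of_dist hε (pair_dist_four h hε.le)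

theorem pair_leaves (ch : Bool) (c : β) :
    c ∈ (pairPT ch z e f ε s lb).leaves ↔ ∃ u b, c = lb u b := by
  have h1 : c ∈ (pairPT ch z e f ε s lb).leaves ↔
      (∃ b, c = lb false b) ∨ (∃ b, c = lb true b) := by
    have h5 : ∀ g : Fin 5 → β, (∃ b, c = g b) ↔ c = g 0 ∨ c = g 1 ∨ c = g 2 ∨ c = g 3 ∨ c = g 4 := by
      intro g
      constructor
      · rintro ⟨b, hb⟩
        fin_cases b
        · exact Or.inl hb
        · exact Or.inr (Or.inl hb)
        · exact Or.inr (Or.inr (Or.inl hb))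
        · exact Or.inr (Or.inr (Or.inr (Or.inl hb)))
        · exact Or.inr (Or.inr (Or.inr (Or.inr hb)))
      · rintro (h | h | h | h | h)
        exacts [⟨_, h⟩, ⟨_, h⟩, ⟨_, h⟩, ⟨_, h⟩, ⟨_, h⟩]
    rw [h5, h5]
    cases ch with
    | true =>
        simp only [pairPT, if_true, PT.leaves, clOne_leaves, clTwo_leaves, List.mem_append,
          List.mem_cons, List.not_mem_nil, or_false]
        tauto
    | false =>
        simp only [pairPT, Bool.false_eq_true, if_false, PT.leaves, clOne_leaves, clTwo_leaves,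
          List.mem_append, List.mem_cons, List.not_mem_nil, or_false]
        tauto
  rw [h1]
  constructor
  · rintro (⟨b, hb⟩ | ⟨b, hb⟩)
    · exact ⟨false, b, hb⟩
    · exact ⟨true, b, hb⟩
  · rintro ⟨u, b, hb⟩
    cases u
    · exact Or.inl ⟨b, hb⟩
    · exact Or.inr ⟨b, hb⟩

theorem pair_nodup (hlb : ∀ u b u' b', lb u b = lb u' b' → u = u' ∧ b = b') (ch : Bool) :
    (pairPT ch z e f ε s lb).leaves.Nodup := by
  have h1 : ∀ u b u' b', lb u b = lb u' b' ↔ (u = u' ∧ b = b') := by
    intro u b u' b'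
    constructor
    · exact hlb u b u' b'
    · rintro ⟨rfl, rfl⟩
      rfl
  cases ch with
  | true =>
      simp only [pairPT, if_true, PT.leaves, clOne_leaves, clTwo_leaves]
      simp [h1]
  | false =>
      simp only [pairPT, Bool.false_eq_true, if_false, PT.leaves, clOne_leaves, clTwo_leaves]
      simp [h1]

theorem pair_cherry (hlb : ∀ u b u' b', lb u b = lb u' b' → u = u' ∧ b = b') (ch : Bool) :
    (pairPT ch z e f ε s lb).Cherry (lb false 3) (lb false 4) ↔ ch = true := by
  have hinj : Function.Injective (lb false) := fun b b' h => (hlb _ _ _ _ h).2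
  cases ch with
  | true =>
      simp only [iff_true, pairPT, if_true, PT.Cherry]
      exact Or.inr (Or.inr (Or.inl clOne_cherry))
  | false =>
      simp only [pairPT, Bool.false_eq_true, if_false, iff_false, PT.Cherry]
      rintro (⟨h1, -⟩ | ⟨h1, -⟩ | h1 | h1)
      · simp [clTwo] at h1
      · simp [clTwo] at h1
      · exact clTwo_cherry hinj h1
      · have h2 := h1.mem.1
        rw [clOne_leaves] at h2
        simp only [List.mem_cons, List.not_mem_nil, or_false] at h2
        rcases h2 with h2 | h2 | h2 | h2 | h2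
        all_goals
          have h3 := (hlb _ _ _ _ h2).1
          exact absurd h3 (by simp)

end

end Pool.Agent.Lib.H21Steiner
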