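import Pool.Agent.Lib.H21Steiner.Defs
import Pool.Agent.Lib.H21Steiner.Minimal
import Pool.Agent.Lib.H21Steiner.Rep

/-!
# The exponential upper bound
-/

namespace Pool.Agent.Lib.H21Steiner

open Finset Metric Module MeasureTheory

/-- The graphs realized by Steiner trees come from trees with the separation property. -/
theorem exists_sepTree {n d : ℕ} {a : Fin n → EuclideanSpace ℝ (Fin d)}
    {G : SimpleGraph (Vert n)} (hG : G ∈ optimalGraphs a) :
    ∃ S : SepTree (EuclideanSpace ℝ (Fin d)) (Vert n), S.G = G ∧ S.T = Set.range Sum.inl ∧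
      (∀ i, S.x (Sum.inl i) = a i) ∧ Function.Injective S.x := by
  obtain ⟨⟨htree, -, hdeg⟩, K, hK, x, hx, hxa, hcross, hKx⟩ := hG
  refine ⟨⟨G, x, Set.range Sum.inl, htree.isAcyclic, ?_, ?_⟩, rfl, rfl, hxa, hx⟩
  · intro u hu
    rcases u with i | s
    · exact absurd ⟨i, rfl⟩ hu
    · exact hdeg s
  · intro u v z w huv hzw hne p hp q hq
    refine sep_of_minimal (A := Set.range a) ?_ htree.connected hcross ?_ u v z w huv hzw hne p hp
      q hq
    · rintro _ ⟨i, rfl⟩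
      exact ⟨Sum.inl i, hxa i⟩
    · intro K' h1 h2 h3
      have h4 := hK.2.2.2 K' h1 h2 h3
      rw [hKx] at h4
      exact h4

/-- The constant. -/
noncomputable def expConst (k : ℕ) : ℕ :=
  2 ^ ((⌊KK k⌋₊ + 1) * 11 ^ k + (⌊KK k⌋₊ + 1) * (⌊KK k⌋₊ + 1) * ((17 ^ k + 1) * 11 ^ k) +
    2 ^ (⌊KK k⌋₊ + 1) * 11 ^ k + (⌊KK k⌋₊ + 1))

theorem numOptimal_le {n d : ℕ} (hn : 0 < n) (a : Fin n → EuclideanSpace ℝ (Fin d))
    (ha : Function.Injective a) : numOptimal a ≤ ((expConst d ^ n : ℕ) : ℕ∞) := by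
  classical
  have hne : Nonempty (Fin n) := ⟨⟨0, hn⟩⟩
  -- choose trees
  have hex : ∀ G : SimpleGraph (Vert n), ∃ S : SepTree (EuclideanSpace ℝ (Fin d)) (Vert n),
      G ∈ optimalGraphs a → S.G = G ∧ S.T = Set.range Sum.inl ∧
      (∀ i, S.x (Sum.inl i) = a i) ∧ Function.Injective S.x := by
    intro G
    by_cases hG : G ∈ optimalGraphs a
    · obtain ⟨S, hS⟩ := exists_sepTree hG
      exact ⟨S, fun _ => hS⟩
    · refine ⟨⟨⊥, fun _ => 0, Set.univ, ?_, ?_, ?_⟩, fun h => absurd h hG⟩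
      · exact SimpleGraph.isAcyclic_bot
      · intro u hu
        exact absurd (Set.mem_univ u) hu
      · intro u v z w h
        exact absurd h (by simp)
  choose S hS using hex
  -- the top scale
  obtain ⟨Λ, hΛ⟩ : ∃ Λ : ℝ, ∀ G u v, (S G).rho u v ≤ Λ := by
    have hfin : (Set.range fun q : SimpleGraph (Vert n) × Vert n × Vert n =>
        (S q.1).rho q.2.1 q.2.2).Finite := Set.finite_range _
    obtain ⟨Λ, hΛ⟩ := hfin.bddAbove
    exact ⟨Λ, fun G u v => hΛ ⟨(G, u, v), rfl⟩⟩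
  obtain ⟨N, hN⟩ := exists_net a ha (Λ := max Λ 1) (lt_of_lt_of_le one_pos (le_max_right _ _))
  obtain ⟨K, hKdef⟩ : ∃ K, K = ⌊KK d⌋₊ + 1 := ⟨_, rfl⟩
  have hKK : KK (finrank ℝ (EuclideanSpace ℝ (Fin d))) ≤ K := by
    rw [finrank_euclideanSpace_fin, hKdef]
    push_cast
    exact (Nat.lt_floor_add_one _).le
  have hNZ : NeZero K := ⟨by omega⟩
  have hplaced : ∀ G ∈ optimalGraphs a,
      Nonempty (Placed N.hosts N.pairs (SepTree.tauHost N) (Fin K) G) := by
    intro G hG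
    obtain ⟨h1, h2, h3, h4⟩ := hS G hG
    have hF : Fits (S G) N := ⟨h2, h3, h4, fun u v _ => by
      rw [hN]
      exact (hΛ G u v).trans (le_max_left _ _)⟩
    have h5 := SepTree.placed hF hKK
    rw [h1] at h5
    exact h5
  have hcount := card_classes_le N.hosts N.pairs (SepTree.tauHost N) K (topologySetoid n)
    (fun _ _ h => h) (optimalGraphs a) hplaced
  refine hcount.trans ?_
  norm_cast
  rw [expConst, ← pow_mul]
  apply Nat.pow_le_pow_right (by norm_num)
  have h1 : N.hosts.card ≤ 11 ^ d * n := by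
    have := N.card_hosts
    rw [finrank_euclideanSpace_fin, Fintype.card_fin] at this
    exact_mod_cast this
  have h2 : N.pairs.card ≤ (17 ^ d + 1) * (11 ^ d * n) := by
    have := N.card_pairs
    rw [finrank_euclideanSpace_fin, Fintype.card_fin] at this
    exact_mod_cast this
  rw [← hKdef, Fintype.card_fin]
  calc K * N.hosts.card + K * K * N.pairs.card + 2 ^ K * N.hosts.card + K * n
      ≤ K * (11 ^ d * n) + K * K * ((17 ^ d + 1) * (11 ^ d * n)) + 2 ^ K * (11 ^ d * n) + K * n := by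
        gcongr
    _ = (K * 11 ^ d + K * K * ((17 ^ d + 1) * 11 ^ d) + 2 ^ K * 11 ^ d + K) * n := by ring

theorem maxOptimal_le (d n : ℕ) (hn : 0 < n) :
    maxOptimal d n ≤ ((expConst d ^ n : ℕ) : ℕ∞) :=
  iSup_le fun a => numOptimal_le hn a.1 a.2

end Pool.Agent.Lib.H21Steiner
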